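import Pool.Agent.Lib.MP_5591bc_ag.W.SerA

/-! Taylor series of the horizontal covectors. -/

namespace Pool.Agent.Lib.MP_5591bc_ag.W

open Matrix Filter Topology PowerSeries G R H Metric NumberField

noncomputable section

variable {K ν : Type*} [Field K] [Algebra K ℂ] [Fintype ν] [DecidableEq ν]
  {T : Polynomial K} {B : Matrix ν ν (Polynomial K)} {U : Set ℂ} {P : ℂ → Matrix ν ν ℂ}

theorem Adj_map {R S : Type*} [CommRing R] [CommRing S] (φ : R →+* S) (δ : ℕ) (Y : Matrix ν ν R) :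
    (Adj δ Y).map φ = Adj δ (Y.map φ) := by
  rw [Adj, piM_map, exg_map _ (map_zero φ), φ.map_det, Adj]
  exact congrArg (fun M => piM fun _ => exg _ M) (φ.map_adjugate Y)

theorem Adj_mul {R : Type*} [CommRing R] (δ : ℕ) (Y Z : Matrix ν ν R) :
    Adj δ (Y * Z) = Adj δ Z * Adj δ Y := by
  simp only [Adj, piM_mul, exg_mul, det_mul, adjugate_mul_distrib, mul_comm Y.det]

theorem Adj_one {R : Type*} [CommRing R] (δ : ℕ) : Adj δ (1 : Matrix ν ν R) = 1 := by
  simp only [Adj, det_one, adjugate_one, exg_one, piM_one]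

theorem Adj_mono {R : Type*} [CommRing R] (δ : ℕ) (Y Z : Matrix ν ν R) :
    Adj δ Y *ᵥ mono δ (Y * Z) = Y.det ^ δ • mono δ Z := by
  have e : exg Y.det Y.adjugate *ᵥ hatg (Y * Z) = Y.det • hatg Z := by
    have h1 := exg_mulVec Y Z
    rw [← h1, mulVec_mulVec, exg_mul, adjugate_mul, ← exg_smul, exg_one, smul_mulVec, one_mulVec]
  rw [Adj, mono, piM_mulVec, e]
  ext μ
  simp [tens, mono, Finset.prod_mul_distrib]

theorem ser_pol (p : Polynomial K) (z : ℂ) : AnalyticAt ℂ (fun t : ℂ => Polynomial.aeval t p) z :=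
  (p.differentiable_aeval (𝕜 := ℂ)).analyticAt z

theorem ser_tay (x : K) (p : Polynomial K) :
    tay (fun t => Polynomial.aeval t p) (algebraMap K ℂ x) = mpK K (tk x p) := by
  simp only [← Polynomial.eval_map_algebraMap]
  rw [tay_poly, ← Polynomial.map_taylor, tk_apply]
  ext k
  simp only [Polynomial.coeff_coe, coeff_map, Polynomial.coeff_map]

theorem ser_ana (ho : IsOpen U) (hP : Fd T B U P) (M : Matrix ν ν ℂ) {s : ℂ} (hs : s ∈ U)
    (i j : ν) : AnalyticAt ℂ (fun t => (P t * M) i j) s :=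
  analyticAt_of_eventually (mem_of_superset (ho.mem_nhds hs) fun t ht =>
    ((hP t ht).2.2.mul_const M i j).differentiableAt)

theorem ser_sub (O : Subring (ℂ → ℂ)) {Y : ℂ → Matrix ν ν ℂ} (h : ∀ i j, (Y · i j) ∈ O) (δ : ℕ)
    (β α : Mo δ ν) : (Adj δ (of fun i j => (⟨_, h i j⟩ : O)) β α).1 = fun t => Adj δ (Y t) β α :=
  funext fun t => congrFun₂ (Adj_map ((Pi.evalRingHom (fun _ => ℂ) t).comp O.subtype) δ
    (of fun i j => (⟨_, h i j⟩ : O))) β α

/-- functions analytic at a point -/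
def serO (p : ℂ) : Subring (ℂ → ℂ) where
  carrier := {g | AnalyticAt ℂ g p}
  mul_mem' := fun ha hb => ha.mul hb
  one_mem' := analyticAt_const
  add_mem' := fun ha hb => ha.add hb
  zero_mem' := analyticAt_const
  neg_mem' := fun ha => ha.neg

/-- functions differentiable at a point -/
def serD (p : ℂ) : Subring (ℂ → ℂ) where
  carrier := {g | DifferentiableAt ℂ g p}
  mul_mem' := fun ha hb => ha.mul hb
  one_mem' := differentiableAt_const _
  add_mem' := fun ha hb => ha.add hb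
  zero_mem' := differentiableAt_const _
  neg_mem' := fun ha => ha.neg

/-- the Taylor series as a ring homomorphism -/
def serT (p : ℂ) : serO p →+* ℂ⟦X⟧ where
  toFun g := tay g.1 p
  map_one' := (tay_const 1).trans (map_one _)
  map_mul' a b := tay_mul a.2 b.2
  map_zero' := (tay_const 0).trans (map_zero _)
  map_add' a b := tay_add a.2 b.2

theorem ser_adj {Y : ℂ → Matrix ν ν ℂ} {p : ℂ} (h : ∀ i j, AnalyticAt ℂ (Y · i j) p) (δ : ℕ)
    (β α : Mo δ ν) : AnalyticAt ℂ (fun t => Adj δ (Y t) β α) p ∧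
      tay (fun t => Adj δ (Y t) β α) p = Adj δ (of fun i j => tay (Y · i j) p) β α := by
  rw [← ser_sub (serO p) h]
  exact ⟨(Adj δ (of fun i j => (⟨_, h i j⟩ : serO p)) β α).2,
    congrFun₂ (Adj_map (serT p) δ (of fun i j => (⟨_, h i j⟩ : serO p))) β α⟩

theorem tay_G (ho : IsOpen U) (hP : Fd T B U P) {x : K} (hx : algebraMap K ℂ x ∈ U) (i j : ν) :
    tay (fun t => (P t * (P (algebraMap K ℂ x))⁻¹) i j) (algebraMap K ℂ x) =
      mpK K (GbK T B x i j) := by
  have hn := ho.mem_nhds hx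
  have h1 : ∀ᶠ t in 𝓝 (algebraMap K ℂ x), Polynomial.aeval t T ≠ 0 ∧
      MSol (AzK T B) (fun t => P t * (P (algebraMap K ℂ x))⁻¹) t :=
    mem_of_superset hn fun t ht => ⟨(hP t ht).1, (hP t ht).2.2.mul_const _⟩
  have ha := ser_ana ho hP (P (algebraMap K ℂ x))⁻¹ hx
  have h0 : ∀ p, constantCoeff (((mpK K).comp (tk x)) p) = algebraMap K ℂ (p.eval x) := fun p => by
    rw [RingHom.comp_apply, ← coeff_zero_eq_constantCoeff_apply, coeff_map,
      coeff_zero_eq_constantCoeff_apply, serA_tk0]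
  ext m
  refine (serA_coeff (T := T) (B := B) (τ := (mpK K).comp (tk x)) (fun p => ?_) ?_
    (Y := of fun i j => tay (fun t => (P t * (P (algebraMap K ℂ x))⁻¹) i j) (algebraMap K ℂ x))
    ?_ ?_ m i j).trans ?_
  · rw [RingHom.comp_apply, RingHom.comp_apply, ← ser_tay, ← ser_tay, ← tay_deriv]
    congr 1
    ext t
    exact (p.hasDerivAt_aeval t).deriv.symm
  · rw [h0, ← Polynomial.aeval_algebraMap_apply_eq_algebraMap_eval]
    exact (hP _ hx).1
  · ext1 i j
    simp only [Matrix.smul_apply, map_apply, of_apply, smul_eq_mul, mul_apply (M := B.map _),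
      RingHom.comp_apply, ← ser_tay, ← tay_deriv]
    rw [← tay_mul (ser_pol T _) (ha i j).deriv, ← Finset.sum_congr rfl fun l _ =>
      tay_mul (ser_pol (B i l) _) (ha l j), ← tay_sum _ fun l _ => (ser_pol _ _).fun_mul (ha l j)]
    refine tay_congr (h1.mono fun t ht => ?_)
    beta_reduce
    rw [(ht.2 i j).deriv, mul_apply (M := AzK T B t), Finset.mul_sum]
    refine Finset.sum_congr rfl fun l _ => ?_
    rw [AzK, of_apply, ← mul_assoc, mul_div_cancel₀ _ ht.1]
  · ext1 i j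
    rw [map_apply, of_apply, constantCoeff_tay, mul_nonsing_inv _ (hP _ hx).2.1.isUnit]
  · simp only [h0, coeff_map, GbK, of_apply, coeff_mk, map_div₀, map_mul, map_pow, map_natCast]

theorem lamF_self {δ : ℕ} {x : K} (hx : (P (algebraMap K ℂ x)).det ≠ 0) (F : Mo δ ν → K) :
    lamF P δ x F (algebraMap K ℂ x) = fun μ => algebraMap K ℂ (F μ) := by
  rw [lamF, mul_nonsing_inv _ hx.isUnit, Adj_one, vecMul_one]

theorem lamF_base {δ : ℕ} (x : K) (F : Mo δ ν → K) {s : ℂ} (hs : (P s).det ≠ 0) (t : ℂ) :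
    lamF P δ x F t = lamF P δ x F s ᵥ* Adj δ (P t * (P s)⁻¹) := by
  rw [lamF, lamF, vecMul_vecMul, ← Adj_mul, Matrix.mul_assoc,
    nonsing_inv_mul_cancel_left _ _ hs.isUnit]

theorem lamF_dot {δ : ℕ} {x : K} (hx : (P (algebraMap K ℂ x)).det ≠ 0) {F : Mo δ ν → K}
    (hF : (fun μ => algebraMap K ℂ (F μ)) ⬝ᵥ mono δ (P (algebraMap K ℂ x)) = 0) (t : ℂ) :
    lamF P δ x F t ⬝ᵥ mono δ (P t) = 0 := by
  have e := Adj_mono δ (P t * (P (algebraMap K ℂ x))⁻¹) (P (algebraMap K ℂ x))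
  rw [nonsing_inv_mul_cancel_right _ _ hx.isUnit] at e
  rw [lamF, ← dotProduct_mulVec, e, dotProduct_smul, hF, smul_zero]

theorem lamF_hol (hP : Fd T B U P) {δ : ℕ} (x : K) (F : Mo δ ν → K) (μ : Mo δ ν) :
    DifferentiableOn ℂ (fun t => lamF P δ x F t μ) U := by
  refine fun t ht => DifferentiableAt.differentiableWithinAt ?_
  have h : ∀ i j, (fun t => (P t * (P (algebraMap K ℂ x))⁻¹) i j) ∈ serD t := fun i j =>
    ((hP t ht).2.2.mul_const _ i j).differentiableAt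
  refine DifferentiableAt.fun_sum fun β _ => DifferentiableAt.const_mul ?_ _
  rw [← ser_sub (serD t) h]
  exact (Adj δ (of fun i j => (⟨_, h i j⟩ : serD t)) β μ).2

theorem ser_base (ho : IsOpen U) (hP : Fd T B U P) {δ : ℕ} {s : K} (hs : algebraMap K ℂ s ∈ U)
    (u : Mo δ ν → ℂ) (μ : Mo δ ν) :
    tay (fun t => (u ᵥ* Adj δ (P t * (P (algebraMap K ℂ s))⁻¹)) μ) (algebraMap K ℂ s) =
      ∑ β, C (u β) * mpK K (Adj δ (GbK T B s) β μ) := by
  have h := ser_adj (ser_ana ho hP (P (algebraMap K ℂ s))⁻¹ hs) δ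
  refine (tay_sum _ fun β _ => analyticAt_const.fun_mul (h β μ).1).trans
    (Finset.sum_congr rfl fun β _ => (tay_cmul (h β μ).1 _).trans ?_)
  rw [(h β μ).2]
  simp only [tay_G ho hP hs]
  exact congrArg _ (congrFun₂ (Adj_map (mpK K) δ (GbK T B s)) β μ).symm

theorem tay_self (ho : IsOpen U) (hP : Fd T B U P) {δ : ℕ} {x : K}
    (hx : algebraMap K ℂ x ∈ U) (F : Mo δ ν → K) (μ : Mo δ ν) :
    tay (fun t => lamF P δ x F t μ) (algebraMap K ℂ x) = mpK K (Lser T B δ x F μ) := by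
  refine (ser_base ho hP hx _ μ).trans ?_
  simp [Lser, vecMul, dotProduct]

theorem tay_base (ho : IsOpen U) (hP : Fd T B U P) {δ : ℕ} {s : K} (hs : algebraMap K ℂ s ∈ U)
    (u : Mo δ ν → ℂ) (μ : Mo δ ν) :
    tay (fun t => (u ᵥ* Adj δ (P t * (P (algebraMap K ℂ s))⁻¹)) μ) (algebraMap K ℂ s) =
      ∑ β, C (u β) * mpK K (Adj δ (GbK T B s) β μ) := by
  exact ser_base ho hP hs u μ

end

end Pool.Agent.Lib.MP_5591bc_ag.W
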