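import Pool.Agent.Lib.MP_5591bc_ag.H.Zero
import Pool.Agent.Lib.MP_5591bc_ag.GTay

/-! The data of the counting theorem. -/

namespace Pool.Agent.Lib.MP_5591bc_ag.W

open Polynomial G H Metric

/-- series over a number field with geometric growth of conjugates and denominators; the constant
`C` is free -/
def GK {F α : Type*} [Field F] (h : ℕ) (g : α → PowerSeries F) : Prop :=
  ∃ C : ℕ, 0 < C ∧ ∀ t, (∀ x (σ : F →+* ℂ), ‖σ (PowerSeries.coeff t (g x))‖ ≤ C * h ^ t) ∧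
    ∃ d : ℕ, 0 < d ∧ d ≤ C * h ^ t ∧
      ∀ x, ∀ j ≤ t, IsIntegral ℤ ((d : F) * PowerSeries.coeff j (g x))

/-- a point `x` near the centre `s`, a solution with expansion `Φ` at `x` and `μ W` at `s` -/
structure Dat {K L A : Type*} [Field K] [Field L] [CharZero L] [Algebra K L] [Fintype A]
    (ι : L →+* ℂ) (Λ : ℕ) (s : K) (r : ℝ) (T : L[X]) (B : Matrix A A L[X])
    (W : A → A → PowerSeries K) (x : L) (Φ : A → PowerSeries L) (μ : A → ℂ) : Prop where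
  ne : T.eval x ≠ 0
  ode : IsS (tk x) T B Φ
  fld : ∃ F : IntermediateField ℚ L, Module.finrank ℚ F ≤ Λ ∧ (∀ y : K, algebraMap K L y ∈ F) ∧
    x ∈ F ∧ ∀ α j, PowerSeries.coeff j (Φ α) ∈ F
  gk : GK (2 ^ Λ) Φ
  den : ∃ d : ℕ, 0 < d ∧ d ≤ 2 ^ Λ ∧ IsIntegral ℤ ((d : L) * (x - algebraMap K L s))
  hou : ∀ σ : L →+* ℂ, ‖σ (x - algebraMap K L s)‖ ≤ 2 ^ Λ
  near : ‖ι x - ι (algebraMap K L s)‖ ≤ r / 16
  ana : ∃ g : A → ℂ → ℂ, ∀ α, DifferentiableOn ℂ (g α) (ball (ι (algebraMap K L s)) (2 * r)) ∧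
    tay (g α) (ι (algebraMap K L s)) = ∑ β, PowerSeries.C (μ β) *
      PowerSeries.map (ι.comp (algebraMap K L)) (W β α) ∧
    tay (g α) (ι x) = PowerSeries.map ι (Φ α)

end Pool.Agent.Lib.MP_5591bc_ag.W
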