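import Pool.Agent.Lib.MP_5591bc_ag.W.GFB

/-! The growth of `iterK` at points of extension fields, with the degree in the exponent. -/

namespace Pool.Agent.Lib.MP_5591bc_ag.W

open Polynomial Finset R NumberField

noncomputable section

universe v

variable {K : Type*} [Field K]

theorem GDom.aeval {E : Type*} [Field E] [Algebra K E] {φ : E →+* ℂ} {p : K[X]} {c : ℝ} {n : ℕ}
    (h : GDom (φ.comp (algebraMap K E)) p c n) (x : E) :
    ‖φ (aeval x p)‖ ≤ c * (‖φ x‖ + 1) ^ n := by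
  rw [← eval_map_algebraMap]
  exact GDom.eval (fun i => by rw [coeff_map]; exact h i) x

theorem gf_denE {E : Type*} [Field E] [Algebra K E] (s : E) {W : K[X]} {D : ℕ} {a : K} {d : E}
    (hd : IsIntegral ℤ d) (hs : IsIntegral ℤ (d * s)) (h : W.natDegree ≤ D)
    (hW : ∀ l, IsIntegral ℤ (a * W.coeff l)) :
    IsIntegral ℤ (algebraMap K E a * d ^ D * aeval s W) := by
  rw [← eval_map_algebraMap]
  refine gf_den s hd hs (natDegree_map_le.trans h) fun l => ?_
  rw [coeff_map, ← map_mul]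
  exact (hW l).map (algebraMap K E).toIntAlgHom

variable [NumberField K] {ν : Type*} [Fintype ν] [DecidableEq ν] {T : K[X]} {B : Matrix ν ν K[X]}

theorem gf_coreE (h : GalK T B) : ∃ c : ℕ, ∀ (E : Type v) [Field E] [NumberField E] [Algebra K E]
    (b : ℕ) (H : ℝ) (x : E) (d : ℕ), Module.finrank ℚ E ≤ b → 2 ≤ H → 0 < d →
    (d : ℝ) ≤ H → IsIntegral ℤ ((d : E) * x) → (∀ φ : E →+* ℂ, ‖φ x‖ ≤ H) → aeval x T ≠ 0 → ∀ k,
      (∀ i j (φ : E →+* ℂ), ‖φ (aeval x (iterK T B k i j) / (aeval x T ^ k * k.factorial))‖ ≤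
        (H ^ (c * b)) ^ k) ∧ ∃ D : ℕ, 0 < D ∧ (D : ℝ) ≤ (H ^ (c * b)) ^ (k + 1) ∧ ∀ l ≤ k, ∀ i j,
          IsIntegral ℤ ((D : E) * (aeval x (iterK T B l i j) / (aeval x T ^ l * l.factorial))) := by
  classical
  obtain ⟨C, hC⟩ := h
  obtain ⟨g, hT, hB⟩ := exists_deg T B
  obtain ⟨a, a0, ha⟩ := gf_cden T.coeffs
  have ha' : ∀ l, IsIntegral ℤ ((a : K) * T.coeff l) := fun l => by
    by_cases k : T.coeff l = 0
    · rw [k, mul_zero]; exact isIntegral_zero
    · exact ha _ (coeff_mem_coeffs k)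
  obtain ⟨c1, c10, hc1⟩ := gf_bd T
  choose c2 c20 hc2 using fun p : ν × ν => gf_bd (B p.1 p.2)
  obtain ⟨c, hc⟩ : ∃ c : ℝ, c = c1 + ∑ p, c2 p := ⟨_, rfl⟩
  have s0 : 0 ≤ ∑ p, c2 p := sum_nonneg fun p _ => c20 p
  have c0 : 0 ≤ c := by rw [hc]; positivity
  have dT : ∀ φ : K →+* ℂ, GDom φ T c g := fun φ =>
    gdom_of hT fun i => (hc1 φ i).trans (by rw [hc]; linarith)
  have dB : ∀ (φ : K →+* ℂ) i j, GDom φ (B i j) c g := fun φ i j => gdom_of (hB i j) fun l =>
    (hc2 (i, j) φ l).trans ((single_le_sum (fun p _ => c20 p) (mem_univ _)).trans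
      (by rw [hc]; linarith))
  obtain ⟨e, he⟩ := pow_unbounded_of_one_lt
    (|C| + a + c + c * (2 * g + Fintype.card ν)) one_lt_two
  refine ⟨2 * (2 * e + 3 * g), fun E _ _ _ b H x d hb H2 d0 dH hx hφ T0 k => ?_⟩
  obtain ⟨n, hn⟩ : ∃ n, n = Module.finrank ℚ E := ⟨_, rfl⟩
  have hle : 2 * e + 3 * g + (2 * e + 3 * g) * n ≤ 2 * (2 * e + 3 * g) * b := by
    have := Module.finrank_pos (R := ℚ) (M := E)
    rw [two_mul (2 * e + 3 * g), add_mul (2 * e + 3 * g) (2 * e + 3 * g) b]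
    exact add_le_add (Nat.le_mul_of_pos_right _ (by omega)) (Nat.mul_le_mul_left _ (by omega))
  have H1 : 1 ≤ H := by linarith
  have b1 : (2 : ℝ) ^ e ≤ H ^ e := by gcongr
  have e0 : 0 ≤ c * (2 * g + Fintype.card ν) := by positivity
  have aH : (a : ℝ) ≤ H ^ e := by linarith [abs_nonneg C]
  have cH : c ≤ H ^ e := by linarith [abs_nonneg C, a.cast_nonneg (α := ℝ)]
  have c'H : c * (2 * g + Fintype.card ν) ≤ H ^ e := by
    linarith [abs_nonneg C, a.cast_nonneg (α := ℝ)]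
  have CH : |C| ≤ H ^ e := by linarith [a.cast_nonneg (α := ℝ)]
  have x1 : ∀ φ : E →+* ℂ, ‖φ x‖ + 1 ≤ H ^ 2 := fun φ => by nlinarith [hφ φ]
  have dI : IsIntegral ℤ (d : E) := isIntegral_natCast d
  have dK : (d : E) ≠ 0 := Nat.cast_ne_zero.2 d0.ne'
  have aK : (a : E) ≠ 0 := Nat.cast_ne_zero.2 a0.ne'
  have ad : ∀ φ : E →+* ℂ, ‖φ ((a : E) * (d : E) ^ g)‖ ≤ H ^ e * H ^ g := fun φ => by
    rw [map_mul, map_pow, map_natCast, map_natCast, norm_mul, norm_pow, Complex.norm_natCast,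
      Complex.norm_natCast]
    gcongr
  obtain ⟨N, N0, N1, N2, N3⟩ := gf_inv (map_natCast (algebraMap K E) a ▸ gf_denE x dI hx hT ha' :
      IsIntegral ℤ ((a : E) * (d : E) ^ g * aeval x T))
    (mul_ne_zero (mul_ne_zero aK (pow_ne_zero _ dK)) T0) (A := H ^ (2 * e + 3 * g)) fun φ => by
      rw [map_mul, norm_mul]
      refine (mul_le_mul (ad φ) (((dT _).aeval x).trans (mul_le_mul cH (pow_le_pow_left₀
        (by positivity) (x1 φ) g) (by positivity) (by positivity))) (norm_nonneg _)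
        (by positivity)).trans (le_of_eq (by ring))
  rw [← hn, ← pow_mul] at N1
  obtain ⟨y, hy⟩ : ∃ y, y = ((a : E) * (d : E) ^ g * aeval x T)⁻¹ := ⟨_, rfl⟩
  rw [← hy] at N2 N3
  have et : ∀ (l : ℕ) (w : E), w / (aeval x T ^ l * l.factorial) =
      w / l.factorial * (a * d ^ g * y) ^ l := fun l w => by
    rw [hy, mul_inv, mul_inv_cancel_left₀ (mul_ne_zero aK (pow_ne_zero _ dK)), inv_pow]
    field_simp
  refine ⟨fun i j φ => ?_, ?_⟩
  · have f0 : (0 : ℝ) < k.factorial := by exact_mod_cast k.factorial_pos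
    have h1 := (gdom_iter (dT (φ.comp (algebraMap K E))) (dB _) k i j).aeval x
    have h2 : ‖φ (a * d ^ g * y)‖ ≤ H ^ e * H ^ g * H ^ ((2 * e + 3 * g) * n) := by
      rw [map_mul, norm_mul, pow_mul, hn]
      exact mul_le_mul (ad φ) ((N3 φ).trans (pow_le_pow_right₀ (one_le_pow₀ H1) (Nat.sub_le _ _)))
        (norm_nonneg _) (by positivity)
    have h3 : ‖φ (aeval x (iterK T B k i j) / k.factorial)‖ ≤ (H ^ e * (H ^ 2) ^ g) ^ k := by
      rw [map_div₀, map_natCast, norm_div, Complex.norm_natCast, div_le_iff₀ f0, mul_pow,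
        ← pow_mul (H ^ 2), mul_comm g, mul_right_comm]
      refine h1.trans ?_
      have := x1 φ
      gcongr
    rw [et, map_mul, map_pow, norm_mul, norm_pow]
    refine (mul_le_mul h3 (pow_le_pow_left₀ (norm_nonneg _) h2 k) (by positivity)
      (by positivity)).trans ?_
    rw [← mul_pow]
    exact pow_le_pow_left₀ (by positivity) (le_trans (le_of_eq (by ring))
      (pow_le_pow_right₀ H1 hle)) _
  · obtain ⟨D, D0, D1, D2⟩ := hC k
    refine ⟨D * N ^ k, by positivity, ?_, fun l hl i j => ?_⟩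
    · have c3 : (D : ℝ) ≤ (H ^ e) ^ (k + 1) := D1.trans ((le_abs_self _).trans (by
        rw [abs_pow]; gcongr))
      have c4 := mul_le_mul c3 ((pow_le_pow_left₀ (by positivity) N1 k).trans (pow_le_pow_right₀
        (one_le_pow₀ H1) k.le_succ)) (by positivity) (by positivity)
      rw [← mul_pow, ← pow_add] at c4
      push_cast
      exact c4.trans (pow_le_pow_left₀ (by positivity) (pow_le_pow_right₀ H1 (by omega)) _)
    · have z := gf_denE x (a := (D : K) / l.factorial) dI hx (deg_iter hT hB l i j) fun m => by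
        rw [div_mul_eq_mul_div]; exact D2 l hl i j m
      rw [map_div₀, map_natCast, map_natCast] at z
      have e2 : ((D * N ^ k : ℕ) : E) * (aeval x (iterK T B l i j) / l.factorial *
          (a * d ^ g * y) ^ l) = (D : E) / l.factorial * d ^ (l * g) * aeval x (iterK T B l i j) *
            ((a : E) ^ l * ((N * y) ^ l * (N : E) ^ (k - l))) := by
        rw [← Nat.sub_add_cancel hl, add_tsub_cancel_right]
        push_cast
        ring
      rw [et, e2]
      exact z.mul (((isIntegral_natCast a).pow l).mul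
        ((N2.pow l).mul ((isIntegral_natCast N).pow _)))

/-- the point lies in a subfield of degree at most `b` of a big number field -/
theorem gf_coreL (h : GalK T B) : ∃ c : ℕ, ∀ (L : Type v) [Field L] [NumberField L] [Algebra K L]
    (E : IntermediateField ℚ L) (b : ℕ) (H : ℝ) (x : L) (d : ℕ), Module.finrank ℚ E ≤ b →
    (∀ a, algebraMap K L a ∈ E) → x ∈ E → 2 ≤ H → 0 < d →
    (d : ℝ) ≤ H → IsIntegral ℤ ((d : L) * x) → (∀ φ : L →+* ℂ, ‖φ x‖ ≤ H) → aeval x T ≠ 0 → ∀ k,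
      (∀ i j, aeval x (iterK T B k i j) / (aeval x T ^ k * k.factorial) ∈ E) ∧
      (∀ i j (φ : L →+* ℂ), ‖φ (aeval x (iterK T B k i j) / (aeval x T ^ k * k.factorial))‖ ≤
        (H ^ (c * b)) ^ k) ∧ ∃ D : ℕ, 0 < D ∧ (D : ℝ) ≤ (H ^ (c * b)) ^ (k + 1) ∧ ∀ l ≤ k, ∀ i j,
          IsIntegral ℤ ((D : L) * (aeval x (iterK T B l i j) / (aeval x T ^ l * l.factorial))) := by
  obtain ⟨c, hc⟩ := gf_coreE.{v} h
  refine ⟨c, fun L _ _ _ E b H x d hb hK hx H2 d0 dH hi hφ T0 k => ?_⟩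
  let _ : Algebra K E := ((algebraMap K L).codRestrict E.toSubring hK).toAlgebra
  have : IsScalarTower K E L := IsScalarTower.of_algebraMap_eq fun _ => rfl
  have ev : ∀ p : K[X], aeval x p = algebraMap E L (aeval (⟨x, hx⟩ : E) p) := fun p =>
    aeval_algebraMap_apply L (⟨x, hx⟩ : E) p
  have tm : ∀ l i j, aeval x (iterK T B l i j) / (aeval x T ^ l * l.factorial) = algebraMap E L
      (aeval (⟨x, hx⟩ : E) (iterK T B l i j) / (aeval (⟨x, hx⟩ : E) T ^ l * l.factorial)) :=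
    fun l i j => by rw [map_div₀, map_mul, map_pow, map_natCast, ← ev, ← ev]
  obtain ⟨h1, D, D0, D1, D2⟩ := hc E b H ⟨x, hx⟩ d hb H2 d0 dH
    ((isIntegral_algHom_iff (algebraMap E L).toIntAlgHom (algebraMap E L).injective).1 (by
      change IsIntegral ℤ (algebraMap E L _)
      rwa [map_mul, map_natCast]))
    (fun φ => by
      rw [← ComplexEmbedding.lift_comp_algebraMap (K := L) φ]
      exact hφ (ComplexEmbedding.lift L φ))
    (fun e => T0 (by rw [ev, e, map_zero])) k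
  refine ⟨fun i j => ?_, fun i j φ => ?_, D, D0, D1, fun l hl i j => ?_⟩
  · rw [tm]
    exact (show ∀ z : E, algebraMap E L z ∈ E from fun z => z.2) _
  · rw [tm]; exact h1 i j (φ.comp (algebraMap E L))
  · rw [tm, ← map_natCast (algebraMap E L), ← map_mul]
    exact (D2 l hl i j).map (algebraMap E L).toIntAlgHom

end

end Pool.Agent.Lib.MP_5591bc_ag.W
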