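import Pool.Agent.Lib.MP_5591bc_ag.W.CoreD
import Pool.Agent.Lib.MP_5591bc_ag.W.GFD

/-! Closure properties of `GK`. -/

namespace Pool.Agent.Lib.MP_5591bc_ag.W

open Finset PowerSeries NumberField

noncomputable section

variable {F α β : Type*} [Field F] {h h' : ℕ} {g : α → F⟦X⟧} {g' : β → F⟦X⟧}

theorem GK.pos (hg : GK h g) : 0 < h := by
  obtain ⟨C, -, k⟩ := hg
  obtain ⟨-, d, d0, d1, -⟩ := k 1
  rw [pow_one] at d1
  exact Nat.pos_of_mul_pos_left (d0.trans_le d1)

theorem GK.mono (hg : GK h g) (hh : h ≤ h') : GK h' g :=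
  let ⟨C, C0, k⟩ := hg
  ⟨C, C0, fun t => let ⟨h0, d, d0, d1, d2⟩ := k t
    ⟨fun x σ => (h0 x σ).trans (by gcongr), d, d0, d1.trans (by gcongr), d2⟩⟩

theorem GK.comp (hg : GK h g) (f : β → α) : GK h fun y => g (f y) :=
  let ⟨C, C0, k⟩ := hg
  ⟨C, C0, fun t => let ⟨h0, d, d0, d1, d2⟩ := k t
    ⟨fun _ => h0 _, d, d0, d1, fun _ => d2 _⟩⟩

theorem GK.of (hg : GK h g) (k : ∀ y, ∃ x, g' y = g x) : GK h g' := by
  choose f hf using k
  exact (funext hf : g' = _) ▸ hg.comp f

theorem GK.mul (hg : GK h g) (hg' : GK h' g') :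
    GK (2 * h * h') fun q : α × β => g q.1 * g' q.2 := by
  have a1 : (1 : ℝ) ≤ h := by exact_mod_cast hg.pos
  have b1 : (1 : ℝ) ≤ h' := by exact_mod_cast hg'.pos
  obtain ⟨C, C0, k⟩ := hg
  obtain ⟨C', C0', k'⟩ := hg'
  refine ⟨C * C', by positivity, fun t => ⟨fun x σ => ?_, ?_⟩⟩
  · simp only [coeff_mul, map_sum, map_mul]
    refine (norm_sum_le _ _).trans ((sum_le_card_nsmul _ _
      ((C * (h : ℝ) ^ t) * (C' * (h' : ℝ) ^ t)) fun p hp => ?_).trans ?_)
    · have := mem_antidiagonal.1 hp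
      rw [norm_mul]
      exact mul_le_mul (((k _).1 _ σ).trans (by gcongr; omega))
        (((k' _).1 _ σ).trans (by gcongr; omega)) (norm_nonneg _) (by positivity)
    · have e : ((t + 1 : ℕ) : ℝ) ≤ 2 ^ t := by exact_mod_cast Nat.lt_two_pow_self
      rw [Nat.card_antidiagonal, nsmul_eq_mul]
      push_cast at e ⊢
      refine (mul_le_mul_of_nonneg_right e (by positivity)).trans (le_of_eq ?_)
      rw [mul_pow, mul_pow]
      ring
  · obtain ⟨-, d, d0, d1, d2⟩ := k t
    obtain ⟨-, e, e0, e1, e2⟩ := k' t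
    refine ⟨d * e, by positivity, (Nat.mul_le_mul d1 e1).trans ?_, fun x j hj => ?_⟩
    · rw [mul_mul_mul_comm, ← mul_pow]
      gcongr
      omega
    · rw [coeff_mul, mul_sum]
      refine IsIntegral.sum _ fun p hp => ?_
      have := mem_antidiagonal.1 hp
      rw [Nat.cast_mul, mul_mul_mul_comm]
      exact (d2 _ p.1 (by omega)).mul (e2 _ p.2 (by omega))

theorem GK.opt (hg : GK h g) : GK h fun o : Option α => o.elim 1 g := by
  have a1 : (1 : ℝ) ≤ h := by exact_mod_cast hg.pos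
  obtain ⟨C, C0, k⟩ := hg
  have c1 : (1 : ℝ) ≤ C := by exact_mod_cast C0
  refine ⟨C, C0, fun t => ?_⟩
  obtain ⟨h0, d, d0, d1, d2⟩ := k t
  refine ⟨?_, d, d0, d1, ?_⟩
  · rintro (_ | x) σ
    · have := one_le_mul_of_one_le_of_one_le c1 (one_le_pow₀ (n := t) a1)
      simp only [Option.elim, coeff_one]
      split_ifs
      · rwa [map_one, norm_one]
      · rw [map_zero, norm_zero]; positivity
    · exact h0 x σ
  · rintro (_ | x) j hj
    · simp only [Option.elim, coeff_one]
      split_ifs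
      · rw [mul_one]; exact isIntegral_natCast d
      · rw [mul_zero]; exact isIntegral_zero
    · exact d2 x j hj

theorem GK.map {L : Type*} [Field L] (f : F →+* L) (hg : GK h g) :
    GK h fun x => PowerSeries.map f (g x) :=
  let ⟨C, C0, k⟩ := hg
  ⟨C, C0, fun t => let ⟨h0, d, d0, d1, d2⟩ := k t
    ⟨fun x σ => h0 x (σ.comp f), d, d0, d1, fun x j hj => by
      rw [coeff_map, ← map_natCast f, ← map_mul]
      exact (d2 x j hj).map f.toIntAlgHom⟩⟩

theorem GK.mon (hg : GK h g) (δ : ℕ) : GK ((2 * h) ^ δ)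
    fun s : {s : α →₀ ℕ // s.sum (fun _ e => e) ≤ δ} => s.1.prod fun i e => g i ^ e := by
  classical
  have z : ∀ s : α →₀ ℕ, s.sum (fun _ e => e) ≤ 0 → s = 0 := fun s hs => by
    ext i
    by_contra k
    have := Finset.single_le_sum (f := fun i => s i) (fun _ _ => Nat.zero_le _)
      (Finsupp.mem_support_iff.2 k)
    exact k (Nat.le_zero.1 (this.trans hs))
  induction δ with
  | zero =>
    refine ⟨1, one_pos, fun t => ⟨fun s σ => ?_, 1, one_pos, by simp, fun s j _ => ?_⟩⟩ <;>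
      simp only [z s.1 s.2, Finsupp.prod_zero_index, coeff_one] <;> split_ifs <;>
      simp [isIntegral_one, isIntegral_zero]
  | succ δ ih =>
    refine ((hg.opt.mul ih).mono (le_of_eq (by ring))).of fun s => ?_
    by_cases s0 : s.1 = 0
    · exact ⟨(none, ⟨0, by simp⟩), by simp [s0]⟩
    · obtain ⟨i, hi⟩ := Finsupp.ne_iff.1 s0
      have e : s.1 = Finsupp.single i 1 + (s.1 - Finsupp.single i 1) :=
        (add_tsub_cancel_of_le (Finsupp.single_le_iff.2 (Nat.one_le_iff_ne_zero.2 hi))).symm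
      refine ⟨(some i, ⟨s.1 - Finsupp.single i 1, ?_⟩), ?_⟩
      · have := s.2
        rw [e, Finsupp.sum_add_index' (fun _ => rfl) (fun _ _ _ => rfl),
          Finsupp.sum_single_index rfl] at this
        omega
      · conv_lhs => rw [e]
        rw [Finsupp.prod_add_index' (fun _ => pow_zero _) (fun _ _ _ => pow_add _ _ _),
          Finsupp.prod_single_index (h := fun i e => g i ^ e) (pow_zero _), pow_one]
        rfl

variable [NumberField F] [Finite β]

/-- linear combinations with arbitrary coefficients -/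
theorem GK.lin {I : β → Type*} (hg : GK h g) (s : ∀ y, Finset (I y)) (c : ∀ y, I y → F)
    (f : ∀ y, I y → α) : GK h fun y => ∑ i ∈ s y, C (c y i) * g (f y i) := by
  classical
  have := Fintype.ofFinite β
  obtain ⟨C, C0, k⟩ := hg
  obtain ⟨q, q0, hq⟩ := gf_cden (univ.biUnion fun y => (s y).image (c y))
  obtain ⟨M, hM⟩ := exists_nat_ge (∑ y, ∑ i ∈ s y, house (c y i))
  refine ⟨(M + q) * C, by positivity, fun t => ?_⟩
  obtain ⟨h0, d, d0, d1, d2⟩ := k t
  refine ⟨fun y σ => ?_, q * d, by positivity, ?_, fun y j hj => ?_⟩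
  · simp only [map_sum, coeff_C_mul, map_mul]
    refine (norm_sum_le _ _).trans ((sum_le_sum fun i _ => (norm_mul_le _ _).trans (mul_le_mul
      (norm_embedding_le_house _ σ) (h0 _ σ) (norm_nonneg _) (house_nonneg _))).trans ?_)
    rw [← sum_mul, Nat.cast_mul, mul_assoc]
    refine mul_le_mul_of_nonneg_right (((single_le_sum (f := fun y => ∑ i ∈ s y, house (c y i))
      (fun _ _ => sum_nonneg fun _ _ => house_nonneg _) (mem_univ y)).trans hM).trans ?_)
      (by positivity)
    exact_mod_cast Nat.le_add_right _ _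
  · rw [mul_assoc]
    exact Nat.mul_le_mul (Nat.le_add_left _ _) d1
  · rw [map_sum, mul_sum]
    refine IsIntegral.sum _ fun i hi => ?_
    rw [coeff_C_mul, Nat.cast_mul, mul_mul_mul_comm]
    exact (hq _ (mem_biUnion.2 ⟨y, mem_univ y, mem_image_of_mem _ hi⟩)).mul (d2 _ j hj)

/-- polynomials of bounded degree with arbitrary coefficients -/
theorem GK.poly (hg : GK h g) {δ : ℕ} (q : β → MvPolynomial α F)
    (hq : ∀ y, (q y).totalDegree ≤ δ) :
    GK ((2 * h) ^ δ) fun y => MvPolynomial.aeval g (q y) := by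
  have := (hg.mon δ).lin (I := fun y => (q y).support) (fun _ => univ)
    (fun y s => (q y).coeff s.1) fun y s => ⟨s.1, (MvPolynomial.le_totalDegree s.2).trans (hq y)⟩
  refine this.of fun y => ⟨y, ?_⟩
  rw [MvPolynomial.aeval_def, MvPolynomial.eval₂_eq, ← sum_coe_sort]
  rfl

end

end Pool.Agent.Lib.MP_5591bc_ag.W
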