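import Pool.Agent.Lib.MP_5591bc_ag.W.CovA

/-! Separation with constants explicit in the degree, and the assembled cover. -/

namespace Pool.Agent.Lib.MP_5591bc_ag.W

open Polynomial NumberField

theorem cov_sep0 {K : Type*} [Field K] [NumberField K] (σ : K →+* ℂ) (a : K) (d : ℕ) (m : ℤ)
    (m0 : m ≠ 0) (β : ℝ) (hm : ∀ i ≤ d, ∀ j, IsIntegral ℤ (m • ((X + C a) ^ i).coeff j))
    (hβ : ∀ i ≤ d, ∀ j, house (m • ((X + C a) ^ i).coeff j) ≤ β) (C1 : ℝ) (c1 : 1 ≤ C1)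
    (c2 : (d + 1) * ((d + 1) * β) ≤ C1) (H : ℝ) (q : ℤ[X]) (x : ℂ) (hH : 1 ≤ H) (q0 : q ≠ 0)
    (hd : q.natDegree ≤ d) (hq : ∀ i, |(q.coeff i : ℝ)| ≤ H) (hx : aeval x q = 0)
    (hxa : x ≠ σ a) : 1 ≤ (C1 * H) ^ Module.finrank ℚ K * ‖x - σ a‖ := by
  classical
  obtain ⟨S, hS⟩ : ∃ S : ℝ, S = (d + 1) * β := ⟨_, rfl⟩
  rw [← hS] at c2
  have d0 : (0 : ℝ) ≤ d := Nat.cast_nonneg d
  have S0 : 0 ≤ S := hS ▸ mul_nonneg (by linarith) ((house_nonneg _).trans (hβ 0 d.zero_le 0))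
  have hC : 1 ≤ C1 * H := one_le_mul_of_one_le_of_one_le c1 hH
  rcases le_total 1 ‖x - σ a‖ with h1 | h1
  · exact one_le_mul_of_one_le_of_one_le (one_le_pow₀ hC) h1
  obtain ⟨Q, hQ⟩ : ∃ Q : K[X], Q = m • taylor a (q.map (Int.castRingHom K)) := ⟨_, rfl⟩
  have qd : (q.map (Int.castRingHom K)).natDegree ≤ d := natDegree_map_le.trans hd
  have Qd : Q.natDegree ≤ d := hQ ▸ (natDegree_smul_le _ _).trans (by rwa [natDegree_taylor])
  have Q0 : Q ≠ 0 := hQ ▸ smul_ne_zero m0 (by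
    rw [Ne, taylor_eq_zero, Polynomial.map_eq_zero_iff (Int.castRingHom K).injective_int]
    exact q0)
  have Qc : ∀ j, Q.coeff j =
      ∑ i ∈ Finset.range (d + 1), (q.coeff i : K) * (m • ((X + C a) ^ i).coeff j) := by
    intro j
    rw [hQ, (q.map (Int.castRingHom K)).as_sum_range' (d + 1) (by omega), map_sum, coeff_smul,
      finsetSum_coeff, Finset.smul_sum]
    refine Finset.sum_congr rfl fun i _ => ?_
    rw [taylor_monomial, coeff_C_mul, coeff_map, eq_intCast, mul_smul_comm]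
  have H0 : 0 ≤ H := by linarith
  have Qh : ∀ j, house (Q.coeff j) ≤ S * H := by
    intro j
    rw [Qc]
    refine (house_sum_le_sum_house _ _).trans
      ((Finset.sum_le_card_nsmul _ _ (H * β) fun i hi => (house_mul_le _ _).trans
        (mul_le_mul ?_ (hβ i (Nat.lt_succ_iff.1 (Finset.mem_range.1 hi)) j) (house_nonneg _)
          H0)).trans_eq ?_)
    · rw [house_intCast]; exact_mod_cast hq i
    · rw [Finset.card_range, nsmul_eq_mul, hS]; push_cast; ring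
  set k := Q.natTrailingDegree with hk
  have k0 : Q.coeff k ≠ 0 := trailingCoeff_nonzero_iff_nonzero.2 Q0
  have ki : IsIntegral ℤ (Q.coeff k) := by
    rw [Qc]
    exact IsIntegral.sum _ fun i hi => IsIntegral.mul (isIntegral_algebraMap (R := ℤ))
      (hm i (Nat.lt_succ_iff.1 (Finset.mem_range.1 hi)) k)
  have ev : (Q.map σ).eval (x - σ a) = 0 := by
    rw [hQ, zsmul_eq_mul, Polynomial.map_mul, eval_mul, map_taylor, taylor_eval_sub,
      Polynomial.map_map, eval_map (σ.comp _)]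
    have : eval₂ (σ.comp (Int.castRingHom K)) x q = 0 := by
      rw [← hx, aeval_def]; congr 1; exact RingHom.ext_int _ _
    rw [this, mul_zero]
  have t := cov_trail (Q.map σ) d (natDegree_map_le.trans Qd) (S * H) (fun j => by
    rw [coeff_map]; exact (norm_embedding_le_house _ σ).trans (Qh j)) (sub_ne_zero.2 hxa) h1 ev k
    (fun j hj => by rw [coeff_map, coeff_eq_zero_of_lt_natTrailingDegree hj, map_zero])
  rw [coeff_map] at t
  have l := cov_liou σ ki k0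
  obtain ⟨e, he⟩ : ∃ e, Module.finrank ℚ K = e + 1 :=
    Nat.exists_eq_succ_of_ne_zero Module.finrank_pos.ne'
  rw [he] at l ⊢
  rw [Nat.add_sub_cancel] at l
  have a1 : S * H ≤ C1 * H := mul_le_mul_of_nonneg_right (by nlinarith [mul_nonneg d0 S0]) H0
  have a2 : d * (S * H) ≤ C1 * H := by
    rw [← mul_assoc]; exact mul_le_mul_of_nonneg_right (by nlinarith) H0
  calc 1 ≤ _ := l
    _ ≤ (C1 * H * ‖x - σ a‖) * (C1 * H) ^ e :=
        mul_le_mul (t.trans (mul_le_mul_of_nonneg_right a2 (norm_nonneg _)))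
          (pow_le_pow_left₀ (house_nonneg _) ((Qh k).trans a1) e)
          (pow_nonneg (house_nonneg _) _) (by positivity)
    _ = _ := by ring

/-- separation, with constants that do not depend on the degree -/
theorem cov_sepd {K : Type*} [Field K] [NumberField K] (σ : K →+* ℂ) (a : K) :
    ∃ γ : ℝ, 1 ≤ γ ∧ ∀ (d : ℕ) (H : ℝ) (q : ℤ[X]) (x : ℂ), 1 ≤ H → q ≠ 0 → q.natDegree ≤ d →
      (∀ i, |(q.coeff i : ℝ)| ≤ H) → aeval x q = 0 → x ≠ σ a →
        1 ≤ (γ ^ (d + 1) * H) ^ Module.finrank ℚ K * ‖x - σ a‖ := by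
  classical
  obtain ⟨n, n0, hn⟩ := exists_integral_multiples ℤ ℚ ({a} : Finset K)
  have hn := hn a (Finset.mem_singleton_self a)
  obtain ⟨γ, g1, g2⟩ : ∃ γ : ℝ, ((|n| : ℤ) : ℝ) ≤ γ ∧ house (n • a) ≤ γ :=
    ⟨max _ _, le_max_left _ _, le_max_right _ _⟩
  have g0 : 1 ≤ γ := le_trans (by exact_mod_cast Int.one_le_abs n0) g1
  refine ⟨8 * γ, by linarith, fun d H q x hH q0 hd hq hx hxa => ?_⟩
  have e : ∀ i ≤ d, ∀ j, n ^ d • ((X + C a) ^ i).coeff j =
      (i.choose j : K) * ((n : K) ^ (d - (i - j)) * (n • a) ^ (i - j)) := by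
    intro i hi j
    obtain ⟨l, hl⟩ : ∃ l, d = l + (i - j) := ⟨d - (i - j), by omega⟩
    rw [coeff_X_add_C_pow, hl, Nat.add_sub_cancel, zsmul_eq_mul, zsmul_eq_mul]
    push_cast; ring
  refine cov_sep0 σ a d (n ^ d) (pow_ne_zero _ n0) (2 ^ d * γ ^ d) (fun i hi j => ?_)
    (fun i hi j => ?_) _ (one_le_pow₀ (by linarith)) ?_ H q x hH q0 hd hq hx hxa
  · rw [e i hi]
    refine IsIntegral.mul ?_ (IsIntegral.mul (IsIntegral.pow ?_ _) (hn.pow _))
    · exact_mod_cast (isIntegral_algebraMap (R := ℤ) (A := K) (x := (i.choose j : ℤ)))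
    · exact isIntegral_algebraMap (R := ℤ)
  · rw [e i hi, house_nat_mul]
    refine mul_le_mul ?_ ((house_mul_le _ _).trans ?_) (house_nonneg _) (by positivity)
    · exact_mod_cast (Nat.choose_le_two_pow i j).trans (Nat.pow_le_pow_right two_pos hi)
    · obtain ⟨l, hl⟩ : ∃ l, d = l + (i - j) := ⟨d - (i - j), by omega⟩
      rw [hl, Nat.add_sub_cancel, pow_add]
      refine mul_le_mul ((house_pow_le _ _).trans (pow_le_pow_left₀ (house_nonneg _) ?_ _))
        ((house_pow_le _ _).trans (pow_le_pow_left₀ (house_nonneg _) g2 _)) (house_nonneg _)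
        (by positivity)
      rwa [house_intCast]
  · have h1 : (d + 1 : ℝ) ≤ 2 ^ d := by exact_mod_cast Nat.lt_two_pow_self
    calc (d + 1 : ℝ) * ((d + 1) * (2 ^ d * γ ^ d)) ≤ 2 ^ d * (2 ^ d * (2 ^ d * γ ^ d)) := by gcongr
      _ = (8 * γ) ^ d := by rw [show (8 : ℝ) = 2 * (2 * 2) by norm_num]; simp only [mul_pow]; ring
      _ ≤ _ := pow_le_pow_right₀ (by linarith) d.le_succ

/-- for a finite set of algebraic numbers, in dyadic form -/
theorem cov_sepz (Z : Finset ℂ) (hZ : ∀ a ∈ Z, IsAlgebraic ℚ a) :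
    ∃ c : ℕ, 0 < c ∧ ∀ (d L : ℕ) (q : ℤ[X]) (x : ℂ), q ≠ 0 → q.natDegree ≤ d →
      (∀ i, |(q.coeff i : ℝ)| ≤ 2 ^ L) → aeval x q = 0 → ∀ a ∈ Z, x ≠ a →
        (2 ^ (c * (d + L + 1)))⁻¹ ≤ ‖x - a‖ := by
  have one : ∀ a ∈ Z, ∃ c : ℕ, ∀ (d L : ℕ) (q : ℤ[X]) (x : ℂ), q ≠ 0 → q.natDegree ≤ d →
      (∀ i, |(q.coeff i : ℝ)| ≤ 2 ^ L) → aeval x q = 0 → x ≠ a →
        1 ≤ 2 ^ (c * (d + L + 1)) * ‖x - a‖ := by
    intro a ha
    have := IntermediateField.adjoin.finiteDimensional (hZ a ha).isIntegral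
    have : NumberField (IntermediateField.adjoin ℚ {a}) := {}
    obtain ⟨γ, h1, h2⟩ := cov_sepd (algebraMap (IntermediateField.adjoin ℚ {a}) ℂ)
      (IntermediateField.AdjoinSimple.gen ℚ a)
    obtain ⟨u, hu⟩ := pow_unbounded_of_one_lt γ (one_lt_two (α := ℝ))
    refine ⟨(u + 1) * Module.finrank ℚ (IntermediateField.adjoin ℚ {a}),
      fun d L q x q0 hd hq hx hxa => (h2 d _ q x (one_le_pow₀ one_le_two) q0 hd hq hx hxa).trans
        (mul_le_mul_of_nonneg_right ?_ (norm_nonneg _))⟩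
    rw [mul_right_comm, pow_mul]
    refine pow_le_pow_left₀ (by positivity) ?_ _
    calc γ ^ (d + 1) * 2 ^ L ≤ (2 ^ u) ^ (d + 1) * 2 ^ L := by gcongr
      _ = 2 ^ (u * (d + 1) + L) := by rw [← pow_mul, ← pow_add]
      _ ≤ _ := pow_le_pow_right₀ one_le_two (by nlinarith)
  choose! c hc using one
  refine ⟨Z.sup c + 1, Nat.succ_pos _, fun d L q x q0 hd hq hx a ha hxa => ?_⟩
  rw [inv_le_iff_one_le_mul₀' (by positivity)]
  refine (hc a ha d L q x q0 hd hq hx hxa).trans (mul_le_mul_of_nonneg_right ?_ (norm_nonneg _))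
  exact pow_le_pow_right₀ one_le_two
    (Nat.mul_le_mul_right _ ((Finset.le_sup ha).trans (Nat.le_succ _)))

/-- The assembled cover: algebraic points of degree at most `d` and height at most `2 ^ L` off a
finite set `Z` of algebraic numbers. -/
theorem cov_all (Z : Finset ℂ) (hZ : ∀ a ∈ Z, IsAlgebraic ℚ a) :
    ∃ c : ℕ, 0 < c ∧ ∀ {α : Type*} (z : α → ℂ) (d L M : ℕ) (η : ℝ) (S : Finset α), 0 < η →
      (∀ x ∈ S, z x ∉ Z ∧ ∃ q : ℤ[X], q ≠ 0 ∧ q.natDegree ≤ d ∧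
        (∀ i, |(q.coeff i : ℝ)| ≤ 2 ^ L) ∧ aeval (z x) q = 0) →
      (∀ s ∈ S, ∀ r : ℝ, (2 ^ (c * (d + L + 1)))⁻¹ ≤ r → r ≤ 2 ^ (L + 1) →
        (∀ a ∈ Z, 2 * r ≤ ‖z s - a‖) → ∀ S' : Finset α, S' ⊆ S →
          (∀ x ∈ S', ‖z x - z s‖ < η * r) → S'.card ≤ M) →
      (S.card : ℝ) ≤ c * (d + L + 1) * (M * (16 / η + 3) ^ 2) := by
  classical
  obtain ⟨c, c0, hc⟩ := cov_sepz Z hZ
  refine ⟨(Z.card + 1) * (c + 3), by positivity, fun z d L M η S hη hS h => ?_⟩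
  have hρ : ∀ x : ℂ, ∃ ρ : ℝ, ρ ≤ ‖x‖ + 1 ∧ (∀ a ∈ Z, ρ ≤ ‖x - a‖) ∧
      (ρ = ‖x‖ + 1 ∨ ∃ a ∈ Z, ρ = ‖x - a‖) := by
    intro x
    obtain ⟨o, ho, hm⟩ := Finset.exists_min_image (Finset.insertNone Z)
      (fun o : Option ℂ => (o.elim (‖x‖ + 1) fun a => ‖x - a‖ : ℝ)) ⟨none, by simp⟩
    refine ⟨_, hm none (by simp), fun a ha => hm (some a) (by simpa using ha), ?_⟩
    cases o with
    | none => exact Or.inl rfl
    | some a => exact Or.inr ⟨a, by simpa using ho, rfl⟩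
  choose ρ r1 r2 r3 using hρ
  set n := d + L + 1 with hn
  have lo : ∀ x ∈ S, (2 ^ (c * n))⁻¹ ≤ ρ (z x) := by
    intro x hx
    obtain ⟨hz, q, q0, hd, hq, hx0⟩ := hS x hx
    rcases r3 (z x) with e | ⟨a, ha, e⟩
    · rw [e]
      exact (inv_le_one_of_one_le₀ (one_le_pow₀ one_le_two)).trans (by linarith [norm_nonneg (z x)])
    · rw [e]; exact hc d L q _ q0 hd hq hx0 a ha fun e' => hz (e' ▸ ha)
  have hi : ∀ x ∈ S, ρ (z x) < 2 ^ (L + 2) := by
    intro x hx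
    obtain ⟨-, q, q0, -, hq, hx0⟩ := hS x hx
    have h1 := cov_root q0 hq hx0
    have h2 : (1 : ℝ) ≤ 2 ^ L := one_le_pow₀ one_le_two
    have h3 := r1 (z x)
    rw [pow_add]; linarith
  have key := cov_dyad z S (insert 0 Z) (fun x => ρ (z x)) (2 ^ (c * n))⁻¹ 1 (η / 2) (by positivity)
    zero_le_one (half_pos hη) (L + 2 + c * n) lo (fun x hx => by
      rw [pow_add _ (L + 2), mul_inv_cancel_right₀ (by positivity)]; exact hi x hx)
    (fun x _ => by
      rcases r3 (z x) with e | ⟨a, ha, e⟩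
      · exact ⟨0, Finset.mem_insert_self _ _, by rw [e, sub_zero]; linarith⟩
      · exact ⟨a, Finset.mem_insert_of_mem ha, by rw [e, one_mul]⟩) M
    (fun s hs S' hS' hn' => h s hs (ρ (z s) / 2) (by
        refine le_trans ?_ (div_le_div_of_nonneg_right (lo s hs) zero_le_two)
        rw [div_eq_mul_inv, ← mul_inv, ← pow_succ]
        refine inv_anti₀ (by positivity) (pow_le_pow_right₀ one_le_two ?_)
        have : 1 ≤ n := by omega
        nlinarith [Nat.zero_le (Z.card * (c + 3) * n)])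
      (by have := hi s hs; rw [pow_succ] at this; linarith)
      (fun a ha => by linarith [r2 (z s) a ha]) S' hS' fun x hx => by linarith [hn' x hx])
  refine key.trans ?_
  have e : 8 * 1 / (η / 2) = 16 / η := by field_simp; norm_num
  rw [e]
  refine mul_le_mul_of_nonneg_right ?_ (by positivity)
  have h1 : (insert 0 Z).card * (L + 2 + c * n) ≤ (Z.card + 1) * (c + 3) * n := by
    rw [mul_assoc]
    exact Nat.mul_le_mul (Finset.card_insert_le _ _) (by nlinarith)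
  rw [hn] at h1
  exact_mod_cast h1

end Pool.Agent.Lib.MP_5591bc_ag.W
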