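import Mathlib

/-! Covering lemmas and separation of algebraic numbers. -/

namespace Pool.Agent.Lib.MP_5591bc_ag.W

open Polynomial NumberField

/-- points of a disc, at most `M` of them near any one of them -/
theorem cov_grid {α : Type*} (z : α → ℂ) (S : Finset α) (a : ℂ) (R ρ : ℝ) (hR : 0 ≤ R) (hρ : 0 < ρ)
    (hS : ∀ x ∈ S, ‖z x - a‖ ≤ R) (M : ℕ)
    (h : ∀ s ∈ S, ∀ S' : Finset α, S' ⊆ S → (∀ x ∈ S', ‖z x - z s‖ < ρ) → S'.card ≤ M) :
    (S.card : ℝ) ≤ M * (4 * R / ρ + 3) ^ 2 := by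
  classical
  set L : ℕ := ⌈2 * R / ρ⌉₊ with hL
  have hL1 : 2 * R / ρ ≤ L := Nat.le_ceil _
  have hL2 : (L : ℝ) < 2 * R / ρ + 1 := Nat.ceil_lt_add_one (by positivity)
  have key : ∀ u : ℝ, |u| ≤ R → ⌊2 * u / ρ⌋ ∈ Finset.Icc (-(L : ℤ)) L := by
    intro u hu
    obtain ⟨h1, h2⟩ := abs_le.1 hu
    rw [Finset.mem_Icc]
    constructor
    · rw [Int.le_floor]
      push_cast
      have : -(2 * R / ρ) ≤ 2 * u / ρ := by
        rw [← neg_div]; exact div_le_div_of_nonneg_right (by linarith) hρ.le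
      linarith
    · have h3 : 2 * u / ρ ≤ 2 * R / ρ := div_le_div_of_nonneg_right (by linarith) hρ.le
      have h4 : ((⌊2 * u / ρ⌋ : ℤ) : ℝ) ≤ ((L : ℤ) : ℝ) := by
        push_cast; linarith [Int.floor_le (2 * u / ρ)]
      exact_mod_cast h4
  have near : ∀ u v : ℝ, ⌊2 * u / ρ⌋ = ⌊2 * v / ρ⌋ → |u - v| < ρ / 2 := by
    intro u v huv
    have h1 := Int.abs_sub_lt_one_of_floor_eq_floor huv
    have h2 : 2 * u / ρ - 2 * v / ρ = (u - v) / (ρ / 2) := by field_simp
    rw [h2, abs_div, abs_of_pos (half_pos hρ), div_lt_one (half_pos hρ)] at h1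
    exact h1
  have hc := Finset.card_le_mul_card_image_of_maps_to
    (f := fun x => (⌊2 * (z x - a).re / ρ⌋, ⌊2 * (z x - a).im / ρ⌋)) (s := S)
    (t := Finset.Icc (-(L : ℤ)) L ×ˢ Finset.Icc (-(L : ℤ)) L)
    (fun x hx => Finset.mem_product.2
      ⟨key _ ((Complex.abs_re_le_norm _).trans (hS x hx)),
        key _ ((Complex.abs_im_le_norm _).trans (hS x hx))⟩) M (by
      intro b _
      rcases (S.filter fun x =>
        (⌊2 * (z x - a).re / ρ⌋, ⌊2 * (z x - a).im / ρ⌋) = b).eq_empty_or_nonempty with he | ⟨s, hs⟩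
      · rw [he]; simp
      · obtain ⟨hs1, hs2⟩ := Finset.mem_filter.1 hs
        refine h s hs1 _ (Finset.filter_subset _ _) fun x hx => ?_
        have e := (Finset.mem_filter.1 hx).2.trans hs2.symm
        have e1 := near _ _ (Prod.ext_iff.1 e).1
        have e2 := near _ _ (Prod.ext_iff.1 e).2
        have e3 := Complex.norm_le_abs_re_add_abs_im (z x - z s)
        have e4 : (z x - z s).re = (z x - a).re - (z s - a).re := by simp
        have e5 : (z x - z s).im = (z x - a).im - (z s - a).im := by simp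
        rw [e4, e5] at e3
        linarith)
  rw [Finset.card_product, Int.card_Icc] at hc
  have e : ((L : ℤ) + 1 - -(L : ℤ)).toNat = 2 * L + 1 := by omega
  rw [e] at hc
  have hc' : (S.card : ℝ) ≤ M * ((2 * L + 1) * (2 * L + 1)) := by exact_mod_cast hc
  refine hc'.trans (mul_le_mul_of_nonneg_left ?_ (Nat.cast_nonneg M))
  have e6 : 4 * R / ρ = 2 * (2 * R / ρ) := by ring
  have e7 : (2 * (L : ℝ) + 1) ≤ 4 * R / ρ + 3 := by rw [e6]; linarith
  rw [sq]
  exact mul_self_le_mul_self (by positivity) e7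

/-- dyadic scales round finitely many centres -/
theorem cov_dyad {α : Type*} (z : α → ℂ) (S : Finset α) (A : Finset ℂ) (d : α → ℝ) (lo c η : ℝ)
    (hlo : 0 < lo) (hc : 0 ≤ c) (hη : 0 < η) (J : ℕ) (h1 : ∀ x ∈ S, lo ≤ d x)
    (h2 : ∀ x ∈ S, d x < 2 ^ J * lo) (hA : ∀ x ∈ S, ∃ a ∈ A, ‖z x - a‖ ≤ c * d x) (M : ℕ)
    (h : ∀ s ∈ S, ∀ S' : Finset α, S' ⊆ S → (∀ x ∈ S', ‖z x - z s‖ < η * d s) → S'.card ≤ M) :
    (S.card : ℝ) ≤ A.card * J * (M * (8 * c / η + 3) ^ 2) := by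
  classical
  have hj : ∀ x ∈ S, ∃ p ∈ A ×ˢ Finset.range J,
      ‖z x - p.1‖ ≤ c * d x ∧ 2 ^ p.2 * lo ≤ d x ∧ d x < 2 ^ (p.2 + 1) * lo := by
    intro x hx
    obtain ⟨a, ha, ha'⟩ := hA x hx
    obtain ⟨j, hj1, hj2⟩ := exists_nat_pow_near ((one_le_div hlo).2 (h1 x hx)) (one_lt_two (α := ℝ))
    rw [le_div_iff₀ hlo] at hj1
    rw [div_lt_iff₀ hlo] at hj2
    refine ⟨(a, j), Finset.mem_product.2 ⟨ha, Finset.mem_range.2 ?_⟩, ha', hj1, hj2⟩
    have : (2 : ℝ) ^ j < 2 ^ J := lt_of_mul_lt_mul_right (hj1.trans_lt (h2 x hx)) hlo.le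
    exact (pow_lt_pow_iff_right₀ one_lt_two).1 this
  set cell : ℂ × ℕ → Finset α := fun p => S.filter fun x =>
    ‖z x - p.1‖ ≤ c * d x ∧ 2 ^ p.2 * lo ≤ d x ∧ d x < 2 ^ (p.2 + 1) * lo with hcell
  have hsub : S ⊆ (A ×ˢ Finset.range J).biUnion cell := fun x hx => by
    obtain ⟨p, hp, hp'⟩ := hj x hx
    exact Finset.mem_biUnion.2 ⟨p, hp, Finset.mem_filter.2 ⟨hx, hp'⟩⟩
  have hb : ∀ p ∈ A ×ˢ Finset.range J, ((cell p).card : ℝ) ≤ M * (8 * c / η + 3) ^ 2 := by
    intro p _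
    have := cov_grid z (cell p) p.1 (c * (2 ^ (p.2 + 1) * lo)) (η * (2 ^ p.2 * lo)) (by positivity)
      (by positivity) (fun x hx => by
        obtain ⟨-, a1, -, a3⟩ := Finset.mem_filter.1 hx
        exact a1.trans (mul_le_mul_of_nonneg_left a3.le hc)) M (fun s hs S' hS' hn => by
        obtain ⟨a0, -, a2, -⟩ := Finset.mem_filter.1 hs
        exact h s a0 S' (hS'.trans (Finset.filter_subset _ _)) fun x hx =>
          (hn x hx).trans_le (mul_le_mul_of_nonneg_left a2 hη.le))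
    have e : 4 * (c * (2 ^ (p.2 + 1) * lo)) / (η * (2 ^ p.2 * lo)) = 8 * c / η := by
      field_simp; ring
    rwa [e] at this
  calc (S.card : ℝ) ≤ (((A ×ˢ Finset.range J).biUnion cell).card : ℝ) := by
        exact_mod_cast Finset.card_le_card hsub
    _ ≤ ∑ p ∈ A ×ˢ Finset.range J, ((cell p).card : ℝ) := by
        exact_mod_cast Finset.card_biUnion_le
    _ ≤ ∑ _p ∈ A ×ˢ Finset.range J, (M * (8 * c / η + 3) ^ 2 : ℝ) := Finset.sum_le_sum hb
    _ = _ := by
        rw [Finset.sum_const, Finset.card_product, Finset.card_range, nsmul_eq_mul]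
        push_cast; ring

/-- the number of dyadic scales -/
theorem cov_scales (c ε : ℝ) (hc : 0 ≤ c) (hε : 0 < ε) (H : ℝ) (hH : 1 ≤ H) :
    ∃ J : ℕ, H ^ c < 2 ^ J ∧ (J : ℝ) ≤ (2 * c / ε + 1) * H ^ ε := by
  have h0 : 0 < H := one_pos.trans_le hH
  obtain ⟨j, hj1, hj2⟩ := exists_nat_pow_near (Real.one_le_rpow hH hc) (one_lt_two (α := ℝ))
  refine ⟨j + 1, hj2, ?_⟩
  have h1 := Real.log_le_log (by positivity) hj1
  rw [Real.log_pow, Real.log_rpow h0] at h1
  have h2 : Real.log H ≤ H ^ ε / ε := Real.log_le_rpow_div h0.le hε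
  have h3 : (1 : ℝ) ≤ H ^ ε := Real.one_le_rpow hH hε.le
  have h4 := Real.log_two_gt_d9
  have h5 : c * Real.log H ≤ c * (H ^ ε / ε) := mul_le_mul_of_nonneg_left h2 hc
  have h6 : (j : ℝ) * (1 / 2) ≤ j * Real.log 2 :=
    mul_le_mul_of_nonneg_left (by linarith) (Nat.cast_nonneg j)
  have e : (2 * c / ε + 1) * H ^ ε = 2 * (c * (H ^ ε / ε)) + H ^ ε := by ring
  rw [e]; push_cast; linarith

/-- Liouville: a non zero algebraic integer is not small -/
theorem cov_liou {K : Type*} [Field K] [NumberField K] (σ : K →+* ℂ) {β : K}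
    (hβ : IsIntegral ℤ β) (h0 : β ≠ 0) : 1 ≤ ‖σ β‖ * house β ^ (Module.finrank ℚ K - 1) := by
  refine le_trans ?_ (norm_norm_le_norm_mul_house_pow β σ)
  obtain ⟨z, hz⟩ := IsIntegrallyClosed.isIntegral_iff.1 (Algebra.isIntegral_norm ℚ hβ)
  have hz0 : z ≠ 0 := by
    rintro rfl
    exact (Algebra.norm_ne_zero_iff.2 h0) (by rw [← hz]; simp)
  rw [← hz, eq_intCast, Int.norm_cast_rat, Int.norm_eq_abs]
  exact_mod_cast Int.one_le_abs hz0

/-- a root of a polynomial is not close to zero unless the trailing coefficient is small -/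
theorem cov_trail (Q : ℂ[X]) (d : ℕ) (hd : Q.natDegree ≤ d) (S : ℝ) (hS : ∀ j, ‖Q.coeff j‖ ≤ S)
    {h : ℂ} (h0 : h ≠ 0) (h1 : ‖h‖ ≤ 1) (hQ : Q.eval h = 0) (k : ℕ)
    (hk : ∀ j < k, Q.coeff j = 0) : ‖Q.coeff k‖ ≤ d * S * ‖h‖ := by
  obtain ⟨Q1, rfl⟩ := X_pow_dvd_iff.2 hk
  have e : Q1.eval h = 0 := by simpa [h0] using hQ
  have c : ∀ j, (X ^ k * Q1).coeff (j + k) = Q1.coeff j := fun j => coeff_X_pow_mul Q1 k j
  have hd1 : Q1.natDegree < d + 1 := by
    rcases eq_or_ne Q1 0 with rfl | hq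
    · simp
    · rw [natDegree_mul (by simp) hq] at hd; omega
  rw [eval_eq_sum_range' hd1, Finset.sum_range_succ'] at e
  have e0 : (X ^ k * Q1).coeff k = -∑ j ∈ Finset.range d, Q1.coeff (j + 1) * h ^ (j + 1) := by
    have := c 0
    rw [zero_add] at this
    rw [this]; linear_combination e
  rw [e0, norm_neg]
  refine (norm_sum_le _ _).trans ((Finset.sum_le_card_nsmul _ _ (S * ‖h‖) fun j _ => ?_).trans ?_)
  · rw [norm_mul, norm_pow, ← c]
    refine mul_le_mul (hS _) ?_ (by positivity) ((norm_nonneg _).trans (hS 0))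
    rw [pow_succ]
    exact mul_le_of_le_one_left (norm_nonneg _) (pow_le_one₀ (norm_nonneg _) h1)
  · simp [mul_assoc]

/-- separation of a fixed algebraic number from the roots of small integer polynomials -/
theorem cov_sep {K : Type*} [Field K] [NumberField K] (σ : K →+* ℂ) (a : K) (d : ℕ) :
    ∃ C : ℝ, 1 ≤ C ∧ ∀ (H : ℝ) (q : ℤ[X]) (x : ℂ), 1 ≤ H → q ≠ 0 → q.natDegree ≤ d →
      (∀ i, |(q.coeff i : ℝ)| ≤ H) → aeval x q = 0 → x ≠ σ a →
        1 ≤ (C * H) ^ Module.finrank ℚ K * ‖x - σ a‖ := by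
  classical
  set b : ℕ → ℕ → K := fun i j => ((X + C a) ^ i).coeff j with hb
  obtain ⟨m, m0, hm⟩ := exists_integral_multiples ℤ ℚ
    ((Finset.range (d + 1) ×ˢ Finset.range (d + 1)).image fun p => b p.1 p.2)
  obtain ⟨S, hS⟩ : ∃ S : ℝ,
    S = ∑ j ∈ Finset.range (d + 1), ∑ i ∈ Finset.range (d + 1), house (m • b i j) := ⟨_, rfl⟩
  have S0 : 0 ≤ S :=
    hS ▸ Finset.sum_nonneg fun _ _ => Finset.sum_nonneg fun _ _ => house_nonneg _
  refine ⟨(d + 1) * S + 1, by nlinarith [Nat.cast_nonneg (α := ℝ) d], ?_⟩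
  intro H q x hH q0 hd hq hx hxa
  set C1 : ℝ := (d + 1) * S + 1 with hC1
  have d0 : (0 : ℝ) ≤ d := Nat.cast_nonneg d
  have hC : 1 ≤ C1 * H := by nlinarith [mul_nonneg d0 S0]
  rcases le_total 1 ‖x - σ a‖ with h1 | h1
  · exact one_le_mul_of_one_le_of_one_le (one_le_pow₀ hC) h1
  obtain ⟨Q, hQ⟩ : ∃ Q : K[X], Q = m • taylor a (q.map (Int.castRingHom K)) := ⟨_, rfl⟩
  have qd : (q.map (Int.castRingHom K)).natDegree ≤ d := natDegree_map_le.trans hd
  have Qd : Q.natDegree ≤ d := hQ ▸ (natDegree_smul_le _ _).trans (by rwa [natDegree_taylor])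
  have Q0 : Q ≠ 0 := hQ ▸ smul_ne_zero m0 (by
    rw [Ne, taylor_eq_zero, Polynomial.map_eq_zero_iff (Int.castRingHom K).injective_int]
    exact q0)
  have Qc : ∀ j, Q.coeff j = ∑ i ∈ Finset.range (d + 1), (q.coeff i : K) * (m • b i j) := by
    intro j
    rw [hQ, (q.map (Int.castRingHom K)).as_sum_range' (d + 1) (by omega), map_sum, coeff_smul,
      finsetSum_coeff, Finset.smul_sum]
    refine Finset.sum_congr rfl fun i _ => ?_
    rw [taylor_monomial, coeff_C_mul, coeff_map, eq_intCast, mul_smul_comm]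
  have Qh : ∀ j, house (Q.coeff j) ≤ S * H := by
    intro j
    rcases lt_or_ge d j with hj | hj
    · rw [coeff_eq_zero_of_natDegree_lt (Qd.trans_lt hj)]
      have : house (0 : K) = 0 := by simpa using house_intCast (K := K) 0
      rw [this]; exact mul_nonneg S0 (by linarith)
    · rw [Qc]
      refine (house_sum_le_sum_house _ _).trans (le_trans (Finset.sum_le_sum
        (g := fun i => H * house (m • b i j)) fun i _ =>
        (house_mul_le _ _).trans (mul_le_mul_of_nonneg_right ?_ (house_nonneg _))) ?_)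
      · rw [house_intCast]; exact_mod_cast hq i
      · rw [← Finset.mul_sum, mul_comm]
        refine mul_le_mul_of_nonneg_right ?_ (by linarith)
        rw [hS]
        exact Finset.single_le_sum (f := fun j => ∑ i ∈ Finset.range (d + 1), house (m • b i j))
          (fun _ _ => Finset.sum_nonneg fun _ _ => house_nonneg _)
          (Finset.mem_range.2 (by omega))
  set k := Q.natTrailingDegree with hk
  have k0 : Q.coeff k ≠ 0 := trailingCoeff_nonzero_iff_nonzero.2 Q0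
  have kd : k ≤ d := (natTrailingDegree_le_natDegree Q).trans Qd
  have ki : IsIntegral ℤ (Q.coeff k) := by
    rw [Qc]
    refine IsIntegral.sum _ fun i hi => IsIntegral.mul ?_ (hm _ ?_)
    · exact isIntegral_algebraMap (R := ℤ)
    · exact Finset.mem_image.2 ⟨(i, k), Finset.mem_product.2
        ⟨hi, Finset.mem_range.2 (by omega)⟩, rfl⟩
  have ev : (Q.map σ).eval (x - σ a) = 0 := by
    rw [hQ, zsmul_eq_mul, Polynomial.map_mul, eval_mul, map_taylor, taylor_eval_sub,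
      Polynomial.map_map, eval_map (σ.comp _)]
    have : eval₂ (σ.comp (Int.castRingHom K)) x q = 0 := by
      rw [← hx, aeval_def]; congr 1; exact RingHom.ext_int _ _
    rw [this, mul_zero]
  have t := cov_trail (Q.map σ) d (natDegree_map_le.trans Qd) (S * H) (fun j => by
    rw [coeff_map]; exact (norm_embedding_le_house _ σ).trans (Qh j)) (sub_ne_zero.2 hxa) h1 ev k
    (fun j hj => by rw [coeff_map, coeff_eq_zero_of_lt_natTrailingDegree hj, map_zero])
  rw [coeff_map] at t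
  have l := cov_liou σ ki k0
  obtain ⟨e, he⟩ : ∃ e, Module.finrank ℚ K = e + 1 :=
    Nat.exists_eq_succ_of_ne_zero Module.finrank_pos.ne'
  rw [he] at l ⊢
  rw [Nat.add_sub_cancel] at l
  have H0 : 0 ≤ H := by linarith
  have a1 : S * H ≤ C1 * H := mul_le_mul_of_nonneg_right (by nlinarith [mul_nonneg d0 S0]) H0
  have a2 : d * (S * H) ≤ C1 * H := by
    rw [← mul_assoc]; exact mul_le_mul_of_nonneg_right (by nlinarith) H0
  calc 1 ≤ _ := l
    _ ≤ (C1 * H * ‖x - σ a‖) * (C1 * H) ^ e :=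
        mul_le_mul (t.trans (mul_le_mul_of_nonneg_right a2 (norm_nonneg _)))
          (pow_le_pow_left₀ (house_nonneg _) ((Qh k).trans a1) e)
          (pow_nonneg (house_nonneg _) _) (by positivity)
    _ = _ := by ring

/-- the same for an algebraic complex number -/
theorem cov_sepa {a : ℂ} (ha : IsAlgebraic ℚ a) (d : ℕ) :
    ∃ (C : ℝ) (e : ℕ), 1 ≤ C ∧ ∀ (H : ℝ) (q : ℤ[X]) (x : ℂ), 1 ≤ H → q ≠ 0 → q.natDegree ≤ d →
      (∀ i, |(q.coeff i : ℝ)| ≤ H) → aeval x q = 0 → x ≠ a → 1 ≤ (C * H) ^ e * ‖x - a‖ := by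
  have := IntermediateField.adjoin.finiteDimensional ha.isIntegral
  have : NumberField (IntermediateField.adjoin ℚ {a}) := {}
  obtain ⟨C, h1, h2⟩ := cov_sep (algebraMap (IntermediateField.adjoin ℚ {a}) ℂ)
    (IntermediateField.AdjoinSimple.gen ℚ a) d
  exact ⟨C, _, h1, h2⟩

/-- uniformly for a finite set of algebraic numbers -/
theorem cov_sepf (A : Finset ℂ) (hA : ∀ a ∈ A, IsAlgebraic ℚ a) (d : ℕ) :
    ∃ (C : ℝ) (e : ℕ), 1 ≤ C ∧ ∀ (H : ℝ) (q : ℤ[X]) (x : ℂ), 1 ≤ H → q ≠ 0 → q.natDegree ≤ d →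
      (∀ i, |(q.coeff i : ℝ)| ≤ H) → aeval x q = 0 → ∀ a ∈ A, x ≠ a →
        1 ≤ (C * H) ^ e * ‖x - a‖ := by
  classical
  induction A using Finset.induction_on with
  | empty => exact ⟨1, 0, le_rfl, by simp⟩
  | insert a A _ ih =>
    obtain ⟨C, e, h1, h2⟩ := ih fun b hb => hA b (Finset.mem_insert_of_mem hb)
    obtain ⟨C', e', h1', h2'⟩ := cov_sepa (hA a (Finset.mem_insert_self _ _)) d
    refine ⟨max C C', max e e', le_max_of_le_left h1, fun H q x hH q0 hd hq hx b hb hxb => ?_⟩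
    have key : ∀ (D : ℝ) (n : ℕ), 1 ≤ D → D ≤ max C C' → n ≤ max e e' →
        (D * H) ^ n * ‖x - b‖ ≤ (max C C' * H) ^ max e e' * ‖x - b‖ := fun D n a1 a2 a3 =>
      mul_le_mul_of_nonneg_right ((pow_le_pow_right₀ (one_le_mul_of_one_le_of_one_le a1 hH)
        a3).trans (by gcongr)) (norm_nonneg _)
    rcases Finset.mem_insert.1 hb with rfl | hb
    · exact (h2' H q x hH q0 hd hq hx hxb).trans (key _ _ h1' (le_max_right _ _) (le_max_right _ _))
    · exact (h2 H q x hH q0 hd hq hx b hb hxb).trans (key _ _ h1 (le_max_left _ _) (le_max_left _ _))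

/-- Cauchy bound -/
theorem cov_root {H : ℝ} {q : ℤ[X]} {x : ℂ} (q0 : q ≠ 0) (hq : ∀ i, |(q.coeff i : ℝ)| ≤ H)
    (hx : aeval x q = 0) : ‖x‖ ≤ H + 1 := by
  have inj := (Int.castRingHom ℂ).injective_int
  have p0 : q.map (Int.castRingHom ℂ) ≠ 0 := (Polynomial.map_ne_zero_iff inj).2 q0
  have hr : (q.map (Int.castRingHom ℂ)).IsRoot x := by
    rw [IsRoot, eval_map, ← hx, aeval_def]; congr 1
  have h := hr.norm_lt_cauchyBound p0
  have H0 : 0 ≤ H := (abs_nonneg _).trans (hq 0)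
  lift H to NNReal using H0
  have h1 : (q.map (Int.castRingHom ℂ)).cauchyBound ≤ H + 1 := by
    unfold cauchyBound
    refine add_le_add_left (div_le_of_le_mul₀ zero_le zero_le ?_) 1
    refine (Finset.sup_le fun i _ => ?_).trans (le_mul_of_one_le_right zero_le ?_)
    · rw [coeff_map, eq_intCast, ← NNReal.coe_le_coe, coe_nnnorm, Complex.norm_intCast]
      exact hq i
    · rw [leadingCoeff_map_of_injective inj, eq_intCast, ← NNReal.coe_le_coe, coe_nnnorm,
        Complex.norm_intCast]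
      rw [NNReal.coe_one, ← Int.cast_abs]
      exact_mod_cast Int.one_le_abs (leadingCoeff_ne_zero.2 q0)
  exact_mod_cast (h.trans_le h1).le

end Pool.Agent.Lib.MP_5591bc_ag.W
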