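import Pool.Agent.Lib.MP_5591bc_ag.W.Set
import Pool.Agent.Lib.MP_5591bc_ag.W.CovA

/-! Counting points by covering. -/

namespace Pool.Agent.Lib.MP_5591bc_ag.W

open Matrix Filter Topology PowerSeries G R H Metric NumberField

noncomputable section

theorem cover {Z : Finset ℂ} (hZ : Z.Nonempty) (c1 : ℕ) : ∃ C : ℕ,
    ∀ L : ℕ, 0 < L → ∀ (M : ℕ) (S : Finset ℂ),
      (∀ x ∈ S, ‖x‖ ≤ 2 ^ L ∧ 1 ≤ (2 ^ L) ^ c1 * infDist x (Z : Set ℂ)) →
      (∀ s ∈ S, ∀ S' ⊆ S, (∀ x ∈ S', ‖x - s‖ ≤ infDist s (Z : Set ℂ) / 32) → S'.card ≤ M) →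
      S.card ≤ C * M * L := by
  obtain ⟨a0, ha0⟩ := hZ
  obtain ⟨u, hu⟩ := pow_unbounded_of_one_lt ‖a0‖ (one_lt_two (α := ℝ))
  refine ⟨Z.card * (c1 + u + 2) * 259 ^ 2, fun L L0 M S hS h => ?_⟩
  have key := cov_dyad (fun x : ℂ => x) S Z (fun x => infDist x (Z : Set ℂ)) ((2 ^ L) ^ c1)⁻¹ 1
    (1 / 32) (by positivity) zero_le_one (by norm_num) (L + u + 1 + L * c1)
    (fun x hx => (inv_le_iff_one_le_mul₀' (by positivity)).2 (hS x hx).2) (fun x hx => by
      rw [pow_add _ (L + u + 1), pow_mul, mul_inv_cancel_right₀ (by positivity)]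
      have h1 : infDist x (Z : Set ℂ) ≤ ‖x - a0‖ := by
        rw [← dist_eq_norm]; exact infDist_le_dist_of_mem ha0
      have h2 := norm_sub_le x a0
      have h3 : (2 : ℝ) ^ L ≤ 2 ^ (L + u) := pow_le_pow_right₀ one_le_two (by omega)
      have h4 : (2 : ℝ) ^ u ≤ 2 ^ (L + u) := pow_le_pow_right₀ one_le_two (by omega)
      rw [pow_succ]; linarith [(hS x hx).1])
    (fun x _ => by
      obtain ⟨a, ha, e⟩ := Z.finite_toSet.isCompact.exists_infDist_eq_dist ⟨a0, ha0⟩ x
      exact ⟨a, ha, by rw [one_mul, e, dist_eq_norm]⟩) M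
    (fun s hs S' hS' hn => h s hs S' hS' fun x hx => by linarith [hn x hx])
  have e : (8 * 1 / (1 / 32) + 3 : ℝ) = 259 := by norm_num
  rw [e] at key
  have k2 : S.card ≤ Z.card * (L + u + 1 + L * c1) * (M * 259 ^ 2) := by exact_mod_cast key
  have k3 : L + u + 1 + L * c1 ≤ (c1 + u + 2) * L := by nlinarith
  calc S.card ≤ Z.card * ((c1 + u + 2) * L) * (M * 259 ^ 2) := k2.trans (by gcongr)
    _ = _ := by ring

/-- distance to the roots against the value of the polynomial -/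
theorem dist_roots {T : Polynomial ℂ} (h0 : T ≠ 0) (hd : 0 < T.natDegree) : ∃ c : ℕ,
    ∀ H : ℝ, 2 ≤ H → ∀ x : ℂ, ‖x‖ ≤ H →
      ‖T.eval x‖ ≤ H ^ c * infDist x (T.roots.toFinset : Set ℂ) := by
  classical
  have hne : (T.roots.toFinset : Set ℂ).Nonempty := by
    obtain ⟨z, hz⟩ := Complex.exists_root (Polynomial.natDegree_pos_iff_degree_pos.1 hd)
    exact ⟨z, by simpa [h0] using hz⟩
  have one : ∀ q : Polynomial ℂ, ∃ c : ℕ, ∀ H : ℝ, 2 ≤ H → ∀ x : ℂ, ‖x‖ ≤ H →
      ‖q.eval x‖ ≤ H ^ c := by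
    intro q
    obtain ⟨u, hu⟩ := pow_unbounded_of_one_lt
      (∑ i ∈ Finset.range (q.natDegree + 1), ‖q.coeff i‖) (one_lt_two (α := ℝ))
    refine ⟨u + q.natDegree, fun H H2 x hx => ?_⟩
    rw [Polynomial.eval_eq_sum_range, pow_add]
    refine (norm_sum_le _ _).trans (le_trans (Finset.sum_le_sum
      (g := fun i => ‖q.coeff i‖ * H ^ q.natDegree) fun i hi => ?_) ?_)
    · rw [norm_mul, norm_pow]
      exact mul_le_mul_of_nonneg_left ((pow_le_pow_left₀ (norm_nonneg _) hx i).trans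
        (pow_le_pow_right₀ (by linarith) (Nat.lt_succ_iff.1 (Finset.mem_range.1 hi))))
        (norm_nonneg _)
    · rw [← Finset.sum_mul]
      exact mul_le_mul_of_nonneg_right (hu.le.trans (pow_le_pow_left₀ zero_le_two H2 u))
        (by positivity)
  choose c hc using one
  refine ⟨T.roots.toFinset.sup fun a => c (T /ₘ (Polynomial.X - Polynomial.C a)),
    fun H H2 x hx => ?_⟩
  obtain ⟨a, ha, e⟩ := T.roots.toFinset.finite_toSet.isCompact.exists_infDist_eq_dist hne x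
  have hr : T.IsRoot a := by simpa [h0] using ha
  have e1 := congrArg (Polynomial.eval x) (Polynomial.mul_divByMonic_eq_iff_isRoot.2 hr)
  rw [e, dist_eq_norm, ← e1, Polynomial.eval_mul, norm_mul, mul_comm]
  refine mul_le_mul ((hc _ H H2 x hx).trans (pow_le_pow_right₀ (by linarith) ?_)) (by simp)
    (norm_nonneg _) (by positivity)
  exact Finset.le_sup (f := fun a => c (T /ₘ (Polynomial.X - Polynomial.C a))) ha

/-- extension of a solution to a disc of ordinary points -/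
theorem exists_ext {K ν : Type*} [Field K] [Algebra K ℂ] [Fintype ν] [DecidableEq ν]
    {T : Polynomial K} {B : Matrix ν ν (Polynomial K)} {U : Set ℂ} (ho : IsOpen U)
    (hc : Convex ℝ U) {P : ℂ → Matrix ν ν ℂ}
    (hP : ∀ t ∈ U, Polynomial.aeval t T ≠ 0 → (P t).det ≠ 0 ∧ MSol (AzK T B) P t) {s : ℂ}
    (hs : s ∈ U) {R : ℝ} (R0 : 0 < R) (hT : ∀ t ∈ closedBall s R, Polynomial.aeval t T ≠ 0) :
    ∃ Q : ℂ → Matrix ν ν ℂ, Fd T B (ball s R) Q ∧ ∀ t ∈ U ∩ ball s R, Q t = P t := by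
  have dq : ∀ q : Polynomial K, Differentiable ℂ fun t : ℂ => Polynomial.aeval t q := fun q => by
    simpa only [Polynomial.eval_map_algebraMap] using (q.map (algebraMap K ℂ)).differentiable
  have pB := mem_ball_self (x := s) R0
  have h1 : Hol (closedBall s R) (AzK T B) := fun i j =>
    (dq _).differentiableOn.fun_div (dq _).differentiableOn hT
  choose c hb using fun e : ν × ν =>
    (isCompact_closedBall s R).exists_bound_of_continuousOn (h1 e.1 e.2).continuousOn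
  have h2 : Hol (ball s R) (AzK T B) := h1.mono ball_subset_closedBall
  obtain ⟨Φ, Ψ, Φ0, -, hΦ⟩ := exists_fund (convex_ball s R) isOpen_ball pB h2 (c := ∑ e, |c e|)
    (fun t ht i j => ((hb (i, j) t (ball_subset_closedBall ht)).trans (le_abs_self _)).trans
      (Finset.single_le_sum (f := fun e => |c e|) (fun _ _ => abs_nonneg _) (Finset.mem_univ _)))
    (Finset.sum_nonneg fun _ _ => abs_nonneg _)
  have h3 : ∀ t ∈ ball s R, MSol (AzK T B) (fun z => Φ z * P s) t :=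
    fun t ht => (hΦ t ht).1.mul_const _
  refine ⟨fun z => Φ z * P s, fun t ht => ⟨hT t (ball_subset_closedBall ht), ?_, h3 t ht⟩,
    muniq (ho.inter isOpen_ball) (hc.inter (convex_ball s R)).isPreconnected
      (h2.mono Set.inter_subset_right) (fun t ht => h3 t ht.2)
      (fun t ht => (hP t ht.1 (hT t (ball_subset_closedBall ht.2))).2) ⟨hs, pB⟩ (by simp [Φ0])⟩
  rw [det_mul]
  refine mul_ne_zero (fun h => ?_) (hP s hs (hT s (ball_subset_closedBall pB))).1
  have := congrArg det (hΦ t ht).2.2.1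
  rw [det_mul, h, mul_zero, det_one] at this
  exact zero_ne_one this

end

end Pool.Agent.Lib.MP_5591bc_ag.W
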