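import Pool.Agent.Lib.MP_5591bc_ag.V.Bridge
import Pool.Agent.Lib.MP_5591bc_ag.W.Cover

/-! Continuation of a solution from a convex domain to a disc without singular points. -/

namespace Pool.Agent.Lib.MP_5591bc_ag.W

open Polynomial Filter Topology Metric Set Matrix G R V

variable {K ν : Type*} [Field K] [Algebra K ℂ] [Fintype ν] [DecidableEq ν]

theorem cov_aeval (q : K[X]) : Differentiable ℂ fun t : ℂ => aeval t q := by
  simpa only [eval_map_algebraMap] using (q.map (algebraMap K ℂ)).differentiable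

theorem cov_hol {T : K[X]} {B : Matrix ν ν K[X]} {U : Set ℂ} {P : ℂ → Matrix ν ν ℂ}
    (hP : FundK T B U P) : Hol U P := fun i j t ht => ((hP t ht).2 i j).1.differentiableWithinAt

theorem cov_msol {T : K[X]} {B : Matrix ν ν K[X]} {U : Set ℂ} {P : ℂ → Matrix ν ν ℂ}
    (hP : FundK T B U P) {t : ℂ} (ht : t ∈ U) (hT : aeval t T ≠ 0) :
    MSol (AzK T B) P t := fun i j => by
  obtain ⟨h1, h2⟩ := (hP t ht).2 i j
  refine h1.hasDerivAt.congr_deriv ?_
  rw [← mul_right_inj' hT, h2, mul_apply, Finset.mul_sum]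
  refine Finset.sum_congr rfl fun k _ => ?_
  change _ = _ * (aeval t (B i k) / aeval t T * _)
  rw [← mul_assoc, mul_div_cancel₀ _ hT]

theorem cov_fund {T : K[X]} {B : Matrix ν ν K[X]} {U : Set ℂ} {P : ℂ → Matrix ν ν ℂ}
    (hP : Fd T B U P) : FundK T B U P := fun t ht => by
  obtain ⟨hT, h1, h2⟩ := hP t ht
  refine ⟨h1, fun i j => ⟨(h2 i j).differentiableAt, ?_⟩⟩
  rw [(h2 i j).deriv, mul_apply, Finset.mul_sum]
  refine Finset.sum_congr rfl fun k _ => ?_
  change _ * (aeval t (B i k) / aeval t T * _) = _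
  rw [← mul_assoc, mul_div_cancel₀ _ hT]

/-- a solution on a convex domain extends to a disc without singular points -/
theorem cov_disc {T : K[X]} {B : Matrix ν ν K[X]} {U : Set ℂ} (hU : Convex ℝ U) (ho : IsOpen U)
    {P : ℂ → Matrix ν ν ℂ} (hP : FundK T B U P) {s : ℂ} (hs : s ∈ U) {ρ : ℝ} (ρ0 : 0 < ρ)
    (hρ : ∀ a : ℂ, aeval a T = 0 → ρ < ‖s - a‖) :
    ∃ Q : ℂ → Matrix ν ν ℂ, Fd T B (ball s ρ) Q ∧ ∀ t ∈ U ∩ ball s ρ, Q t = P t :=
  exists_ext ho hU (fun t ht hT => ⟨(hP t ht).1, cov_msol hP ht hT⟩) hs ρ0 fun t ht h => by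
    have := hρ t h
    rw [mem_closedBall, dist_comm, dist_eq_norm] at ht
    linarith

omit [Fintype ν] [DecidableEq ν] in
/-- connectedness passes to a continuation -/
theorem cov_conn {U U' : Set ℂ} (ho : IsOpen U) (hc : IsPreconnected U) (ho' : IsOpen U')
    (hc' : IsPreconnected U') {P P' : ℂ → Matrix ν ν ℂ} (hP : Hol U P) (hP' : Hol U' P') {p : ℂ}
    (pU : p ∈ U) (pU' : p ∈ U') (e : P' =ᶠ[𝓝 p] P) (h : Conn U P) : Conn U' P' := by
  rw [conn_iff ho hc hP pU] at h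
  rw [conn_iff ho' hc' hP' pU']
  have : (of fun i j => tay (P' · i j) p) = of fun i j => tay (P · i j) p := by
    ext1 i j
    exact tay_congr (e.mono fun t ht => by simp only [ht])
  rwa [this]

theorem cov_cont {r : ℕ} {U U' U'' : Set ℂ} {y y' y'' : ℂ → Fin r → ℂ} (h : Cont U y U' y')
    (h' : Cont U' y' U'' y'') : Cont U y U'' y'' := by
  induction h' with
  | base => exact h
  | step U1 U2 y1 y2 s _ o2 c2 d2 s1 s2 e ih => exact .step U1 U2 y1 y2 s ih o2 c2 d2 s1 s2 e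

theorem cov_contM {n : ℕ} {U U' U'' : Set ℂ} {y y' y'' : ℂ → Matrix (Fin n) (Fin n) ℂ}
    (h : Continuation U y U' y') (h' : Continuation U' y' U'' y'') : Continuation U y U'' y'' := by
  induction h' with
  | base => exact h
  | step U1 U2 y1 y2 s _ o2 c2 d2 s1 s2 e ih => exact .step U1 U2 y1 y2 s ih o2 c2 d2 s1 s2 e

/-- the degree `δ` property passes to a continuation -/
theorem cov_good {r δ : ℕ} {U U' : Set ℂ} (ho : IsOpen U) (hc : IsPreconnected U)
    {y y' : ℂ → Fin r → ℂ} (hy : ∀ i, DifferentiableOn ℂ (y · i) U) {p : ℂ} (pU : p ∈ U)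
    (pU' : p ∈ U') (e : y' =ᶠ[𝓝 p] y) {x : K} (ex : y' (algebraMap K ℂ x) = y (algebraMap K ℂ x))
    (h : GoodK U' y' δ x) : GoodK U y δ x := fun F hF h0 => by
  obtain ⟨H, h1, h2⟩ := h F hF (by rwa [ex])
  exact ⟨H, fun U2 y2 c2 => h1 U2 y2 (cov_cont (.step U' U y' y p .base ho hc hy pU' pU e) c2), h2⟩

theorem cov_goodM {n δ : ℕ} {U U' : Set ℂ} (ho : IsOpen U) (hc : IsPreconnected U)
    {P P' : ℂ → Matrix (Fin n) (Fin n) ℂ} (hP : Hol U P) {p : ℂ} (pU : p ∈ U)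
    (pU' : p ∈ U') (e : P' =ᶠ[𝓝 p] P) {x : K} (ex : P' (algebraMap K ℂ x) = P (algebraMap K ℂ x))
    (h : GoodM U' P' δ x) : GoodM U P δ x := fun F hF h0 => by
  obtain ⟨H, h1, h2⟩ := h F hF (by rwa [ex])
  exact ⟨H, fun U2 y2 c2 => h1 U2 y2 (cov_contM (.step U' U P' P p .base ho hc hP pU' pU e) c2), h2⟩

end Pool.Agent.Lib.MP_5591bc_ag.W
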