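import Pool.Agent.Lib.MP_5591bc_ag.W.Set
import Pool.Agent.Lib.MP_5591bc_ag.V.Rep

/-! From the linear form of the degree property to the degree property. -/

namespace Pool.Agent.Lib.MP_5591bc_ag.W

open Matrix Filter Topology PowerSeries G R H Metric NumberField

noncomputable section

variable {K : Type*} [Field K] [Algebra K ℂ] {U : Set ℂ}

theorem good_van {ν : Type*} {P : ℂ → Matrix ν ν ℂ} (ho : IsOpen U) (hc : IsPreconnected U)
    (hP : Hol U P) (H : MvPolynomial (Option (ν × ν)) K) {s : ℂ} (hs : s ∈ U)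
    (h : ∀ᶠ t in 𝓝 s, MvPolynomial.aeval (fun o => o.elim t fun a => P t a.1 a.2) H = 0) :
    ∀ t ∈ U, MvPolynomial.aeval (fun o => o.elim t fun a => P t a.1 a.2) H = 0 := by
  refine ident ho hc ?_ (differentiableOn_const 0) hs h
  clear h
  induction H using MvPolynomial.induction_on with
  | C a => simp
  | add p q hp hq => simpa using hp.fun_add hq
  | mul_X p i hp =>
    simp only [map_mul, MvPolynomial.aeval_X]
    rcases i with _ | i
    exacts [hp.fun_mul differentiableOn_id, hp.fun_mul (hP i.1 i.2)]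

theorem goodM_of {n δ : ℕ} {P : ℂ → Matrix (Fin n) (Fin n) ℂ} (ho : IsOpen U)
    (hc : IsPreconnected U) (hP : Hol U P) {x : K} (hx : algebraMap K ℂ x ∈ U)
    (h : ∀ F : Mo δ (Fin n) → K,
      (fun μ => algebraMap K ℂ (F μ)) ⬝ᵥ mono δ (P (algebraMap K ℂ x)) = 0 →
      ∃ h : Mo δ (Fin n) → Polynomial K, (∀ μ, (h μ).eval x = F μ) ∧
        ∀ᶠ t in 𝓝 (algebraMap K ℂ x),
          (fun μ => Polynomial.aeval t (h μ)) ⬝ᵥ mono δ (P t) = 0) : GoodM U P δ x := by
  intro F hF hF0
  obtain ⟨c, rfl⟩ := V.rep hF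
  obtain ⟨g, g1, g2⟩ := h c ((V.rep_eval c (algebraMap K ℂ) _).symm.trans hF0)
  refine ⟨∑ μ, Polynomial.aeval (MvPolynomial.X none) (g μ) *
    ∏ l, (μ l).elim 1 fun y => MvPolynomial.X (some y), fun U' P' hU => ?_, ?_⟩
  · generalize hH : (∑ μ, Polynomial.aeval (MvPolynomial.X none) (g μ) *
      ∏ l, (μ l).elim 1 fun y => MvPolynomial.X (some y) :
        MvPolynomial (Option (Fin n × Fin n)) K) = H
    have hp : ∀ (t : ℂ) (Y : Matrix (Fin n) (Fin n) ℂ),
        MvPolynomial.aeval (fun o => o.elim t fun a => Y a.1 a.2) H =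
          (fun μ => Polynomial.aeval t (g μ)) ⬝ᵥ mono δ Y := fun t Y => by
      rw [← hH, map_sum]
      refine Finset.sum_congr rfl fun μ _ => ?_
      rw [map_mul, ← Polynomial.aeval_algHom_apply, map_prod, MvPolynomial.aeval_X]
      exact congrArg₂ _ rfl (Finset.prod_congr rfl fun l _ => by cases e : μ l <;> simp [hatg])
    suffices IsOpen U' ∧ ∀ t ∈ U',
      MvPolynomial.aeval (fun o => o.elim t fun a => P' t a.1 a.2) H = 0 from this.2
    induction hU with
    | base => exact ⟨ho, good_van ho hc hP H hx (g2.mono fun t ht => (hp t _).trans ht)⟩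
    | step U1 U2 P1 P2 s' _ o2 c2 d2 s1 s2 e ih =>
      refine ⟨o2, good_van o2 c2 d2 H s2 ?_⟩
      filter_upwards [e, ih.1.mem_nhds s1] with t h3 h4
      rw [← h3]
      exact ih.2 t h4
  · rw [map_sum]
    refine Finset.sum_congr rfl fun μ _ => ?_
    rw [map_mul, ← Polynomial.aeval_algHom_apply, map_prod, MvPolynomial.aeval_X]
    refine congrArg₂ _ ?_ (Finset.prod_congr rfl fun l _ => by cases e : μ l <;> simp [hatg])
    beta_reduce
    rw [← g1, Option.elim_none, ← MvPolynomial.algebraMap_eq, Polynomial.aeval_algebraMap_apply,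
      Polynomial.coe_aeval_eq_eval]

end

end Pool.Agent.Lib.MP_5591bc_ag.W
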