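import Pool.Agent.Lib.MP_5591bc_ag.W.CovC
import Pool.Agent.Lib.MP_5591bc_ag.V.Orb

/-! A connected differential Galois group gives irreducible fibres. -/

namespace Pool.Agent.Lib.MP_5591bc_ag.W

open Matrix Filter Topology PowerSeries G R H Metric NumberField

noncomputable section

variable {K ν : Type*} [Field K] [Algebra K ℂ] [Fintype ν] [DecidableEq ν]
  {T : Polynomial K} {B : Matrix ν ν (Polynomial K)} {U : Set ℂ} {P Y : ℂ → Matrix ν ν ℂ} {s : ℂ}

/-- the fibre ideal is the ideal of the orbit -/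
theorem irrc_fib (hY : ∀ i j, AnalyticAt ℂ (Y · i j) s) {Γ : Set (Matrix ν ν ℂ)}
    (h : V.Orb s (of fun i j => tay (Y · i j) s) Γ) (Q : MvPolynomial (ν × ν) ℂ) :
    InFib Y s Q ↔ ∀ γ ∈ Γ, MvPolynomial.eval (ent γ) Q = 0 := by
  constructor
  · rintro ⟨H, h1, rfl⟩ γ hγ
    obtain ⟨q, hq⟩ : ∃ q : MvPolynomial (ν × ν) (Polynomial ℂ), ∀ (t : ℂ) (Z : ν × ν → ℂ),
        MvPolynomial.eval₂ (Polynomial.evalRingHom t) Z q =
          MvPolynomial.aeval (fun o => Option.elim o t Z) H := by
      clear h1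
      induction H using MvPolynomial.induction_on with
      | C a => exact ⟨MvPolynomial.C (Polynomial.C a), by simp⟩
      | add p q hp hq =>
        obtain ⟨p', hp⟩ := hp
        obtain ⟨q', hq⟩ := hq
        exact ⟨p' + q', fun t Z => by rw [MvPolynomial.eval₂_add, hp, hq, map_add]⟩
      | mul_X p i hp =>
        obtain ⟨p', hp⟩ := hp
        refine ⟨p' * i.elim (MvPolynomial.C Polynomial.X) MvPolynomial.X, fun t Z => ?_⟩
        rw [MvPolynomial.eval₂_mul, hp, map_mul]
        cases i <;> simp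
    have e := h.spec q ((V.brg_val hY q).2.symm.trans (((tay_congr (h := fun _ => 0)
      (h1.mono fun t ht => (hq t _).trans ht)).trans (tay_const 0)).trans (map_zero _))) γ hγ
    rw [hq] at e
    rw [← e, ← MvPolynomial.aeval_eq_eval, ← AlgHom.comp_apply, MvPolynomial.comp_aeval]
    congr 2
    ext (_ | a) <;> simp
  · intro hQ
    obtain ⟨c, hc⟩ := V.rep (p := Q) le_rfl
    obtain ⟨l, l1, l2⟩ := h.lift1 _ c fun γ hγ => by
      have := hQ γ hγ
      rw [hc] at this
      exact (V.rep_eval c (RingHom.id ℂ) γ).symm.trans this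
    have a := V.brg_val hY ((fun μ => MvPolynomial.C (l μ)) ⬝ᵥ
      V.vk Q.totalDegree (of fun i j => MvPolynomial.X (i, j)))
    have z := eventually_zero_of_tay a.1 (a.2.trans ((V.rep_eval l (V.τc s) _).trans l2))
    refine ⟨∑ μ, Polynomial.aeval (MvPolynomial.X none) (l μ) *
      ∏ i, (μ i).elim 1 fun y => MvPolynomial.X (some y), z.mono fun t ht => ?_, ?_⟩
    · refine Eq.trans ?_ ((V.rep_eval l (Polynomial.evalRingHom t) (Y t)).symm.trans ht)
      rw [map_sum]
      refine Finset.sum_congr rfl fun μ _ => ?_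
      rw [map_mul, ← Polynomial.aeval_algHom_apply, map_prod, MvPolynomial.aeval_X]
      exact congrArg₂ _ (by simp)
        (Finset.prod_congr rfl fun l _ => by cases e : μ l <;> simp [hatg])
    · refine Eq.trans ?_ hc.symm
      rw [map_sum]
      refine Finset.sum_congr rfl fun μ _ => ?_
      rw [map_mul, ← Polynomial.aeval_algHom_apply, map_prod, MvPolynomial.aeval_X]
      refine congrArg₂ _ ?_ (Finset.prod_congr rfl fun l _ => by cases e : μ l <;> simp [hatg])
      beta_reduce
      rw [← l1, Option.elim_none, ← MvPolynomial.algebraMap_eq, Polynomial.aeval_algebraMap_apply,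
        Polynomial.coe_aeval_eq_eval]

omit [DecidableEq ν] in
theorem irrc_ode (ho : IsOpen U) (hs : s ∈ U)
    (hY : ∀ t ∈ U, Polynomial.aeval t T ≠ 0 ∧ MSol (AzK T B) Y t) :
    V.τc s (T.map (algebraMap K ℂ)) • (of fun i j => tay (Y · i j) s).map (d⁄dX ℂ) =
      (B.map (Polynomial.map (algebraMap K ℂ))).map (V.τc s) * of fun i j => tay (Y · i j) s := by
  have hol : Hol U Y := hol_of_msol fun t ht => (hY t ht).2
  have a1 : ∀ i j, AnalyticAt ℂ (Y · i j) s := fun i j => (hol i j).analyticAt (ho.mem_nhds hs)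
  ext1 i j
  have := tay_congr (p := s) (g := fun t => (T.map (algebraMap K ℂ)).eval t * deriv (Y · i j) t)
    (h := fun t => ∑ k, ((B i k).map (algebraMap K ℂ)).eval t * Y t k j)
    ((ho.eventually_mem hs).mono fun t ht => by
      simp only [Polynomial.eval_map_algebraMap, ((hY t ht).2 i j).deriv, mul_apply, AzK, of_apply,
        Finset.mul_sum]
      exact Finset.sum_congr rfl fun k _ => by field_simp [(hY t ht).1])
  rw [tay_mul (Polynomial.differentiable _ |>.analyticAt s) (a1 i j).deriv, tay_deriv, V.tay_eval,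
    tay_sum _ fun k _ => (Polynomial.differentiable _ |>.analyticAt s).fun_mul (a1 k j)] at this
  simp only [Matrix.smul_apply, Matrix.map_apply, of_apply, smul_eq_mul, Matrix.mul_apply]
  refine this.trans (Finset.sum_congr rfl fun k _ => ?_)
  rw [tay_mul (Polynomial.differentiable _ |>.analyticAt s) (a1 k j), V.tay_eval]

theorem irr_of_connS (ho : IsOpen U) (hs : s ∈ U)
    (hY : ∀ t ∈ U, Polynomial.aeval t T ≠ 0 ∧ MSol (AzK T B) Y t) (h1 : Y s = 1)
    (hC : V.ConnS s (Set.range (V.evG s (of fun i j => tay (Y · i j) s)))) : Irr Y s := by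
  have hol : Hol U Y := hol_of_msol fun t ht => (hY t ht).2
  have a1 : ∀ i j, AnalyticAt ℂ (Y · i j) s := fun i j => (hol i j).analyticAt (ho.mem_nhds hs)
  obtain ⟨Γ, h⟩ := V.exists_orb (by rw [Polynomial.eval_map_algebraMap]; exact (hY s hs).1)
    (by ext i j; simp [← coeff_zero_eq_constantCoeff_apply, coeff_tay, h1]) (irrc_ode ho hs hY) hC
  intro Q Q' hQ
  simp only [irrc_fib a1 h] at hQ ⊢
  by_contra hn
  push Not at hn
  obtain ⟨γ, hγ, e1, e2⟩ := h.irr Q Q' hn.1 hn.2
  exact mul_ne_zero e1 e2 ((map_mul _ _ _).symm.trans (hQ γ hγ))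

theorem irr_of_conn (ho : IsOpen U) (hc : IsPreconnected U) (hP : Fd T B U P) (hC : V.Conn U P)
    (hs : s ∈ U) : Irr (fun t => P t * (P s)⁻¹) s := by
  have hol : Hol U P := hol_of_msol fun t ht => (hP t ht).2.2
  have a1 : ∀ i j, AnalyticAt ℂ (P · i j) s := fun i j => (hol i j).analyticAt (ho.mem_nhds hs)
  refine irr_of_connS (T := T) (B := B) ho hs (fun t ht => ⟨(hP t ht).1, fun i j => ?_⟩)
    (mul_nonsing_inv _ (hP s hs).2.1.isUnit)
    (((V.conn_iff ho hc hol hs).1 hC).mono (V.range_evG fun i j => ?_))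
  · rw [← Matrix.mul_assoc]
    exact HasDerivAt.fun_sum fun k _ => ((hP t ht).2.2 i k).mul_const _
  · refine ⟨∑ k, MvPolynomial.X (i, k) * MvPolynomial.C (Polynomial.C ((P s)⁻¹ k j)), ?_⟩
    simp only [mul_apply, of_apply]
    rw [tay_sum _ fun k _ => (a1 i k).fun_mul analyticAt_const, map_sum]
    refine Finset.sum_congr rfl fun k _ => ?_
    rw [tay_mul (a1 i k) analyticAt_const, tay_const]
    simp [V.evG, V.τc_C]

end

end Pool.Agent.Lib.MP_5591bc_ag.W
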