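import Pool.Agent.Lib.MP_5591bc_ag.W.GF

/-! Uniform constants of the G-series for systems over a number field. -/

namespace Pool.Agent.Lib.MP_5591bc_ag.W

open Matrix Filter Topology PowerSeries G R H Metric NumberField

noncomputable section

variable {K₀ ν : Type*} [Field K₀] [NumberField K₀] [Fintype ν] [DecidableEq ν]
  {T : Polynomial K₀} {B : Matrix ν ν (Polynomial K₀)}

theorem gf_gbK (h : GalK T B) : ∃ c : ℕ, ∀ (K : Type) [Field K] [NumberField K] [Algebra K₀ K] (n : ℕ)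
    (x : K), Hd x (2 ^ n) → (T.map (algebraMap K₀ K)).eval x ≠ 0 → 0 < n ∧
      GK (2 ^ (c * n)) fun p : ν × ν => GbK (T.map (algebraMap K₀ K)) (B.map (Polynomial.map (algebraMap K₀ K))) x p.1 p.2 := by
  obtain ⟨c, hc⟩ := gf_coreE.{0} h
  refine ⟨c, fun K _ _ _ n x ⟨H, H2, ⟨d, d0, dH, hi, hh⟩, hn⟩ T0 => ⟨?_, ?_⟩⟩
  · refine Nat.pos_of_ne_zero fun e => ?_
    have := (le_self_pow₀ (by linarith) (Module.finrank_pos (R := ℚ) (M := K)).ne').trans hn
    rw [e, pow_zero] at this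
    linarith
  rw [Polynomial.eval_map_algebraMap] at T0
  have e : H ^ (c * Module.finrank ℚ K) ≤ ((2 ^ (c * n) : ℕ) : ℝ) := by
    rw [mul_comm c, mul_comm c, pow_mul, pow_mul]
    push_cast
    exact pow_le_pow_left₀ (by positivity) hn c
  have e1 : (1 : ℝ) ≤ ((2 ^ (c * n) : ℕ) : ℝ) := by exact_mod_cast Nat.one_le_two_pow
  have ec : ∀ (p : ν × ν) k, coeff k (GbK (T.map (algebraMap K₀ K)) (B.map (Polynomial.map (algebraMap K₀ K))) x p.1 p.2) =
      Polynomial.aeval x (iterK T B k p.1 p.2) / (Polynomial.aeval x T ^ k * k.factorial) :=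
    fun p k => by
      rw [GbK, of_apply, coeff_mk, gf_iter_map, map_apply, Polynomial.eval_map_algebraMap,
        Polynomial.eval_map_algebraMap]
  refine ⟨2 ^ (c * n), by positivity, fun t => ?_⟩
  obtain ⟨h1, D, D0, D1, D2⟩ := hc K _ H x d le_rfl H2 d0 dH hi
    (fun φ => (norm_embedding_le_house x φ).trans hh) T0 t
  refine ⟨fun p σ => ?_, D, D0, ?_, fun p j hj => ?_⟩
  · rw [ec]
    exact (h1 _ _ σ).trans ((pow_le_pow_left₀ (by positivity) e t).trans
      (le_mul_of_one_le_left (by positivity) e1))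
  · rw [← pow_succ']
    exact_mod_cast D1.trans (pow_le_pow_left₀ (by positivity) e _)
  · rw [ec]
    exact D2 j hj _ _

theorem gk_adjK (h : GalK T B) (δ : ℕ) : ∃ c : ℕ, ∀ (K : Type) [Field K] [NumberField K] [Algebra K₀ K] (n : ℕ)
    (x : K), Hd x (2 ^ n) → (T.map (algebraMap K₀ K)).eval x ≠ 0 → ∀ Λ, c * n ≤ Λ →
      (GK (2 ^ Λ) fun p : Mo δ ν × Mo δ ν => Adj δ (GbK (T.map (algebraMap K₀ K)) (B.map (Polynomial.map (algebraMap K₀ K))) x) p.1 p.2) ∧
      ∀ F : Mo δ ν → K, GK (2 ^ Λ) (Lser (T.map (algebraMap K₀ K)) (B.map (Polynomial.map (algebraMap K₀ K))) δ x F) := by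
  obtain ⟨c, hc⟩ := gf_gbK h
  obtain ⟨q, hq⟩ : ∃ q : Matrix (Mo δ ν) (Mo δ ν) (MvPolynomial (ν × ν) ℤ),
      q = Adj δ (of fun i j => MvPolynomial.X (i, j)) := ⟨_, rfl⟩
  obtain ⟨D, hD⟩ : ∃ D, ∀ p : Mo δ ν × Mo δ ν, (q p.1 p.2).totalDegree ≤ D :=
    ⟨_, fun p => Finset.le_sup (f := fun p : Mo δ ν × Mo δ ν => (q p.1 p.2).totalDegree)
      (Finset.mem_univ p)⟩
  refine ⟨(c + 1) * D, fun K _ _ _ n x hx T0 Λ hΛ => ?_⟩
  obtain ⟨n0, k⟩ := hc K n x hx T0
  have k1 := k.poly (fun p : Mo δ ν × Mo δ ν => MvPolynomial.map (algebraMap ℤ K) (q p.1 p.2))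
    fun p => (Finset.sup_mono (MvPolynomial.support_map_subset _ _)).trans (hD p)
  have k2 : GK (2 ^ Λ) fun p : Mo δ ν × Mo δ ν => Adj δ (GbK (T.map (algebraMap K₀ K)) (B.map (Polynomial.map (algebraMap K₀ K))) x) p.1 p.2 := by
    refine (k1.mono ?_).of fun p => ⟨p, ?_⟩
    · rw [← pow_succ', ← pow_mul]
      refine Nat.pow_le_pow_right two_pos (le_trans ?_ hΛ)
      rw [mul_right_comm]
      exact Nat.mul_le_mul_right _ (by rw [add_mul]; omega)
    · have := congrFun₂ (gf_adj_map (MvPolynomial.aeval (R := ℤ)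
        fun p : ν × ν => GbK (T.map (algebraMap K₀ K)) (B.map (Polynomial.map (algebraMap K₀ K))) x p.1 p.2).toRingHom δ
          (of fun i j => MvPolynomial.X (i, j))) p.1 p.2
      rw [MvPolynomial.aeval_map_algebraMap, hq]
      refine Eq.trans ?_ this.symm
      congr 1
      ext1 i j
      simp
  exact ⟨k2, fun F => k2.lin (I := fun _ => Mo δ ν) (fun _ => Finset.univ) (fun _ => F)
    fun μ η => (η, μ)⟩

end

end Pool.Agent.Lib.MP_5591bc_ag.W
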