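import Pool.Agent.Lib.MP_5591bc_ag.W.Ser
import Pool.Agent.Lib.MP_5591bc_ag.W.GF0

/-! Symmetric covectors, and constants that are linear in the degree. -/

namespace Pool.Agent.Lib.MP_5591bc_ag.W

open Matrix Filter Topology PowerSeries G R H Finset

noncomputable section

/-- invariance under permutations of the slots -/
def Sy {α R : Type*} {δ : ℕ} (F : (Fin δ → α) → R) : Prop :=
  ∀ (π : Equiv.Perm (Fin δ)) (μ : Fin δ → α), F (μ ∘ π) = F μ

/-- the monomials up to order -/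
theorem sy_quot (β : Type) [Fintype β] (δ : ℕ) : ∃ (A : Type) (_ : Fintype A)
    (q : (Fin δ → Option β) → A) (ρ : A → Fin δ → Option β),
    Fintype.card A ≤ (δ + 1) ^ Fintype.card β ∧
      ∀ μ, ∃ π : Equiv.Perm (Fin δ), ρ (q μ) = μ ∘ π := by
  classical
  let c : (Fin δ → Option β) → β → Fin (δ + 1) := fun μ b => ⟨#{l | μ l = some b},
    Nat.lt_succ_of_le ((card_le_univ _).trans (Fintype.card_fin δ).le)⟩
  have k : ∀ μ : Fin δ → Option β, #{l | μ l = none} + ∑ b, #{l | μ l = some b} = δ := fun μ => by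
    have := card_eq_sum_card_fiberwise (f := μ) (s := univ) (t := univ) fun _ _ => mem_univ _
    rw [card_univ, Fintype.card_fin, Fintype.sum_option] at this
    exact this.symm
  refine ⟨Set.range c, inferInstance, fun μ => ⟨c μ, μ, rfl⟩, fun a => a.2.choose,
    (Fintype.card_subtype_le _).trans (by simp), fun μ => ?_⟩
  obtain ⟨η, hη, e⟩ : ∃ η, η = (⟨μ, rfl⟩ : c μ ∈ Set.range c).choose ∧ c η = c μ :=
    ⟨_, rfl, (⟨μ, rfl⟩ : c μ ∈ Set.range c).choose_spec⟩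
  have e1 : ∀ b, #{l | η l = some b} = #{l | μ l = some b} := fun b =>
    congrArg Fin.val (congrFun e b)
  have e2 : ∀ o, #{l | η l = o} = #{l | μ l = o} := by
    rintro (_ | b)
    · have := k η
      have := k μ
      simp only [e1] at *
      omega
    · exact e1 b
  have e3 : ∀ o, {l // η l = o} ≃ {l // μ l = o} := fun o =>
    Fintype.equivOfCardEq (by simpa only [Fintype.card_subtype] using e2 o)
  exact ⟨Equiv.ofFiberEquiv e3, hη.symm.trans
    (funext fun l => (Equiv.ofFiberEquiv_map e3 l).symm)⟩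

variable {ν : Type*} [Fintype ν] [DecidableEq ν] {δ : ℕ}

theorem sy_sum {α R : Type*} [Fintype α] [AddCommMonoid R] (π : Equiv.Perm (Fin δ))
    (f : (Fin δ → α) → R) : ∑ μ, f (μ ∘ π) = ∑ μ, f μ :=
  Equiv.sum_comp (π.symm.arrowCongr (Equiv.refl α)) f

theorem Sy.adj {R : Type*} [CommRing R] {F : Mo δ ν → R} (h : Sy F) (Y : Matrix ν ν R) :
    Sy (F ᵥ* Adj δ Y) := fun π μ => by
  simp only [vecMul, dotProduct]
  rw [← sy_sum π]
  refine sum_congr rfl fun η _ => ?_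
  rw [h]
  exact congrArg _ (Equiv.prod_comp π fun l => exg Y.det Y.adjugate (η l) (μ l))

theorem Sy.comp {α R S : Type*} {F : (Fin δ → α) → R} (h : Sy F) (f : R → S) :
    Sy fun μ => f (F μ) := fun π μ => congrArg f (h π μ)

variable {K : Type*} [Field K]

theorem Sy.lser {F : Mo δ ν → K} (h : Sy F) (T : Polynomial K) (B : Matrix ν ν (Polynomial K))
    (x : K) : Sy (Lser T B δ x F) := (h.comp _).adj _

theorem Sy.pX {u : Mo δ ν → ℂ} (h : Sy u) : Sy (pX δ u) := (h.comp _).adj _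

variable [Algebra K ℂ]

theorem Sy.lamF {F : Mo δ ν → K} (h : Sy F) (P : ℂ → Matrix ν ν ℂ) (x : K) (t : ℂ) :
    Sy (lamF P δ x F t) := (h.comp _).adj _

/-- a bad covector can be taken symmetric -/
theorem exists_sy {U : Set ℂ} {P : ℂ → Matrix ν ν ℂ} {x : K} {F : Mo δ ν → K}
    (hn : ¬ LG U P δ x F) : ∃ F' : Mo δ ν → K, Sy F' ∧ ¬ LG U P δ x F' ∧
      ∀ Y : Matrix ν ν ℂ, (fun μ => algebraMap K ℂ (F' μ)) ⬝ᵥ mono δ Y =
        (fun μ => algebraMap K ℂ (F μ)) ⬝ᵥ mono δ Y := by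
  have : CharZero K := (algebraMap K ℂ).charZero
  have n0 : (Fintype.card (Equiv.Perm (Fin δ)) : ℂ) ≠ 0 := Nat.cast_ne_zero.2 Fintype.card_ne_zero
  obtain ⟨F', hF⟩ : ∃ F' : Mo δ ν → K, F' = fun μ =>
    (Fintype.card (Equiv.Perm (Fin δ)) : K)⁻¹ * ∑ π : Equiv.Perm (Fin δ), F (μ ∘ π) := ⟨_, rfl⟩
  have e : ∀ Y : Matrix ν ν ℂ, (fun μ => algebraMap K ℂ (F' μ)) ⬝ᵥ mono δ Y =
      (fun μ => algebraMap K ℂ (F μ)) ⬝ᵥ mono δ Y := fun Y => by
    simp only [hF, dotProduct, map_mul, map_inv₀, map_natCast, map_sum, mul_assoc, ← mul_sum,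
      sum_mul]
    rw [sum_comm, inv_mul_eq_iff_eq_mul₀ n0, ← card_univ, ← nsmul_eq_mul, ← sum_const]
    refine sum_congr rfl fun π _ => ?_
    rw [← sy_sum π fun μ => algebraMap K ℂ (F μ) * mono δ Y μ]
    exact sum_congr rfl fun μ _ => congrArg _ (Equiv.prod_comp π fun l => hatg Y (μ l)).symm
  refine ⟨F', fun π μ => ?_, fun ⟨h, h1, h2⟩ => hn ⟨fun μ => h μ + Polynomial.C (F μ - F' μ),
    fun μ => by simp [h1], fun t ht => ?_⟩, e⟩
  · simp only [hF]
    exact congrArg _ (Equiv.sum_comp (Equiv.mulLeft π) fun π => F (μ ∘ π))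
  · have h3 := h2 t ht
    have h4 := e (P t)
    simp only [dotProduct, map_add, Polynomial.aeval_C, map_sub, add_mul, sub_mul, sum_add_distrib,
      sum_sub_distrib] at h3 h4 ⊢
    rw [h3, h4, sub_self, add_zero]

theorem gk_adjU {K₀ : Type*} [Field K₀] [NumberField K₀] {T : Polynomial K₀}
    {B : Matrix ν ν (Polynomial K₀)} (h : GalK T B) : ∃ c : ℕ, ∀ (δ : ℕ) (K : Type) [Field K]
    [NumberField K] [Algebra K₀ K] (n : ℕ) (x : K), Hd x (2 ^ n) →
    (T.map (algebraMap K₀ K)).eval x ≠ 0 → ∀ Λ, c * δ * n ≤ Λ →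
      (GK (2 ^ Λ) fun p : Mo δ ν × Mo δ ν => Adj δ (GbK (T.map (algebraMap K₀ K))
        (B.map (Polynomial.map (algebraMap K₀ K))) x) p.1 p.2) ∧
      ∀ F : Mo δ ν → K, GK (2 ^ Λ) (Lser (T.map (algebraMap K₀ K))
        (B.map (Polynomial.map (algebraMap K₀ K))) δ x F) := by
  obtain ⟨c, hc⟩ := gf_gbK h
  obtain ⟨M, hM⟩ : ∃ M : Matrix ν ν (MvPolynomial (ν × ν) ℤ),
      M = of fun i j => MvPolynomial.X (i, j) := ⟨_, rfl⟩
  obtain ⟨D, hD⟩ : ∃ D, ∀ p : Option (ν × ν) × Option (ν × ν),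
      (exg M.det M.adjugate p.1 p.2).totalDegree ≤ D :=
    ⟨_, fun p => le_sup (f := fun p : Option (ν × ν) × Option (ν × ν) =>
      (exg M.det M.adjugate p.1 p.2).totalDegree) (mem_univ p)⟩
  refine ⟨(c + 1) * D, fun δ K _ _ _ n x hx T0 Λ hΛ => ?_⟩
  have hq : ∀ p : Mo δ ν × Mo δ ν, (Adj δ M p.1 p.2).totalDegree ≤ δ * D := fun p =>
    (MvPolynomial.totalDegree_finsetProd univ _).trans ((sum_le_card_nsmul univ _ D fun l _ =>
      hD (p.1 l, p.2 l)).trans (by simp))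
  obtain ⟨n0, k⟩ := hc K n x hx T0
  have k1 := k.poly (fun p : Mo δ ν × Mo δ ν => MvPolynomial.map (algebraMap ℤ K) (Adj δ M p.1 p.2))
    fun p => (sup_mono (MvPolynomial.support_map_subset _ _)).trans (hq p)
  have k2 : GK (2 ^ Λ) fun p : Mo δ ν × Mo δ ν => Adj δ (GbK (T.map (algebraMap K₀ K))
      (B.map (Polynomial.map (algebraMap K₀ K))) x) p.1 p.2 := by
    refine (k1.mono ?_).of fun p => ⟨p, ?_⟩
    · rw [← pow_succ', ← pow_mul]
      refine Nat.pow_le_pow_right two_pos (le_trans ?_ hΛ)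
      calc _ ≤ (c + 1) * n * (δ * D) := Nat.mul_le_mul_right _ (by rw [add_mul]; omega)
        _ = _ := by ring
    · have := congrFun₂ (gf_adj_map (MvPolynomial.aeval (R := ℤ) fun p : ν × ν =>
        GbK (T.map (algebraMap K₀ K)) (B.map (Polynomial.map (algebraMap K₀ K))) x p.1 p.2).toRingHom
          δ M) p.1 p.2
      rw [MvPolynomial.aeval_map_algebraMap]
      refine Eq.trans ?_ this.symm
      congr 1
      ext1 i j
      simp [hM]
  exact ⟨k2, fun F => k2.lin (I := fun _ => Mo δ ν) (fun _ => univ) (fun _ => F)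
    fun μ η => (η, μ)⟩

end

end Pool.Agent.Lib.MP_5591bc_ag.W
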