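import Pool.Agent.Lib.MP_5591bc_ag.H.Zero
import Pool.Agent.Lib.MP_5591bc_ag.GOde
import Pool.Agent.Lib.MP_5591bc_ag.GTay

/-! Descent of a relation from the centre of a disc to a point of the disc. -/

namespace Pool.Agent.Lib.MP_5591bc_ag.W

open Matrix Polynomial Filter Topology G H

noncomputable section

variable {F A : Type*} [Field F] [Algebra F ℂ] [Fintype A]

theorem da_pi (π : Module.Dual F ℂ) (r : ℂ[X]) : ∃ p : F[X], ∀ n, p.coeff n = π (r.coeff n) :=
  ⟨∑ n ∈ r.support, monomial n (π (r.coeff n)), fun n => by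
    rw [finsetSum_coeff, Finset.sum_eq_single n (fun m _ h => coeff_monomial_of_ne _ h.symm)
      fun h => by rw [notMem_support_iff.1 h, map_zero, map_zero, coeff_zero], coeff_monomial_same]⟩

/-- a vector orthogonal to the relations over `F` is orthogonal to the complex relations -/
theorem da_perp {x : F} {Φ : A → PowerSeries F} {h : A → F[X]}
    (hh : ∀ ρ, pr (tk x) Φ ρ = 0 → ρ ⬝ᵥ h = 0) {q : A → ℂ[X]}
    (hq : ∑ a, tk (algebraMap F ℂ x) (q a) * PowerSeries.map (algebraMap F ℂ) (Φ a) = 0) :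
    ∑ a, q a * (h a).map (algebraMap F ℂ) = 0 := by
  refine taylor_injective (algebraMap F ℂ x) ?_
  rw [map_zero]
  ext n
  refine (Module.forall_dual_apply_eq_zero_iff F _).1 fun π => ?_
  choose p hp using fun a => da_pi π (taylor (algebraMap F ℂ x) (q a))
  have a1 := hh (fun a => taylor (-x) (p a)) (PowerSeries.ext fun m => by
    have := congrArg (fun z => π (PowerSeries.coeff m z)) hq
    simp only [map_sum, PowerSeries.coeff_mul, tk_apply, coeff_coe, PowerSeries.coeff_map,
      map_zero] at this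
    simp only [pr, map_sum, PowerSeries.coeff_mul, tk_apply, coeff_coe, taylor_taylor,
      add_neg_cancel, taylor_zero, map_zero, hp]
    rw [← this]
    refine Finset.sum_congr rfl fun a _ => Finset.sum_congr rfl fun i _ => ?_
    rw [mul_comm (coeff _ _), ← Algebra.smul_def, map_smul, smul_eq_mul, mul_comm])
  have a2 := congrArg (fun z => (taylor x z).coeff n) a1
  simp only [dotProduct, map_sum, taylor_mul, taylor_taylor, add_neg_cancel, taylor_zero,
    finsetSum_coeff, coeff_mul, hp, map_zero, coeff_zero] at a2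
  simp only [map_sum, taylor_mul, finsetSum_coeff, coeff_mul]
  rw [← a2]
  refine Finset.sum_congr rfl fun a _ => Finset.sum_congr rfl fun i _ => ?_
  rw [← map_taylor, coeff_map, mul_comm (coeff _ _), ← Algebra.smul_def, map_smul, smul_eq_mul,
    mul_comm]

theorem desc_abs [CharZero F] [DecidableEq A] {T τ : F[X]} {B : Matrix A A F[X]} {D : Set ℂ}
    (ho : IsOpen D) (hc : IsPreconnected D) {s : ℂ} (hs : s ∈ D) (hTs : aeval s T ≠ 0) {x : F}
    (hx : algebraMap F ℂ x ∈ D) (hTx : T.eval x ≠ 0) {g y : ℂ → A → ℂ}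
    (hg : ∀ a, DifferentiableOn ℂ (g · a) D) (hy : ∀ a, DifferentiableOn ℂ (y · a) D)
    (odeY : ∀ t ∈ D, ∀ a, aeval t T * deriv (y · a) t = ∑ b, aeval t (B a b) * y t b)
    {Φ : A → PowerSeries F}
    (hΦ : ∀ a, tay (g · a) (algebraMap F ℂ x) = PowerSeries.map (algebraMap F ℂ) (Φ a))
    (odeΦ : IsS (tk x) T (τ • 1 - Bᵀ) Φ) {q : A → ℂ[X]}
    (hq : ∀ᶠ t in 𝓝 s, ∑ a, (q a).eval t * g t a = 0) (hq0 : ∀ a, (q a).eval s = y s a) :
    ∃ h : A → F[X], (∀ a, (h a).eval x = PowerSeries.constantCoeff (Φ a)) ∧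
      ∀ t ∈ D, ∑ a, aeval t (h a) * y t a = 0 := by
  let S : Submodule F[X] (A → F[X]) :=
    { carrier := {ρ | pr (tk x) Φ ρ = 0}
      add_mem' := fun {a b} ha hb => by
        simp only [Set.mem_ofPred_eq] at *
        rw [pr_add, ha, hb, add_zero]
      zero_mem' := pr_zero
      smul_mem' := fun c a ha => by
        simp only [Set.mem_ofPred_eq] at *
        rw [pr_smul, ha, mul_zero] }
  have hS : ∀ ρ ∈ S, Dc T (τ • 1 - Bᵀ)ᵀ ρ ∈ S := fun ρ h => by
    change pr _ _ _ = 0 at h ⊢
    rw [pr_Dc (tk_deriv x) odeΦ, h, map_zero, mul_zero]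
  obtain ⟨h, h1, h2⟩ := fibre S hS hTx (F := fun a => PowerSeries.constantCoeff (Φ a)) fun ρ h => by
    have := congrArg PowerSeries.constantCoeff (show pr (tk x) Φ ρ = 0 from h)
    simpa [pr, tk_apply, ev, dotProduct, taylor_coeff_zero] using this
  refine ⟨h, fun a => congrFun h2 a, ?_⟩
  have dif : ∀ {z : ℂ → A → ℂ}, (∀ a, DifferentiableOn ℂ (z · a) D) → ∀ p : A → ℂ[X],
      DifferentiableOn ℂ (fun t => ∑ a, (p a).eval t * z t a) D := fun hz p =>
    DifferentiableOn.fun_sum fun a _ => (p a).differentiableOn.fun_mul (hz a)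
  have a1 : ∑ a, tk (algebraMap F ℂ x) (q a) * PowerSeries.map (algebraMap F ℂ) (Φ a) = 0 := by
    have b1 := ident ho hc (dif hg q) (differentiableOn_const 0) hs hq
    have b2 : ∀ a, AnalyticAt ℂ (g · a) (algebraMap F ℂ x) := fun a =>
      (hg a).analyticAt (ho.mem_nhds hx)
    have b3 := tay_congr (p := algebraMap F ℂ x) (mem_of_superset (ho.mem_nhds hx) b1)
    rw [tay_const, map_zero, tay_sum _ fun a _ =>
      ((q a).differentiable.analyticAt _).fun_mul (b2 a)] at b3
    rw [← b3]
    refine Finset.sum_congr rfl fun a _ => ?_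
    rw [tay_mul ((q a).differentiable.analyticAt _) (b2 a), tay_poly, hΦ, tk_apply]
  have key := iov (p := s) (T := fun t => aeval t T)
    (F := (fun (h : A → F[X]) t => ∑ a, ((h a).map (algebraMap F ℂ)).eval t * y t a) ''
      {h | ∀ ρ ∈ S, ρ ⬝ᵥ h = 0})
    (by simpa only [eval_map_algebraMap] using (T.map (algebraMap F ℂ)).differentiable.analyticAt s)
    hTs ?_ ?_ ?_ _ ⟨h, h1, rfl⟩
  · exact fun t ht => by simpa only [eval_map_algebraMap] using (ident ho hc
      (dif hy fun a => (h a).map (algebraMap F ℂ)) (differentiableOn_const 0) hs key ht)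
  · rintro _ ⟨h, -, rfl⟩
    exact (dif hy _).analyticAt (ho.mem_nhds hs)
  · rintro _ ⟨h, hh, rfl⟩
    have := congrArg (eval s) (da_perp hh a1)
    simpa only [eval_finsetSum, eval_mul, hq0, eval_zero, mul_comm] using this
  · rintro _ ⟨h, hh, rfl⟩
    refine ⟨_, ⟨T • (fun a => derivative (h a)) + h ᵥ* B, fun ρ hρ => ?_, rfl⟩, ?_⟩
    · have b1 := hh _ (hS ρ hρ)
      have b2 := congrArg derivative (hh ρ hρ)
      have b3 : derivative (ρ ⬝ᵥ h) =
          (fun a => derivative (ρ a)) ⬝ᵥ h + ρ ⬝ᵥ fun a => derivative (h a) := by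
        simp [dotProduct, Finset.sum_add_distrib]
      rw [b3, derivative_zero] at b2
      rw [Dc, transpose_sub, transpose_smul, transpose_one, transpose_transpose, sub_mulVec,
        smul_mulVec, one_mulVec, add_dotProduct, sub_dotProduct, smul_dotProduct, smul_dotProduct,
        hh ρ hρ, smul_zero, smul_eq_mul, dotProduct_comm (B *ᵥ ρ), dotProduct_mulVec] at b1
      rw [dotProduct_add, dotProduct_smul, smul_eq_mul, dotProduct_comm ρ (h ᵥ* B)]
      linear_combination T * b2 - b1
    · filter_upwards [ho.mem_nhds hs] with t ht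
      have b1 : ∀ a, DifferentiableAt ℂ (y · a) t := fun a =>
        (hy a).differentiableAt (ho.mem_nhds ht)
      have b2 : ∀ a, aeval t T * deriv (fun t => ((h a).map (algebraMap F ℂ)).eval t * y t a) t =
          aeval t T * (aeval t (derivative (h a)) * y t a) +
            ∑ b, aeval t (h a) * (aeval t (B a b) * y t b) := fun a => by
        rw [deriv_fun_mul (Polynomial.differentiableAt _) (b1 a), Polynomial.deriv, derivative_map,
          eval_map_algebraMap, eval_map_algebraMap, ← Finset.mul_sum, ← odeY t ht]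
        ring
      rw [deriv_fun_sum fun a _ => (Polynomial.differentiableAt _).fun_mul (b1 a), Finset.mul_sum]
      simp only [b2]
      simp only [Finset.sum_add_distrib, eval_map_algebraMap, Pi.add_apply, Pi.smul_apply,
        smul_eq_mul, map_add, map_mul, add_mul, vecMul, dotProduct, map_sum, Finset.sum_mul,
        mul_assoc]
      rw [Finset.sum_comm]

end

end Pool.Agent.Lib.MP_5591bc_ag.W
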