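import Pool.Agent.Lib.MP_5591bc_ag.H.Zero
import Pool.Agent.Lib.MP_5591bc_ag.GTay

/-! Modules of series stable under a connection are saturated at an ordinary point. -/

namespace Pool.Agent.Lib.MP_5591bc_ag.W

open Matrix Filter Topology PowerSeries G H

noncomputable section

variable {k : Type*} [Field k] {T : Polynomial k} {N N' : Submodule (Polynomial k) k⟦X⟧}

/-- stability under `T d/dX` -/
def DSt (T : Polynomial k) (N : Submodule (Polynomial k) k⟦X⟧) : Prop :=
  ∀ a ∈ N, (T : k⟦X⟧) * d⁄dX k a ∈ N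

theorem db_smul (p : Polynomial k) (a : k⟦X⟧) : p • a = (p : k⟦X⟧) * a := by
  rw [Algebra.smul_def, algebraMap_apply', Algebra.algebraMap_self, PowerSeries.map_id]
  rfl

theorem db_mem (p : Polynomial k) {a : k⟦X⟧} (h : a ∈ N) : (p : k⟦X⟧) * a ∈ N :=
  db_smul p a ▸ N.smul_mem p h

theorem DSt.span {α : Type*} {Φ : α → k⟦X⟧}
    (h : ∀ a, (T : k⟦X⟧) * d⁄dX k (Φ a) ∈ Submodule.span (Polynomial k) (Set.range Φ)) :
    DSt T (Submodule.span (Polynomial k) (Set.range Φ)) := fun a ha => by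
  induction ha using Submodule.span_induction with
  | mem y hy =>
    obtain ⟨i, rfl⟩ := hy
    exact h i
  | zero => simp
  | add x y _ _ hx hy => rw [map_add, mul_add]; exact add_mem hx hy
  | smul p x hx0 hx =>
    have := add_mem (db_mem p hx) (db_mem (T * p.derivative) hx0)
    convert this using 1
    rw [db_smul, Derivation.leibniz, derivative_coe]
    simp only [smul_eq_mul, Polynomial.coe_mul]
    ring

theorem db_tors [CharZero k] (hT : T.eval 0 ≠ 0) (hN : DSt T N) (hN' : DSt T N') (fg : N'.FG)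
    {a : k⟦X⟧} (ha : a ∈ N') (h : X * a ∈ N) : a ∈ N := by
  have hX : ∀ {b : k⟦X⟧}, b ∈ N → X * b ∈ N := fun hb => by simpa using db_mem Polynomial.X hb
  have step : ∀ n : ℕ, (∀ b ∈ N', X ^ (n + 2) * b ∈ N → X ^ (n + 1) * b ∈ N) →
      ∀ b ∈ N', X ^ (n + 1) * b ∈ N → X ^ n * b ∈ N := fun n hn b hb h1 => by
    have e : (T : k⟦X⟧) * d⁄dX k (X ^ (n + 1) * b) =
        X ^ (n + 1) * ((T : k⟦X⟧) * d⁄dX k b) +
          ((n : k⟦X⟧) + 1) * (T : k⟦X⟧) * (X ^ n * b) := by
      rw [Derivation.leibniz, Derivation.leibniz_pow, derivative_X]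
      simp only [smul_eq_mul, nsmul_eq_mul, add_tsub_cancel_right]
      push_cast
      ring
    have h2 := hN _ h1
    have h3 := hn _ (hN' b hb) (by
      have := sub_mem (hX h2) (db_mem (((n : Polynomial k) + 1) * T) h1)
      convert this using 1
      rw [e, ← Polynomial.coeToPowerSeries.ringHom_apply (φ := _ * T), map_mul, map_add,
        map_natCast, map_one, Polynomial.coeToPowerSeries.ringHom_apply]
      ring)
    have h4 := sub_mem h2 h3
    rw [e, add_sub_cancel_left] at h4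
    have c0 : ((n : k) + 1) * T.eval 0 ≠ 0 := mul_ne_zero (Nat.cast_add_one_ne_zero n) hT
    have h5 := db_mem (Polynomial.C (((n : k) + 1) * T.eval 0)⁻¹)
      (sub_mem h4 (db_mem (((n : Polynomial k) + 1) * T.divX) h1))
    convert h5 using 1
    have e2 : (T : k⟦X⟧) = (T.divX : k⟦X⟧) * X + C (T.eval 0) := by
      conv_lhs => rw [← Polynomial.divX_mul_X_add T]
      simp [Polynomial.coeff_zero_eq_eval_zero]
    have e3 : C (((n : k) + 1) * T.eval 0)⁻¹ * (((n : k⟦X⟧) + 1) * C (T.eval 0)) = 1 := by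
      rw [← map_natCast (C : k →+* k⟦X⟧), ← map_one (C : k →+* k⟦X⟧), ← map_add, ← map_mul,
        ← map_mul, inv_mul_cancel₀ c0]
    rw [← Polynomial.coeToPowerSeries.ringHom_apply (φ := _ * T.divX), map_mul, map_add,
        map_natCast, map_one, Polynomial.coeToPowerSeries.ringHom_apply, Polynomial.coe_C, e2]
    linear_combination (-(X ^ n * b)) * e3
  have : IsNoetherian (Polynomial k) N' := isNoetherian_of_fg_of_noetherian N' fg
  obtain ⟨n, hn⟩ := monotone_stabilizes_iff_noetherian.2 this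
    ⟨fun n => N.comap ((Polynomial.X ^ n : Polynomial k) • N'.subtype),
      monotone_nat_of_le_succ fun n b hb => by
        simpa [db_smul, pow_succ', mul_assoc] using hX (by simpa [db_smul] using hb)⟩
  have key : ∀ n : ℕ, (∀ b ∈ N', X ^ (n + 1) * b ∈ N → X ^ n * b ∈ N) → a ∈ N := fun n => by
    induction n with
    | zero => exact fun h0 => by simpa using h0 a ha (by simpa using h)
    | succ n ih => exact fun h0 => ih (step n h0)
  refine key n fun b hb h1 => ?_
  have := SetLike.ext_iff.1 (hn (n + 1) n.le_succ) ⟨b, hb⟩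
  simp only [OrderHom.coe_mk, Submodule.mem_comap, LinearMap.smul_apply, db_smul,
    Polynomial.coe_pow, Polynomial.coe_X] at this
  exact this.2 h1

/-- series lying in a finitely generated stable module -/
def DZs (T : Polynomial k) : Subring k⟦X⟧ where
  carrier := {a | ∃ N : Submodule (Polynomial k) k⟦X⟧, N.FG ∧ DSt T N ∧ a ∈ N}
  add_mem' := fun ⟨N, f, s, m⟩ ⟨N', f', s', m'⟩ => ⟨N ⊔ N', f.sup f', fun a ha => by
    obtain ⟨y, hy, z, hz, rfl⟩ := Submodule.mem_sup.1 ha
    rw [map_add, mul_add]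
    exact Submodule.add_mem_sup (s y hy) (s' z hz), Submodule.add_mem_sup m m'⟩
  mul_mem' := fun ⟨N, f, s, m⟩ ⟨N', f', s', m'⟩ => ⟨N * N', f.mul f', fun a ha => by
    refine Submodule.mul_induction_on ha (fun y hy z hz => ?_) fun y z hy hz => ?_
    · convert add_mem (Submodule.mul_mem_mul hy (s' z hz)) (Submodule.mul_mem_mul (s y hy) hz)
        using 1
      rw [Derivation.leibniz]
      simp only [smul_eq_mul]
      ring
    · rw [map_add, mul_add]; exact add_mem hy hz, Submodule.mul_mem_mul m m'⟩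
  one_mem' := ⟨_, Submodule.fg_span (Set.finite_range _),
    DSt.span (Φ := fun _ : Unit => 1) (by simp), Submodule.subset_span ⟨(), rfl⟩⟩
  zero_mem' := ⟨⊥, Submodule.fg_bot, fun a ha => by simp_all, Submodule.zero_mem _⟩
  neg_mem' := fun ⟨N, f, s, m⟩ => ⟨N, f, s, N.neg_mem m⟩

theorem DZs.poly (p : Polynomial k) : (p : k⟦X⟧) ∈ DZs T :=
  let ⟨N, f, s, m⟩ := (DZs T).one_mem
  ⟨N, f, s, by simpa using db_mem p m⟩

theorem db_aeval {σ : Type*} {v w : σ → k⟦X⟧} (hw : ∀ o, w o ∈ DZs T)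
    (hv : ∀ o, ∃ G ∈ DZs T, v o = w o + X * G) (H : MvPolynomial σ k) :
    MvPolynomial.aeval w H ∈ DZs T ∧
      ∃ G ∈ DZs T, MvPolynomial.aeval v H = MvPolynomial.aeval w H + X * G := by
  induction H using MvPolynomial.induction_on with
  | C a => exact ⟨by simpa using DZs.poly (T := T) (Polynomial.C a), 0, zero_mem _, by simp⟩
  | add p q hp hq =>
    obtain ⟨a1, G, a2, a3⟩ := hp
    obtain ⟨b1, G', b2, b3⟩ := hq
    exact ⟨by rw [map_add]; exact add_mem a1 b1, G + G', add_mem a2 b2, by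
      rw [map_add, map_add, a3, b3]; ring⟩
  | mul_X p o hp =>
    obtain ⟨a1, G, a2, a3⟩ := hp
    obtain ⟨G', b2, b3⟩ := hv o
    simp only [map_mul, MvPolynomial.aeval_X]
    exact ⟨mul_mem a1 (hw o), _, add_mem (add_mem (mul_mem a1 b2) (mul_mem a2 (hw o)))
      (mul_mem (mul_mem a2 b2) (by simpa using DZs.poly (T := T) Polynomial.X)), by
      rw [a3, b3]; ring⟩

theorem db_tayA {σ : Type*} {f : σ → ℂ → ℂ} {s : ℂ} (hf : ∀ o, AnalyticAt ℂ (f o) s)
    (H : MvPolynomial σ ℂ) : AnalyticAt ℂ (fun t => MvPolynomial.aeval (f · t) H) s ∧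
      tay (fun t => MvPolynomial.aeval (f · t) H) s =
        MvPolynomial.aeval (fun o => tay (f o) s) H := by
  induction H using MvPolynomial.induction_on with
  | C a => exact ⟨by simpa using analyticAt_const, by simpa using tay_const a⟩
  | add p q hp hq =>
    simp only [map_add]
    exact ⟨hp.1.fun_add hq.1, by rw [tay_add hp.1 hq.1, hp.2, hq.2]⟩
  | mul_X p o hp =>
    simp only [map_mul, MvPolynomial.aeval_X]
    exact ⟨hp.1.fun_mul (hf o), by rw [tay_mul hp.1 (hf o), hp.2]⟩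

variable {A : Type*} [Fintype A]

theorem db_tayO {g : ℂ → A → ℂ} {s : ℂ} (hg : ∀ a, AnalyticAt ℂ (g · a) s) {T : Polynomial ℂ}
    {B : Matrix A A (Polynomial ℂ)}
    (h : ∀ᶠ t in 𝓝 s, ∀ a, T.eval t * deriv (g · a) t = ∑ b, (B a b).eval t * g t b) :
    IsS (tk s) T B fun a => tay (g · a) s := fun a => by
  have := tay_congr (h.mono fun t ht => ht a)
  rw [tay_mul (T.differentiable.analyticAt s) (hg a).deriv, tay_deriv, tay_poly,
    tay_sum _ fun b _ => ((B a b).differentiable.analyticAt s).fun_mul (hg b)] at this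
  refine this.trans (Finset.sum_congr rfl fun b _ => ?_)
  rw [tay_mul ((B a b).differentiable.analyticAt s) (hg b), tay_poly, tk_apply]

theorem DSt.ofS {x : k} {B : Matrix A A (Polynomial k)} {Φ : A → k⟦X⟧} (h : IsS (tk x) T B Φ) :
    DSt (Polynomial.taylor x T) (Submodule.span (Polynomial k) (Set.range Φ)) :=
  DSt.span fun a => (h a).symm ▸ sum_mem fun b _ => db_mem _ (Submodule.subset_span ⟨b, rfl⟩)

/-- a linear form which is the value at `s` of a relation is the value of a linear relation -/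
theorem desc_lin {σ : Type*} [Fintype σ] {s : ℂ} {T : Polynomial ℂ} (hT : T.eval s ≠ 0)
    {Y : ℂ → σ → ℂ} (hY : ∀ a, AnalyticAt ℂ (Y · a) s) {B : Matrix σ σ (Polynomial ℂ)}
    (oY : ∀ᶠ t in 𝓝 s, ∀ a, T.eval t * deriv (Y · a) t = ∑ b, (B a b).eval t * Y t b)
    {g : ℂ → A → ℂ} (hg : ∀ a, AnalyticAt ℂ (g · a) s) {B' : Matrix A A (Polynomial ℂ)}
    (og : ∀ᶠ t in 𝓝 s, ∀ a, T.eval t * deriv (g · a) t = ∑ b, (B' a b).eval t * g t b)
    {H : MvPolynomial (Option σ) ℂ} {m : A → ℂ}
    (h1 : ∀ᶠ t in 𝓝 s, MvPolynomial.aeval (fun o => o.elim t (Y t)) H = 0)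
    (h2 : ∀ᶠ t in 𝓝 s, MvPolynomial.aeval (fun o => o.elim s (Y t)) H = ∑ a, m a * g t a) :
    ∃ q : A → Polynomial ℂ, (∀ᶠ t in 𝓝 s, ∑ a, (q a).eval t * g t a = 0) ∧
      ∀ a, (q a).eval s = m a := by
  have a1 := tay_congr h1
  have a2 := tay_congr h2
  rw [(db_tayA (f := fun o t => o.elim t (Y t)) (by
    rintro (_ | a)
    exacts [analyticAt_id, hY a]) H).2, tay_const, map_zero] at a1
  rw [(db_tayA (f := fun o t => o.elim s (Y t)) (by
    rintro (_ | a)
    exacts [analyticAt_const, hY a]) H).2,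
    tay_sum _ fun a _ => analyticAt_const.fun_mul (hg a)] at a2
  simp only [tay_cmul (hg _)] at a2
  obtain ⟨-, G, ⟨N', f, s', hG⟩, e⟩ := db_aeval (T := Polynomial.taylor s T)
    (v := fun o : Option σ => tay (fun t => o.elim t (Y t)) s)
    (w := fun o : Option σ => tay (fun t => o.elim s (Y t)) s) (by
      rintro (_ | a)
      · simpa [tay_const] using DZs.poly (Polynomial.C s)
      · exact ⟨_, Submodule.fg_span (Set.finite_range _), DSt.ofS (db_tayO hY oY),
          Submodule.subset_span ⟨a, rfl⟩⟩) (by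
      rintro (_ | a)
      · exact ⟨1, one_mem _, by simpa [tay_const, add_comm] using tay_poly (p := s) Polynomial.X⟩
      · exact ⟨0, zero_mem _, by simp⟩) H
  rw [a1, a2] at e
  obtain ⟨p, hp⟩ := (Submodule.mem_span_range_iff_exists_fun _).1
    (db_tors (by rwa [← Polynomial.coeff_zero_eq_eval_zero, Polynomial.taylor_coeff_zero])
      (DSt.ofS (db_tayO hg og)) s' f hG (by
        rw [eq_neg_of_add_eq_zero_right e.symm]
        exact neg_mem (sum_mem fun a _ => by
          rw [← Polynomial.coe_C]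
          exact db_mem _ (Submodule.subset_span ⟨a, rfl⟩))))
  refine ⟨fun a => Polynomial.taylor (-s) (Polynomial.C (m a) + Polynomial.X * p a), ?_,
    fun a => by simp [Polynomial.taylor_eval]⟩
  have an := fun (q : Polynomial ℂ) => q.differentiable.analyticAt s
  refine eventually_zero_of_tay (Finset.analyticAt_fun_sum _ fun a _ => (an _).fun_mul (hg a)) ?_
  rw [tay_sum _ fun a _ => (an _).fun_mul (hg a), e, ← hp, Finset.mul_sum,
    ← Finset.sum_add_distrib]
  refine Finset.sum_congr rfl fun a _ => ?_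
  rw [tay_mul (an _) (hg a), tay_poly, Polynomial.taylor_taylor, add_neg_cancel,
    Polynomial.taylor_zero, db_smul]
  simp [add_mul, mul_assoc]

end

end Pool.Agent.Lib.MP_5591bc_ag.W
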