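import Pool.Agent.Lib.MP_5591bc_ag.W.Ser
import Pool.Agent.Lib.MP_5591bc_ag.W.DescA
import Pool.Agent.Lib.MP_5591bc_ag.W.DescB

/-! From the fibre ideal to the degree property. -/

namespace Pool.Agent.Lib.MP_5591bc_ag.W

open Matrix Filter Topology PowerSeries G R H Metric NumberField

noncomputable section

variable {K ν : Type*} [Field K] [Algebra K ℂ] [Fintype ν] [DecidableEq ν]
  {T : Polynomial K} {B : Matrix ν ν (Polynomial K)} {U : Set ℂ} {P : ℂ → Matrix ν ν ℂ}

theorem dc_det {A Y : ℂ → Matrix ν ν ℂ} {t : ℂ} (h : MSol A Y t) :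
    HasDerivAt (fun s => (Y s).det) ((A t).trace * (Y t).det) t := by
  have e : ∀ i, ((Y t).updateCol i fun j => (A t * Y t) j i).det =
      ((Y t).adjugate * (A t * Y t)) i i := fun i => by
    rw [← cramer_apply, cramer_eq_adjugate_mulVec]
    rfl
  have e2 : (A t).trace * (Y t).det = ∑ i, ((Y t).updateCol i fun j => (A t * Y t) j i).det := by
    simp only [e]
    change _ = ((Y t).adjugate * (A t * Y t)).trace
    rw [trace_mul_comm, Matrix.mul_assoc, mul_adjugate, Matrix.mul_smul, Matrix.mul_one,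
      trace_smul, smul_eq_mul, mul_comm]
  rw [e2]
  simp only [det_apply']
  rw [Finset.sum_comm]
  refine HasDerivAt.fun_sum fun π _ => ?_
  rw [← Finset.mul_sum]
  refine HasDerivAt.const_mul _ ?_
  convert HasDerivAt.fun_finsetProd (u := Finset.univ) fun i _ => h (π i) i using 2 with i
  rw [← Finset.prod_erase_mul _ _ (Finset.mem_univ i), updateCol_self, smul_eq_mul]
  congr 1
  exact Finset.prod_congr rfl fun j hj => updateCol_ne (Finset.ne_of_mem_erase hj)

theorem dc_exg {A Y : ℂ → Matrix ν ν ℂ} {t : ℂ} (h : MSol A Y t) :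
    MSol (fun s => exg 0 (A s)) (fun s => exg 1 (Y s)) t := by
  intro o o'
  rw [exg_mul]
  rcases o with _ | ⟨p, q⟩ <;> rcases o' with _ | ⟨p', q'⟩ <;>
    simp only [exg, of_apply, Option.elim, zero_mul]
  · exact hasDerivAt_const _ _
  · exact hasDerivAt_const _ _
  · exact hasDerivAt_const _ _
  · split_ifs
    exacts [h _ _, hasDerivAt_const _ _]

theorem dc_adj {S : Type*} [CommRing S] (δ : ℕ) (Y : Matrix ν ν S) :
    Adj δ Y * (piM fun _ : Fin δ => exg 1 Y) = Y.det ^ δ • 1 := by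
  rw [Adj, piM_mul, exg_mul, adjugate_mul, ← exg_smul, exg_one, ← piM_one]
  ext μ η
  simp [piM, Finset.prod_mul_distrib]

/-- the system satisfied by a row vector `g` with `g * Π = d • c` -/
theorem dc_row {α : Type*} [Fintype α] [DecidableEq α] {A W : ℂ → Matrix α α ℂ} {t : ℂ}
    (h : MSol A W t) (h0 : (W t).det ≠ 0) {g : ℂ → α → ℂ} (hg : DifferentiableAt ℂ g t)
    {d : ℂ → ℂ} {τ : ℂ} (hd : HasDerivAt d (τ * d t) t) {c : α → ℂ}
    (e : ∀ s, g s ᵥ* W s = d s • c) : HasDerivAt g (τ • g t - g t ᵥ* A t) t := by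
  have a1 : deriv g t ᵥ* W t + g t ᵥ* (A t * W t) = (τ * d t) • c := funext fun j =>
    (hasDerivAt_dot hg.hasDerivAt (h.col j)).unique (by
      have : (fun s => g s ⬝ᵥ fun i => W s i j) = fun s => d s * c j :=
        funext fun s => congrFun (e s) j
      rw [this]
      exact hd.mul_const _)
  refine hg.hasDerivAt.congr_deriv (Eq.symm ?_)
  refine vecMul_injective_of_isUnit ((isUnit_iff_isUnit_det _).2 h0.isUnit) ?_
  beta_reduce
  rw [sub_vecMul, smul_vecMul, e, vecMul_vecMul, smul_smul, ← a1, add_sub_cancel_right]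

omit [Fintype ν] [DecidableEq ν] in
theorem dc_az {t : ℂ} (hT : Polynomial.aeval t T ≠ 0) (i j : ν) :
    Polynomial.aeval t T * AzK T B t i j = Polynomial.aeval t (B i j) := mul_div_cancel₀ _ hT

omit [Fintype ν] in
theorem dc_tB {t : ℂ} (hT : Polynomial.aeval t T ≠ 0) (δ : ℕ) (μ η : Mo δ ν) :
    Polynomial.aeval t T * tB (Fin δ) (exg 0 (AzK T B t)) μ η =
      Polynomial.aeval t (tB (Fin δ) (exg 0 B) μ η) := by
  simp only [tB_apply, Finset.mul_sum, map_sum, map_mul, map_prod]
  refine Finset.sum_congr rfl fun l _ => ?_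
  rw [mul_left_comm]
  congr 1
  · exact Finset.prod_congr rfl fun j _ => by split_ifs <;> simp
  · rcases μ l with _ | ⟨p, q⟩ <;> rcases η l with _ | ⟨p', q'⟩ <;>
      simp only [exg, of_apply, Option.elim, mul_zero, map_zero]
    split_ifs
    exacts [dc_az hT _ _, by simp]

theorem dc_mono (hP : Fd T B U P) (δ : ℕ) {t : ℂ} (ht : t ∈ U) :
    VSol (fun s => tB (Fin δ) (exg 0 (AzK T B s))) (fun s => mono δ (P s)) t := by
  have := (msol_piM (L := Fin δ) (dc_exg (hP t ht).2.2)).vsol (mono δ 1)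
  simpa only [mono, piM_mulVec, exg_mulVec, Matrix.mul_one] using this

theorem dc_lam (ho : IsOpen U) (hP : Fd T B U P) {δ : ℕ} {x : K} (hx : algebraMap K ℂ x ∈ U)
    (F : Mo δ ν → K) {t : ℂ} (ht : t ∈ U) (μ : Mo δ ν) :
    Polynomial.aeval t T * deriv (lamF P δ x F · μ) t = ∑ η, Polynomial.aeval t
      (((δ * B.trace) • 1 - (tB (Fin δ) (exg 0 B))ᵀ : Matrix _ _ _) μ η) * lamF P δ x F t η := by
  obtain ⟨hT, h0, hs⟩ := hP t ht
  have hY := hs.mul_const (P (algebraMap K ℂ x))⁻¹
  have d0 : (P t * (P (algebraMap K ℂ x))⁻¹).det ≠ 0 := by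
    rw [det_mul, det_nonsing_inv, Ring.inverse_eq_inv']
    exact mul_ne_zero h0 (inv_ne_zero (hP _ hx).2.1)
  have a1 := dc_row (msol_piM (L := Fin δ) (dc_exg hY)) (g := lamF P δ x F)
    (d := fun s => (P s * (P (algebraMap K ℂ x))⁻¹).det ^ δ) (τ := δ * (AzK T B t).trace)
    (c := fun μ => algebraMap K ℂ (F μ)) (fun h => by
      have := congrArg det (dc_adj δ (P t * (P (algebraMap K ℂ x))⁻¹))
      rw [det_mul, h, mul_zero, det_smul, det_one, mul_one] at this
      exact pow_ne_zero _ (pow_ne_zero _ d0) this.symm)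
    (differentiableAt_pi.2 fun μ => (lamF_hol hP x F μ).differentiableAt (ho.mem_nhds ht)) (by
      refine ((dc_det hY).fun_pow δ).congr_deriv ?_
      rcases δ with _ | δ
      · simp
      · rw [add_tsub_cancel_right]
        ring) fun s => by rw [lamF, vecMul_vecMul, dc_adj, vecMul_smul, vecMul_one]
  have a2 : Polynomial.aeval t B.trace = Polynomial.aeval t T * (AzK T B t).trace := by
    simp only [trace, diag_apply, map_sum, Finset.mul_sum, dc_az hT]
  rw [(hasDerivAt_pi.1 a1 μ).deriv]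
  simp only [Pi.sub_apply, Pi.smul_apply, smul_eq_mul, vecMul, dotProduct, Matrix.sub_apply,
    Matrix.smul_apply, transpose_apply, map_sub, sub_mul, Finset.sum_sub_distrib, mul_sub,
    Finset.mul_sum, one_apply, ← dc_tB hT, mul_ite, mul_one, mul_zero,
    apply_ite (Polynomial.aeval t), map_zero, ite_mul, zero_mul, Finset.sum_ite_eq,
    Finset.mem_univ, if_true, map_mul, map_natCast, a2]
  exact congrArg₂ _ (by ring) (Finset.sum_congr rfl fun _ _ => by ring)

theorem desc (ho : IsOpen U) (hc : IsPreconnected U) (hP : Fd T B U P) {s : ℂ} (hs : s ∈ U)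
    {δ : ℕ} {x : K} (hx : algebraMap K ℂ x ∈ U) {F : Mo δ ν → K}
    (h : InFib (fun t => P t * (P s)⁻¹) s
      (pX δ (lamF P δ x F s) ⬝ᵥ fun μ => MvPolynomial.C (mono δ (P s) μ))) : LG U P δ x F := by
  have inj := (algebraMap K ℂ).injective
  have : CharZero K := RingHom.charZero (algebraMap K ℂ)
  obtain ⟨H, h1, h2⟩ := h
  have an : ∀ {z}, z ∈ U → ∀ μ, AnalyticAt ℂ (lamF P δ x F · μ) z := fun hz μ =>
    (lamF_hol hP x F μ).analyticAt (ho.mem_nhds hz)
  have og : ∀ {z}, z ∈ U → ∀ᶠ t in 𝓝 z, ∀ μ, (T.map (algebraMap K ℂ)).eval t *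
      deriv (lamF P δ x F · μ) t = ∑ η, ((((δ * B.trace) • 1 - (tB (Fin δ) (exg 0 B))ᵀ :
        Matrix _ _ _).map (Polynomial.map (algebraMap K ℂ))) μ η).eval t * lamF P δ x F t η :=
    fun hz => mem_of_superset (ho.mem_nhds hz) fun t ht μ => by
      simpa only [map_apply, Polynomial.eval_map_algebraMap] using dc_lam ho hP hx F ht μ
  have hY : ∀ t ∈ U, MSol (AzK T B) (fun t => P t * (P s)⁻¹) t := fun t ht =>
    (hP t ht).2.2.mul_const _
  obtain ⟨q, q1, q2⟩ := desc_lin (T := T.map (algebraMap K ℂ))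
    (Y := fun t (a : ν × ν) => (P t * (P s)⁻¹) a.1 a.2)
    (B := of fun a b => if a.2 = b.2 then (B a.1 b.1).map (algebraMap K ℂ) else 0)
    (m := mono δ (P s)) (by simpa only [Polynomial.eval_map_algebraMap] using (hP s hs).1)
    (fun a => (hol_of_msol hY a.1 a.2).analyticAt (ho.mem_nhds hs))
    (mem_of_superset (ho.mem_nhds hs) fun t ht a => by
      rw [(hY t ht a.1 a.2).deriv, mul_apply, Finset.mul_sum]
      simp [Fintype.sum_prod_type, apply_ite (Polynomial.eval t), Polynomial.eval_map_algebraMap,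
        ← mul_assoc, dc_az (hP t ht).1]) (an hs) (og hs) h1 (Eventually.of_forall fun t => by
      have e := congrArg (MvPolynomial.aeval fun a : ν × ν => (P t * (P s)⁻¹) a.1 a.2) h2
      rw [← AlgHom.comp_apply, MvPolynomial.comp_aeval] at e
      refine (congrArg (MvPolynomial.aeval · H) (funext ?_)).trans (e.trans ?_)
      · rintro (_ | a) <;> simp
      have e2 := Adj_map (MvPolynomial.aeval fun a : ν × ν => (P t * (P s)⁻¹) a.1 a.2 :
        _ →ₐ[ℂ] ℂ).toRingHom δ (Xm ν)
      rw [show (Xm ν).map _ = P t * (P s)⁻¹ from by ext i j; simp [Xm]] at e2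
      rw [lamF_base x F (hP s hs).2.1 t, ← e2]
      simp [pX, dotProduct, vecMul, mul_comm])
  have hT : T.eval x ≠ 0 := fun e => (hP _ hx).1 (by
    rw [Polynomial.aeval_algebraMap_apply, Polynomial.coe_aeval_eq_eval, e, map_zero])
  have tm : ∀ p : Polynomial K,
      tk (algebraMap K ℂ x) (p.map (algebraMap K ℂ)) = mpK K (tk x p) := fun p => by
    rw [tk_apply, tk_apply, ← Polynomial.map_taylor, Polynomial.polynomial_map_coe]
  obtain ⟨g, g1, g2⟩ := desc_abs (τ := (δ : Polynomial K) * B.trace) (B := tB (Fin δ) (exg 0 B))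
    (y := fun t => mono δ (P t)) ho hc hs (hP s hs).1 hx hT (lamF_hol hP x F)
    (fun μ t ht => (hasDerivAt_pi.1 (dc_mono hP δ ht) μ).differentiableAt.differentiableWithinAt)
    (fun t ht μ => by
      rw [(hasDerivAt_pi.1 (dc_mono hP δ ht) μ).deriv, mulVec, dotProduct, Finset.mul_sum]
      simp only [← mul_assoc, dc_tB (hP t ht).1]) (tay_self ho hP hx F)
    (fun μ => PowerSeries.map_injective _ inj (by
      have := db_tayO (an hx) (og hx) μ
      simp only [map_apply, tm, tay_self ho hP hx F] at this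
      rw [map_mul, map_sum]
      simp only [map_mul]
      rw [← this]
      congr 1
      ext n
      simp [coeff_derivative])) q1 q2
  refine ⟨g, fun μ => (g1 μ).trans (inj ?_), g2⟩
  have := congrArg constantCoeff (tay_self ho hP hx F μ)
  rw [constantCoeff_tay, lamF_self (hP _ hx).2.1] at this
  rw [← coeff_zero_eq_constantCoeff_apply, coeff_map, coeff_zero_eq_constantCoeff_apply] at this
  exact this.symm

end

end Pool.Agent.Lib.MP_5591bc_ag.W
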