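import Pool.Agent.Lib.MP_5591bc_ag.W.Set

/-! The differential system of the horizontal covectors. -/

namespace Pool.Agent.Lib.MP_5591bc_ag.W

open Matrix PowerSeries G R H Finset

noncomputable section

variable {K ν : Type*} [Field K] [Fintype ν] [DecidableEq ν]

theorem sero_prod {L : Type*} [DecidableEq L] (g : L → K⟦X⟧) (s : Finset L) :
    d⁄dX K (∏ l ∈ s, g l) = ∑ l ∈ s, (∏ j ∈ s.erase l, g j) * d⁄dX K (g l) := by
  induction s using Finset.induction_on with
  | empty => simp
  | insert x s hx ih =>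
    rw [prod_insert hx, sum_insert hx, Derivation.leibniz, ih, erase_insert hx, smul_eq_mul,
      smul_eq_mul, add_comm, mul_sum]
    refine congrArg _ (sum_congr rfl fun l hl => ?_)
    rw [erase_insert_of_ne (ne_of_mem_of_not_mem hl hx).symm,
      prod_insert fun h => hx (mem_of_mem_erase h), mul_assoc]

theorem sero_mul (M N : Matrix ν ν K⟦X⟧) :
    (M * N).map (d⁄dX K) = M.map (d⁄dX K) * N + M * N.map (d⁄dX K) := by
  ext1 i j
  simp only [map_apply, mul_apply, map_sum, Derivation.leibniz, smul_eq_mul, Matrix.add_apply,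
    ← sum_add_distrib]
  exact sum_congr rfl fun l _ => by ring

/-- the series with coefficients `A k (0) / k!` solves `Y' = A 1 * Y` -/
theorem sero_sol [CharZero K] {A : ℕ → Matrix ν ν K⟦X⟧} {b G : Matrix ν ν K⟦X⟧}
    (hA : ∀ m, A (m + 1) = (A m).map (d⁄dX K) + A m * b) (h0 : A 0 = 1)
    (hG : ∀ k i j, coeff k (G i j) * k.factorial = constantCoeff (A k i j)) :
    G.map (d⁄dX K) = b * G := by
  have h1 : A 1 = b := by
    rw [hA, h0, Matrix.one_mul, add_eq_right]
    ext1 i j
    simp [one_apply, apply_ite (d⁄dX K)]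
  have hd : ∀ m k (g : K⟦X⟧), coeff k ((d⁄dX K)^[m] g) * k.factorial =
      coeff (k + m) g * (k + m).factorial := fun m => by
    induction m with
    | zero => simp
    | succ m ih =>
      intro k g
      rw [Function.iterate_succ_apply', coeff_derivative, ← add_assoc, add_right_comm, ← ih,
        Nat.factorial_succ]
      push_cast
      ring
  have G0 : G.map constantCoeff = 1 := by
    ext i j
    simpa [h0, one_apply, apply_ite constantCoeff] using hG 0 i j
  obtain ⟨E, hE⟩ : ∃ E : ℕ → Matrix ν ν K⟦X⟧, ∀ m, E m = A m * G - G.map (d⁄dX K)^[m] :=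
    ⟨_, fun _ => rfl⟩
  have E0 : ∀ m i j, constantCoeff (E m i j) = 0 := fun m i j => by
    have e1 := congrFun₂ (Matrix.map_mul (L := A m) (M := G) (f := constantCoeff)) i j
    have e2 := hd m 0 (G i j)
    rw [G0, Matrix.mul_one, map_apply, map_apply] at e1
    rw [zero_add, hG, Nat.factorial_zero, Nat.cast_one, mul_one,
      coeff_zero_eq_constantCoeff_apply] at e2
    rw [hE, Matrix.sub_apply, map_sub, e1, map_apply, e2, sub_self]
  have E1 : ∀ m, (E m).map (d⁄dX K) = E (m + 1) - A m * E 1 := fun m => by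
    have e1 : (G.map (d⁄dX K)^[m]).map (d⁄dX K) = G.map (d⁄dX K)^[m + 1] := by
      rw [Function.iterate_succ', Matrix.map_map]
    rw [hE, hE, hE, Matrix.map_sub _ (map_sub _), sero_mul, e1, hA, h1, Function.iterate_one]
    noncomm_ring
  have key : ∀ n m i j, X ^ n ∣ E m i j := fun n => by
    induction n with
    | zero => simp
    | succ n ih =>
      intro m i j
      have h2 : X ^ n ∣ d⁄dX K (E m i j) := by
        rw [show d⁄dX K (E m i j) = _ from congrFun₂ (E1 m) i j, Matrix.sub_apply, mul_apply]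
        exact (ih _ _ _).sub (dvd_sum fun l _ => (ih _ _ _).mul_left _)
      rw [X_pow_dvd_iff] at h2 ⊢
      rintro (_ | k) hk
      · simpa using E0 m i j
      · have := h2 k (by omega)
        rw [coeff_derivative] at this
        exact (mul_eq_zero.1 this).resolve_right (Nat.cast_add_one_ne_zero k)
  have : E 1 = 0 := by
    ext i j n
    exact X_pow_dvd_iff.1 (key (n + 1) 1 i j) n (Nat.lt_succ_self n)
  rw [hE, h1, Function.iterate_one] at this
  exact (sub_eq_zero.1 this).symm

variable {T : Polynomial K} {B : Matrix ν ν (Polynomial K)} {x : K}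

theorem sero_const (x : K) (p : Polynomial K) : constantCoeff (tk x p) = p.eval x := by
  rw [tk_apply, Polynomial.constantCoeff_coe, Polynomial.taylor_coeff_zero]

theorem sero_zero (T : Polynomial K) (B : Matrix ν ν (Polynomial K)) (x : K) :
    (GbK T B x).map constantCoeff = 1 := by
  ext i j
  simp [GbK, ← coeff_zero_eq_constantCoeff_apply, iterK, one_apply, apply_ite]

theorem sero_ode [CharZero K] (hT : T.eval x ≠ 0) :
    tk x T • (GbK T B x).map (d⁄dX K) = B.map (tk x) * GbK T B x := by
  obtain ⟨u, hu⟩ := (tk_unit hT).exists_left_inv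
  have u0 : constantCoeff u = (T.eval x)⁻¹ := by
    have := congrArg constantCoeff hu
    rw [map_mul, sero_const, map_one] at this
    exact eq_inv_of_mul_eq_one_left this
  have du : d⁄dX K u = -(u * u * d⁄dX K (tk x T)) := by
    have := congrArg (d⁄dX K) hu
    rw [Derivation.leibniz, Derivation.map_one_eq_zero, smul_eq_mul, smul_eq_mul] at this
    linear_combination u * this - d⁄dX K u * hu
  have := sero_sol (A := fun m => u ^ m • (iterK T B m).map (tk x)) (b := u • B.map (tk x))
    (G := GbK T B x) (fun m => ?_) (by simp [iterK]) fun k i j => ?_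
  · rw [this, Matrix.smul_mul, smul_smul, mul_comm, hu, one_smul]
  · ext1 i j
    have e : d⁄dX K (u ^ m) = -(m * u ^ (m + 1) * d⁄dX K (tk x T)) := by
      rw [Derivation.leibniz_pow, du]
      rcases m with _ | m
      · simp
      · simp only [nsmul_eq_mul, smul_eq_mul, Nat.add_sub_cancel]
        ring
    simp only [iterK, Matrix.smul_apply, map_apply, Matrix.add_apply, Matrix.sub_apply, smul_eq_mul,
      map_add, map_sub, map_mul, map_natCast, tk_deriv, mul_apply, map_sum, Derivation.leibniz, e,
      mul_add, mul_sum]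
    congr 1
    · linear_combination (u ^ m * d⁄dX K (tk x (iterK T B m i j))) * hu
    · exact sum_congr rfl fun l _ => by ring
  · have h5 : (k.factorial : K) ≠ 0 := by exact_mod_cast k.factorial_ne_zero
    simp only [GbK, of_apply, coeff_mk, Matrix.smul_apply, map_apply, smul_eq_mul, map_mul, map_pow,
      u0, sero_const, inv_pow]
    field_simp

section
variable {t : K⟦X⟧} {b G : Matrix ν ν K⟦X⟧}

theorem sero_det (h : t • G.map (d⁄dX K) = b * G) : t * d⁄dX K G.det = b.trace * G.det := by
  have e1 : ∀ i, (G.updateRow i ((b * G) i)).det = b i i * G.det := fun i => by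
    have : (b * G) i = ∑ k, b i k • G k := by
      ext1 j
      simp [mul_apply]
    rw [this, det_updateRow_sum, smul_eq_mul]
  have e2 : ∀ M : Matrix ν ν K⟦X⟧,
      M.det = ∑ σ : Equiv.Perm ν, ((Equiv.Perm.sign σ : ℤ) : K⟦X⟧) * ∏ i, M i (σ i) := fun M => by
    rw [← det_transpose, det_apply']
    rfl
  rw [trace, sum_mul]
  simp only [Matrix.diag, ← e1]
  simp only [← h, e2]
  rw [sum_comm, map_sum, mul_sum]
  refine sum_congr rfl fun σ _ => ?_
  rw [Derivation.leibniz, sero_prod, Derivation.map_intCast, smul_zero, add_zero, smul_eq_mul,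
    mul_left_comm, mul_sum, mul_sum]
  refine sum_congr rfl fun l _ => congrArg _ ?_
  rw [← prod_erase_mul _ _ (mem_univ l), updateRow_self, mul_left_comm]
  exact congrArg₂ _ (prod_congr rfl fun j hj => by
    rw [updateRow_ne (ne_of_mem_erase hj)]) rfl

theorem sero_adj (h : t • G.map (d⁄dX K) = b * G) (hG : IsUnit G.det) :
    t • G.adjugate.map (d⁄dX K) = G.adjugate * (b.trace • 1 - b) := by
  have e1 : t • (G.det • (1 : Matrix ν ν K⟦X⟧)).map (d⁄dX K) = (b.trace * G.det) • 1 := by
    ext1 i j
    simp only [Matrix.smul_apply, map_apply, one_apply, smul_eq_mul, ← sero_det h]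
    split_ifs <;> simp
  rw [← adjugate_mul, sero_mul, smul_add, ← Matrix.mul_smul G.adjugate, h, mul_smul,
    ← adjugate_mul] at e1
  refine (isUnit_iff_isUnit_det G).2 hG |>.mul_right_cancel ?_
  rw [Matrix.smul_mul, eq_sub_of_add_eq e1, Matrix.mul_sub, Matrix.sub_mul, Matrix.mul_smul,
    Matrix.mul_one, Matrix.smul_mul, Matrix.mul_assoc]

theorem sero_exg (h : t • G.map (d⁄dX K) = b * G) (hG : IsUnit G.det) :
    t • (exg G.det G.adjugate).map (d⁄dX K) =
      exg G.det G.adjugate * exg b.trace (b.trace • 1 - b) := by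
  rw [exg_map _ (map_zero _), exg_smul, sero_det h, sero_adj h hG, exg_mul, mul_comm]

end

theorem sero_tens {k ι L : Type*} [Field k] [Fintype ι] [DecidableEq ι] [Fintype L] [DecidableEq L]
    {τ : Polynomial k →+* K⟦X⟧} {T : Polynomial k} {B : Matrix ι ι (Polynomial k)}
    {Φ : L → ι → K⟦X⟧} (hS : ∀ l, IsS τ T B (Φ l)) : IsS τ T (tB L B) (tens Φ) := fun μ => by
  have := congrFun (tB_mulVec (B.map τ) Φ) μ
  rw [← tB_map, Finset.sum_apply] at this
  refine Eq.trans ?_ this.symm
  rw [tens, sero_prod, mul_sum]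
  refine sum_congr rfl fun l _ => ?_
  rw [tens_update, mul_left_comm, hS]
  rfl

/-- the rows of `Adj` solve one system -/
theorem sero_Adj [CharZero K] (hT : T.eval x ≠ 0) (δ : ℕ) (α : Mo δ ν) :
    IsS (tk x) T (tB (Fin δ) (exg B.trace (B.trace • 1 - B))ᵀ) (Adj δ (GbK T B x) α) := by
  have hG : IsUnit (GbK T B x).det := by
    rw [isUnit_iff_constantCoeff, RingHom.map_det, RingHom.mapMatrix_apply, sero_zero, det_one]
    exact isUnit_one
  have e : (exg B.trace (B.trace • 1 - B)).map (tk x) =
      exg (B.map (tk x)).trace ((B.map (tk x)).trace • 1 - B.map (tk x)) := by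
    have e1 : tk x B.trace = (B.map (tk x)).trace := by simp [trace]
    rw [exg_map _ (map_zero _), ← e1]
    congr 1
    ext1 i j
    simp [one_apply, apply_ite (tk x)]
  refine sero_tens (Φ := fun l => exg (GbK T B x).det (GbK T B x).adjugate (α l)) fun l o => ?_
  have := congrFun₂ (sero_exg (sero_ode (B := B) hT) hG) (α l) o
  rw [← e, mul_apply] at this
  exact this.trans (sum_congr rfl fun _ _ => mul_comm _ _)

variable [Algebra K ℂ]

/-- the series `Lser` solves a system that does not depend on the point -/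
theorem Lser_ode [CharZero K] (T : Polynomial K) (B : Matrix ν ν (Polynomial K)) (δ : ℕ) :
    ∃ B' : Matrix (Mo δ ν) (Mo δ ν) (Polynomial K), ∀ x : K, T.eval x ≠ 0 →
      ∀ F : Mo δ ν → K, IsS (tk x) T B' (Lser T B δ x F) := by
  refine ⟨tB (Fin δ) (exg B.trace (B.trace • 1 - B))ᵀ, fun x hT F μ => ?_⟩
  simp only [Lser, vecMul, dotProduct, map_sum, Derivation.leibniz, derivative_C, smul_eq_mul,
    mul_zero, add_zero, mul_sum]
  rw [sum_comm]
  refine sum_congr rfl fun α _ => ?_
  rw [mul_left_comm, sero_Adj hT δ α μ, mul_sum]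
  exact sum_congr rfl fun _ _ => mul_left_comm _ _ _

end

end Pool.Agent.Lib.MP_5591bc_ag.W
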