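import Pool.Agent.Lib.MP_5591bc_ag.W.Ser

/-! Specialisation of relations and the fibre ring. -/

namespace Pool.Agent.Lib.MP_5591bc_ag.W

open Matrix Filter Topology PowerSeries G R H Metric NumberField

noncomputable section

variable {K ν : Type*} [Field K] [Algebra K ℂ] [Fintype ν] [DecidableEq ν]
  {T : Polynomial K} {B : Matrix ν ν (Polynomial K)} {U : Set ℂ} {P : ℂ → Matrix ν ν ℂ}

theorem spc_tay (x : K) (p : Polynomial K) :
    tay (fun t => Polynomial.aeval t p) (algebraMap K ℂ x) = mpK K (tk x p) := by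
  simp only [← Polynomial.eval_map_algebraMap, tay_poly, tk_apply, ← Polynomial.map_taylor]
  ext n
  simp only [Polynomial.coeff_coe, coeff_map, Polynomial.coeff_map]

theorem spc_diff (p : Polynomial K) : Differentiable ℂ fun t : ℂ => Polynomial.aeval t p := by
  simp only [← Polynomial.eval_map_algebraMap]
  exact Polynomial.differentiable _

theorem spc_pX {S : Type*} [CommRing S] [Algebra ℂ S] (π : MvPolynomial (ν × ν) ℂ →ₐ[ℂ] S) (δ : ℕ)
    (u : Mo δ ν → ℂ) (μ : Mo δ ν) : π (pX δ u μ) =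
      ((fun η => algebraMap ℂ S (u η)) ᵥ* Adj δ (of fun i j => π (MvPolynomial.X (i, j)))) μ := by
  have := Adj_map (π : MvPolynomial (ν × ν) ℂ →+* S) δ (Xm ν)
  rw [show (of fun i j => π (MvPolynomial.X (i, j))) =
    (Xm ν).map (π : MvPolynomial (ν × ν) ℂ →+* S) from rfl, ← this]
  simp [pX, vecMul, dotProduct, ← MvPolynomial.algebraMap_eq]

theorem spec (ho : IsOpen U) (hc : IsPreconnected U) (hP : Fd T B U P) {s : ℂ} (hs : s ∈ U)
    {a δ : ℕ} {x : K} (hx : algebraMap K ℂ x ∈ U) (F : Mo δ ν → K)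
    {φ : (Fin a → Mo δ ν) → Polynomial K}
    (h : ∑ α, tk x (φ α) * ∏ l, Lser T B δ x F (α l) = 0) :
    InFib (fun t => P t * (P s)⁻¹) s (∑ α, MvPolynomial.C (Polynomial.aeval s (φ α)) *
      tens (fun _ => pX δ (lamF P δ x F s)) α) := by
  have an : ∀ μ, AnalyticAt ℂ (fun t => lamF P δ x F t μ) (algebraMap K ℂ x) := fun μ =>
    (lamF_hol hP x F μ).analyticAt (ho.mem_nhds hx)
  have a1 : ∀ α : Fin a → Mo δ ν, AnalyticAt ℂ (fun t => ∏ l, lamF P δ x F t (α l))
      (algebraMap K ℂ x) := fun α => Finset.analyticAt_fun_prod _ fun l _ => an _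
  have a2 : ∀ α : Fin a → Mo δ ν, AnalyticAt ℂ (fun t => Polynomial.aeval t (φ α) *
      ∏ l, lamF P δ x F t (α l)) (algebraMap K ℂ x) := fun α =>
    ((spc_diff _).analyticAt _).fun_mul (a1 α)
  have h1 : ∀ᶠ t in 𝓝 (algebraMap K ℂ x),
      ∑ α, Polynomial.aeval t (φ α) * ∏ l, lamF P δ x F t (α l) = 0 := by
    refine eventually_zero_of_tay (Finset.analyticAt_fun_sum _ fun α _ => a2 α) ?_
    rw [tay_sum _ fun α _ => a2 α, ← map_zero (mpK K), ← h, map_sum]
    refine Finset.sum_congr rfl fun α _ => ?_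
    rw [tay_mul ((spc_diff _).analyticAt _) (a1 α), spc_tay, tay_prod _ fun l _ => an _, map_mul,
      map_prod]
    simp only [tay_self ho hP hx]
  have h2 := ident ho hc (DifferentiableOn.fun_sum fun α _ => (spc_diff (φ α)).differentiableOn.fun_mul
    (DifferentiableOn.fun_finsetProd fun l _ => lamF_hol hP x F (α l))) (differentiableOn_const 0)
    hx h1
  refine ⟨∑ α, Polynomial.aeval (MvPolynomial.X none) ((φ α).map (algebraMap K ℂ)) *
    ∏ l, MvPolynomial.rename some (pX δ (lamF P δ x F s) (α l)), ?_, ?_⟩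
  · filter_upwards [ho.mem_nhds hs] with t ht
    refine Eq.trans ?_ (h2 ht)
    simp only [map_sum, map_mul, map_prod, MvPolynomial.aeval_rename, ← Polynomial.aeval_algHom_apply,
      MvPolynomial.aeval_X, Option.elim_none]
    simp only [Polynomial.aeval_map_algebraMap, spc_pX, MvPolynomial.aeval_X,
      lamF_base x F (hP s hs).2.1 t]
    rfl
  · simp only [map_sum, map_mul, map_prod, MvPolynomial.aeval_rename, ← Polynomial.aeval_algHom_apply,
      MvPolynomial.aeval_X, Option.elim_none]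
    refine Finset.sum_congr rfl fun α _ => ?_
    rw [← MvPolynomial.algebraMap_eq, Polynomial.aeval_algebraMap_apply,
      Polynomial.aeval_map_algebraMap, tens]
    exact congrArg _ (Finset.prod_congr rfl fun l _ => MvPolynomial.aeval_X_left_apply _)

/-- the coordinate ring of the fibre, with the evaluation at the unit matrix -/
theorem fib_ring {ν : Type} [Fintype ν] [DecidableEq ν] {Y : ℂ → Matrix ν ν ℂ} {s : ℂ}
    (h1 : Y s = 1) (h : Irr Y s) :
    ∃ (R : Type) (_ : CommRing R) (_ : IsDomain R) (_ : Algebra ℂ R)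
      (π : MvPolynomial (ν × ν) ℂ →ₐ[ℂ] R) (ev : R →ₐ[ℂ] ℂ),
      (∀ Q, π Q = 0 ↔ InFib Y s Q) ∧
      ∀ (δ : ℕ) (u : Mo δ ν → ℂ) (μ : Mo δ ν), ev (π (pX δ u μ)) = u μ := by
  let I : Ideal (MvPolynomial (ν × ν) ℂ) :=
    { carrier := {Q | InFib Y s Q}
      zero_mem' := ⟨0, by simp, map_zero _⟩
      add_mem' := fun ⟨H, a1, a2⟩ ⟨H', b1, b2⟩ => ⟨H + H', by
        filter_upwards [a1, b1] with t ha hb
        rw [map_add, ha, hb, add_zero], by rw [map_add, a2, b2]⟩
      smul_mem' := fun c _ ⟨H, a1, a2⟩ => ⟨MvPolynomial.rename some c * H, by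
        filter_upwards [a1] with t ha
        rw [map_mul, ha, mul_zero], by
        rw [map_mul, a2, MvPolynomial.aeval_rename, smul_eq_mul]
        exact congrArg (· * _) (MvPolynomial.aeval_X_left_apply c)⟩ }
  have k : ∀ Q ∈ I, MvPolynomial.aeval (fun a : ν × ν => (1 : Matrix ν ν ℂ) a.1 a.2) Q = 0 := by
    rintro _ ⟨H, a1, rfl⟩
    rw [← a1.self_of_nhds, ← AlgHom.comp_apply, MvPolynomial.comp_aeval, h1]
    congr 2
    ext (_ | a) <;> simp
  have hp : I.IsPrime := ⟨(Ideal.ne_top_iff_one _).2 fun e => by simpa using k 1 e, fun e => h _ _ e⟩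
  refine ⟨_ ⧸ I, inferInstance, inferInstance, inferInstance, Ideal.Quotient.mkₐ ℂ I,
    Ideal.Quotient.liftₐ I _ k, fun Q => Ideal.Quotient.eq_zero_iff_mem, fun δ u μ => ?_⟩
  refine (spc_pX (MvPolynomial.aeval fun a : ν × ν => (1 : Matrix ν ν ℂ) a.1 a.2) δ u μ).trans ?_
  simp only [MvPolynomial.aeval_X]
  rw [show (of fun i j => (1 : Matrix ν ν ℂ) i j) = 1 from rfl, Adj_one, vecMul_one]
  rfl

end

end Pool.Agent.Lib.MP_5591bc_ag.W
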