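import Mathlib

/-! A small family of rational linear conditions that kills all tensor products of powers. -/

namespace Pool.Agent.Lib.MP_5591bc_ag.W

open Finset Module

variable {C Pt A σ : Type*} [Field C] [Fintype A] [DecidableEq A] [Fintype σ] [DecidableEq σ]

theorem envp_basis {V : Type*} [AddCommGroup V] [Module C V] (w : Pt → V) (S : Set Pt)
    (E : Submodule C V) [FiniteDimensional C E] (hE : ∀ ξ ∈ S, w ξ ∈ E) :
    ∃ (r : ℕ) (b : Fin r → Pt), r ≤ finrank C E ∧
      ∀ ξ ∈ S, ∃ c : Fin r → C, ∑ k, c k • w (b k) = w ξ := by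
  classical
  obtain ⟨t, ht, -, h1, h2⟩ := exists_linearIndepOn_extension (K := C) (v := w)
    (linearIndepOn_empty C _) (Set.empty_subset S)
  have li : LinearIndependent C fun x : t => (⟨w x, hE x (ht x.2)⟩ : E) :=
    LinearIndependent.of_comp E.subtype h2
  have : Finite t := li.finite
  have := Fintype.ofFinite t
  refine ⟨Fintype.card t, fun k => (Fintype.equivFin t).symm k, li.fintype_card_le_finrank,
    fun ξ hξ => (Submodule.mem_span_range_iff_exists_fun C).1 ?_⟩
  refine Submodule.span_mono ?_ (h1 ⟨ξ, hξ, rfl⟩)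
  rintro _ ⟨x, hx, rfl⟩
  exact ⟨Fintype.equivFin t ⟨x, hx⟩, by simp⟩

/-- the sums of `y` over few sets of indices control all tensors of powers of the `μ ξ` -/
theorem env_poly {a : ℕ} (μ : Pt → A → C) (S : Set Pt) (E : Submodule C ((Fin a → A) → C))
    (hE : ∀ ξ ∈ S, (fun α => ∏ l, μ ξ (α l)) ∈ E) :
    ∃ T : Finset (Finset (σ → Fin a → A)),
      #T ≤ finrank C E ^ Fintype.card σ *
        (a * Fintype.card σ + 1) ^ (Fintype.card A * finrank C E) ∧
      ∀ y : (σ → Fin a → A) → C, (∀ t ∈ T, ∑ β ∈ t, y β = 0) →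
        ∀ ξ : σ → Pt, (∀ i, ξ i ∈ S) → ∑ β, (∏ i, ∏ l, μ (ξ i) (β i l)) * y β = 0 := by
  obtain ⟨r, b, hr, hb⟩ := envp_basis (fun ξ (α : Fin a → A) => ∏ l, μ ξ (α l)) S E hE
  let cl : (σ → Fin r) → (σ → Fin a → A) → A × Fin r → Fin (a * Fintype.card σ + 1) :=
    fun k β z => ⟨#{x : σ × Fin a | (β x.1 x.2, k x.1) = z},
      Nat.lt_succ_of_le ((card_le_univ _).trans (by simp [mul_comm]))⟩
  refine ⟨univ.image fun x : (σ → Fin r) × (A × Fin r → Fin (a * Fintype.card σ + 1)) =>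
    univ.filter (cl x.1 · = x.2), card_image_le.trans ?_, fun y hy ξ hξ => ?_⟩
  · simp only [card_univ, Fintype.card_prod, Fintype.card_fun, Fintype.card_fin]
    gcongr
    omega
  choose c hc using fun i => hb (ξ i) (hξ i)
  have e1 : ∀ β : σ → Fin a → A, ∏ i, ∏ l, μ (ξ i) (β i l) =
      ∑ k : σ → Fin r, (∏ i, c i (k i)) * ∏ z : A × Fin r, μ (b z.2) z.1 ^ (cl k β z : ℕ) := by
    intro β
    have e2 : ∀ i, ∏ l, μ (ξ i) (β i l) = ∑ k, c i k * ∏ l, μ (b k) (β i l) := fun i => by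
      simpa using (congrFun (hc i) (β i)).symm
    simp only [e2]
    rw [Fintype.prod_sum]
    refine sum_congr rfl fun k _ => ?_
    rw [prod_mul_distrib, ← Fintype.prod_prod_type' fun i l => μ (b (k i)) (β i l),
      ← prod_fiberwise univ fun x : σ × Fin a => (β x.1 x.2, k x.1)]
    refine congrArg _ (prod_congr rfl fun z _ => ?_)
    rw [prod_congr rfl fun x hx => by
      rw [show β x.1 x.2 = z.1 from congrArg Prod.fst (mem_filter.1 hx).2,
        show k x.1 = z.2 from congrArg Prod.snd (mem_filter.1 hx).2], prod_const]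
  simp only [e1, sum_mul]
  rw [sum_comm]
  refine sum_eq_zero fun k _ => ?_
  rw [← sum_fiberwise univ (cl k)]
  refine sum_eq_zero fun n _ => ?_
  rw [sum_congr rfl fun β hβ => by rw [(mem_filter.1 hβ).2], ← mul_sum,
    hy _ (mem_image.2 ⟨(k, n), mem_univ _, rfl⟩), mul_zero]

end Pool.Agent.Lib.MP_5591bc_ag.W
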