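import Pool.Agent.Lib.MP_5591bc_ag.W.CoreC
import Pool.Agent.Lib.MP_5591bc_ag.W.EnvP
import Pool.Agent.Lib.MP_5591bc_ag.W.GKa

/-! The counting theorem, uniformly in the size of the system. -/

namespace Pool.Agent.Lib.MP_5591bc_ag.W

open Polynomial G H Finset

/-- bounded by a power of `Λ + N + 2` with exponent a multiple of `e N + 1` -/
def QB (e : ℕ) (f : ℕ → ℕ → ℕ) : Prop := ∃ c : ℕ, ∀ Λ N, f Λ N ≤ (Λ + N + 2) ^ (c * (e * N + 1))

namespace QB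
variable {e : ℕ} {f g : ℕ → ℕ → ℕ}

theorem const (k : ℕ) : QB e fun _ _ => k := ⟨k, fun Λ N => k.lt_two_pow_self.le.trans
  ((Nat.pow_le_pow_left (by omega) k).trans (Nat.pow_le_pow_right (by omega)
    (Nat.le_mul_of_pos_right k (Nat.succ_pos _))))⟩

theorem fst : QB e fun Λ _ => Λ + 1 :=
  ⟨1, fun Λ N => le_trans (by omega : Λ + 1 ≤ Λ + N + 2) (Nat.le_self_pow (by omega) _)⟩

theorem snd : QB e fun _ N => N + 1 :=
  ⟨1, fun Λ N => le_trans (by omega : N + 1 ≤ Λ + N + 2) (Nat.le_self_pow (by omega) _)⟩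

theorem mul (h : QB e f) (h' : QB e g) : QB e fun Λ N => f Λ N * g Λ N :=
  let ⟨a, ha⟩ := h
  let ⟨b, hb⟩ := h'
  ⟨a + b, fun Λ N => by rw [add_mul, pow_add]; exact Nat.mul_le_mul (ha Λ N) (hb Λ N)⟩

theorem mono (h : QB e g) (k : ∀ Λ N, f Λ N ≤ g Λ N) : QB e f :=
  h.imp fun _ h Λ N => (k Λ N).trans (h Λ N)

theorem add (h : QB e f) (h' : QB e g) : QB e fun Λ N => f Λ N + g Λ N := by
  obtain ⟨a, ha⟩ := h
  obtain ⟨b, hb⟩ := h'
  refine ((const 2).mul (⟨a + b, fun _ _ => le_rfl⟩ : QB e fun Λ N =>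
    (Λ + N + 2) ^ ((a + b) * (e * N + 1)))).mono fun Λ N => ?_
  rw [two_mul]
  exact add_le_add ((ha Λ N).trans (Nat.pow_le_pow_right (by omega) (by gcongr; omega)))
    ((hb Λ N).trans (Nat.pow_le_pow_right (by omega) (by gcongr; omega)))

theorem sq (h : QB e f) : QB e fun Λ N => f Λ N ^ 2 := (h.mul h).mono fun _ _ => (pow_two _).le

theorem up (h : QB 0 f) : QB 1 f := h.imp fun _ h Λ N =>
  (h Λ N).trans (Nat.pow_le_pow_right (by omega) (by gcongr; omega))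

theorem pw (h : QB 0 f) : QB 1 fun Λ N => (f Λ N + 1) ^ N :=
  (h.add (const 1)).imp fun c h Λ N => (Nat.pow_le_pow_left (h Λ N) N).trans (by
    rw [← pow_mul]; exact Nat.pow_le_pow_right (by omega) (by nlinarith))

end QB

theorem coreU : ∃ c : ℕ, ∀ (A : Type) [Fintype A]
    (K L R : Type) [Field K] [NumberField K] [Field L] [NumberField L] [Algebra K L] [CommRing R]
      [IsDomain R] [Algebra ℂ R] (ι : L →+* ℂ) (Λ : ℕ) (s : K) (r : ℝ) (T : L[X])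
      (B : Matrix A A L[X]) (W : A → A → PowerSeries K) (P : Finset L) (Φ : L → A → PowerSeries L)
      (ev : R →ₐ[ℂ] ℂ) (p : L → A → R) (v : A → ℂ), (2 ^ Λ)⁻¹ ≤ r → r ≤ 2 ^ Λ →
      GK (2 ^ Λ) (fun q : A × A => W q.1 q.2) →
      (∀ x ∈ P, Dat ι Λ s r T B W x (Φ x) fun β => ev (p x β)) →
      (∀ x ∈ P, ∑ j, v j • p x j ≠ 0) → (∀ x ∈ P, ∑ j, v j * ev (p x j) = 0) →
      (∀ x ∈ P, ∀ a (φ : (Fin a → A) → L[X]), ∑ α, tk x (φ α) * ∏ l, Φ x (α l) = 0 →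
        ∑ α, ι ((φ α).eval (algebraMap K L s)) • ∏ l, p x (α l) = 0) →
      #P ≤ (Λ + Fintype.card A + 2) ^ (c * (Fintype.card A + 1)) := by
  classical
  let τ : ℕ → ℕ := fun Λ => (Λ + 1) * (28 * (Λ + 1) ^ 2 + 4)
  let b0 : ℕ → ℕ → ℕ := fun Λ N => 4 * ((36 * τ Λ * (2 * (Λ + 1)) + 1) * (N + 1)) ^ 2
  let z : ℕ → ℕ → ℕ := fun Λ N =>
    3 * (b0 Λ N + 1) * τ Λ + b0 Λ N + 3 * (N * (b0 Λ N + 1) ^ N + 1) + 4
  have p2 : QB 0 fun Λ _ => τ Λ := QB.fst.mul (((QB.const 28).mul QB.fst.sq).add (.const 4))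
  have p3 : QB 0 b0 := (QB.const 4).mul ((((((QB.const 36).mul p2).mul
    ((QB.const 2).mul QB.fst)).add (.const 1)).mul QB.snd).sq)
  have p4 : QB 1 fun Λ N => b0 Λ N + 1 := p3.up.add (.const 1)
  have p5 : QB 1 z := (((((QB.const 3).mul p4).mul p2.up).add p3.up).add ((QB.const 3).mul
    (((QB.snd.mono fun _ N => N.le_succ).mul p3.pw).add (.const 1)))).add (.const 4)
  obtain ⟨c, hf⟩ := ((p3.pw.mul p4).add (.const 1)).mul (((QB.const 2).mul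
    (((QB.const 2).mul QB.fst).mul p5.sq)).mul p3.pw)
  refine ⟨c, fun A _ => ?_⟩
  obtain ⟨N, hN⟩ : ∃ N, N = Fintype.card A := ⟨_, rfl⟩
  let a0 : ℕ → ℕ := fun Λ => b0 Λ N
  let y : ℕ → ℕ := fun Λ => z Λ N
  intro K L R _ _ _ _ _ _ _ _ ι Λ s r T B W P Φ ev p v r1 r2 hW hP h0 h1 he
  rw [← hN]
  refine le_trans ?_ (by simpa using hf Λ N)
  by_contra hc
  have y0 : 0 < y Λ := by simp only [y, z, a0]; omega
  have τ0 : 0 < τ Λ := by simp only [τ]; positivity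
  have a1 : 0 < a0 Λ := by simp only [a0, b0]; positivity
  obtain ⟨S, hS, a, ha, I, E, -, I0, hI, e1, e2, e3, e4⟩ := amp (36 * τ Λ * (2 * (Λ + 1)))
    (2 * (2 * (Λ + 1) * y Λ ^ 2) * (a0 Λ + 1) ^ N) (by positivity) (a0 := a0 Λ) (by rw [← hN]) ev ι
    (algebraMap K L s) p v P (fun x a => {φ | x ∈ P ∧ ∑ α, tk x (φ α) * ∏ l, Φ x (α l) = 0})
    (by rw [← hN]; exact (not_le.1 hc).le) h0 h1
    (fun x a φ h => ⟨h.1, by
      have := h.2
      simp only [map_mul, mul_assoc, ← mul_sum] at this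
      refine (mul_eq_zero.1 this).resolve_left ?_
      rw [← pow_one (X - _), tk_pow, coe_eq_zero_iff, pow_one]
      exact X_add_C_ne_zero _⟩) fun x a φ h => he x h.1 a φ h.2
  obtain ⟨U, u1, u2⟩ := env_poly (σ := Fin (y Λ ^ 2)) (fun x β => ev (p x β)) S E e3
  have e5 : (a + 1) ^ Fintype.card A ≤ (a0 Λ + 1) ^ N := by rw [← hN]; gcongr
  have e6 : a0 Λ ≤ y Λ ^ 2 := le_trans (by simp only [y, z, a0]; omega) (Nat.le_self_pow two_ne_zero _)
  refine core_fix ι r1 r2 hW (fun x hx => hP x (hS hx)) (pow_pos y0 2) (ha.trans e6) rfl rfl I0 hI e5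
    (fun φ φ0 hφ => (e4 φ φ0 hφ).trans (card_le_card fun x hx => ?_)) (by simpa using u1) e1 ?_ u2
  · simp only [mem_filter, Set.mem_ofPred_eq, not_and] at hx ⊢
    exact ⟨hx.1, hx.2 (hS hx.1)⟩
  · refine le_trans ?_ (num_m (3 * (a0 Λ + 1) * τ Λ) (a0 Λ) (N * (a0 Λ + 1) ^ N + 1) le_rfl)
    obtain ⟨k, hk⟩ : ∃ k, y Λ ^ 2 = k := ⟨_, rfl⟩
    have k0 : 0 < k := hk ▸ pow_pos y0 2
    rw [hk, pow_succ' (a0 Λ * k + 1), ← mul_assoc (_ * k), ← hN]
    refine Nat.mul_le_mul ?_ ((Nat.pow_le_pow_left (m := a0 Λ * k + 1) (by gcongr) _).trans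
      (Nat.pow_le_pow_right (Nat.succ_pos _) (Nat.mul_le_mul_left _ (e2.trans e5))))
    calc _ ≤ 2 * (a0 Λ + 1) * k ^ 2 * τ Λ + (a0 Λ + 1) * k ^ 2 * τ Λ :=
          add_le_add (Nat.mul_le_mul_right _ (by gcongr)) (Nat.succ_le_of_lt (by positivity))
      _ = 3 * (a0 Λ + 1) * τ Λ * k * k := by ring
      _ ≤ _ := Nat.mul_le_mul_left _ ((Nat.le_mul_of_pos_left k a1).trans (Nat.le_succ _))

open scoped Classical in
/-- the same for solutions that factor through a quotient of the index set -/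
theorem coreQ : ∃ c : ℕ, ∀ (A A' : Type) [Fintype A] [Fintype A'] (q : A → A') (ρ : A' → A)
    (K L R : Type) [Field K] [NumberField K] [Field L] [NumberField L] [Algebra K L] [CommRing R]
      [IsDomain R] [Algebra ℂ R] (ι : L →+* ℂ) (Λ : ℕ) (s : K) (r : ℝ) (T : L[X])
      (B : Matrix A A L[X]) (W : A → A → PowerSeries K) (P : Finset L) (Φ : L → A → PowerSeries L)
      (ev : R →ₐ[ℂ] ℂ) (p : L → A → R) (v : A → ℂ), (2 ^ Λ)⁻¹ ≤ r → r ≤ 2 ^ Λ →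
      GK (2 ^ Λ) (fun q : A × A => W q.1 q.2) →
      (∀ x ∈ P, Dat ι Λ s r T B W x (Φ x) fun β => ev (p x β)) →
      (∀ x ∈ P, ∑ j, v j • p x j ≠ 0) → (∀ x ∈ P, ∑ j, v j * ev (p x j) = 0) →
      (∀ x ∈ P, ∀ a (φ : (Fin a → A) → L[X]), ∑ α, tk x (φ α) * ∏ l, Φ x (α l) = 0 →
        ∑ α, ι ((φ α).eval (algebraMap K L s)) • ∏ l, p x (α l) = 0) →
      (∀ x ∈ P, ∀ i, Φ x (ρ (q i)) = Φ x i ∧ p x (ρ (q i)) = p x i) →
      #P ≤ (Λ + Fintype.card A' + 2) ^ (c * (Fintype.card A' + 1)) := by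
  obtain ⟨c, hc⟩ := coreU
  refine ⟨c, ?_⟩
  intro A A' _ _ q ρ K L R _ _ _ _ _ _ _ _ ι Λ s r T B W P Φ ev p v r1 r2 hW hP h0 h1 he hq
  have e : ∀ x ∈ P, ∑ j, (∑ i ∈ {i | q i = j}, v i) • p x (ρ j) = ∑ j, v j • p x j := fun x hx => by
    rw [← sum_fiberwise univ q]
    refine sum_congr rfl fun j _ => ?_
    rw [sum_smul]
    exact sum_congr rfl fun i hi => by rw [← (mem_filter.1 hi).2, (hq x hx i).2]
  refine hc A' K L R ι Λ s r T (Matrix.of fun b b' => ∑ ν ∈ {ν | q ν = b'}, B (ρ b) ν)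
    (fun β α => ∑ i ∈ {i | q i = β}, W i (ρ α)) P (fun x b => Φ x (ρ b)) ev (fun x b => p x (ρ b))
    (fun j => ∑ i ∈ {i | q i = j}, v i) r1 r2 ?_ (fun x hx => ?_) (fun x hx => e x hx ▸ h0 x hx)
    (fun x hx => ?_) fun x hx a φ h => ?_
  · simpa using hW.lin (I := fun _ : A' × A' => A) (fun y => {i | q i = y.1}) (fun _ _ => 1)
      fun y i => (i, ρ y.2)
  · obtain ⟨a1, a2, ⟨F, b1, b2, b3, b4⟩, a4, a5, a6, a7, g, hg⟩ := hP x hx
    refine ⟨a1, zc_quot q ρ (fun i => (hq x hx i).1) a2, ⟨F, b1, b2, b3, fun α => b4 _⟩, a4.comp ρ,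
      a5, a6, a7, fun α => g (ρ α), fun α => ⟨(hg _).1, (hg _).2.1.trans ?_, (hg _).2.2⟩⟩
    rw [← sum_fiberwise univ q]
    refine sum_congr rfl fun j _ => ?_
    rw [map_sum, mul_sum]
    exact sum_congr rfl fun i hi => by rw [← (mem_filter.1 hi).2, (hq x hx i).2]
  · have := congrArg ev (e x hx)
    simp only [map_sum ev, map_smul, smul_eq_mul] at this
    exact this.trans (h1 x hx)
  · have := he x hx a (fun α => ∑ β ∈ {β | (fun l => ρ (β l)) = α}, φ β) (by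
      rw [← h, ← sum_fiberwise univ fun (β : Fin a → A') l => ρ (β l)]
      refine sum_congr rfl fun α _ => ?_
      rw [map_sum, sum_mul]
      exact sum_congr rfl fun β hβ => by rw [← (mem_filter.1 hβ).2])
    rw [← this, ← sum_fiberwise univ fun (β : Fin a → A') l => ρ (β l)]
    refine sum_congr rfl fun α _ => ?_
    rw [eval_finsetSum, map_sum, sum_smul]
    exact sum_congr rfl fun β hβ => by rw [← (mem_filter.1 hβ).2]

end Pool.Agent.Lib.MP_5591bc_ag.W
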