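import Pool.Agent.Lib.MP_5591bc_ag.W.Gap
import Pool.Agent.Lib.MP_5591bc_ag.W.CoreU
import Pool.Agent.Lib.MP_5591bc_ag.W.Sym

/-! The number of bad points in a disc, uniformly in the degree of the relations. -/

namespace Pool.Agent.Lib.MP_5591bc_ag.W

open Matrix Filter Topology PowerSeries G R H Metric NumberField

noncomputable section

variable {K0 : Type} [Field K0] [NumberField K0] [Algebra K0 ℂ] {ν : Type} [Fintype ν]
  [DecidableEq ν] {T : Polynomial K0} {B : Matrix ν ν (Polynomial K0)}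

theorem gapLU (h : GalK T B) : ∃ c e : ℕ, ∀ (δ N : ℕ), (δ + 1) ^ Fintype.card (ν × ν) ≤ N →
    ∀ (K L : Type) [Field K] [NumberField K] [Field L] [NumberField L] [Algebra K L] [Algebra K ℂ]
      [Algebra L ℂ] [IsScalarTower K L ℂ] [Algebra K0 K] [Algebra K0 L] [IsScalarTower K0 K ℂ]
      [IsScalarTower K0 L ℂ] (n Λ : ℕ) (s : K) (r : ℝ) (P : ℂ → Matrix ν ν ℂ),
      c * δ * n ≤ Λ → 2 * n + 1 ≤ Λ → (2 ^ Λ)⁻¹ ≤ r → r ≤ 2 ^ Λ → Hd s (2 ^ n) →
      Fd T B (ball (algebraMap K ℂ s) (2 * r)) P →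
      Irr (fun t => P t * (P (algebraMap K ℂ s))⁻¹) (algebraMap K ℂ s) →
      ∀ S : Finset L, (∀ x ∈ S, ‖algebraMap L ℂ x - algebraMap K ℂ s‖ ≤ r / 16 ∧
        ∃ (E : Type) (_ : Field E) (_ : NumberField E) (_ : Algebra E ℂ) (_ : Algebra K0 E)
          (_ : IsScalarTower K0 E ℂ) (φ : E →ₐ[K0] L) (y : E) (F : Mo δ ν → E)
          (E' : IntermediateField ℚ L), φ y = x ∧
          (∀ z, algebraMap L ℂ (φ z) = algebraMap E ℂ z) ∧ Hd y (2 ^ n) ∧
          Module.finrank ℚ E' ≤ Λ ∧ (∀ z, algebraMap K L z ∈ E') ∧ (∀ z, φ z ∈ E') ∧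
          (fun μ => algebraMap E ℂ (F μ)) ⬝ᵥ mono δ (P (algebraMap E ℂ y)) = 0 ∧
          ¬ LG (ball (algebraMap K ℂ s) (2 * r)) P δ y F) →
        S.card ≤ (Λ + N + 2) ^ (e * (N + 1)) := by
  obtain ⟨e, hcore⟩ := coreQ
  obtain ⟨c, hc⟩ := gk_adjU h
  refine ⟨c, e, fun δ N hN => ?_⟩
  obtain ⟨A, _, q, ρ, hA, hρ⟩ := sy_quot (ν × ν) δ
  replace hc := hc δ
  intro K L _ _ _ _ _ _ _ _ _ _ _ _ n Λ s r P c1 c2 r1 r2 hs hP hI S hS
  have r0 : 0 < r := lt_of_lt_of_le (by positivity) r1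
  have es : algebraMap L ℂ (algebraMap K L s) = algebraMap K ℂ s :=
    (IsScalarTower.algebraMap_apply K L ℂ s).symm
  have ec : (algebraMap L ℂ).comp (algebraMap K L) = algebraMap K ℂ :=
    (IsScalarTower.algebraMap_eq K L ℂ).symm
  have ms : algebraMap K ℂ s ∈ ball (algebraMap K ℂ s) (2 * r) := mem_ball_self (by positivity)
  have mx : ∀ x ∈ S, algebraMap L ℂ x ∈ ball (algebraMap K ℂ s) (2 * r) := fun x hx => by
    rw [mem_ball, dist_eq_norm]
    linarith [(hS x hx).1]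
  have ds := (hP _ ms).2.1
  obtain ⟨R, _, _, _, π, ev, hπ, hev⟩ := fib_ring (Y := fun t => P t * (P (algebraMap K ℂ s))⁻¹)
    (mul_nonsing_inv _ (Ne.isUnit ds)) hI
  obtain ⟨B', hB'⟩ := Lser_ode (TE L T) (BE L B) δ
  have hcv : IsPreconnected (ball (algebraMap K ℂ s) (2 * r)) := (convex_ball _ _).isPreconnected
  have key : ∀ x ∈ S, ∃ F : Mo δ ν → L, Sy F ∧
      Dat (algebraMap L ℂ) Λ s r (TE L T) B' (Adj δ (GbK (TE K T) (BE K B) s)) x
        (Lser (TE L T) (BE L B) δ x F)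
        (fun β => ev (π (pX δ (lamF P δ x F (algebraMap K ℂ s)) β))) ∧
      ∑ j, mono δ (P (algebraMap K ℂ s)) j • π (pX δ (lamF P δ x F (algebraMap K ℂ s)) j) ≠ 0 ∧
      ∑ j, mono δ (P (algebraMap K ℂ s)) j *
        ev (π (pX δ (lamF P δ x F (algebraMap K ℂ s)) j)) = 0 := by
    intro x hx
    have m1 := mx x hx
    obtain ⟨hn, E, _, _, _, _, _, φ, y, F0, E', rfl, hφ, hy, e1, e2, e3, hF, hbad⟩ := hS x hx
    obtain ⟨F, sy, hbad, eF⟩ := exists_sy hbad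
    rw [← eF] at hF
    have m2 : algebraMap E ℂ y ∈ ball (algebraMap K ℂ s) (2 * r) := hφ y ▸ m1
    have el : lamF P δ (φ y) (fun μ => φ (F μ)) = lamF P δ y F := by
      funext t
      simp only [lamF, hφ]
    have ny : (TE E T).eval y ≠ 0 := fun e => (hP _ m2).1 (by rw [← aeval_TE, e, map_zero])
    have nx : (TE L T).eval (φ y) ≠ 0 := by
      rw [eval_TE]
      exact (map_ne_zero φ).2 ny
    have hsub := Ht.sub (hy.ht.map (φ : E →+* L)) (hs.ht.map (algebraMap K L)) c2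
    refine ⟨fun μ => φ (F μ), sy.comp φ, ⟨nx, hB' _ nx _, ⟨E', e1, e2, e3 _, fun α j => ?_⟩, ?_,
      hsub.1, hsub.2, by rw [es]; exact hn, fun α t => lamF P δ (φ y) (fun μ => φ (F μ)) t α,
      fun α => ⟨?_, ?_, ?_⟩⟩, ?_, ?_⟩
    · rw [Lser_mapE, PowerSeries.coeff_map]
      exact e3 _
    · have := gk_map ((hc E n y hy ny Λ c1).2 F) (φ : E →+* L)
      simpa only [← Lser_mapE] using this
    · rw [es]
      exact lamF_hol (Fd_TE L hP) _ _ _
    · rw [es, ec]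
      simp only [hev]
      rw [← tay_base isOpen_ball (Fd_TE K hP) ms]
      congr 1
      funext t
      rw [← lamF_base _ _ ds]
    · exact tay_self isOpen_ball (Fd_TE L hP) m1 _ _
    · intro e
      refine hbad (desc isOpen_ball hcv (Fd_TE E hP) ms m2 ((hπ _).1 ?_))
      rw [← e, el, dotProduct, map_sum]
      refine Finset.sum_congr rfl fun j _ => ?_
      rw [map_mul, mul_comm, MvPolynomial.algHom_C, Algebra.smul_def]
    · simp only [hev, el]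
      rw [← lamF_dot (hP _ m2).2.1 hF (algebraMap K ℂ s), dotProduct]
      exact Finset.sum_congr rfl fun j _ => mul_comm _ _
  choose! F hF using key
  have ns : (TE K T).eval s ≠ 0 := fun e => (hP _ ms).1 (by rw [← aeval_TE, e, map_zero])
  refine (hcore (Mo δ ν) A q ρ K L R (algebraMap L ℂ) Λ s r (TE L T) B'
    (Adj δ (GbK (TE K T) (BE K B) s)) S (fun x => Lser (TE L T) (BE L B) δ x (F x)) ev
    (fun x β => π (pX δ (lamF P δ x (F x) (algebraMap K ℂ s)) β)) (mono δ (P (algebraMap K ℂ s)))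
    r1 r2 (hc K n s hs ns Λ c1).1 (fun x hx => (hF x hx).2.1) (fun x hx => (hF x hx).2.2.1)
    (fun x hx => (hF x hx).2.2.2) (fun x hx a φ e => ?_) fun x hx i => ?_).trans ?_
  · rw [← (hπ _).2 (spec isOpen_ball hcv (Fd_TE L hP) ms (mx x hx) (F x) e), map_sum]
    refine Finset.sum_congr rfl fun α _ => ?_
    rw [map_mul, MvPolynomial.algHom_C, Algebra.smul_def, tens, map_prod, ← es,
      Polynomial.aeval_algebraMap_apply_eq_algebraMap_eval]
  · obtain ⟨τ, hτ⟩ := hρ i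
    rw [hτ]
    exact ⟨(hF x hx).1.lser _ _ _ τ i, congrArg π (((hF x hx).1.lamF P x _).pX τ i)⟩
  · have := hA.trans hN
    exact (Nat.pow_le_pow_left (by omega) _).trans (Nat.pow_le_pow_right (by omega) (by gcongr))

theorem gapU (h : GalK T B) : ∃ c e : ℕ, ∀ (δ N : ℕ), (δ + 1) ^ Fintype.card (ν × ν) ≤ N →
    ∀ (n d Λ : ℕ) (s : ℂ) (r : ℝ) (P : ℂ → Matrix ν ν ℂ), c * δ * n ≤ Λ → 2 * n + 1 ≤ Λ →
      d * d ≤ Λ → (2 ^ Λ)⁻¹ ≤ r → r ≤ 2 ^ Λ → Fd T B (ball s (2 * r)) P →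
      Irr (fun t => P t * (P s)⁻¹) s → ∀ S : Finset ℂ, s ∈ S →
        (∀ x ∈ S, ‖x - s‖ ≤ r / 16 ∧ Bad K0 (ball s (2 * r)) P d δ (2 ^ n) x) →
        S.card ≤ (Λ + N + 2) ^ (e * (N + 1)) := by
  classical
  obtain ⟨c, e, hg⟩ := gapLU h
  refine ⟨c, e, fun δ N hN n d Λ s r P c1 c2 c3 r1 r2 hP hI S hs hS => ?_⟩
  choose E hE y F hy hd hH hF hbad using fun x : S => (hS x x.2).2
  obtain ⟨L, hL, hK, hEL, K1, hK1⟩ := @fld_setup _ (Finset.univ : Finset S)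
    ((E ⟨s, hs⟩).restrictScalars ℚ) (fun x => (E x).restrictScalars ℚ) d d
    (hE _).to_finiteDimensional (hd ⟨s, hs⟩) fun x _ => ⟨(hE x).to_finiteDimensional, hd x⟩
  have : NumberField L := {}
  let i : ∀ x, E x →+* L := fun x =>
    (IntermediateField.inclusion (hEL x (Finset.mem_univ _))).toRingHom
  let _ : Algebra (E ⟨s, hs⟩) L := (i _).toAlgebra
  let _ : Algebra K0 L := ((i ⟨s, hs⟩).comp (algebraMap K0 _)).toAlgebra
  have : IsScalarTower (E ⟨s, hs⟩) L ℂ := IsScalarTower.of_algebraMap_eq fun _ => rfl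
  have : IsScalarTower K0 L ℂ := IsScalarTower.of_algebraMap_eq fun _ => rfl
  have es : algebraMap (E ⟨s, hs⟩) ℂ (y ⟨s, hs⟩) = s := hy ⟨s, hs⟩
  let z : S → L := fun x => i x (y x)
  have hz : ∀ x, algebraMap L ℂ (z x) = x := hy
  have inj : Function.Injective z := fun a b e => Subtype.ext (by rw [← hz, ← hz, e])
  have := hg δ N hN (E ⟨s, hs⟩) L n Λ (y ⟨s, hs⟩) r P c1 c2 r1 r2 (hH _) (by rwa [es])
    (by rwa [es]) (Finset.univ.image z) fun w hw => ?_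
  · rwa [Finset.card_image_of_injective _ inj, Finset.card_univ, Fintype.card_coe] at this
  obtain ⟨x, -, rfl⟩ := Finset.mem_image.1 hw
  rw [es, hz]
  have k := hK1 x (Finset.mem_univ _)
  exact ⟨(hS x x.2).1, E x, _, hE x, _, _, inferInstance, ⟨i x, fun _ => rfl⟩, y x, F x, K1 x, rfl,
    fun _ => rfl, hH x, k.1.trans c3, fun a => k.2 _ (Or.inl a.2), fun a => k.2 _ (Or.inr a.2),
    hF x, hbad x⟩

end

end Pool.Agent.Lib.MP_5591bc_ag.W
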