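import Pool.Agent.Lib.MP_5591bc_ag.GDefs

/-! The degree `δ` property at a point, over a field of coefficients. -/

namespace Pool.Agent.Lib.MP_5591bc_ag.W

noncomputable section

/-- The degree `δ` property at `s`: every polynomial `F` over `K` of degree at most `δ` vanishing at
`P s` is the specialisation at `t = s` of a polynomial `H(t, X)` over `K` vanishing on the graph of
the multivalued function obtained from `P` on `U` by analytic continuation. -/
def GoodM {K : Type*} [Field K] [Algebra K ℂ] {n : ℕ} (U : Set ℂ)
    (P : ℂ → Matrix (Fin n) (Fin n) ℂ) (δ : ℕ) (s : K) : Prop :=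
  ∀ F : MvPolynomial (Fin n × Fin n) K, F.totalDegree ≤ δ →
    MvPolynomial.aeval (fun a => P (algebraMap K ℂ s) a.1 a.2) F = 0 →
    ∃ H : MvPolynomial (Option (Fin n × Fin n)) K,
      (∀ U' P', G.Continuation U P U' P' → ∀ t ∈ U',
        MvPolynomial.aeval (fun o => o.elim t fun a => P' t a.1 a.2) H = 0) ∧
      MvPolynomial.aeval (fun o => o.elim (MvPolynomial.C s) MvPolynomial.X) H = F

end

end Pool.Agent.Lib.MP_5591bc_ag.W
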