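import Pool.Agent.Lib.MP_5591bc_ag.ROne
import Pool.Agent.Lib.MP_5591bc_ag.H.Zero
import Pool.Agent.Lib.MP_5591bc_ag.W.Defs

/-! Shared notation for the counting theorem. -/

namespace Pool.Agent.Lib.MP_5591bc_ag.W

open Matrix Filter Topology PowerSeries G R H

noncomputable section

/-- series over `K` as complex series -/
abbrev mpK (K : Type*) [Field K] [Algebra K ℂ] : K⟦X⟧ →+* ℂ⟦X⟧ :=
  PowerSeries.map (algebraMap K ℂ)

/-- `x` has a denominator at most `H` and all its conjugates have absolute value at most `H`. -/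
def Ht {K : Type*} [Field K] [NumberField K] (x : K) (H : ℝ) : Prop :=
  ∃ d : ℕ, 0 < d ∧ (d : ℝ) ≤ H ∧ IsIntegral ℤ ((d : K) * x) ∧ NumberField.house x ≤ H

/-- `x` has size at most the `[K : ℚ]`-th root of `H` -/
def Hd {K : Type*} [Field K] [NumberField K] (x : K) (H : ℝ) : Prop :=
  ∃ H0 : ℝ, 2 ≤ H0 ∧ Ht x H0 ∧ H0 ^ Module.finrank ℚ K ≤ H

/-- a rational polynomial over `K` -/
abbrev TK (K : Type*) [Field K] [CharZero K] (T : Polynomial ℚ) : Polynomial K :=
  T.map (algebraMap ℚ K)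

/-- a matrix of rational polynomials over `K` -/
abbrev BK (K : Type*) [Field K] [CharZero K] {ν : Type*} (B : Matrix ν ν (Polynomial ℚ)) :
    Matrix ν ν (Polynomial K) :=
  B.map (Polynomial.map (algebraMap ℚ K))

/-- a family of `G`-series with constants `h`, `a` -/
def GF2 {K α : Type*} [Field K] [NumberField K] (h a : ℝ) (g : α → K⟦X⟧) : Prop :=
  ∀ k, (∀ x, NumberField.house (coeff k (g x)) ≤ h * a ^ k) ∧
    ∃ d : ℕ, 0 < d ∧ (d : ℝ) ≤ h * a ^ k ∧
      ∀ x, ∀ j ≤ k, IsIntegral ℤ ((d : K) * coeff j (g x))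

/-- the formal solution of `T Y' = B Y` at `x` with value `1` -/
def GbK {K ν : Type*} [Field K] [Fintype ν] [DecidableEq ν] (T : Polynomial K)
    (B : Matrix ν ν (Polynomial K)) (x : K) : Matrix ν ν K⟦X⟧ :=
  of fun i j => PowerSeries.mk fun k => (iterK T B k i j).eval x / (T.eval x ^ k * k.factorial)

/-- the coefficient matrix `B / T` -/
def AzK {K ν : Type*} [Field K] [Algebra K ℂ] (T : Polynomial K) (B : Matrix ν ν (Polynomial K))
    (z : ℂ) : Matrix ν ν ℂ :=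
  of fun i j => Polynomial.aeval z (B i j) / Polynomial.aeval z T

/-- `P` is an invertible solution on `U`, a set of ordinary points -/
def Fd {K ν : Type*} [Field K] [Algebra K ℂ] [Fintype ν] [DecidableEq ν] (T : Polynomial K)
    (B : Matrix ν ν (Polynomial K)) (U : Set ℂ) (P : ℂ → Matrix ν ν ℂ) : Prop :=
  ∀ t ∈ U, Polynomial.aeval t T ≠ 0 ∧ (P t).det ≠ 0 ∧ MSol (AzK T B) P t

/-- index set of the monomials of degree at most `δ` -/
abbrev Mo (δ : ℕ) (ν : Type*) := Fin δ → Option (ν × ν)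

/-- the monomials of degree at most `δ` in the entries of `Y` -/
def mono {R ν : Type*} [CommRing R] (δ : ℕ) (Y : Matrix ν ν R) : Mo δ ν → R :=
  tens fun _ => hatg Y

/-- `det Y ^ δ` times the inverse of the action of `Y` on the monomials -/
def Adj {R ν : Type*} [CommRing R] [Fintype ν] [DecidableEq ν] (δ : ℕ) (Y : Matrix ν ν R) :
    Matrix (Mo δ ν) (Mo δ ν) R :=
  piM fun _ : Fin δ => exg Y.det Y.adjugate

/-- tensor power of `Adj` -/
def AdjA {R ν : Type*} [CommRing R] [Fintype ν] [DecidableEq ν] (a δ : ℕ) (Y : Matrix ν ν R) :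
    Matrix (Fin a → Mo δ ν) (Fin a → Mo δ ν) R :=
  piM fun _ : Fin a => Adj δ Y

/-- the generic matrix -/
def Xm (ν : Type*) : Matrix ν ν (MvPolynomial (ν × ν) ℂ) := of fun i j => MvPolynomial.X (i, j)

/-- `Q` is the value at `t = s` of a complex polynomial `H(t, X)` vanishing on the graph of `Y`
near `s` -/
def InFib {ν : Type*} (Y : ℂ → Matrix ν ν ℂ) (s : ℂ) (Q : MvPolynomial (ν × ν) ℂ) : Prop :=
  ∃ H : MvPolynomial (Option (ν × ν)) ℂ,
    (∀ᶠ t in 𝓝 s, MvPolynomial.aeval (fun o => o.elim t fun a => Y t a.1 a.2) H = 0) ∧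
    MvPolynomial.aeval (fun o => o.elim (MvPolynomial.C s) MvPolynomial.X) H = Q

/-- the fibre at `s` of the closure of the graph of `Y` is irreducible -/
def Irr {ν : Type*} (Y : ℂ → Matrix ν ν ℂ) (s : ℂ) : Prop :=
  ∀ Q Q', InFib Y s (Q * Q') → InFib Y s Q ∨ InFib Y s Q'

/-- linear form of the degree `δ` property, on `U` -/
def LG {K ν : Type*} [Field K] [Algebra K ℂ] [Fintype ν] [DecidableEq ν] (U : Set ℂ)
    (P : ℂ → Matrix ν ν ℂ) (δ : ℕ) (x : K) (F : Mo δ ν → K) : Prop :=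
  ∃ h : Mo δ ν → Polynomial K, (∀ μ, (h μ).eval x = F μ) ∧
    ∀ t ∈ U, (fun μ => Polynomial.aeval t (h μ)) ⬝ᵥ mono δ (P t) = 0

/-- the horizontal covector with value `F` at `x` -/
def lamF {K ν : Type*} [Field K] [Algebra K ℂ] [Fintype ν] [DecidableEq ν]
    (P : ℂ → Matrix ν ν ℂ) (δ : ℕ) (x : K) (F : Mo δ ν → K) (t : ℂ) : Mo δ ν → ℂ :=
  (fun μ => algebraMap K ℂ (F μ)) ᵥ* Adj δ (P t * (P (algebraMap K ℂ x))⁻¹)

/-- the coordinates of the conjugates of a covector `u` -/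
def pX {ν : Type*} [Fintype ν] [DecidableEq ν] (δ : ℕ) (u : Mo δ ν → ℂ) :
    Mo δ ν → MvPolynomial (ν × ν) ℂ :=
  (fun μ => MvPolynomial.C (u μ)) ᵥ* Adj δ (Xm ν)

/-- the series at `x` of the horizontal covector with value `F` at `x` -/
def Lser {K ν : Type*} [Field K] [Fintype ν] [DecidableEq ν] (T : Polynomial K)
    (B : Matrix ν ν (Polynomial K)) (δ : ℕ) (x : K) (F : Mo δ ν → K) : Mo δ ν → K⟦X⟧ :=
  (fun μ => C (F μ)) ᵥ* Adj δ (GbK T B x)

/-- the value vector of the grid: coefficient `j` at `x` of `(t - s) ^ e * W` -/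
def thv {K : Type*} [Field K] (s x : K) (j e : ℕ) (W : K⟦X⟧) : K :=
  coeff j (tk x ((Polynomial.X - Polynomial.C s) ^ e) * W)

end

end Pool.Agent.Lib.MP_5591bc_ag.W
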