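import Pool.Agent.Lib.MP_5591bc_ag.W.GFB

/-! Heights, one field for finitely many points, and Liouville's inequality in a subfield. -/

namespace Pool.Agent.Lib.MP_5591bc_ag.W

open Polynomial Finset Module

/-- denominator and conjugates of a root of an integer polynomial with bounded coefficients -/
theorem ht_alg {L : Type*} [Field L] [CharZero L] {x : L} {q : ℤ[X]} (q0 : q ≠ 0) {H : ℝ}
    (hq : ∀ i, |(q.coeff i : ℝ)| ≤ H) (hx : aeval x q = 0) : ∃ d : ℕ, 0 < d ∧ (d : ℝ) ≤ H ∧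
      IsIntegral ℤ ((d : L) * x) ∧ ∀ φ : L →+* ℂ, ‖φ x‖ ≤ H + 1 := by
  have l0 : q.leadingCoeff ≠ 0 := leadingCoeff_ne_zero.2 q0
  refine ⟨q.leadingCoeff.natAbs, Int.natAbs_pos.2 l0, ?_, ?_, fun φ => ?_⟩
  · rw [Nat.cast_natAbs, Int.cast_abs]
    exact hq _
  · have := isIntegral_leadingCoeff_smul q x hx
    rw [zsmul_eq_mul] at this
    rw [Nat.cast_natAbs]
    rcases abs_choice q.leadingCoeff with e | e <;> rw [e]
    · exact this
    · rw [Int.cast_neg, neg_mul]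
      exact this.neg
  · have inj : Function.Injective (algebraMap ℤ ℂ) := Int.cast_injective
    have r : (q.map (algebraMap ℤ ℂ)).IsRoot (φ x) := by
      rw [IsRoot, eval_map_algebraMap]
      exact (aeval_algHom_apply φ.toIntAlgHom x q).trans (by rw [hx, map_zero])
    have b := r.norm_lt_cauchyBound ((Polynomial.map_ne_zero_iff inj).2 q0)
    have H0 : 0 ≤ H := (abs_nonneg _).trans (hq 0)
    have l1 : 1 ≤ ‖(q.map (algebraMap ℤ ℂ)).leadingCoeff‖₊ := by
      rw [leadingCoeff_map_of_injective inj, ← NNReal.coe_le_coe]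
      simp only [eq_intCast, coe_nnnorm, Complex.norm_intCast, NNReal.coe_one]
      exact_mod_cast Int.one_le_abs l0
    lift H to NNReal using H0
    have s1 : (range (q.map (algebraMap ℤ ℂ)).natDegree).sup
        (‖(q.map (algebraMap ℤ ℂ)).coeff ·‖₊) ≤ H := Finset.sup_le fun i _ => by
      refine NNReal.coe_le_coe.1 ?_
      simpa [Int.norm_eq_abs] using hq i
    have : (q.map (algebraMap ℤ ℂ)).cauchyBound ≤ H + 1 :=
      add_le_add_left ((div_le_self zero_le l1).trans s1) 1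
    exact_mod_cast b.le.trans this

/-- one number field for a finite family of subfields of bounded degree -/
theorem fld_setup {Pt : Type*} (S : Finset Pt) (K : IntermediateField ℚ ℂ)
    (F : Pt → IntermediateField ℚ ℂ) {a b : ℕ} [FiniteDimensional ℚ K] (hK : finrank ℚ K ≤ a)
    (hF : ∀ x ∈ S, FiniteDimensional ℚ (F x) ∧ finrank ℚ (F x) ≤ b) :
    ∃ L : IntermediateField ℚ ℂ, FiniteDimensional ℚ L ∧ K ≤ L ∧ (∀ x ∈ S, F x ≤ L) ∧
      ∃ K1 : Pt → IntermediateField ℚ L, ∀ x ∈ S, finrank ℚ (K1 x) ≤ a * b ∧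
        ∀ y : L, ((y : ℂ) ∈ K ∨ (y : ℂ) ∈ F x) → y ∈ K1 x := by
  classical
  have h1 : FiniteDimensional ℚ (⨆ x ∈ S, F x : IntermediateField ℚ ℂ) :=
    IntermediateField.finiteDimensional_iSup_of_finset' fun x hx => (hF x hx).1
  have h2 : ∀ x ∈ S, F x ≤ K ⊔ ⨆ x ∈ S, F x := fun x hx => le_sup_of_le_right (le_biSup F hx)
  have h3 : ∀ x ∈ S, ∃ K1 : IntermediateField ℚ (K ⊔ ⨆ x ∈ S, F x : IntermediateField ℚ ℂ),
      finrank ℚ K1 ≤ a * b ∧ ∀ y : (K ⊔ ⨆ x ∈ S, F x : IntermediateField ℚ ℂ),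
        ((y : ℂ) ∈ K ∨ (y : ℂ) ∈ F x) → y ∈ K1 := fun x hx => by
    have h : K ⊔ F x ≤ K ⊔ ⨆ x ∈ S, F x := sup_le le_sup_left (h2 x hx)
    refine ⟨IntermediateField.restrict h, ?_, fun y hy => (IntermediateField.mem_restrict h _).2 ?_⟩
    · exact (IntermediateField.restrictAlgEquiv h).toLinearEquiv.finrank_eq.symm.trans_le
        ((IntermediateField.finrank_sup_le _ _).trans (Nat.mul_le_mul hK (hF x hx).2))
    · exact hy.elim (fun h => (le_sup_left : K ≤ K ⊔ F x) h) fun h => (le_sup_right : F x ≤ _) h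
  choose! K1 hK1 using h3
  exact ⟨K ⊔ ⨆ x ∈ S, F x, inferInstance, le_sup_left, h2, K1, hK1⟩

/-- the inequality of Liouville for an element of a subfield of degree at most `b` -/
theorem gf_invb {L : Type*} [Field L] [NumberField L] {K : IntermediateField ℚ L} {b : ℕ}
    (hb : finrank ℚ K ≤ b) {y : L} (hK : y ∈ K) (hy : IsIntegral ℤ y) (h0 : y ≠ 0) {A : ℝ}
    (A1 : 1 ≤ A) (hA : ∀ φ : L →+* ℂ, ‖φ y‖ ≤ A) :
    ∃ N : ℕ, 0 < N ∧ (N : ℝ) ≤ A ^ b ∧ IsIntegral ℤ ((N : L) * y⁻¹) ∧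
      ∀ φ : L →+* ℂ, ‖φ y⁻¹‖ ≤ A ^ b := by
  have inj : Function.Injective (algebraMap K L) := Subtype.val_injective
  obtain ⟨N, N0, N1, N2, N3⟩ := gf_inv (K := K) (y := ⟨y, hK⟩)
    ((isIntegral_algebraMap_iff inj).1 hy) (fun e => h0 (congrArg Subtype.val e)) (A := A)
    fun φ => by
      have := hA (NumberField.ComplexEmbedding.lift L φ)
      rwa [show y = algebraMap K L ⟨y, hK⟩ from rfl,
        NumberField.ComplexEmbedding.lift_algebraMap_apply] at this
  refine ⟨N, N0, N1.trans (pow_le_pow_right₀ A1 hb), ?_, fun φ => ?_⟩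
  · simpa using (isIntegral_algebraMap_iff inj).2 N2
  · exact (N3 (φ.comp (algebraMap K L))).trans (pow_le_pow_right₀ A1 ((Nat.sub_le _ _).trans hb))

end Pool.Agent.Lib.MP_5591bc_ag.W
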