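import Pool.Agent.Lib.MP_5591bc_ag.W.Set

/-! Formal solutions of linear systems over a field. -/

namespace Pool.Agent.Lib.MP_5591bc_ag.W

open Matrix Finset PowerSeries G R H Function

noncomputable section

variable {K S ν : Type*} [Field K] [Field S] [Fintype ν] [DecidableEq ν]

theorem serA_mul {α β γ : Type*} [Fintype β] (Y : Matrix α β S⟦X⟧) (Z : Matrix β γ S⟦X⟧) :
    (Y * Z).map (d⁄dX S) = Y.map (d⁄dX S) * Z + Y * Z.map (d⁄dX S) := by
  ext1 i j
  simp only [map_apply, mul_apply, map_sum, Derivation.leibniz, smul_eq_mul, Matrix.add_apply,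
    ← sum_add_distrib]
  exact sum_congr rfl fun l _ => by ring

theorem serA_smul {α β : Type*} (a : S⟦X⟧) (Z : Matrix α β S⟦X⟧) :
    (a • Z).map (d⁄dX S) = d⁄dX S a • Z + a • Z.map (d⁄dX S) := by
  ext1 i j
  simp only [map_apply, Matrix.smul_apply, Derivation.leibniz, smul_eq_mul, Matrix.add_apply]
  ring

theorem serA_prod {L : Type*} [DecidableEq L] (g : L → S⟦X⟧) (s : Finset L) :
    d⁄dX S (∏ l ∈ s, g l) = ∑ l ∈ s, (∏ j ∈ s.erase l, g j) * d⁄dX S (g l) := by
  induction s using Finset.induction_on with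
  | empty => simp
  | insert x s hx ih =>
    rw [prod_insert hx, sum_insert hx, Derivation.leibniz, ih, erase_insert hx, smul_eq_mul,
      smul_eq_mul, add_comm, mul_sum]
    refine congrArg _ (sum_congr rfl fun l hl => ?_)
    rw [erase_insert_of_ne (ne_of_mem_of_not_mem hl hx).symm,
      prod_insert fun h => hx (mem_of_mem_erase h), mul_assoc]

theorem serA_piM {L : Type*} [Fintype L] [DecidableEq L] {a : S⟦X⟧} {B M : Matrix ν ν S⟦X⟧}
    (h : a • M.map (d⁄dX S) = B * M) :
    a • (piM fun _ : L => M).map (d⁄dX S) = tB L B * piM fun _ => M := by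
  rw [tB, Finset.sum_mul]
  simp only [piM_mul]
  ext1 μ μ'
  simp only [Matrix.smul_apply, map_apply, piM, of_apply, serA_prod, smul_eq_mul, mul_sum,
    Matrix.sum_apply]
  refine sum_congr rfl fun l _ => ?_
  rw [← prod_erase_mul _ _ (mem_univ l), update_self, ← h, mul_left_comm]
  exact congrArg₂ _ (prod_congr rfl fun j hj => by simp [ne_of_mem_erase hj]) rfl

theorem serA_det {a : S⟦X⟧} {B Y : Matrix ν ν S⟦X⟧} (h : a • Y.map (d⁄dX S) = B * Y) :
    a * d⁄dX S Y.det = B.trace * Y.det := by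
  have e : ∀ i, (Y.updateRow i (a • fun j => d⁄dX S (Y i j))).det = B i i * Y.det := fun i => by
    rw [← smul_eq_mul, ← det_updateRow_sum Y i (B i)]
    congr 2
    ext1 j
    simpa [mul_apply] using congrFun₂ h i j
  have e2 : ∀ (σ : Equiv.Perm ν) (i : ν), ∏ j, (Y.updateRow i (a • fun j => d⁄dX S (Y i j)))ᵀ (σ j) j
      = a * ((∏ j ∈ univ.erase i, Yᵀ (σ j) j) * d⁄dX S (Yᵀ (σ i) i)) := fun σ i => by
    rw [← prod_erase_mul _ _ (mem_univ i), mul_left_comm]
    exact congrArg₂ _ (prod_congr rfl fun j hj => by simp [ne_of_mem_erase hj]) (by simp)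
  rw [trace, sum_mul]
  simp only [Matrix.diag_apply, ← e]
  rw [← det_transpose Y]
  simp only [← det_transpose (Y.updateRow _ _), det_apply', e2]
  rw [sum_comm, map_sum, mul_sum]
  refine sum_congr rfl fun σ _ => ?_
  rw [Derivation.leibniz, Derivation.map_intCast, smul_zero, add_zero, serA_prod, smul_eq_mul,
    mul_left_comm, mul_sum, mul_sum]

theorem serA_adj {a : S⟦X⟧} {B Y : Matrix ν ν S⟦X⟧} (h : a • Y.map (d⁄dX S) = B * Y)
    (hu : IsUnit Y.det) :
    a • Y.adjugate.map (d⁄dX S) = Y.adjugate * (B.trace • 1 - B) := by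
  have h1 := congrArg (fun M => a • M.map (d⁄dX S)) (mul_adjugate Y)
  have h2 : (1 : Matrix ν ν S⟦X⟧).map (d⁄dX S) = 0 := by
    ext1 i j
    simp only [map_apply, one_apply, Matrix.zero_apply]
    split_ifs <;> simp
  simp only [serA_mul, serA_smul, h2, smul_zero, add_zero, smul_add, smul_smul, serA_det h] at h1
  rw [← smul_mul_assoc, h, Matrix.mul_assoc, mul_adjugate, ← Matrix.mul_smul] at h1
  refine (Matrix.isUnit_iff_isUnit_det Y |>.2 hu).mul_left_cancel ?_
  rw [eq_sub_of_add_eq' h1, ← Matrix.mul_assoc, mul_adjugate]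
  simp only [Matrix.mul_smul, Matrix.mul_one, Matrix.smul_mul, Matrix.one_mul, smul_sub, smul_smul,
    mul_comm]

variable {T : Polynomial K} {B : Matrix ν ν (Polynomial K)}

theorem serA_iter {τ : Polynomial K →+* S⟦X⟧} (hτ : ∀ p, τ p.derivative = d⁄dX S (τ p))
    {Y : Matrix ν ν S⟦X⟧} (h : τ T • Y.map (d⁄dX S) = B.map τ * Y) (m : ℕ) :
    τ T ^ m • Y.map (d⁄dX S)^[m] = (iterK T B m).map τ * Y := by
  induction m with
  | zero => simp [iterK, Matrix.map_one]
  | succ m ih =>
    have h1 := congrArg (fun M => τ T • M.map (d⁄dX S)) ih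
    have e1 : (Y.map (d⁄dX S)^[m]).map (d⁄dX S) = Y.map (d⁄dX S)^[m + 1] := by
      rw [Matrix.map_map, iterate_succ']
    have e2 : τ T * d⁄dX S (τ T ^ m) = (m * d⁄dX S (τ T)) * τ T ^ m := by
      rw [Derivation.leibniz_pow]
      rcases m with _ | m
      · simp
      · simp only [add_tsub_cancel_right, smul_eq_mul, nsmul_eq_mul, pow_succ]
        ring
    have e3 : (iterK T B (m + 1)).map τ = τ T • ((iterK T B m).map τ).map (d⁄dX S) -
        (m * d⁄dX S (τ T)) • (iterK T B m).map τ + (iterK T B m).map τ * B.map τ := by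
      ext1 i j
      simp [iterK, hτ, mul_apply]
    simp only [serA_mul, serA_smul, e1, smul_add, smul_smul, e2] at h1
    rw [mul_smul, ih, ← pow_succ', ← Matrix.mul_smul (Matrix.map (iterK T B m) τ) (τ T),
      h] at h1
    rw [e3, eq_sub_of_add_eq' h1, Matrix.add_mul, Matrix.sub_mul, Matrix.smul_mul, Matrix.smul_mul,
      Matrix.mul_assoc]
    abel

theorem serA_coeff [CharZero S] {τ : Polynomial K →+* S⟦X⟧}
    (hτ : ∀ p, τ p.derivative = d⁄dX S (τ p)) (h0 : constantCoeff (τ T) ≠ 0)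
    {Y : Matrix ν ν S⟦X⟧} (h : τ T • Y.map (d⁄dX S) = B.map τ * Y)
    (h1 : Y.map constantCoeff = 1) (m : ℕ) (i j : ν) : coeff m (Y i j) =
      constantCoeff (τ (iterK T B m i j)) / (constantCoeff (τ T) ^ m * m.factorial) := by
  have h2 := congrArg (fun M => M.map constantCoeff) (serA_iter hτ h m)
  simp only [Matrix.map_mul, h1, Matrix.mul_one] at h2
  have h3 := congrFun₂ h2 i j
  simp only [map_apply, Matrix.smul_apply, smul_eq_mul, map_mul, map_pow,
    constantCoeff_iterate_derivative] at h3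
  rw [eq_div_iff (mul_ne_zero (pow_ne_zero _ h0) (Nat.cast_ne_zero.2 m.factorial_ne_zero)), ← h3]
  ring

/-- the coefficients of the solution of `Y' = A Y` -/
def serSeq (A : ℕ → Matrix ν ν S) : ℕ → Matrix ν ν S
  | 0 => 1
  | n + 1 => ((n : S) + 1)⁻¹ • ∑ j : Fin (n + 1), A (n - j) * serSeq A j
decreasing_by exact j.2

theorem serA_ex [CharZero S] (A : Matrix ν ν S⟦X⟧) :
    ∃ Y : Matrix ν ν S⟦X⟧, Y.map constantCoeff = 1 ∧ Y.map (d⁄dX S) = A * Y := by
  refine ⟨of fun i j => PowerSeries.mk fun n => serSeq (fun k => A.map (coeff k)) n i j, ?_, ?_⟩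
  · ext i j
    simp [← coeff_zero_eq_constantCoeff_apply, serSeq]
  · ext i j n
    simp only [map_apply, of_apply, coeff_derivative, coeff_mk, mul_apply, map_sum, coeff_mul]
    rw [serSeq, Matrix.smul_apply, smul_eq_mul, mul_comm, ← mul_assoc,
      mul_inv_cancel₀ (Nat.cast_add_one_ne_zero n), one_mul, sum_comm, Matrix.sum_apply,
      ← Nat.sum_antidiagonal_swap, Nat.sum_antidiagonal_eq_sum_range_succ_mk]
    exact Fin.sum_univ_eq_sum_range (fun k => ∑ l, coeff (n - k) (A i l) *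
      serSeq (fun k => A.map (coeff k)) k l j) (n + 1)

theorem serA_tk0 (x : K) (p : Polynomial K) : constantCoeff (tk x p) = p.eval x := by
  rw [tk_apply, Polynomial.constantCoeff_coe, Polynomial.taylor_coeff_zero]

theorem GbK_zero (T : Polynomial K) (B : Matrix ν ν (Polynomial K)) (x : K) :
    (GbK T B x).map constantCoeff = 1 := by
  ext i j
  simp [GbK, ← coeff_zero_eq_constantCoeff_apply, iterK, one_apply, apply_ite]

theorem GbK_ode [CharZero K] {x : K} (hx : T.eval x ≠ 0) :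
    tk x T • (GbK T B x).map (d⁄dX K) = B.map (tk x) * GbK T B x := by
  obtain ⟨u, hu⟩ := (tk_unit hx).exists_right_inv
  obtain ⟨Y, h0, h1⟩ := serA_ex (u • B.map (tk x))
  have h2 : tk x T • Y.map (d⁄dX K) = B.map (tk x) * Y := by
    rw [h1, Matrix.smul_mul, smul_smul, hu, one_smul]
  have e : GbK T B x = Y := by
    ext i j m
    rw [serA_coeff (tk_deriv x) (by rwa [serA_tk0]) h2 h0, serA_tk0, serA_tk0, GbK, of_apply,
      coeff_mk]
  rw [e, h2]

end

end Pool.Agent.Lib.MP_5591bc_ag.W
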