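import Mathlib

/-! Powers of a relation: the gain from the Hilbert function, and the selection of points. -/

namespace Pool.Agent.Lib.MP_5591bc_ag.W

open Finset Function Module Polynomial
open scoped Classical

variable {Pt A K C R : Type*} [Fintype A] [Field K] [Field C] [CommRing R] [Algebra C R]

variable (C) in
/-- linear combinations of the monomials of degree `a` in `p`, at all points of `S` -/
noncomputable def ampM (p : Pt → A → R) (S : Finset Pt) (a : ℕ) :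
    ((Fin a → A) → C) →ₗ[C] (S → R) :=
  Fintype.linearCombination C fun α ξ => ∏ i, p ξ (α i)

theorem ampM_apply (p : Pt → A → R) (S : Finset Pt) (a : ℕ) (c : (Fin a → A) → C) (ξ : S) :
    ampM C p S a c ξ = ∑ α, c α • ∏ i, p ξ (α i) := by
  simp [ampM, Fintype.linearCombination_apply, Finset.sum_apply]

variable (C) in
/-- the Hilbert function -/
noncomputable def ampR (p : Pt → A → R) (S : Finset Pt) (a : ℕ) : ℕ :=
  finrank C (LinearMap.range (ampM C p S a))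

theorem ampR_zero [Nontrivial R] (p : Pt → A → R) {S : Finset Pt} (h : S.Nonempty) :
    1 ≤ ampR C p S 0 := by
  obtain ⟨ξ, hξ⟩ := h
  refine Submodule.one_le_finrank_iff.2 ((Submodule.ne_bot_iff _).2 ⟨_, ⟨fun _ => 1, rfl⟩, fun e => ?_⟩)
  have := congrFun e ⟨ξ, hξ⟩
  simp [ampM_apply] at this

theorem ampR_le (p : Pt → A → R) (S : Finset Pt) (a : ℕ) :
    ampR C p S a ≤ (a + 1) ^ Fintype.card A := by
  have h : LinearMap.range (ampM C p S a) ≤ Submodule.span C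
      (Set.range fun (n : A → Fin (a + 1)) (ξ : S) => ∏ j, p ξ j ^ (n j : ℕ)) := by
    rw [ampM, Fintype.range_linearCombination]
    refine Submodule.span_mono ?_
    rintro _ ⟨α, rfl⟩
    refine ⟨fun j => ⟨#{i | α i = j}, Nat.lt_succ_of_le ((card_le_univ _).trans (by simp))⟩, ?_⟩
    ext ξ
    simp only
    rw [← prod_fiberwise univ α]
    refine prod_congr rfl fun j _ => ?_
    rw [prod_congr rfl fun i hi => by rw [(mem_filter.1 hi).2], prod_const]
  have := FiniteDimensional.span_of_finite C (Set.finite_range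
    fun (n : A → Fin (a + 1)) (ξ : S) => ∏ j, p ξ j ^ (n j : ℕ))
  refine (Submodule.finrank_mono h).trans ((finrank_range_le_card _).trans ?_)
  simp

theorem ampR_ker (p : Pt → A → R) {S S' : Finset Pt} (h : S' ⊆ S) (a : ℕ) :
    LinearMap.ker (ampM C p S a) ≤ LinearMap.ker (ampM C p S' a) := fun c hc => by
  ext ξ
  have := congrFun (LinearMap.mem_ker.1 hc) ⟨ξ, h ξ.2⟩
  rw [ampM_apply] at this ⊢
  exact this

theorem ampR_mono (p : Pt → A → R) {S S' : Finset Pt} (h : S' ⊆ S) (a : ℕ) :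
    ampR C p S' a ≤ ampR C p S a := by
  have h1 := (ampM C p S a).finrank_range_add_finrank_ker
  have h2 := (ampM C p S' a).finrank_range_add_finrank_ker
  have h3 := Submodule.finrank_mono (ampR_ker (C := C) p h a)
  unfold ampR; omega

theorem ampR_lt (p : Pt → A → R) {S S' : Finset Pt} (h : S' ⊆ S) {a : ℕ} {c : (Fin a → A) → C}
    (h0 : ampM C p S' a c = 0) (hc : ampM C p S a c ≠ 0) : ampR C p S' a < ampR C p S a := by
  have h1 := (ampM C p S a).finrank_range_add_finrank_ker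
  have h2 := (ampM C p S' a).finrank_range_add_finrank_ker
  have h3 := Submodule.finrank_lt_finrank_of_lt
    (lt_of_le_of_ne (ampR_ker (C := C) p h a) fun e => hc (LinearMap.mem_ker.1 (e ▸ h0)))
  unfold ampR; omega

theorem amp_basis (p : Pt → A → R) (S : Finset Pt) (a : ℕ) : ∃ I : Finset (Fin a → A),
    ampR C p S a ≤ #I ∧ ∀ c : (Fin a → A) → C, (∀ α ∉ I, c α = 0) → ampM C p S a c = 0 → c = 0 := by
  obtain ⟨b, -, -, h1, h2⟩ := exists_linearIndepOn_extension (K := C)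
    (v := fun (α : Fin a → A) (ξ : S) => ∏ i, p ξ (α i)) (linearIndepOn_empty C _)
    (Set.empty_subset Set.univ)
  refine ⟨b.toFinset, ?_, fun c hc h0 => ?_⟩
  · have h : LinearMap.range (ampM C p S a) ≤ Submodule.span C
        (b.toFinset.image fun (α : Fin a → A) (ξ : S) => ∏ i, p ξ (α i) : Finset _) := by
      rw [ampM, Fintype.range_linearCombination, Submodule.span_le]
      simpa using h1
    exact (Submodule.finrank_mono h).trans ((finrank_span_finset_le_card _).trans card_image_le)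
  · rw [← Set.coe_toFinset b, linearIndepOn_finset_iff] at h2
    ext α
    by_cases hα : α ∈ b.toFinset
    · refine h2 c ?_ α hα
      rw [← h0, ampM, Fintype.linearCombination_apply]
      exact sum_subset (subset_univ _) fun β _ hβ => by rw [hc β hβ, zero_smul]
    · exact hc α hα

theorem amp_gain [IsDomain R] (ev : R →ₐ[C] C) (p : Pt → A → R) (v : A → C) (S : Finset Pt)
    (h0 : ∀ ξ ∈ S, ∑ j, v j • p ξ j ≠ 0) (h1 : ∀ ξ ∈ S, ∑ j, v j * ev (p ξ j) = 0) (a : ℕ) :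
    ∃ E : Submodule C ((Fin (a + 1) → A) → C), finrank C E + ampR C p S a ≤ ampR C p S (a + 1) ∧
      ∀ ξ ∈ S, (fun α => ∏ i, ev (p ξ (α i))) ∈ E := by
  let L : (S → R) →ₗ[C] (S → R) := LinearMap.mulLeft C fun ξ => ∑ j, v j • p ξ j
  have Li : Injective L := fun x y e => funext fun ξ =>
    mul_left_cancel₀ (h0 ξ ξ.2) (congrFun e ξ)
  set M1 := LinearMap.range (ampM C p S (a + 1)) with hM1
  set M0 := (LinearMap.range (ampM C p S a)).map L with hM0
  have mem : ∀ α : Fin (a + 1) → A, (fun ξ : S => ∏ i, p ξ (α i)) ∈ M1 := fun α => by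
    rw [hM1, ampM, Fintype.range_linearCombination]
    exact Submodule.subset_span ⟨α, rfl⟩
  have le : M0 ≤ M1 := by
    rw [hM0, ampM, Fintype.range_linearCombination, Submodule.map_span, Submodule.span_le]
    rintro _ ⟨_, ⟨α, rfl⟩, rfl⟩
    have : L (fun ξ : S => ∏ i, p ξ (α i)) =
        ∑ j, v j • fun ξ : S => ∏ i, p ξ ((Fin.cons j α : Fin (a + 1) → A) i) := by
      ext ξ
      simp [L, Finset.sum_apply, Fin.prod_univ_succ, sum_mul]
    rw [SetLike.mem_coe, this]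
    exact Submodule.sum_mem _ fun j _ => Submodule.smul_mem _ _ (mem _)
  let T : Dual C (M1 ⧸ M0.comap M1.subtype) →ₗ[C] ((Fin (a + 1) → A) → C) :=
    LinearMap.pi fun α => Dual.eval C _ (Submodule.Quotient.mk ⟨_, mem α⟩)
  refine ⟨LinearMap.range T, ?_, fun ξ hξ => ?_⟩
  · have e1 := Submodule.finrank_quotient_add_finrank (M0.comap M1.subtype)
    have e2 := (Submodule.comapSubtypeEquivOfLe le).finrank_eq
    have e3 : finrank C M0 = ampR C p S a :=
      (Submodule.equivMapOfInjective L Li _).finrank_eq.symm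
    have e4 := T.finrank_range_le
    rw [Subspace.dual_finrank_eq] at e4
    have e5 : finrank C M1 = ampR C p S (a + 1) := rfl
    omega
  · refine ⟨(M0.comap M1.subtype).liftQ
      (ev.toLinearMap ∘ₗ LinearMap.proj (⟨ξ, hξ⟩ : S) ∘ₗ M1.subtype) ?_, ?_⟩
    · rintro x ⟨y, -, e⟩
      have := congrFun e ⟨ξ, hξ⟩
      simp only [L, LinearMap.mulLeft_apply, Pi.mul_apply, Submodule.subtype_apply] at this
      simp [LinearMap.mem_ker, ← this, h1 ξ hξ]
    · ext α
      simp [T]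

theorem amp_div {J : Type*} (s : K) (P : (J → K[X]) → Prop)
    (hP : ∀ φ, P (fun j => (X - Polynomial.C s) * φ j) → P φ) {φ : J → K[X]} (h0 : φ ≠ 0) (h : P φ) :
    ∃ ψ, P ψ ∧ ∃ j, (ψ j).eval s ≠ 0 := by
  obtain ⟨j0, hj⟩ := Function.ne_iff.1 h0
  clear h0
  induction hn : (φ j0).natDegree using Nat.strong_induction_on generalizing φ with
  | _ n ih =>
    by_cases hz : ∃ j, (φ j).eval s ≠ 0
    · exact ⟨φ, h, hz⟩
    push Not at hz
    have e : ∀ j, (X - Polynomial.C s) * (φ j /ₘ (X - Polynomial.C s)) = φ j := fun j =>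
      mul_divByMonic_eq_iff_isRoot.2 (hz j)
    have h1 : φ j0 /ₘ (X - Polynomial.C s) ≠ 0 := fun h2 => hj (by rw [← e j0, h2]; simp)
    refine ih _ ?_ (φ := fun j => φ j /ₘ (X - Polynomial.C s)) (hP _ (by simpa only [e] using h))
      h1 rfl
    have := congrArg natDegree (e j0)
    rw [natDegree_mul (X_sub_C_ne_zero s) h1, natDegree_X_sub_C] at this
    omega

theorem amp_select (ι : K →+* C) (s : K) (p : Pt → A → R) (a0 M' : ℕ)
    (Rel : Pt → ∀ a, Set ((Fin a → A) → K[X]))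
    (hd : ∀ ξ a φ, (fun α => (X - Polynomial.C s) * φ α) ∈ Rel ξ a → φ ∈ Rel ξ a)
    (he : ∀ ξ a, ∀ φ ∈ Rel ξ a, ∑ α, ι ((φ α).eval s) • ∏ i, p ξ (α i) = 0) (n : ℕ) :
    ∀ S : Finset Pt, ∑ a ∈ range (a0 + 1), ampR C p S a ≤ n → (n + 1) * M' ≤ #S →
      ∃ S' ⊆ S, M' ≤ #S' ∧ ∀ a ≤ a0, ∀ I : Finset (Fin a → A),
        (∀ c : (Fin a → A) → C, (∀ α ∉ I, c α = 0) → ampM C p S' a c = 0 → c = 0) →
        ∀ φ : (Fin a → A) → K[X], φ ≠ 0 → (∀ α ∉ I, φ α = 0) → M' ≤ #{ξ ∈ S' | φ ∉ Rel ξ a} := by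
  induction n using Nat.strong_induction_on with
  | _ n ih =>
    intro S h1 h2
    by_contra hn
    have hn' := not_and.1 (not_and.1 (not_exists.1 hn S) Subset.rfl)
      (le_trans (Nat.le_mul_of_pos_left _ n.succ_pos) h2)
    push Not at hn'
    obtain ⟨a, ha, I, hI, φ, φ0, φI, hc⟩ := hn'
    obtain ⟨ψ, ⟨ψI, ψR⟩, j, hj⟩ := amp_div s
      (fun ψ => (∀ α ∉ I, ψ α = 0) ∧ ∀ ξ ∈ S, φ ∈ Rel ξ a → ψ ∈ Rel ξ a)
      (fun ψ h => ⟨fun α hα => (mul_eq_zero.1 (h.1 α hα)).resolve_left (X_sub_C_ne_zero s),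
        fun ξ hξ hr => hd ξ a ψ (h.2 ξ hξ hr)⟩) φ0 ⟨φI, fun _ _ h => h⟩
    have sub : {ξ ∈ S | φ ∈ Rel ξ a} ⊆ S := filter_subset _ _
    have lt : ampR C p {ξ ∈ S | φ ∈ Rel ξ a} a < ampR C p S a := by
      refine ampR_lt p sub (c := fun α => ι ((ψ α).eval s)) ?_ fun h => hj ?_
      · ext ξ
        rw [ampM_apply]
        exact he ξ a ψ (ψR ξ (mem_filter.1 ξ.2).1 (mem_filter.1 ξ.2).2)
      · exact (map_eq_zero ι).1 (congrFun (hI _ (fun α hα => by simp [ψI α hα]) h) j)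
    have lt2 := sum_lt_sum (s := range (a0 + 1)) (fun a _ => ampR_mono (C := C) p sub a)
      ⟨a, mem_range.2 (Nat.lt_succ_of_le ha), lt⟩
    have cd := card_filter_add_card_filter_not (s := S) fun ξ => φ ∈ Rel ξ a
    obtain ⟨m, rfl⟩ : ∃ m, n = m + 1 := ⟨n - 1, by omega⟩
    obtain ⟨S', s1, s2⟩ := ih m m.lt_succ_self {ξ ∈ S | φ ∈ Rel ξ a} (by omega) (by
      rw [add_mul (m + 1)] at h2
      omega)
    exact hn ⟨S', s1.trans sub, s2⟩

theorem amp_gap (g d : ℕ) (α : ℕ → ℕ) (h0 : 1 ≤ α 0)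
    (hα : ∀ j, α j ≤ (j + 1) ^ d) :
    ∃ j < 4 * ((g + 1) * (d + 1)) ^ 2, g * (α (j + 1) - α j) ≤ α (j + 1) := by
  by_contra hn
  push Not at hn
  have key : ∀ j ≤ 4 * ((g + 1) * (d + 1)) ^ 2, (1 + 1 / (g + 1) : ℝ) ^ j ≤ α j := by
    intro j
    induction j with
    | zero => intro _; simpa using h0
    | succ j ih =>
      intro hj
      have h3 := hn j hj
      have h4 : α j ≤ α (j + 1) := by
        by_contra h
        rw [Nat.sub_eq_zero_of_le (not_le.1 h).le] at h3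
        omega
      have h5 : (α (j + 1) : ℝ) < g * (α (j + 1) - α j) := by exact_mod_cast h3
      have h6 : (α j : ℝ) ≤ α (j + 1) := by exact_mod_cast h4
      have h7 : (0 : ℝ) ≤ α j := Nat.cast_nonneg _
      rw [pow_succ]
      refine (mul_le_mul_of_nonneg_right (ih (by omega)) (by positivity)).trans ?_
      rw [mul_add, mul_one, mul_one_div, add_comm, ← le_sub_iff_add_le, div_le_iff₀ (by positivity)]
      nlinarith
  obtain ⟨y, hy⟩ : ∃ y, y = (g + 1) * (d + 1) := ⟨_, rfl⟩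
  have h1 : (2 : ℝ) ≤ (1 + 1 / (g + 1) : ℝ) ^ (g + 1) := by
    refine le_trans (le_of_eq ?_) (one_add_mul_le_pow (a := 1 / (g + 1 : ℝ))
      (le_trans (by norm_num) (by positivity : (0 : ℝ) ≤ _)) (g + 1))
    push_cast
    field_simp
    norm_num
  have h2 := key _ le_rfl
  rw [show 4 * ((g + 1) * (d + 1)) ^ 2 = (g + 1) * (4 * y * (d + 1)) by rw [hy]; ring, pow_mul] at h2
  have h3 := (pow_le_pow_left₀ zero_le_two h1 _).trans h2
  rw [show (g + 1) * (4 * y * (d + 1)) = 4 * y ^ 2 by rw [hy]; ring] at h3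
  have h4 : 2 ^ (4 * y * (d + 1)) ≤ (4 * y ^ 2 + 1) ^ d := le_trans (by exact_mod_cast h3) (hα _)
  have h5 : 4 * y ^ 2 + 1 ≤ 2 ^ (4 * y) := by
    have := Nat.lt_two_pow_self (n := 2 * y)
    rw [show 4 * y = 2 * y * 2 by ring, pow_mul]
    nlinarith
  have h6 : 1 < 2 ^ (4 * y) := Nat.one_lt_two_pow (by rw [hy]; positivity)
  rw [pow_mul] at h4
  exact absurd (h4.trans (Nat.pow_le_pow_left h5 d)) (not_le.2 (Nat.pow_lt_pow_right h6 d.lt_succ_self))

/-- the exponent vector of a monomial -/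
noncomputable def cnt {a : ℕ} (α : Fin a → A) : A → Fin (a + 1) := fun j =>
  ⟨#{i | α i = j}, Nat.lt_succ_of_le ((card_le_univ _).trans (by simp))⟩

theorem prod_cnt {M : Type*} [CommMonoid M] {a : ℕ} (x : A → M) (α : Fin a → A) :
    ∏ i, x (α i) = ∏ j, x j ^ (cnt α j : ℕ) := by
  rw [← prod_fiberwise univ α]
  refine prod_congr rfl fun j _ => ?_
  rw [prod_congr rfl fun i hi => by rw [(mem_filter.1 hi).2], prod_const]
  rfl

/-- Amplification and selection, with explicit constants. -/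
theorem amp (g M' : ℕ) (hM : 0 < M') {a0 : ℕ}
    (ha0 : a0 = 4 * ((g + 1) * (Fintype.card A + 1)) ^ 2) [IsDomain R] (ev : R →ₐ[C] C)
    (ι : K →+* C) (s : K) (p : Pt → A → R) (v : A → C) (S : Finset Pt)
    (Rel : Pt → ∀ a, Set ((Fin a → A) → K[X]))
    (hS : ((a0 + 1) ^ (Fintype.card A + 1) + 1) * M' ≤ #S)
    (h0 : ∀ ξ ∈ S, ∑ j, v j • p ξ j ≠ 0) (h1 : ∀ ξ ∈ S, ∑ j, v j * ev (p ξ j) = 0)
    (hd : ∀ ξ a φ, (fun α => (X - Polynomial.C s) * φ α) ∈ Rel ξ a → φ ∈ Rel ξ a)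
    (he : ∀ ξ a, ∀ φ ∈ Rel ξ a, ∑ α, ι ((φ α).eval s) • ∏ i, p ξ (α i) = 0) :
    ∃ S' ⊆ S, ∃ a ≤ a0, ∃ (I : Finset (Fin a → A)) (E : Submodule C ((Fin a → A) → C)),
      0 < a ∧ I.Nonempty ∧ Set.InjOn cnt (I : Set (Fin a → A)) ∧ g * finrank C E ≤ #I ∧
      finrank C E ≤ (a + 1) ^ Fintype.card A ∧
      (∀ ξ ∈ S', (fun α => ∏ i, ev (p ξ (α i))) ∈ E) ∧
      ∀ φ : (Fin a → A) → K[X], φ ≠ 0 → (∀ α ∉ I, φ α = 0) → M' ≤ #{ξ ∈ S' | φ ∉ Rel ξ a} := by
  obtain ⟨S', s1, s2, s3⟩ := amp_select ι s p a0 M' Rel hd he _ S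
    ((sum_le_card_nsmul _ _ ((a0 + 1) ^ Fintype.card A) fun a ha => (ampR_le p S a).trans
      (Nat.pow_le_pow_left (mem_range.1 ha) _)).trans (by simp [pow_succ'])) hS
  have ne : S'.Nonempty := card_pos.1 (hM.trans_le s2)
  obtain ⟨a, ha, hg⟩ := amp_gap g _ (ampR C p S') (ampR_zero p ne) (ampR_le p S')
  rw [← ha0] at ha
  obtain ⟨I, i1, i2⟩ := amp_basis (C := C) p S' (a + 1)
  obtain ⟨E, e1, e2⟩ := amp_gain ev p v S' (fun ξ hξ => h0 ξ (s1 hξ)) (fun ξ hξ => h1 ξ (s1 hξ)) a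
  refine ⟨S', s1, a + 1, ha, I, E, a.succ_pos, ?_, fun α hα β hβ e => by_contra fun ne => ?_, ?_,
    (Nat.le_of_add_right_le e1).trans (ampR_le p S' _), e2, s3 _ ha I i2⟩
  · have : ∀ j, 1 ≤ ampR C p S' j := fun j => by
      induction j with
      | zero => exact ampR_zero p ne
      | succ j ih =>
        obtain ⟨_, e, -⟩ := amp_gain ev p v S' (fun ξ hξ => h0 ξ (s1 hξ)) (fun ξ hξ => h1 ξ (s1 hξ)) j
        omega
    exact card_pos.1 ((this _).trans i1)
  · have := congrFun (i2 (Pi.single α 1 - Pi.single β 1) (fun γ hγ => by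
      rw [Pi.sub_apply, Pi.single_eq_of_ne (ne_of_mem_of_not_mem (mem_coe.1 hα) hγ).symm,
        Pi.single_eq_of_ne (ne_of_mem_of_not_mem (mem_coe.1 hβ) hγ).symm, sub_zero]) (by
      ext ξ
      simp only [map_sub, ampM, Fintype.linearCombination_apply_single, one_smul, Pi.sub_apply,
        prod_cnt, e, sub_self, Pi.zero_apply])) α
    simp [ne] at this
  · exact ((Nat.mul_le_mul_left g (Nat.le_sub_of_add_le e1)).trans hg).trans i1

end Pool.Agent.Lib.MP_5591bc_ag.W
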