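import Pool.Agent.Lib.MP_5591bc_ag.W.Ser
import Pool.Agent.Lib.MP_5591bc_ag.W.Fld

/-! Change of the field of coefficients. -/

namespace Pool.Agent.Lib.MP_5591bc_ag.W

open Matrix Filter Topology PowerSeries G R H Metric NumberField

noncomputable section

variable {K L ν : Type*} [Field K] [NumberField K] [Field L] [NumberField L] [Fintype ν]
  [DecidableEq ν]

theorem wmap_house {x : K} {H : ℝ} (h : ∀ φ : K →+* ℂ, ‖φ x‖ ≤ H) : house x ≤ H :=
  (pi_norm_le_iff_of_nonempty _).2 h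

theorem Ht.mono {x : K} {H H' : ℝ} (h : Ht x H) (e : H ≤ H') : Ht x H' := by
  obtain ⟨d, a, b, c, k⟩ := h
  exact ⟨d, a, b.trans e, c, k.trans e⟩

theorem Hd.mono {x : K} {H H' : ℝ} (h : Hd x H) (e : H ≤ H') : Hd x H' := by
  obtain ⟨d, a, b, c⟩ := h
  exact ⟨d, a, b, c.trans e⟩

theorem Hd.ht {x : K} {H : ℝ} (h : Hd x H) : Ht x H := by
  obtain ⟨d, a, b, c⟩ := h
  exact b.mono ((le_self_pow₀ (one_le_two.trans a) Module.finrank_pos.ne').trans c)

theorem Ht.norm_le {x : K} {H : ℝ} (h : Ht x H) (φ : K →+* ℂ) : ‖φ x‖ ≤ H := by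
  obtain ⟨d, -, -, -, k⟩ := h
  exact (norm_embedding_le_house x φ).trans k

theorem Ht.map {x : K} {H : ℝ} (h : Ht x H) (φ : K →+* L) : Ht (φ x) H := by
  have k := fun σ : L →+* ℂ => h.norm_le (σ.comp φ)
  obtain ⟨d, a, b, c, -⟩ := h
  exact ⟨d, a, b, by simpa using c.map φ.toIntAlgHom, wmap_house k⟩

theorem Ht_of_poly {x : K} {H : ℝ} {p : Polynomial ℤ} (p0 : p ≠ 0)
    (hp : ∀ i, (|p.coeff i| : ℝ) ≤ H) (hx : Polynomial.aeval x p = 0) : Ht x (2 * H) := by
  obtain ⟨d, a, b, c, k⟩ := ht_alg p0 hp hx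
  have h1 : (1 : ℝ) ≤ d := by exact_mod_cast a
  exact ⟨d, a, by linarith, c, wmap_house fun φ => (k φ).trans (by linarith)⟩

theorem eval_TK (T : Polynomial ℚ) (φ : K →+* L) (x : K) :
    (TK L T).eval (φ x) = φ ((TK K T).eval x) := by
  rw [Polynomial.eval_map_algebraMap, Polynomial.eval_map_algebraMap]
  exact Polynomial.aeval_algHom_apply φ.toRatAlgHom x T

theorem aeval_TK [Algebra K ℂ] (T : Polynomial ℚ) (x : K) :
    algebraMap K ℂ ((TK K T).eval x) = Polynomial.aeval (algebraMap K ℂ x) T := by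
  rw [Polynomial.eval_map_algebraMap]
  exact (Polynomial.aeval_algHom_apply (algebraMap K ℂ).toRatAlgHom x T).symm

theorem wmap_iter (K : Type*) [Field K] [CharZero K] (T : Polynomial ℚ)
    (B : Matrix ν ν (Polynomial ℚ)) (k : ℕ) (i j : ν) :
    iterK (TK K T) (BK K B) k i j = TK K (iterK T B k i j) := by
  induction k generalizing i j with
  | zero => simp [iterK, one_apply, apply_ite (TK K)]
  | succ k ih => simp [iterK, mul_apply, ih, Polynomial.map_sum]

theorem GbK_map (T : Polynomial ℚ) (B : Matrix ν ν (Polynomial ℚ)) (φ : K →+* L) (x : K) :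
    GbK (TK L T) (BK L B) (φ x) = (GbK (TK K T) (BK K B) x).map (PowerSeries.map φ) := by
  ext i j k
  simp only [GbK, map_apply, of_apply, coeff_map, coeff_mk, wmap_iter, eval_TK, map_div₀, map_mul,
    map_pow, map_natCast]

theorem Lser_map (T : Polynomial ℚ) (B : Matrix ν ν (Polynomial ℚ)) (φ : K →+* L) (δ : ℕ) (x : K)
    (F : Mo δ ν → K) (μ : Mo δ ν) : Lser (TK L T) (BK L B) δ (φ x) (fun η => φ (F η)) μ =
      PowerSeries.map φ (Lser (TK K T) (BK K B) δ x F μ) := by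
  simp only [Lser, GbK_map, ← Adj_map, vecMul, dotProduct, map_apply, map_sum, map_mul, map_C]

theorem Fd_TK (K : Type*) [Field K] [NumberField K] [Algebra K ℂ] {T : Polynomial ℚ}
    {B : Matrix ν ν (Polynomial ℚ)} {U : Set ℂ} {P : ℂ → Matrix ν ν ℂ} (h : Fd T B U P) :
    Fd (TK K T) (BK K B) U P := by
  have e : ∀ (t : ℂ) (q : Polynomial ℚ), Polynomial.aeval t (TK K q) = Polynomial.aeval t q :=
    fun t q => by
      rw [Polynomial.aeval_def, Polynomial.eval₂_map, Polynomial.aeval_def]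
      congr 1
      exact Subsingleton.elim _ _
  have e' : AzK (TK K T) (BK K B) = AzK T B := by
    ext t i j
    simp only [AzK, of_apply, map_apply, e]
  intro t ht
  rw [e, e']
  exact h t ht

/-- the difference of two points -/
theorem Ht.sub {x y : K} {n Λ : ℕ} (hx : Ht x (2 ^ n)) (hy : Ht y (2 ^ n)) (h : 2 * n + 1 ≤ Λ) :
    (∃ d : ℕ, 0 < d ∧ d ≤ 2 ^ Λ ∧ IsIntegral ℤ ((d : K) * (x - y))) ∧
      ∀ σ : K →+* ℂ, ‖σ (x - y)‖ ≤ 2 ^ Λ := by
  have h1 : (2 : ℝ) ^ n + 2 ^ n ≤ 2 ^ Λ := by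
    rw [← two_mul, ← pow_succ']
    exact pow_le_pow_right₀ one_le_two (by omega)
  refine ⟨?_, fun σ => ?_⟩
  · obtain ⟨d, a, b, c, -⟩ := hx
    obtain ⟨d', a', b', c', -⟩ := hy
    refine ⟨d * d', Nat.mul_pos a a', ?_, ?_⟩
    · refine (Nat.mul_le_mul (m₂ := 2 ^ n) (n₂ := 2 ^ n) (by exact_mod_cast b)
        (by exact_mod_cast b')).trans ?_
      rw [← pow_add]
      exact Nat.pow_le_pow_right two_pos (by omega)
    · rw [show ((d * d' : ℕ) : K) * (x - y) = d' * (d * x) - d * (d' * y) by push_cast; ring]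
      exact ((isIntegral_natCast d').mul c).sub ((isIntegral_natCast d).mul c')
  · rw [map_sub]
    exact (norm_sub_le _ _).trans ((add_le_add (hx.norm_le σ) (hy.norm_le σ)).trans h1)

end

end Pool.Agent.Lib.MP_5591bc_ag.W
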