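import Mathlib

/-! Equations against unknowns, with constants polynomial in the degree. -/

namespace Pool.Agent.Lib.MP_5591bc_ag.W

theorem numd_choose (P k : ℕ) : (P * k).choose k ≤ (3 * P) ^ k := by
  have h1 : ((P * k).choose k : ℝ) ≤ ((P * k : ℕ) : ℝ) ^ k / k.factorial :=
    Nat.choose_le_pow_div k (P * k)
  have h2 : (k : ℝ) ^ k / k.factorial ≤ 3 ^ k :=
    (Real.pow_div_factorial_le_exp _ (Nat.cast_nonneg k) k).trans (by
      rw [← mul_one (k : ℝ), Real.exp_nat_mul]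
      exact pow_le_pow_left₀ (Real.exp_pos _).le Real.exp_one_lt_three.le k)
  have h3 : ((P * k).choose k : ℝ) ≤ (3 * P) ^ k := by
    refine h1.trans ?_
    rw [Nat.cast_mul, mul_pow, mul_div_assoc, mul_pow, mul_comm]
    gcongr
  exact_mod_cast h3

/-- `P k` variables, vanishing in `k` of them -/
theorem numd_ratio {r ρ W τ D k P : ℕ} (hP : 1 ≤ P) (h1 : 1 ≤ τ * D) (hg : 36 * τ * P * r ≤ ρ) :
    (P * k).choose k * (ρ * D) ^ (P * k - k) * (r ^ k * W) * (3 * (τ * D + 1)) ^ k * 2 ^ k ≤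
      W * (ρ * D) ^ (P * k) := by
  have h2 : 3 * P * r * (3 * (τ * D + 1)) * 2 ≤ ρ * D := by
    calc _ ≤ 3 * P * r * (6 * (τ * D)) * 2 := by gcongr _ * ?_ * _; omega
      _ = 36 * τ * P * r * D := by ring
      _ ≤ _ := Nat.mul_le_mul_right _ hg
  have h3 := Nat.pow_le_pow_left h2 k
  obtain ⟨n, hn⟩ := Nat.exists_eq_add_of_le (Nat.le_mul_of_pos_left k hP)
  calc _ ≤ (3 * P) ^ k * (ρ * D) ^ (P * k - k) * (r ^ k * W) * (3 * (τ * D + 1)) ^ k * 2 ^ k := by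
        gcongr; exact numd_choose P k
    _ = W * ((3 * P * r * (3 * (τ * D + 1)) * 2) ^ k * (ρ * D) ^ (P * k - k)) := by
        simp only [mul_pow]; ring
    _ ≤ W * ((ρ * D) ^ k * (ρ * D) ^ (P * k - k)) := by gcongr
    _ = _ := by rw [← pow_add, hn, Nat.add_sub_cancel_left]

/-- the form used by the lemma of Siegel for subsets -/
theorem numd_sub {r ρ W τ D k P G q : ℕ} (h1 : 1 ≤ τ * D) (hg : 36 * τ * P * r ≤ ρ)
    (hG : (G + 1) * W ≤ 2 ^ k) (hq : q ≤ r ^ k * W * (3 * (τ * D + 1)) ^ k) :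
    (G + 1) * ((P * k).choose k * q) ≤ (ρ * D) ^ k := by
  have h2 : 2 * (3 * P * (r * (3 * (τ * D + 1)))) ≤ ρ * D := by
    calc _ ≤ 2 * (3 * P * (r * (6 * (τ * D)))) := by gcongr _ * (_ * (_ * ?_)); omega
      _ = 36 * τ * P * r * D := by ring
      _ ≤ _ := Nat.mul_le_mul_right _ hg
  calc _ ≤ (G + 1) * ((3 * P) ^ k * (r ^ k * W * (3 * (τ * D + 1)) ^ k)) := by
        gcongr; exact numd_choose P k
    _ = (G + 1) * W * (3 * P * (r * (3 * (τ * D + 1)))) ^ k := by simp only [mul_pow]; ring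
    _ ≤ 2 ^ k * (3 * P * (r * (3 * (τ * D + 1)))) ^ k := by gcongr
    _ ≤ _ := by rw [← mul_pow]; exact Nat.pow_le_pow_left h2 k

end Pool.Agent.Lib.MP_5591bc_ag.W
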