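import Mathlib

/-! Numbers for the polylogarithmic count. -/

namespace Pool.Agent.Lib.MP_5591bc_ag.W

open Finset

/-- polynomially bounded -/
def PB (f : ℕ → ℕ) : Prop := ∃ c : ℕ, ∀ L, f L ≤ (L + 2) ^ c

namespace PB
variable {f g : ℕ → ℕ}

theorem mono (h : PB g) (e : ∀ L, f L ≤ g L) : PB f := h.imp fun _ h L => (e L).trans (h L)

theorem const (k : ℕ) : PB fun _ => k :=
  ⟨k, fun _ => k.lt_two_pow_self.le.trans (Nat.pow_le_pow_left (by omega) k)⟩

theorem id : PB fun L => L := ⟨1, fun L => by simp⟩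

theorem mul (h : PB f) (h' : PB g) : PB fun L => f L * g L := by
  obtain ⟨a, ha⟩ := h
  obtain ⟨b, hb⟩ := h'
  exact ⟨a + b, fun L => by rw [pow_add]; exact Nat.mul_le_mul (ha L) (hb L)⟩

theorem add (h : PB f) (h' : PB g) : PB fun L => f L + g L := by
  obtain ⟨a, ha⟩ := h
  obtain ⟨b, hb⟩ := h'
  refine ⟨a + b + 1, fun L => ?_⟩
  have h1 := (ha L).trans (Nat.pow_le_pow_right (by omega : 0 < L + 2) (Nat.le_add_right a b))
  have h2 := (hb L).trans (Nat.pow_le_pow_right (by omega : 0 < L + 2) (Nat.le_add_left b a))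
  rw [pow_succ]
  nlinarith

theorem pow (h : PB f) (n : ℕ) : PB fun L => f L ^ n := by
  obtain ⟨a, ha⟩ := h
  exact ⟨a * n, fun L => by rw [pow_mul]; exact Nat.pow_le_pow_left (ha L) n⟩

/-- the real form, with `L` the binary length of `H` -/
theorem log (h : PB f) : ∃ C : ℝ, ∀ H : ℝ, 3 ≤ H → ∃ L : ℕ, 1 ≤ L ∧ H ≤ 2 ^ L ∧
    (f L : ℝ) ≤ C * Real.log H ^ C := by
  obtain ⟨c, hc⟩ := h
  refine ⟨5 ^ c, fun H hH => ?_⟩
  have l1 : 1 ≤ Real.log H := by
    rw [Real.le_log_iff_exp_le (by linarith)]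
    exact Real.exp_one_lt_three.le.trans hH
  have l2 : (1 / 2 : ℝ) < Real.log 2 := by have := Real.log_two_gt_d9; linarith
  refine ⟨⌈2 * Real.log H⌉₊, Nat.one_le_ceil_iff.2 (by linarith), ?_, ?_⟩
  · rw [← Real.log_le_log_iff (by linarith) (by positivity), Real.log_pow]
    have := Nat.le_ceil (2 * Real.log H)
    nlinarith
  · have h1 := Nat.ceil_lt_add_one (a := 2 * Real.log H) (by linarith)
    have h2 : (f ⌈2 * Real.log H⌉₊ : ℝ) ≤ (⌈2 * Real.log H⌉₊ + 2) ^ c := by exact_mod_cast hc _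
    refine h2.trans ((pow_le_pow_left₀ (by positivity)
      (by linarith : _ ≤ 5 * Real.log H) c).trans ?_)
    rw [mul_pow, ← Real.rpow_natCast (Real.log H)]
    refine mul_le_mul_of_nonneg_left (Real.rpow_le_rpow_of_exponent_le l1 ?_) (by positivity)
    exact_mod_cast (Nat.lt_pow_self (by norm_num)).le

end PB

/-- a number of variables that beats the polynomial loss -/
theorem num_m (B a E : ℕ) {y : ℕ} (hy : B + a + 3 * E + 4 ≤ y) :
    B * y ^ 2 * (a * y ^ 2 + 1) ^ E ≤ 2 ^ y ^ 2 := by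
  have h1 : B * y ^ 2 ≤ y ^ 3 := by
    rw [pow_succ' y 2]; exact Nat.mul_le_mul_right _ (by omega)
  have h2 : a * y ^ 2 + 1 ≤ y ^ 3 := by
    have : 0 < y ^ 2 := pow_pos (by omega) 2
    calc _ ≤ (a + 1) * y ^ 2 := by nlinarith
      _ ≤ _ := by rw [pow_succ' y 2]; exact Nat.mul_le_mul_right _ (by omega)
  calc _ ≤ y ^ 3 * (y ^ 3) ^ E := Nat.mul_le_mul h1 (Nat.pow_le_pow_left h2 E)
    _ ≤ y ^ y := by rw [← pow_mul, ← pow_add]; exact Nat.pow_le_pow_right (by omega) (by omega)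
    _ ≤ (2 ^ y) ^ y := Nat.pow_le_pow_left y.lt_two_pow_self.le y
    _ = _ := by rw [← pow_mul, sq]

/-- the number of points of a simplex -/
theorem num_simplex (σ : Type*) [Fintype σ] [DecidableEq σ] (y n : ℕ) :
    #{κ ∈ Fintype.piFinset fun _ : σ => range n | ∑ i, κ i ≤ Fintype.card σ * y} ≤
      (3 * (y + 1)) ^ Fintype.card σ := by
  set t : ℝ := y / (y + 1) with ht
  have t0 : 0 ≤ t := by positivity
  have t1 : t < 1 := (div_lt_one (by positivity)).2 (lt_add_one _)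
  have h1 : 1 ≤ 3 * t ^ y := by
    rcases y.eq_zero_or_pos with rfl | hy
    · norm_num
    have hy' : (0 : ℝ) < y := by exact_mod_cast hy
    have h2 : (1 + 1 / y : ℝ) ^ y ≤ 3 := by
      refine le_trans (pow_le_pow_left₀ (by positivity) (b := Real.exp (1 / y))
        (by rw [add_comm]; exact Real.add_one_le_exp _) y) ?_
      rw [← Real.exp_nat_mul, mul_one_div_cancel hy'.ne']
      exact Real.exp_one_lt_three.le
    calc (1 : ℝ) = (1 + 1 / y : ℝ) ^ y * t ^ y := by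
          rw [← mul_pow, ht, show ((1 + 1 / y) * (y / (y + 1)) : ℝ) = 1 by field_simp, one_pow]
      _ ≤ _ := by gcongr
  have h2 : ∑ k ∈ range n, t ^ k ≤ y + 1 := by
    refine ((summable_geometric_of_lt_one t0 t1).sum_le_tsum _ fun _ _ => by positivity).trans ?_
    rw [tsum_geometric_of_lt_one t0 t1, ht]
    field_simp
    simp
  have h3 : (#{κ ∈ Fintype.piFinset fun _ : σ => range n | ∑ i, κ i ≤ Fintype.card σ * y} : ℝ) ≤
      ∑ κ ∈ Fintype.piFinset fun _ : σ => range n, 3 ^ Fintype.card σ * ∏ i, t ^ κ i := by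
    rw [card_eq_sum_ones, Nat.cast_sum]
    refine (sum_le_sum fun κ hκ => ?_).trans
      (sum_le_sum_of_subset_of_nonneg (filter_subset _ _) fun _ _ _ => by positivity)
    rw [prod_pow_eq_pow_sum, Nat.cast_one]
    refine (one_le_pow₀ h1 (n := Fintype.card σ)).trans ?_
    rw [mul_pow, ← pow_mul, mul_comm y]
    exact mul_le_mul_of_nonneg_left (pow_le_pow_of_le_one t0 t1.le (mem_filter.1 hκ).2)
      (by positivity)
  rw [← mul_sum, ← prod_univ_sum, prod_const, card_univ, ← mul_pow] at h3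
  have h4 : (3 * ∑ k ∈ range n, t ^ k) ^ Fintype.card σ ≤ (3 * (y + 1)) ^ Fintype.card σ := by
    gcongr
  exact_mod_cast h3.trans h4

/-- equations against unknowns: `P k` variables, vanishing in `k` of them -/
theorem num_ratio {r ρ W τ D k P : ℕ} (hP : 1 ≤ P) (h1 : 1 ≤ τ * D) (hg : 6 * τ * 4 ^ P * r ≤ ρ) :
    2 ^ (P * k) * (ρ * D) ^ (P * k - k) * (r ^ k * W) * (3 * (τ * D + 1)) ^ k * 2 ^ (P * k) ≤
      W * (ρ * D) ^ (P * k) := by
  have h2 : 2 ^ P * r * (3 * (τ * D + 1)) * 2 ^ P ≤ ρ * D := by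
    calc _ ≤ 2 ^ P * r * (6 * (τ * D)) * 2 ^ P := by gcongr _ * ?_ * _; omega
      _ = 6 * τ * (2 ^ P * 2 ^ P) * r * D := by ring
      _ ≤ _ := by rw [← mul_pow]; exact Nat.mul_le_mul_right _ hg
  have h3 := Nat.pow_le_pow_left h2 k
  obtain ⟨n, hn⟩ := Nat.exists_eq_add_of_le (Nat.le_mul_of_pos_left k hP)
  calc _ = W * ((2 ^ P * r * (3 * (τ * D + 1)) * 2 ^ P) ^ k * (ρ * D) ^ (P * k - k)) := by
        simp only [mul_pow, pow_mul]; ring
    _ ≤ W * ((ρ * D) ^ k * (ρ * D) ^ (P * k - k)) := by gcongr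
    _ = _ := by rw [← pow_add, hn, Nat.add_sub_cancel_left]

/-- the same with vanishing in all variables -/
theorem num_ratio1 {r ρ W τ D m : ℕ} (h1 : 1 ≤ τ * D) (hg : 12 * τ * r ≤ ρ) :
    r ^ m * W * (3 * (τ * D + 1)) ^ m * 2 ^ m ≤ W * (ρ * D) ^ m := by
  have h2 : r * (3 * (τ * D + 1)) * 2 ≤ ρ * D := by
    calc _ ≤ r * (6 * (τ * D)) * 2 := by gcongr _ * ?_ * _; omega
      _ = 12 * τ * r * D := by ring
      _ ≤ _ := Nat.mul_le_mul_right _ hg
  calc _ = W * (r * (3 * (τ * D + 1)) * 2) ^ m := by simp only [mul_pow]; ring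
    _ ≤ _ := by gcongr

/-- the exponent of Siegel's lemma -/
theorem num_exp {p q W B m : ℕ} (h1 : p * 2 ^ m ≤ W * q) (h2 : 2 * B * W ≤ 2 ^ m) (hB : 1 ≤ B)
    (hq : 0 < q) : p < q ∧ (p : ℝ) / (q - p) ≤ 1 / B := by
  have h3 : 2 * B * p ≤ q := by
    refine Nat.le_of_mul_le_mul_right ?_ (Nat.two_pow_pos m)
    calc _ = 2 * B * (p * 2 ^ m) := by ring
      _ ≤ 2 * B * (W * q) := by gcongr
      _ = q * (2 * B * W) := by ring
      _ ≤ _ := by gcongr
  have h4 : p < q := by nlinarith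
  have h5 : (p : ℝ) < q := by exact_mod_cast h4
  have h6 : (2 * B * p : ℝ) ≤ q := by exact_mod_cast h3
  have h7 : (1 : ℝ) ≤ B := by exact_mod_cast hB
  refine ⟨h4, ?_⟩
  rw [div_le_div_iff₀ (by linarith) (by linarith)]
  nlinarith [(Nat.cast_nonneg p : (0 : ℝ) ≤ p)]

end Pool.Agent.Lib.MP_5591bc_ag.W
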