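import Pool.Agent.Lib.MP_5591bc_ag.W.Avg

/-! Siegel's lemma with conditions in every subset of the variables, and the matching lower bound. -/

namespace Pool.Agent.Lib.MP_5591bc_ag.W

open Finset Module Function NumberField

/-- Siegel's lemma over a number field with exponent `1 / g`. -/
theorem sub_siegel (K : Type*) [Field K] [NumberField K] : ∃ c₁ : ℝ, 1 ≤ c₁ ∧
    ∀ (α β : Type) [Fintype α] [Fintype β] (a : α → β → K) (A : ℝ) (g : ℕ), 1 ≤ A → 0 < g →
      0 < Fintype.card β → (g + 1) * Fintype.card α ≤ Fintype.card β →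
      (∀ i j, IsIntegral ℤ (a i j)) → (∀ i j (σ : K →+* ℂ), ‖σ (a i j)‖ ≤ A) →
      ∃ c : β → K, c ≠ 0 ∧ (∀ j, IsIntegral ℤ (c j)) ∧ (∀ i, ∑ j, a i j * c j = 0) ∧
        ∀ j (σ : K →+* ℂ), ‖σ (c j)‖ ^ g ≤ c₁ ^ (g + 1) * (Fintype.card β * A) := by
  classical
  obtain ⟨c0, hc0⟩ : ∃ c0 : ℝ, ∀ (α β : Type) [Fintype α] [Fintype β] (a : Matrix α β (𝓞 K)),
      a ≠ 0 → ∀ p q : ℕ, 0 < p → p < q → Fintype.card β = q → ∀ A : ℝ,
      (∀ k l, house (algebraMap (𝓞 K) K (a k l)) ≤ A) → Fintype.card α = p →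
      ∃ ξ : β → 𝓞 K, ξ ≠ 0 ∧ a.mulVec ξ = 0 ∧
        ∀ l, house (ξ l).1 ≤ c0 * ((c0 * q * A) ^ ((p : ℝ) / (q - p))) :=
    ⟨_, fun α β _ _ a ha p q h0 h1 h2 A h3 h4 =>
      house.exists_ne_zero_int_vec_house_le K a ha h0 h1 h2 h3 h4⟩
  have hh : ∀ (x : K) (σ : K →+* ℂ), ‖σ x‖ ≤ house x := fun x σ =>
    norm_le_pi_norm (canonicalEmbedding K x) σ
  refine ⟨max 1 |c0|, le_max_left _ _, fun α β _ _ a A g hA g0 b0 hc hi ha => ?_⟩
  have m1 : (1 : ℝ) ≤ max 1 |c0| := le_max_left _ _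
  have q1 : (1 : ℝ) ≤ Fintype.card β := by exact_mod_cast b0
  by_cases h0 : (Matrix.of fun i j => (⟨a i j, hi i j⟩ : 𝓞 K)) = 0
  · refine ⟨1, ?_, fun _ => isIntegral_one, fun i => sum_eq_zero fun j _ => ?_, fun j σ => ?_⟩
    · obtain ⟨j⟩ := Fintype.card_pos_iff.1 b0
      exact fun h => one_ne_zero (congrFun h j)
    · rw [show a i j = 0 from congrArg Subtype.val (congrFun₂ h0 i j), zero_mul]
    · simpa using one_le_mul_of_one_le_of_one_le (one_le_pow₀ m1)
        (one_le_mul_of_one_le_of_one_le q1 hA)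
  have p0 : 0 < Fintype.card α := by
    by_contra h
    have := Fintype.card_eq_zero_iff.1 (Nat.eq_zero_of_not_pos h)
    exact h0 (Subsingleton.elim _ _)
  have pq : Fintype.card α < Fintype.card β := by nlinarith
  obtain ⟨ξ, x0, x1, x2⟩ := hc0 α β _ h0 _ _ p0 pq rfl A
    (fun i j => (pi_norm_le_iff_of_nonneg (by linarith)).2 fun σ => ha i j σ) rfl
  refine ⟨fun j => (ξ j).1, fun h => x0 (funext fun j => Subtype.ext (congrFun h j)),
    fun j => (ξ j).2, fun i => ?_, fun j σ => ?_⟩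
  · have := congrArg (algebraMap (𝓞 K) K) (congrFun x1 i)
    simp only [Matrix.mulVec, dotProduct, map_sum, Pi.zero_apply, map_zero] at this
    exact this
  · have pq' : (0 : ℝ) < Fintype.card β - Fintype.card α := sub_pos.2 (by exact_mod_cast pq)
    have e0 : (0 : ℝ) ≤ (Fintype.card α : ℝ) / (Fintype.card β - Fintype.card α) := by positivity
    have e1 : (Fintype.card α : ℝ) / (Fintype.card β - Fintype.card α) * g ≤ 1 := by
      rw [div_mul_eq_mul_div, div_le_one pq']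
      have : ((g : ℝ) + 1) * Fintype.card α ≤ Fintype.card β := by exact_mod_cast hc
      linarith
    have b1 : (1 : ℝ) ≤ max 1 |c0| * Fintype.card β * A :=
      one_le_mul_of_one_le_of_one_le (one_le_mul_of_one_le_of_one_le m1 q1) hA
    have b2 : ‖σ (ξ j).1‖ ≤ max 1 |c0| * (max 1 |c0| * Fintype.card β * A) ^
        ((Fintype.card α : ℝ) / (Fintype.card β - Fintype.card α)) := by
      refine (hh _ σ).trans ((x2 j).trans ((le_abs_self _).trans ?_))
      rw [abs_mul]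
      refine mul_le_mul (le_max_right _ _) ((Real.abs_rpow_le_abs_rpow _ _).trans ?_)
        (abs_nonneg _) (by linarith)
      refine Real.rpow_le_rpow (abs_nonneg _) ?_ e0
      rw [abs_mul, abs_mul, Nat.abs_cast, abs_of_nonneg (show 0 ≤ A by linarith)]
      gcongr
      exact le_max_right _ _
    calc _ ≤ (max 1 |c0| * (max 1 |c0| * Fintype.card β * A) ^
          ((Fintype.card α : ℝ) / (Fintype.card β - Fintype.card α))) ^ g := by gcongr
      _ ≤ max 1 |c0| ^ g * (max 1 |c0| * Fintype.card β * A) := by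
          rw [mul_pow, ← Real.rpow_mul_natCast (by linarith)]
          gcongr
          exact (Real.rpow_le_rpow_of_exponent_le b1 e1).trans (Real.rpow_one _).le
      _ = _ := by ring

section split
variable {m k : ℕ} {J : Type} [Fintype J]

/-- the index with the entries `a` at the places of `I` and the entries `β` elsewhere -/
noncomputable def subIx (I : Finset (Fin m)) (h : I.card = k) (a : Fin k → J) (β : Fin m → J) :
    Fin m → J := extend (I.orderEmbOfFin h) a β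

omit [Fintype J] in
theorem subIx_in (I : Finset (Fin m)) (h : I.card = k) (a : Fin k → J) (β : Fin m → J)
    (l : Fin k) : subIx I h a β (I.orderEmbOfFin h l) = a l :=
  (I.orderEmbOfFin h).injective.extend_apply _ _ _

omit [Fintype J] in
theorem subIx_out (I : Finset (Fin m)) (h : I.card = k) (a : Fin k → J) (β : Fin m → J)
    {i : Fin m} (hi : i ∉ I) : subIx I h a β i = β i :=
  extend_apply' _ _ _ fun ⟨l, e⟩ => hi (e ▸ I.orderEmbOfFin_mem h l)

omit [Fintype J] in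
theorem sub_ex (I : Finset (Fin m)) (h : I.card = k) {i : Fin m} (hi : i ∈ I) :
    ∃ l, I.orderEmbOfFin h l = i := by
  have : i ∈ Set.range (I.orderEmbOfFin h) := by rw [range_orderEmbOfFin]; exact hi
  exact this

open Classical in
theorem sub_sum {R : Type*} [AddCommMonoid R] (I : Finset (Fin m)) (h : I.card = k)
    (β : Fin m → J) (F : (Fin m → J) → R) :
    ∑ γ, (if ∀ i ∉ I, γ i = β i then F γ else 0) = ∑ a, F (subIx I h a β) := by
  rw [← sum_filter]
  refine (sum_bij (fun a _ => subIx I h a β) (fun a _ => mem_filter.2 ⟨mem_univ _, fun i hi =>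
    subIx_out I h a β hi⟩) (fun a _ a' _ e => funext fun l => ?_) (fun γ hγ => ?_)
    fun _ _ => rfl).symm
  · simpa only [subIx_in] using congrFun e (I.orderEmbOfFin h l)
  · refine ⟨fun l => γ (I.orderEmbOfFin h l), mem_univ _, funext fun i => ?_⟩
    by_cases hi : i ∈ I
    · obtain ⟨l, rfl⟩ := sub_ex I h hi
      exact subIx_in _ _ _ _ _
    · exact (subIx_out I h _ β hi).trans ((mem_filter.1 hγ).2 i hi).symm

/-- Siegel's lemma with the conditions `ℓ q` imposed in every set of `k` of the `m` variables. -/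
theorem sub_sie (K : Type*) [Field K] [NumberField K] : ∃ c₁ : ℝ, 1 ≤ c₁ ∧
    ∀ (m k g : ℕ) (J Q : Type) [Fintype J] [Fintype Q] (ℓ : Q → (Fin k → J) → K) (A : ℝ), 1 ≤ A →
      0 < g → 0 < Fintype.card J → k ≤ m →
      (g + 1) * (m.choose k * Fintype.card Q) ≤ Fintype.card J ^ k →
      (∀ q a, IsIntegral ℤ (ℓ q a)) → (∀ q a (σ : K →+* ℂ), ‖σ (ℓ q a)‖ ≤ A) →
      ∃ c : (Fin m → J) → K, c ≠ 0 ∧ (∀ γ, IsIntegral ℤ (c γ)) ∧
        (∀ (I : Finset (Fin m)) (h : I.card = k) β q, ∑ a, c (subIx I h a β) * ℓ q a = 0) ∧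
        ∀ γ (σ : K →+* ℂ), ‖σ (c γ)‖ ^ g ≤ c₁ ^ (g + 1) * (Fintype.card J ^ m * A) := by
  classical
  obtain ⟨c₁, h1, H⟩ := sub_siegel K
  refine ⟨c₁, h1, fun m k g J Q _ _ ℓ A hA g0 J0 km hc hi ha => ?_⟩
  obtain ⟨j0⟩ := Fintype.card_pos_iff.1 J0
  have hcnt : (g + 1) * Fintype.card ((Σ I : {I : Finset (Fin m) // I.card = k},
      {i // i ∉ I.1} → J) × Q) ≤ Fintype.card (Fin m → J) := by
    have e1 : ∀ I : {I : Finset (Fin m) // I.card = k},
        Fintype.card ({i // i ∉ I.1} → J) = Fintype.card J ^ (m - k) := fun I => by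
      rw [Fintype.card_fun, Fintype.card_subtype_compl, Fintype.card_fin, Fintype.card_coe, I.2]
    rw [Fintype.card_prod, Fintype.card_sigma, sum_congr rfl fun I _ => e1 I, sum_const, card_univ,
      Fintype.card_finset_len, Fintype.card_fun, Fintype.card_fin, smul_eq_mul]
    calc _ = (g + 1) * (m.choose k * Fintype.card Q) * Fintype.card J ^ (m - k) := by ring
      _ ≤ Fintype.card J ^ k * Fintype.card J ^ (m - k) := Nat.mul_le_mul_right _ hc
      _ = _ := by rw [← pow_add, Nat.add_sub_cancel' km]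
  obtain ⟨c, c0, c1, c2, c3⟩ := H ((Σ I : {I : Finset (Fin m) // I.card = k},
      {i // i ∉ I.1} → J) × Q) (Fin m → J)
    (fun x γ => if ∀ i ∉ x.1.1.1, γ i = (if hi : i ∈ x.1.1.1 then j0 else x.1.2 ⟨i, hi⟩) then
      ℓ x.2 fun l => γ (x.1.1.1.orderEmbOfFin x.1.1.2 l) else 0) A g hA g0
    (by simpa using pow_pos J0 m) hcnt
    (fun x γ => by split_ifs; exacts [hi _ _, isIntegral_zero])
    (fun x γ σ => by split_ifs; exacts [ha _ _ _, by simpa using zero_le_one.trans hA])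
  refine ⟨c, c0, c1, fun I h β q => ?_, fun γ σ => by simpa using c3 γ σ⟩
  have := c2 (⟨⟨I, h⟩, fun i => β i⟩, q)
  simp only [ite_mul, zero_mul] at this
  rw [sub_sum I h] at this
  refine (sum_congr rfl fun a _ => ?_).trans this
  simp only [subIx_in]
  rw [mul_comm]
  congr 2
  funext i
  by_cases hi : i ∈ I
  · obtain ⟨l, rfl⟩ := sub_ex I h hi
    simp only [subIx_in]
  · simp only [subIx_out I h _ _ hi, dif_neg hi]

/-- contraction of a tensor against arbitrary vectors outside `I` -/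
theorem sub_up (I : Finset (Fin m)) (h : I.card = k) (c : (Fin m → J) → ℂ) (θ : Fin m → J → ℂ)
    {M ε : ℝ} (M1 : 1 ≤ M) (J0 : 0 < Fintype.card J) (hM : ∀ i j, ‖θ i j‖ ≤ M)
    (hε : ∀ β, ‖∑ a, c (subIx I h a β) * ∏ l, θ (I.orderEmbOfFin h l) (a l)‖ ≤ ε) :
    ‖∑ γ, c γ * ∏ i, θ i (γ i)‖ ≤ (Fintype.card J * M) ^ m * ε := by
  classical
  obtain ⟨j0⟩ := Fintype.card_pos_iff.1 J0
  have ε0 : 0 ≤ ε := (norm_nonneg _).trans (hε fun _ => j0)
  have e1 : ∑ γ, c γ * ∏ i, θ i (γ i) = ∑ β ∈ univ.filter fun β : Fin m → J => ∀ i ∈ I, β i = j0,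
      (∏ i ∈ Iᶜ, θ i (β i)) * ∑ a, c (subIx I h a β) * ∏ l, θ (I.orderEmbOfFin h l) (a l) := by
    rw [← sum_fiberwise_of_maps_to (s := univ) (t := univ.filter fun β : Fin m → J =>
      ∀ i ∈ I, β i = j0) (g := fun γ i => if i ∈ I then j0 else γ i)
      fun γ _ => mem_filter.2 ⟨mem_univ _, fun i hi => if_pos hi⟩]
    refine sum_congr rfl fun β hβ => ?_
    have e2 : ∀ γ : Fin m → J, ((fun i => if i ∈ I then j0 else γ i) = β) ↔ ∀ i ∉ I, γ i = β i :=
      fun γ => ⟨fun e i hi => by rw [← e]; exact (if_neg hi).symm, fun e => funext fun i => by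
        split_ifs with hi
        exacts [((mem_filter.1 hβ).2 i hi).symm, e i hi]⟩
    rw [sum_filter]
    simp only [e2]
    refine (Eq.trans (by congr) (sub_sum I h β fun γ => c γ * ∏ i, θ i (γ i))).trans ?_
    rw [mul_sum]
    refine sum_congr rfl fun a _ => ?_
    have e3 : ∏ l, θ (I.orderEmbOfFin h l) (a l) = ∏ i ∈ I, θ i (subIx I h a β i) :=
      prod_bij (fun l _ => I.orderEmbOfFin h l) (fun l _ => I.orderEmbOfFin_mem h l)
        (fun l _ l' _ e => (I.orderEmbOfFin h).injective e)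
        (fun i hi => (sub_ex I h hi).imp fun l e => ⟨mem_univ _, e⟩)
        fun l _ => by rw [subIx_in]
    have e4 : ∏ i ∈ Iᶜ, θ i (β i) = ∏ i ∈ Iᶜ, θ i (subIx I h a β i) :=
      prod_congr rfl fun i hi => by rw [subIx_out I h _ _ (mem_compl.1 hi)]
    rw [← prod_mul_prod_compl I, e3, e4]
    ring
  rw [e1]
  refine (norm_sum_le _ _).trans ((sum_le_card_nsmul _ _ (M ^ m * ε) fun β _ => ?_).trans ?_)
  · rw [norm_mul, norm_prod]
    refine mul_le_mul ?_ (hε β) (norm_nonneg _) (by positivity)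
    refine (prod_le_prod (fun _ _ => norm_nonneg _) fun i _ => hM i (β i)).trans ?_
    rw [prod_const]
    exact pow_le_pow_right₀ M1 ((card_le_univ _).trans (Fintype.card_fin m).le)
  · rw [nsmul_eq_mul, mul_pow, mul_assoc]
    gcongr
    exact_mod_cast (card_le_univ _).trans (by simp)

/-- The lower bound: a tensor over the field of the centre, contracted with vectors over fields of
degree at most `b`, vanishes if it is small in every set of `k` variables. -/
theorem sub_low {L : Type*} [Field L] [NumberField L] (ι : L →+* ℂ) {b : ℕ}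
    (K : Fin m → IntermediateField ℚ L) (hb : ∀ i, finrank ℚ (K i) ≤ b) (k0 : 0 < k) (km : k ≤ m)
    (hk : 2 * b * k ≤ m + 2 * b) (J0 : 0 < Fintype.card J) (c : (Fin m → J) → L)
    (θ : Fin m → J → L) (hc : ∀ i γ, c γ ∈ K i) (hθ : ∀ i j, θ i j ∈ K i) {N : ℕ} (N0 : 0 < N)
    (hN : IsIntegral ℤ ((N : L) * ∑ γ, c γ * ∏ i, θ i (γ i))) {C M ε : ℝ} (M1 : 1 ≤ M)
    (ε0 : 0 ≤ ε) (ε1 : ε ≤ 1) (hC : ∀ γ (σ : L →+* ℂ), ‖σ (c γ)‖ ≤ C)
    (hM : ∀ i j (σ : L →+* ℂ), ‖σ (θ i j)‖ ≤ M)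
    (hε : ∀ (I : Finset (Fin m)) (h : I.card = k) β, ‖∑ a, ι (c (subIx I h a β)) *
      ∏ l, ι (θ (I.orderEmbOfFin h l) (a l))‖ ≤ C * ε)
    (hs : (N * ((Fintype.card J * M) ^ m * C)) ^ (2 * b) * ε < 1) :
    ∑ γ, c γ * ∏ i, θ i (γ i) = 0 := by
  by_contra h0
  obtain ⟨S, h1, h2⟩ := avg_many ι K hb (k0.trans_le km) hk
  refine hs.not_ge (avg_norm h0 hN N0 ε0 ε1 (fun σ => ?_) (fun σ hσ => ?_) h1)
  · simp only [map_sum, map_mul, map_prod]
    refine sub_up (k := 0) ∅ rfl (fun γ => σ (c γ)) (fun i j => σ (θ i j)) M1 J0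
      (fun i j => hM i j σ) fun β => ?_
    simpa using hC _ σ
  · obtain ⟨I, h, hI⟩ := h2 σ hσ
    simp only [map_sum, map_mul, map_prod]
    rw [mul_assoc]
    refine sub_up I h (fun γ => σ (c γ)) (fun i j => σ (θ i j)) M1 J0 (fun i j => hM i j σ)
      fun β => le_of_eq_of_le (congrArg _ (sum_congr rfl fun a _ => ?_)) (hε I h β)
    rw [hI _ (I.orderEmbOfFin_mem h ⟨0, k0⟩) _ (hc _ _)]
    exact congrArg _ (prod_congr rfl fun l _ => hI _ (I.orderEmbOfFin_mem h l) _ (hθ _ _))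

end split

end Pool.Agent.Lib.MP_5591bc_ag.W
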