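import Pool.Agent.Lib.MP_5591bc_ag.W.GFA

/-! The inequality of Liouville and the growth of `iterK` at points of bounded height. -/

namespace Pool.Agent.Lib.MP_5591bc_ag.W

open Polynomial Finset R NumberField

noncomputable section

variable {K : Type*} [Field K] [NumberField K]

/-- the inequality of Liouville -/
theorem gf_inv {y : K} (hy : IsIntegral ℤ y) (h0 : y ≠ 0) {A : ℝ} (hA : ∀ φ : K →+* ℂ, ‖φ y‖ ≤ A) :
    ∃ N : ℕ, 0 < N ∧ (N : ℝ) ≤ A ^ Module.finrank ℚ K ∧ IsIntegral ℤ ((N : K) * y⁻¹) ∧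
      ∀ φ : K →+* ℂ, ‖φ y⁻¹‖ ≤ A ^ (Module.finrank ℚ K - 1) := by
  let z : 𝓞 K := ⟨y, hy⟩
  have z0 : z ≠ 0 := fun e => h0 (congrArg Subtype.val e)
  have hh : house y ≤ A := by
    obtain ⟨φ⟩ : Nonempty (K →+* ℂ) := inferInstance
    exact (pi_norm_le_iff_of_nonneg ((norm_nonneg _).trans (hA φ))).2 hA
  have e : ((Algebra.norm ℤ z).natAbs : ℝ) = ‖Algebra.norm ℚ y‖ := by
    rw [show y = (z : K) from rfl, ← Algebra.coe_norm_int, Nat.cast_natAbs, Int.cast_abs,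
      ← Rat.norm_cast_real, Rat.cast_intCast, Real.norm_eq_abs]
  have n0 : 0 < (Algebra.norm ℤ z).natAbs := Int.natAbs_pos.2 (Algebra.norm_ne_zero_iff.2 z0)
  have k : ∀ φ : K →+* ℂ, ((Algebra.norm ℤ z).natAbs : ℝ) ≤ ‖φ y‖ * A ^ (Module.finrank ℚ K - 1) :=
    fun φ => e ▸ (norm_norm_le_norm_mul_house_pow y φ).trans
      (mul_le_mul_of_nonneg_left (pow_le_pow_left₀ (house_nonneg _) hh _) (norm_nonneg _))
  refine ⟨(Algebra.norm ℤ z).natAbs, n0, ?_, ?_, fun φ => ?_⟩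
  · obtain ⟨φ⟩ : Nonempty (K →+* ℂ) := inferInstance
    rw [← Nat.sub_add_cancel (Module.finrank_pos (R := ℚ) (M := K)), pow_succ']
    exact (k φ).trans (mul_le_mul_of_nonneg_right (hA φ)
      (pow_nonneg ((house_nonneg _).trans hh) _))
  · have := Ideal.absNorm_mem (Ideal.span {z})
    rw [Ideal.absNorm_span_singleton, Ideal.mem_span_singleton'] at this
    obtain ⟨w, hw⟩ := this
    have e2 : (w : K) * y = ((Algebra.norm ℤ z).natAbs : K) := by
      have := congrArg (algebraMap (𝓞 K) K) hw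
      rwa [map_mul, map_natCast] at this
    rw [← e2, mul_inv_cancel_right₀ h0]
    exact w.isIntegral_coe
  · have p0 : 0 < ‖φ y‖ := norm_pos_iff.2 ((_root_.map_ne_zero φ).2 h0)
    rw [map_inv₀, norm_inv, inv_le_iff_one_le_mul₀' p0]
    exact le_trans (by exact_mod_cast n0) (k φ)

omit [NumberField K] in
theorem gf_den (s : K) {W : K[X]} {D : ℕ} {a : K} {d : K} (hd : IsIntegral ℤ d)
    (hs : IsIntegral ℤ (d * s)) (h : W.natDegree ≤ D)
    (hW : ∀ l, IsIntegral ℤ (a * W.coeff l)) : IsIntegral ℤ (a * d ^ D * W.eval s) := by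
  rw [Polynomial.eval_eq_sum_range' (Nat.lt_succ_of_le h), mul_sum]
  refine IsIntegral.sum _ fun i hi => ?_
  have e : a * d ^ D * (W.coeff i * s ^ i) = a * W.coeff i * (d * s) ^ i * d ^ (D - i) := by
    rw [← Nat.sub_add_cancel (Nat.le_of_lt_succ (mem_range.1 hi)), add_tsub_cancel_right]
    ring
  rw [e]
  exact ((hW i).mul (hs.pow i)).mul (hd.pow _)

theorem gf_cden (s : Finset K) : ∃ q : ℕ, 0 < q ∧ ∀ z ∈ s, IsIntegral ℤ ((q : K) * z) := by
  have : Algebra.IsAlgebraic ℤ K := (IsFractionRing.comap_isAlgebraic_iff (K := ℚ)).2 inferInstance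
  obtain ⟨y, y0, hy⟩ := Algebra.IsAlgebraic.exists_integral_multiples ℤ s
  refine ⟨y.natAbs, Int.natAbs_pos.2 y0, fun z hz => ?_⟩
  have := hy z hz
  rw [zsmul_eq_mul] at this
  rw [← Int.cast_natCast]
  rcases Int.natAbs_eq y with e | e
  · rwa [← e]
  · rw [show ((y.natAbs : ℕ) : ℤ) = -y by omega, Int.cast_neg, neg_mul]
    exact this.neg

theorem gf_bd (p : K[X]) : ∃ c : ℝ, 0 ≤ c ∧ ∀ (φ : K →+* ℂ) i, ‖φ (p.coeff i)‖ ≤ c := by
  refine ⟨∑ i ∈ p.support, house (p.coeff i), sum_nonneg fun _ _ => house_nonneg _, fun φ i => ?_⟩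
  by_cases h : i ∈ p.support
  · exact (norm_embedding_le_house _ φ).trans
      (single_le_sum (f := fun i => house (p.coeff i)) (fun _ _ => house_nonneg _) h)
  · rw [notMem_support_iff.1 h, map_zero, norm_zero]
    exact sum_nonneg fun _ _ => house_nonneg _

variable {ν : Type*} [Fintype ν] [DecidableEq ν] {T : K[X]} {B : Matrix ν ν K[X]}

theorem gf_core (h : GalK T B) : ∃ c : ℕ, ∀ (H : ℝ) (x : K) (d : ℕ), 2 ≤ H → 0 < d →
    (d : ℝ) ≤ H → IsIntegral ℤ ((d : K) * x) → (∀ φ : K →+* ℂ, ‖φ x‖ ≤ H) → T.eval x ≠ 0 → ∀ k,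
      (∀ i j (φ : K →+* ℂ), ‖φ ((iterK T B k i j).eval x / (T.eval x ^ k * k.factorial))‖ ≤
        (H ^ c) ^ k) ∧ ∃ D : ℕ, 0 < D ∧ (D : ℝ) ≤ (H ^ c) ^ (k + 1) ∧ ∀ l ≤ k, ∀ i j,
          IsIntegral ℤ ((D : K) * ((iterK T B l i j).eval x / (T.eval x ^ l * l.factorial))) := by
  classical
  obtain ⟨C, hC⟩ := h
  obtain ⟨g, hT, hB⟩ := exists_deg T B
  obtain ⟨a, a0, ha⟩ := gf_cden T.coeffs
  have ha' : ∀ l, IsIntegral ℤ ((a : K) * T.coeff l) := fun l => by
    by_cases k : T.coeff l = 0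
    · rw [k, mul_zero]; exact isIntegral_zero
    · exact ha _ (coeff_mem_coeffs k)
  obtain ⟨c1, c10, hc1⟩ := gf_bd T
  choose c2 c20 hc2 using fun p : ν × ν => gf_bd (B p.1 p.2)
  obtain ⟨c, hc⟩ : ∃ c : ℝ, c = c1 + ∑ p, c2 p := ⟨_, rfl⟩
  have s0 : 0 ≤ ∑ p, c2 p := sum_nonneg fun p _ => c20 p
  have c0 : 0 ≤ c := by rw [hc]; positivity
  have dT : ∀ φ : K →+* ℂ, GDom φ T c g := fun φ =>
    gdom_of hT fun i => (hc1 φ i).trans (by rw [hc]; linarith)
  have dB : ∀ (φ : K →+* ℂ) i j, GDom φ (B i j) c g := fun φ i j => gdom_of (hB i j) fun l =>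
    (hc2 (i, j) φ l).trans ((single_le_sum (fun p _ => c20 p) (mem_univ _)).trans
      (by rw [hc]; linarith))
  obtain ⟨e, he⟩ := pow_unbounded_of_one_lt
    (|C| + a + c + c * (2 * g + Fintype.card ν)) one_lt_two
  obtain ⟨n, hn⟩ : ∃ n, n = Module.finrank ℚ K := ⟨_, rfl⟩
  refine ⟨2 * e + 3 * g + (2 * e + 3 * g) * n, fun H x d H2 d0 dH hx hφ T0 k => ?_⟩
  have H1 : 1 ≤ H := by linarith
  have b1 : (2 : ℝ) ^ e ≤ H ^ e := by gcongr
  have e0 : 0 ≤ c * (2 * g + Fintype.card ν) := by positivity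
  have aH : (a : ℝ) ≤ H ^ e := by linarith [abs_nonneg C]
  have cH : c ≤ H ^ e := by linarith [abs_nonneg C, a.cast_nonneg (α := ℝ)]
  have c'H : c * (2 * g + Fintype.card ν) ≤ H ^ e := by
    linarith [abs_nonneg C, a.cast_nonneg (α := ℝ)]
  have CH : |C| ≤ H ^ e := by linarith [a.cast_nonneg (α := ℝ)]
  have x1 : ∀ φ : K →+* ℂ, ‖φ x‖ + 1 ≤ H ^ 2 := fun φ => by nlinarith [hφ φ]
  have dI : IsIntegral ℤ (d : K) := isIntegral_natCast d
  have dK : (d : K) ≠ 0 := Nat.cast_ne_zero.2 d0.ne'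
  have aK : (a : K) ≠ 0 := Nat.cast_ne_zero.2 a0.ne'
  have ad : ∀ φ : K →+* ℂ, ‖φ ((a : K) * (d : K) ^ g)‖ ≤ H ^ e * H ^ g := fun φ => by
    rw [map_mul, map_pow, map_natCast, map_natCast, norm_mul, norm_pow, Complex.norm_natCast,
      Complex.norm_natCast]
    gcongr
  obtain ⟨N, N0, N1, N2, N3⟩ := gf_inv (gf_den x dI hx hT ha')
    (mul_ne_zero (mul_ne_zero aK (pow_ne_zero _ dK)) T0) (A := H ^ (2 * e + 3 * g)) fun φ => by
      rw [map_mul, norm_mul]
      refine (mul_le_mul (ad φ) (((dT φ).eval x).trans (mul_le_mul cH (pow_le_pow_left₀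
        (by positivity) (x1 φ) g) (by positivity) (by positivity))) (norm_nonneg _)
        (by positivity)).trans (le_of_eq (by ring))
  rw [← hn, ← pow_mul] at N1
  obtain ⟨y, hy⟩ : ∃ y, y = ((a : K) * (d : K) ^ g * T.eval x)⁻¹ := ⟨_, rfl⟩
  rw [← hy] at N2 N3
  have et : ∀ (l : ℕ) (w : K), w / (T.eval x ^ l * l.factorial) =
      w / l.factorial * (a * d ^ g * y) ^ l := fun l w => by
    rw [hy, mul_inv, mul_inv_cancel_left₀ (mul_ne_zero aK (pow_ne_zero _ dK)), inv_pow]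
    field_simp
  refine ⟨fun i j φ => ?_, ?_⟩
  · have f0 : (0 : ℝ) < k.factorial := by exact_mod_cast k.factorial_pos
    have h1 := (gdom_iter (dT φ) (dB φ) k i j).eval x
    have h2 : ‖φ (a * d ^ g * y)‖ ≤ H ^ e * H ^ g * H ^ ((2 * e + 3 * g) * n) := by
      rw [map_mul, norm_mul, pow_mul, hn]
      exact mul_le_mul (ad φ) ((N3 φ).trans (pow_le_pow_right₀ (one_le_pow₀ H1) (Nat.sub_le _ _)))
        (norm_nonneg _) (by positivity)
    have h3 : ‖φ ((iterK T B k i j).eval x / k.factorial)‖ ≤ (H ^ e * (H ^ 2) ^ g) ^ k := by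
      rw [map_div₀, map_natCast, norm_div, Complex.norm_natCast, div_le_iff₀ f0, mul_pow,
        ← pow_mul (H ^ 2), mul_comm g, mul_right_comm]
      refine h1.trans ?_
      have := x1 φ
      gcongr
    rw [et, map_mul, map_pow, norm_mul, norm_pow]
    refine (mul_le_mul h3 (pow_le_pow_left₀ (norm_nonneg _) h2 k) (by positivity)
      (by positivity)).trans (le_of_eq ?_)
    rw [← mul_pow]
    congr 1
    ring
  · obtain ⟨D, D0, D1, D2⟩ := hC k
    refine ⟨D * N ^ k, by positivity, ?_, fun l hl i j => ?_⟩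
    · have c3 : (D : ℝ) ≤ (H ^ e) ^ (k + 1) := D1.trans ((le_abs_self _).trans (by
        rw [abs_pow]; gcongr))
      have c4 := mul_le_mul c3 ((pow_le_pow_left₀ (by positivity) N1 k).trans (pow_le_pow_right₀
        (one_le_pow₀ H1) k.le_succ)) (by positivity) (by positivity)
      rw [← mul_pow, ← pow_add] at c4
      push_cast
      exact c4.trans (pow_le_pow_left₀ (by positivity) (pow_le_pow_right₀ H1 (by omega)) _)
    · have z := gf_den x (a := (D : K) / l.factorial) dI hx (deg_iter hT hB l i j) fun m => by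
        rw [div_mul_eq_mul_div]; exact D2 l hl i j m
      have e2 : ((D * N ^ k : ℕ) : K) * ((iterK T B l i j).eval x / l.factorial *
          (a * d ^ g * y) ^ l) = (D : K) / l.factorial * d ^ (l * g) * (iterK T B l i j).eval x *
            ((a : K) ^ l * ((N * y) ^ l * (N : K) ^ (k - l))) := by
        rw [← Nat.sub_add_cancel hl, add_tsub_cancel_right]
        push_cast
        ring
      rw [et, e2]
      exact z.mul (((isIntegral_natCast a).pow l).mul
        ((N2.pow l).mul ((isIntegral_natCast N).pow _)))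

end

end Pool.Agent.Lib.MP_5591bc_ag.W
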