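import Pool.Agent.Lib.MP_5591bc_ag.GTay

/-! Upper bound for Taylor coefficients of a tensor that vanishes to high order at a near point. -/

namespace Pool.Agent.Lib.MP_5591bc_ag.W

open Filter Topology Metric PowerSeries G Finset

noncomputable section

theorem up_iter (g : ℂ → ℂ) (n j : ℕ) :
    iteratedDeriv n (iteratedDeriv j g) = iteratedDeriv (n + j) g := by
  rw [iteratedDeriv_eq_iterate, iteratedDeriv_eq_iterate, iteratedDeriv_eq_iterate,
    Function.iterate_add_apply]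

theorem up_diff {g : ℂ → ℂ} {s : ℂ} {R : ℝ} (hg : DifferentiableOn ℂ g (ball s R)) (j : ℕ) :
    DifferentiableOn ℂ (iteratedDeriv j g) (ball s R) := by
  induction j with
  | zero => simpa using hg
  | succ j ih => rw [iteratedDeriv_succ]; exact ih.deriv isOpen_ball

theorem up_sum {g : ℂ → ℂ} {s x : ℂ} {R : ℝ} (hg : DifferentiableOn ℂ g (ball s R))
    (hx : x ∈ ball s R) (j : ℕ) :
    HasSum (fun n => coeff (n + j) (tay g s) * (((n + j).choose j : ℂ) * (x - s) ^ n))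
      (coeff j (tay g x)) := by
  have h := (Complex.hasSum_taylorSeries_on_ball (up_diff hg j) hx).div_const (j.factorial : ℂ)
  rw [coeff_tay]
  have e : (fun n => coeff (n + j) (tay g s) * (((n + j).choose j : ℂ) * (x - s) ^ n)) =
      fun n : ℕ => ((n.factorial : ℂ)⁻¹ • (x - s) ^ n • iteratedDeriv n (iteratedDeriv j g) s) /
        (j.factorial : ℂ) := by
    funext n
    have h1 : ((n + j).factorial : ℂ) = (n + j).choose j * n.factorial * j.factorial := by
      exact_mod_cast (Nat.add_choose_mul_factorial_mul_factorial n j).symm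
    have h2 : (n.factorial : ℂ) ≠ 0 := by exact_mod_cast n.factorial_ne_zero
    have h3 : (j.factorial : ℂ) ≠ 0 := by exact_mod_cast j.factorial_ne_zero
    have h4 : ((n + j).choose j : ℂ) ≠ 0 := by
      exact_mod_cast (Nat.choose_pos (Nat.le_add_left j n)).ne'
    rw [coeff_tay, up_iter, h1, smul_eq_mul, smul_eq_mul]
    field_simp
  rw [e]; exact h

theorem up_geo (N : ℕ) : ∑ n ∈ range N, (1 / 2 : ℝ) ^ n ≤ 2 := sum_geometric_two_le N

/-- The core estimate, free of analysis. -/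
theorem up_core {ι α : Type*} [Fintype ι] [DecidableEq ι] [Fintype α] (c : (ι → α) → ℂ)
    (A : ι → α → ℕ → ℂ) (Kk : ι → ℕ → ℂ) (Bv : ι → α → ℂ)
    (hs : ∀ i a, HasSum (fun n => A i a n * Kk i n) (Bv i a)) {M : ι → ℝ} (hM : ∀ i, 0 ≤ M i)
    {θ : ℝ} (hθ0 : 0 ≤ θ)
    (hθ : θ ≤ 1) (hb : ∀ i a n, ‖A i a n * Kk i n‖ ≤ M i * (θ / 2) ^ n) {Y : ℕ}
    (hz : ∀ n : ι → ℕ, ∑ i, n i < Y → ∑ a, c a * ∏ i, A i (a i) (n i) = 0) :
    ‖∑ a, c a * ∏ i, Bv i (a i)‖ ≤ (∑ a, ‖c a‖) * (∏ i, 2 * M i) * θ ^ Y := by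
  have ht : Tendsto (fun N => ∑ a, c a * ∏ i, ∑ n ∈ range N, A i (a i) n * Kk i n) atTop
      (𝓝 (∑ a, c a * ∏ i, Bv i (a i))) :=
    tendsto_finsetSum _ fun a _ =>
      (tendsto_finsetProd _ fun i _ => (hs i (a i)).tendsto_sum_nat).const_mul _
  refine le_of_tendsto' ht.norm fun N => ?_
  have hc : 0 ≤ ∑ a, ‖c a‖ := sum_nonneg fun a _ => norm_nonneg _
  have e : ∑ a, c a * ∏ i, ∑ n ∈ range N, A i (a i) n * Kk i n =
      ∑ n ∈ Fintype.piFinset fun _ : ι => range N,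
        ∑ a, c a * ∏ i, A i (a i) (n i) * Kk i (n i) := by
    rw [sum_comm]
    refine sum_congr rfl fun a _ => ?_
    rw [prod_univ_sum, mul_sum]
  have hn : ∀ n : ι → ℕ, ‖∑ a, c a * ∏ i, A i (a i) (n i) * Kk i (n i)‖ ≤
      (∑ a, ‖c a‖) * (∏ i, M i * (1 / 2 : ℝ) ^ n i) * θ ^ Y := by
    intro n
    have hp : 0 ≤ ∏ i, M i * (1 / 2 : ℝ) ^ n i :=
      prod_nonneg fun i _ => mul_nonneg (hM i) (by positivity)
    by_cases h : ∑ i, n i < Y
    · have : ∑ a, c a * ∏ i, A i (a i) (n i) * Kk i (n i) = 0 := by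
        simp only [prod_mul_distrib, ← mul_assoc]
        rw [← sum_mul, hz n h, zero_mul]
      rw [this, norm_zero]
      exact mul_nonneg (mul_nonneg hc hp) (pow_nonneg hθ0 _)
    · refine (norm_sum_le _ _).trans ?_
      rw [mul_assoc, sum_mul]
      refine sum_le_sum fun a _ => ?_
      rw [norm_mul, norm_prod]
      refine mul_le_mul_of_nonneg_left ?_ (norm_nonneg _)
      refine (prod_le_prod (fun i _ => norm_nonneg _) fun i _ => hb i (a i) (n i)).trans ?_
      have e2 : ∏ i, M i * (θ / 2) ^ n i = (∏ i, M i * (1 / 2 : ℝ) ^ n i) * θ ^ ∑ i, n i := by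
        rw [← prod_pow_eq_pow_sum, ← prod_mul_distrib]
        refine prod_congr rfl fun i _ => ?_
        rw [mul_assoc, ← mul_pow]; congr 2; ring
      rw [e2]
      exact mul_le_mul_of_nonneg_left (pow_le_pow_of_le_one hθ0 hθ (not_lt.1 h)) hp
  rw [e]
  refine (norm_sum_le _ _).trans ((sum_le_sum fun n _ => hn n).trans ?_)
  rw [← sum_mul, ← mul_sum]
  refine mul_le_mul_of_nonneg_right (mul_le_mul_of_nonneg_left ?_ hc) (pow_nonneg hθ0 _)
  rw [← prod_univ_sum (fun _ : ι => range N) fun i n => M i * (1 / 2 : ℝ) ^ n]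
  refine prod_le_prod (fun i _ => sum_nonneg fun n _ => mul_nonneg (hM i) (by positivity))
    fun i _ => ?_
  rw [← mul_sum, mul_comm]
  exact mul_le_mul_of_nonneg_right (up_geo N) (hM i)

/-- The estimate for analytic functions, one bound per variable. -/
theorem up_anaS {ι α : Type*} [Fintype ι] [DecidableEq ι] [Fintype α] (c : (ι → α) → ℂ)
    (g : ι → α → ℂ → ℂ) {s : ℂ} {R r ε : ℝ} {S : ι → ℝ} (h0 : 0 < r) (hr : r < R)
    (hS0 : ∀ i, 0 ≤ S i) (hg : ∀ i a, DifferentiableOn ℂ (g i a) (ball s R))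
    (hS : ∀ i a, ∀ t ∈ sphere s r, ‖g i a t‖ ≤ S i) (hε0 : 0 ≤ ε) (hε : 4 * ε ≤ 1) (x : ι → ℂ)
    (hx : ∀ i, ‖x i - s‖ ≤ r * ε) {X : ℕ}
    (hz : ∀ κ : ι → ℕ, ∑ i, κ i < X → ∑ a, c a * ∏ i, coeff (κ i) (tay (g i (a i)) s) = 0)
    (j : ι → ℕ) :
    ‖∑ a, c a * ∏ i, coeff (j i) (tay (g i (a i)) (x i))‖ ≤
      (∑ a, ‖c a‖) * ((∏ i, 2 * S i) * (2 / r) ^ ∑ i, j i) * (4 * ε) ^ (X - ∑ i, j i) := by
  have hxb : ∀ i, x i ∈ ball s R := fun i => by
    rw [mem_ball_iff_norm]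
    have := hx i
    nlinarith
  have h := up_core c (fun i a n => coeff (n + j i) (tay (g i a) s))
    (fun i n => ((n + j i).choose (j i) : ℂ) * (x i - s) ^ n)
    (fun i a => coeff (j i) (tay (g i a) (x i))) (fun i a => up_sum (hg i a) (hxb i) (j i))
    (M := fun i => S i * (2 / r) ^ j i) (fun i => by have := hS0 i; positivity) (θ := 4 * ε)
    (by positivity) hε
    (fun i a n => by
      have := hS0 i
      have h1 := cauchy (hg i a) h0 hr (hS i a) (n + j i)
      have h2 : ((n + j i).choose (j i) : ℝ) ≤ 2 ^ (n + j i) := by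
        exact_mod_cast Nat.choose_le_two_pow (n + j i) (j i)
      have h3 : ‖x i - s‖ ^ n ≤ (r * ε) ^ n := pow_le_pow_left₀ (norm_nonneg _) (hx i) n
      rw [norm_mul, norm_mul, norm_pow, Complex.norm_natCast]
      refine (mul_le_mul h1 (mul_le_mul h2 h3 (by positivity) (by positivity)) (by positivity)
        (by positivity)).trans (le_of_eq ?_)
      rw [show 4 * ε / 2 = 2 * ε by ring]
      simp only [pow_add, mul_pow, div_pow]
      field_simp)
    (Y := X - ∑ i, j i) (fun n hn => hz (fun i => n i + j i) (by rw [sum_add_distrib]; omega))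
  refine h.trans (le_of_eq ?_)
  congr 2
  rw [← prod_pow_eq_pow_sum, ← prod_mul_distrib]
  exact prod_congr rfl fun i _ => by ring

/-- The estimate for analytic functions. -/
theorem up_ana {ι α : Type*} [Fintype ι] [DecidableEq ι] [Fintype α] (c : (ι → α) → ℂ)
    (g : ι → α → ℂ → ℂ) {s : ℂ} {R r S ε : ℝ} (h0 : 0 < r) (hr : r < R) (hS0 : 0 ≤ S)
    (hg : ∀ i a, DifferentiableOn ℂ (g i a) (ball s R))
    (hS : ∀ i a, ∀ t ∈ sphere s r, ‖g i a t‖ ≤ S) (hε0 : 0 ≤ ε) (hε : 4 * ε ≤ 1) (x : ι → ℂ)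
    (hx : ∀ i, ‖x i - s‖ ≤ r * ε) {X : ℕ}
    (hz : ∀ κ : ι → ℕ, ∑ i, κ i < X → ∑ a, c a * ∏ i, coeff (κ i) (tay (g i (a i)) s) = 0)
    (j : ι → ℕ) :
    ‖∑ a, c a * ∏ i, coeff (j i) (tay (g i (a i)) (x i))‖ ≤
      (∑ a, ‖c a‖) * ((2 * S) ^ Fintype.card ι * (2 / r) ^ ∑ i, j i) *
        (4 * ε) ^ (X - ∑ i, j i) := by
  have h := up_anaS c g (S := fun _ => S) h0 hr (fun _ => hS0) hg hS hε0 hε x hx hz j
  rwa [prod_const, card_univ] at h

/-- The estimate in the variables of `I`, the other variables being contracted with vectors. -/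
theorem up_sub {ι α : Type*} [Fintype ι] [DecidableEq ι] [Fintype α] [DecidableEq α]
    (c : (ι → α) → ℂ) (I : Finset ι)
    (g : ι → α → ℂ → ℂ) (b : ι → α → ℂ) {s : ℂ} {R r ε : ℝ} {S : ι → ℝ} (h0 : 0 < r) (hr : r < R)
    (hS0 : ∀ i, 0 ≤ S i) (hg : ∀ i ∈ I, ∀ a, DifferentiableOn ℂ (g i a) (ball s R))
    (hS : ∀ i ∈ I, ∀ a, ∀ t ∈ sphere s r, ‖g i a t‖ ≤ S i) (hb : ∀ i ∉ I, ∀ a, ‖b i a‖ ≤ S i)
    (hε0 : 0 ≤ ε) (hε : 4 * ε ≤ 1) (x : ι → ℂ) (hx : ∀ i ∈ I, ‖x i - s‖ ≤ r * ε) {X : ℕ}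
    (hz : ∀ (a0 : ι → α) (κ : ι → ℕ), ∑ i ∈ I, κ i < X →
      ∑ a with ∀ i ∉ I, a i = a0 i, c a * ∏ i ∈ I, coeff (κ i) (tay (g i (a i)) s) = 0)
    (j : ι → ℕ) :
    ‖∑ a, c a * ((∏ i ∈ I, coeff (j i) (tay (g i (a i)) (x i))) * ∏ i ∈ Iᶜ, b i (a i))‖ ≤
      (∑ a, ‖c a‖) * ((∏ i, 2 * S i) * (2 / r) ^ ∑ i ∈ I, j i) *
        (4 * ε) ^ (X - ∑ i ∈ I, j i) := by
  have sp : ∀ (y : ι → ℂ) (κ : ι → ℕ) (a : ι → α),
      ∏ i, coeff (κ i) (tay (if i ∈ I then g i (a i) else fun _ => b i (a i)) (y i)) =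
        (∏ i ∈ I, coeff (κ i) (tay (g i (a i)) (y i))) *
          ∏ i ∈ Iᶜ, if κ i = 0 then b i (a i) else 0 := fun y κ a => by
    rw [← prod_mul_prod_compl I]
    congr 1
    · exact prod_congr rfl fun i hi => by rw [if_pos hi]
    · exact prod_congr rfl fun i hi => by rw [if_neg (mem_compl.1 hi), tay_const, coeff_C]
  have h := up_anaS c (fun i a => if i ∈ I then g i a else fun _ => b i a) (s := s) (X := X) h0 hr
    hS0
    (fun i a => by
      split_ifs with hi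
      exacts [hg i hi a, differentiableOn_const _])
    (fun i a t ht => by
      split_ifs with hi
      exacts [hS i hi a t ht, hb i hi a])
    hε0 hε (fun i => if i ∈ I then x i else s)
    (fun i => by
      split_ifs with hi
      · exact hx i hi
      · rw [sub_self, norm_zero]; positivity)
    (fun κ hκ => by
      have hκ' : ∑ i ∈ I, κ i < X := (sum_le_sum_of_subset (subset_univ I)).trans_lt hκ
      simp only [sp (fun _ => s) κ]
      rcases isEmpty_or_nonempty (ι → α) with hE | ⟨⟨a1⟩⟩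
      · exact sum_of_isEmpty _
      rw [← sum_fiberwise univ fun (a : ι → α) i => if i ∈ I then a1 i else a i]
      refine sum_eq_zero fun a0 _ => ?_
      by_cases h1 : ∀ i ∈ I, a0 i = a1 i
      · have e : (univ.filter fun a : ι → α => (fun i => if i ∈ I then a1 i else a i) = a0) =
            univ.filter fun a : ι → α => ∀ i ∉ I, a i = a0 i := by
          refine filter_congr fun a _ => ⟨fun h i hi => ?_, fun h => funext fun i => ?_⟩
          · rw [← h]; exact (if_neg hi).symm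
          · split_ifs with hi
            exacts [(h1 i hi).symm, h i hi]
        rw [e]
        refine Eq.trans ?_ (mul_eq_zero_of_left (hz a0 κ hκ')
          (∏ i ∈ Iᶜ, if κ i = 0 then b i (a0 i) else 0))
        rw [sum_mul]
        refine sum_congr rfl fun a ha => ?_
        rw [mul_assoc]
        congr 2
        exact prod_congr rfl fun i hi => by rw [(mem_filter.1 ha).2 i (mem_compl.1 hi)]
      · refine sum_eq_zero fun a ha => (h1 fun i hi => ?_).elim
        rw [← (mem_filter.1 ha).2]; exact if_pos hi)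
    (fun i => if i ∈ I then j i else 0)
  have e1 : ∑ i, (if i ∈ I then j i else 0) = ∑ i ∈ I, j i := by
    rw [sum_ite_mem, univ_inter]
  simp only [sp, e1] at h
  refine (le_of_eq ?_).trans h
  congr 1
  refine sum_congr rfl fun a _ => ?_
  congr 2
  · exact prod_congr rfl fun i hi => by rw [if_pos hi, if_pos hi]
  · exact prod_congr rfl fun i hi => by rw [if_neg (mem_compl.1 hi), if_pos rfl]

end

end Pool.Agent.Lib.MP_5591bc_ag.W
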