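import Mathlib

/-! Liouville's inequality averaged over the embeddings of a large number field. -/

namespace Pool.Agent.Lib.MP_5591bc_ag.W

open Finset Module

variable {L : Type*} [Field L] [NumberField L]

/-- If a non zero number is small at a fraction `1 / b` of the embeddings then the gain is limited. -/
theorem avg_norm {α : L} (h0 : α ≠ 0) {N : ℕ} (hN : IsIntegral ℤ ((N : L) * α)) (N0 : 0 < N)
    {M γ : ℝ} (γ0 : 0 ≤ γ) (γ1 : γ ≤ 1) (hM : ∀ σ : L →+* ℂ, ‖σ α‖ ≤ M) {S : Finset (L →+* ℂ)}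
    (hS : ∀ σ ∈ S, ‖σ α‖ ≤ M * γ) {b : ℕ} (hb : finrank ℚ L ≤ b * S.card) :
    1 ≤ (N * M) ^ b * γ := by
  classical
  have n0 : 0 < finrank ℚ L := finrank_pos
  have hc : Fintype.card (L →+* ℂ) = finrank ℚ L := NumberField.Embeddings.card L ℂ
  obtain ⟨σ0⟩ : Nonempty (L →+* ℂ) := Fintype.card_pos_iff.1 (hc ▸ n0)
  have M0 : 0 ≤ M := (norm_nonneg _).trans (hM σ0)
  have a0 : (N : L) * α ≠ 0 := mul_ne_zero (by exact_mod_cast N0.ne') h0
  obtain ⟨z, hz⟩ := IsIntegrallyClosed.algebraMap_eq_of_integral (R := ℤ) (K := ℚ)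
    (Algebra.isIntegral_norm ℚ hN)
  have z0 : z ≠ 0 := by
    rintro rfl
    exact (Algebra.norm_ne_zero_iff (R := ℚ)).2 a0 (hz.symm.trans (map_zero _))
  have e1 : ((z : ℚ) : ℂ) = ∏ σ : L →+* ℂ, σ (N * α) := by
    have := Algebra.norm_eq_prod_embeddings ℚ ℂ ((N : L) * α)
    rw [← hz] at this
    refine (show _ = _ from this).trans ?_
    exact (Fintype.prod_equiv (RingHom.equivRatAlgHom L ℂ) _ _ fun σ => rfl).symm
  have e2 : (1 : ℝ) ≤ ∏ σ : L →+* ℂ, ‖σ (N * α)‖ := by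
    rw [← norm_prod, ← e1, Rat.cast_intCast, Complex.norm_intCast]
    exact_mod_cast Int.one_le_abs z0
  have e3 : ∏ σ : L →+* ℂ, ‖σ (N * α)‖ ≤ (N * M) ^ finrank ℚ L * γ ^ S.card := by
    calc _ ≤ ∏ σ : L →+* ℂ, (N * M) * (if σ ∈ S then γ else 1) := by
          refine prod_le_prod (fun _ _ => norm_nonneg _) fun σ _ => ?_
          rw [map_mul, norm_mul, map_natCast, Complex.norm_natCast, mul_assoc]
          gcongr
          split_ifs with h
          exacts [hS σ h, (mul_one M).symm ▸ hM σ]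
      _ = _ := by rw [prod_mul_distrib, prod_const, card_univ, hc, prod_ite_mem, univ_inter,
          prod_const]
  have e4 : (1 : ℝ) ≤ ((N * M) ^ b * γ) ^ finrank ℚ L := by
    calc (1 : ℝ) ≤ ((N * M) ^ finrank ℚ L * γ ^ S.card) ^ b := one_le_pow₀ (e2.trans e3)
      _ = ((N * M) ^ b) ^ finrank ℚ L * γ ^ (b * S.card) := by
          rw [mul_pow, ← pow_mul, ← pow_mul, ← pow_mul, mul_comm b, mul_comm b]
      _ ≤ _ := by
          rw [mul_pow _ γ]
          exact mul_le_mul_of_nonneg_left (pow_le_pow_of_le_one γ0 γ1 hb) (by positivity)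
  exact (one_le_pow_iff_of_nonneg (by positivity) n0.ne').1 e4

/-- The embeddings that agree with a given one on a subfield of degree at most `b`. -/
theorem avg_fix (ι : L →+* ℂ) (K : IntermediateField ℚ L) {b : ℕ} (hb : finrank ℚ K ≤ b)
    [DecidablePred fun σ : L →+* ℂ => ∀ x ∈ K, σ x = ι x] :
    finrank ℚ L ≤ b * #{σ : L →+* ℂ | ∀ x ∈ K, σ x = ι x} := by
  let _ : Algebra K ℂ := (ι.comp (algebraMap K L)).toAlgebra
  have h1 : Fintype.card (L →ₐ[K] ℂ) = finrank K L := AlgHom.card K L ℂ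
  have h2 : finrank K L ≤ #{σ : L →+* ℂ | ∀ x ∈ K, σ x = ι x} := by
    rw [← h1, ← card_univ]
    refine card_le_card_of_injOn (fun f => (f : L →+* ℂ)) (fun f _ => ?_) fun f _ g _ e => ?_
    · simp only [coe_filter, mem_univ, true_and, Set.mem_ofPred_eq]
      exact fun x hx => f.commutes ⟨x, hx⟩
    · exact AlgHom.coe_ringHom_injective e
  rw [← finrank_mul_finrank ℚ K L]
  exact Nat.mul_le_mul hb h2

/-- Many embeddings agree with a given one on many of `m` subfields of degree at most `b`. -/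
theorem avg_many (ι : L →+* ℂ) {m b k : ℕ} (K : Fin m → IntermediateField ℚ L)
    (hb : ∀ i, finrank ℚ (K i) ≤ b) (m0 : 0 < m) (hk : 2 * b * k ≤ m + 2 * b) :
    ∃ S : Finset (L →+* ℂ), finrank ℚ L ≤ 2 * b * S.card ∧
      ∀ σ ∈ S, ∃ I : Finset (Fin m), I.card = k ∧ ∀ i ∈ I, ∀ x ∈ K i, σ x = ι x := by
  classical
  have hc : Fintype.card (L →+* ℂ) = finrank ℚ L := NumberField.Embeddings.card L ℂ
  obtain ⟨f, hf⟩ : ∃ f : (L →+* ℂ) → ℕ, f = fun σ => #{i | ∀ x ∈ K i, σ x = ι x} := ⟨_, rfl⟩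
  refine ⟨univ.filter fun σ => k ≤ f σ, ?_, fun σ hσ => ?_⟩
  · have h1 : m * finrank ℚ L ≤ b * ∑ σ, f σ := by
      have : ∑ σ, f σ = ∑ i, #{σ : L →+* ℂ | ∀ x ∈ K i, σ x = ι x} := by
        simp only [hf, card_filter]
        exact sum_comm
      rw [this, mul_sum]
      simpa using sum_le_sum fun i (_ : i ∈ univ) => avg_fix ι (K i) (hb i)
    have h2 : ∑ σ, f σ ≤ m * #{σ | k ≤ f σ} + (k - 1) * finrank ℚ L := by
      rw [← hc, ← card_univ, card_filter, card_eq_sum_ones, mul_sum, mul_sum, ← sum_add_distrib]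
      refine sum_le_sum fun σ _ => ?_
      have : f σ ≤ m := by rw [hf]; exact (card_le_univ _).trans (Fintype.card_fin m).le
      split_ifs <;> omega
    have h3 : 2 * b * (k - 1) ≤ m := by
      rcases k with _ | k
      · simp
      · rw [Nat.add_sub_cancel]; nlinarith
    refine Nat.le_of_mul_le_mul_left ?_ m0
    nlinarith [Nat.mul_le_mul_left (2 * b) h2, Nat.mul_le_mul_right (finrank ℚ L) h3]
  · have h0 := (mem_filter.1 hσ).2
    rw [hf] at h0
    obtain ⟨I, h1, h2⟩ := exists_subset_card_eq h0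
    exact ⟨I, h2, fun i hi => (mem_filter.1 (h1 hi)).2⟩

end Pool.Agent.Lib.MP_5591bc_ag.W
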