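import Pool.Agent.Lib.MP_5591bc_ag.W.CoreC
import Pool.Agent.Lib.MP_5591bc_ag.W.EnvP

/-! The counting theorem. -/

namespace Pool.Agent.Lib.MP_5591bc_ag.W

open Polynomial G H Finset

theorem core (A : Type) [Fintype A] : ∃ f : ℕ → ℕ, PB f ∧
    ∀ (K L R : Type) [Field K] [NumberField K] [Field L] [NumberField L] [Algebra K L] [CommRing R]
      [IsDomain R] [Algebra ℂ R] (ι : L →+* ℂ) (Λ : ℕ) (s : K) (r : ℝ) (T : L[X])
      (B : Matrix A A L[X]) (W : A → A → PowerSeries K) (P : Finset L) (Φ : L → A → PowerSeries L)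
      (ev : R →ₐ[ℂ] ℂ) (p : L → A → R) (v : A → ℂ), (2 ^ Λ)⁻¹ ≤ r → r ≤ 2 ^ Λ →
      GK (2 ^ Λ) (fun q : A × A => W q.1 q.2) →
      (∀ x ∈ P, Dat ι Λ s r T B W x (Φ x) fun β => ev (p x β)) →
      (∀ x ∈ P, ∑ j, v j • p x j ≠ 0) → (∀ x ∈ P, ∑ j, v j * ev (p x j) = 0) →
      (∀ x ∈ P, ∀ a (φ : (Fin a → A) → L[X]), ∑ α, tk x (φ α) * ∏ l, Φ x (α l) = 0 →
        ∑ α, ι ((φ α).eval (algebraMap K L s)) • ∏ l, p x (α l) = 0) → #P ≤ f Λ := by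
  classical
  obtain ⟨N, hN⟩ : ∃ N, N = Fintype.card A := ⟨_, rfl⟩
  let τ : ℕ → ℕ := fun Λ => (Λ + 1) * (28 * (Λ + 1) ^ 2 + 4)
  let a0 : ℕ → ℕ := fun Λ => 4 * ((36 * τ Λ * (2 * (Λ + 1)) + 1) * (N + 1)) ^ 2
  let y : ℕ → ℕ := fun Λ => 3 * (a0 Λ + 1) * τ Λ + a0 Λ + 3 * (N * (a0 Λ + 1) ^ N + 1) + 4
  have p1 : PB fun Λ => Λ + 1 := PB.id.add (.const 1)
  have p2 : PB τ := p1.mul (((PB.const 28).mul (p1.pow 2)).add (.const 4))
  have p3 : PB a0 := (PB.const 4).mul ((((((PB.const 36).mul p2).mul ((PB.const 2).mul p1)).add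
    (.const 1)).mul (.const _)).pow 2)
  have p4 : PB fun Λ => a0 Λ + 1 := p3.add (.const 1)
  have p5 : PB y := (((((PB.const 3).mul p4).mul p2).add p3).add ((PB.const 3).mul
    (((PB.const N).mul (p4.pow N)).add (.const 1)))).add (.const 4)
  refine ⟨fun Λ => ((a0 Λ + 1) ^ (N + 1) + 1) * (2 * (2 * (Λ + 1) * y Λ ^ 2) * (a0 Λ + 1) ^ N),
    ((p4.pow _).add (.const 1)).mul (((PB.const 2).mul (((PB.const 2).mul p1).mul (p5.pow 2))).mul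
      (p4.pow N)), ?_⟩
  intro K L R _ _ _ _ _ _ _ _ ι Λ s r T B W P Φ ev p v r1 r2 hW hP h0 h1 he
  by_contra hc
  have y0 : 0 < y Λ := by simp only [y]; omega
  have τ0 : 0 < τ Λ := by simp only [τ]; positivity
  have a1 : 0 < a0 Λ := by simp only [a0]; positivity
  obtain ⟨S, hS, a, ha, I, E, -, I0, hI, e1, e2, e3, e4⟩ := amp (36 * τ Λ * (2 * (Λ + 1)))
    (2 * (2 * (Λ + 1) * y Λ ^ 2) * (a0 Λ + 1) ^ N) (by positivity) (a0 := a0 Λ) (by rw [← hN]) ev ι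
    (algebraMap K L s) p v P (fun x a => {φ | x ∈ P ∧ ∑ α, tk x (φ α) * ∏ l, Φ x (α l) = 0})
    (by rw [← hN]; exact (not_le.1 hc).le) h0 h1
    (fun x a φ h => ⟨h.1, by
      have := h.2
      simp only [map_mul, mul_assoc, ← mul_sum] at this
      refine (mul_eq_zero.1 this).resolve_left ?_
      rw [← pow_one (X - _), tk_pow, coe_eq_zero_iff, pow_one]
      exact X_add_C_ne_zero _⟩) fun x a φ h => he x h.1 a φ h.2
  obtain ⟨U, u1, u2⟩ := env_poly (σ := Fin (y Λ ^ 2)) (fun x β => ev (p x β)) S E e3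
  have e5 : (a + 1) ^ Fintype.card A ≤ (a0 Λ + 1) ^ N := by rw [← hN]; gcongr
  have e6 : a0 Λ ≤ y Λ ^ 2 := le_trans (by simp only [y]; omega) (Nat.le_self_pow two_ne_zero _)
  refine core_fix ι r1 r2 hW (fun x hx => hP x (hS hx)) (pow_pos y0 2) (ha.trans e6) rfl rfl I0 hI e5
    (fun φ φ0 hφ => (e4 φ φ0 hφ).trans (card_le_card fun x hx => ?_)) (by simpa using u1) e1 ?_ u2
  · simp only [mem_filter, Set.mem_ofPred_eq, not_and] at hx ⊢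
    exact ⟨hx.1, hx.2 (hS hx.1)⟩
  · refine le_trans ?_ (num_m (3 * (a0 Λ + 1) * τ Λ) (a0 Λ) (N * (a0 Λ + 1) ^ N + 1) le_rfl)
    obtain ⟨k, hk⟩ : ∃ k, y Λ ^ 2 = k := ⟨_, rfl⟩
    have k0 : 0 < k := hk ▸ pow_pos y0 2
    rw [hk, pow_succ' (a0 Λ * k + 1), ← mul_assoc (_ * k), ← hN]
    refine Nat.mul_le_mul ?_ ((Nat.pow_le_pow_left (m := a0 Λ * k + 1) (by gcongr) _).trans
      (Nat.pow_le_pow_right (Nat.succ_pos _) (Nat.mul_le_mul_left _ (e2.trans e5))))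
    calc _ ≤ 2 * (a0 Λ + 1) * k ^ 2 * τ Λ + (a0 Λ + 1) * k ^ 2 * τ Λ :=
          add_le_add (Nat.mul_le_mul_right _ (by gcongr)) (Nat.succ_le_of_lt (by positivity))
      _ = 3 * (a0 Λ + 1) * τ Λ * k * k := by ring
      _ ≤ _ := Nat.mul_le_mul_left _ ((Nat.le_mul_of_pos_left k a1).trans (Nat.le_succ _))

end Pool.Agent.Lib.MP_5591bc_ag.W
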