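import Pool.Agent.Lib.MP_5591bc_ag.W.CoreD
import Pool.Agent.Lib.MP_5591bc_ag.W.UpA

/-! Bounds for truncated series; the analytic estimate of the counting theorem. -/

namespace Pool.Agent.Lib.MP_5591bc_ag.W

open Polynomial G H Finset Metric

section bt
variable {F : Type*} [Field F]

/-- conjugates and denominators of the first coefficients -/
def Bt (t : ℕ) (M : ℝ) (d : ℕ) (u : PowerSeries F) : Prop :=
  ∀ j ≤ t, (∀ σ : F →+* ℂ, ‖σ (PowerSeries.coeff j u)‖ ≤ M) ∧
    IsIntegral ℤ ((d : F) * PowerSeries.coeff j u)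

variable {t d d' : ℕ} {M M' : ℝ} {u u' : PowerSeries F}

theorem Bt.mul (h : Bt t M d u) (h' : Bt t M' d' u') : Bt t (2 ^ t * M * M') (d * d') (u * u') := by
  intro j hj
  have e : ∀ p ∈ antidiagonal j, p.1 ≤ t ∧ p.2 ≤ t := fun p hp => by
    have := mem_antidiagonal.1 hp
    omega
  rw [PowerSeries.coeff_mul]
  refine ⟨fun σ => ?_, ?_⟩
  · have M0 := (norm_nonneg _).trans ((h 0 t.zero_le).1 σ)
    have M1 := (norm_nonneg _).trans ((h' 0 t.zero_le).1 σ)
    rw [map_sum]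
    refine (norm_sum_le _ _).trans ((sum_le_card_nsmul _ _ (M * M') fun p hp => ?_).trans ?_)
    · rw [map_mul, norm_mul]
      exact mul_le_mul ((h _ (e p hp).1).1 σ) ((h' _ (e p hp).2).1 σ) (norm_nonneg _) M0
    · rw [Nat.card_antidiagonal, nsmul_eq_mul, mul_assoc]
      refine mul_le_mul_of_nonneg_right ?_ (mul_nonneg M0 M1)
      exact_mod_cast (Nat.succ_le_succ hj).trans Nat.lt_two_pow_self
  · rw [mul_sum]
    refine IsIntegral.sum _ fun p hp => ?_
    rw [Nat.cast_mul, mul_mul_mul_comm]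
    exact (h _ (e p hp).1).2.mul (h' _ (e p hp).2).2

theorem bt_X (t e : ℕ) : Bt t 1 1 (PowerSeries.X ^ e : PowerSeries F) := fun j _ => by
  rw [PowerSeries.coeff_X_pow]
  split_ifs <;> simp [isIntegral_one, isIntegral_zero]

theorem Bt.prod : ∀ {a : ℕ} {u : Fin a → PowerSeries F}, (∀ l, Bt t M d (u l)) →
    Bt t ((2 ^ t * M) ^ a) (d ^ a) (∏ l, u l)
  | 0, _, _ => by simpa using bt_X (F := F) t 0
  | a + 1, u, h => by
    rw [Fin.prod_univ_succ, pow_succ', pow_succ']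
    exact (h 0).mul (Bt.prod fun l => h _)

theorem GK.bt {α : Type*} {h : ℕ} {g : α → PowerSeries F} (hg : GK h g) (h1 : 0 < h) :
    ∃ C : ℕ, 0 < C ∧ ∀ t, ∃ d : ℕ, 0 < d ∧ d ≤ C * h ^ t ∧ ∀ x, Bt t (C * h ^ t) d (g x) := by
  obtain ⟨C, C0, hC⟩ := hg
  refine ⟨C, C0, fun t => ?_⟩
  obtain ⟨-, d, d0, d1, d2⟩ := hC t
  refine ⟨d, d0, d1, fun x j hj => ⟨fun σ => ((hC j).1 x σ).trans ?_, d2 x j hj⟩⟩
  gcongr
  exact_mod_cast h1

theorem tk_pow (x s : F) (e : ℕ) : tk x ((X - C s) ^ e) = ((X + C (x - s)) ^ e : F[X]) := by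
  rw [tk_apply, ← taylorAlgHom_apply, map_pow]
  simp [add_sub_assoc]

theorem bt_pow {x s : F} {h : ℝ} (h1 : 1 ≤ h) (hd : IsIntegral ℤ ((d : F) * (x - s)))
    (hx : ∀ σ : F →+* ℂ, ‖σ (x - s)‖ ≤ h) (t : ℕ) {e D : ℕ} (he : e ≤ D) :
    Bt t ((2 * h) ^ D) (d ^ D) (tk x ((X - C s) ^ e)) := fun j _ => by
  rw [tk_pow, coeff_coe, coeff_X_add_C_pow]
  refine ⟨fun σ => ?_, ?_⟩
  · rw [map_mul, map_pow, map_natCast, norm_mul, norm_pow, mul_pow, mul_comm, Complex.norm_natCast]
    refine mul_le_mul ?_ ((pow_le_pow_left₀ (norm_nonneg _) (hx σ) _).trans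
      (pow_le_pow_right₀ h1 (by omega))) (by positivity) (by positivity)
    exact_mod_cast (Nat.choose_le_two_pow e j).trans (Nat.pow_le_pow_right two_pos he)
  · obtain ⟨n, rfl⟩ : ∃ n, D = e - j + n := ⟨D - (e - j), by omega⟩
    have := (hd.pow (e - j)).mul (isIntegral_natCast (R := ℤ) (d ^ n * e.choose j))
    rw [show ((d ^ (e - j + n) : ℕ) : F) * ((x - s) ^ (e - j) * e.choose j) =
      (d * (x - s)) ^ (e - j) * (d ^ n * e.choose j : ℕ) by rw [mul_pow]; push_cast; ring]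
    exact this

/-- series with coefficients in a subfield -/
def InF [CharZero F] (E : IntermediateField ℚ F) : Subring (PowerSeries F) where
  carrier := {u | ∀ j, PowerSeries.coeff j u ∈ E}
  add_mem' := fun h h' j => by rw [map_add]; exact add_mem (h j) (h' j)
  mul_mem' := fun h h' j => by
    rw [PowerSeries.coeff_mul]; exact sum_mem fun p _ => mul_mem (h _) (h' _)
  one_mem' := fun j => by rw [PowerSeries.coeff_one]; split_ifs; exacts [one_mem _, zero_mem _]
  zero_mem' := fun j => by rw [map_zero]; exact zero_mem _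
  neg_mem' := fun h j => by rw [map_neg]; exact neg_mem (h j)

theorem inF_pow [CharZero F] {E : IntermediateField ℚ F} {x s : F} (h : x - s ∈ E) (e : ℕ) :
    tk x ((X - C s) ^ e) ∈ InF E := fun j => by
  rw [tk_pow, coeff_coe, coeff_X_add_C_pow]
  exact mul_mem (pow_mem h _) (natCast_mem _ _)

end bt

variable {K L A J : Type*} [Field K] [Field L] [Fintype A] [Fintype J] {a k : ℕ}

/-- the vectors at the points -/
noncomputable def thx (s : L) (al : J → Fin a → A) (ex : J → ℕ) (x : L) (Φ : A → PowerSeries L)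
    (i : ℕ) (j : J) : L :=
  PowerSeries.coeff i (tk x ((X - C s) ^ ex j) * ∏ l, Φ (al j l))

/-- the matrices at the centre -/
noncomputable def ths (W : A → A → PowerSeries K) (al : J → Fin a → A) (ex : J → ℕ) (i : ℕ)
    (β : Fin a → A) (j : J) : K :=
  PowerSeries.coeff i (PowerSeries.X ^ ex j * ∏ l, W (β l) (al j l))

theorem core_up (ι : L →+* ℂ) (φ : K →+* ℂ) {s : L} {r S h C : ℝ} (r0 : 0 < r) (hr : r ≤ h)
    (h1 : 1 ≤ h) (S0 : 0 ≤ S) {W : A → A → PowerSeries K} (al : J → Fin a → A) {ex : J → ℕ} {D Y : ℕ}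
    (hD : ∀ j, ex j ≤ D) {x : Fin k → L} {Φ : Fin k → A → PowerSeries L} {μ : Fin k → A → ℂ}
    {g : Fin k → A → ℂ → ℂ} (hx : ∀ i, ‖ι (x i) - ι s‖ ≤ r / 16)
    (hg : ∀ i α, DifferentiableOn ℂ (g i α) (ball (ι s) (2 * r)) ∧
      tay (g i α) (ι s) = ∑ β, PowerSeries.C (μ i β) * PowerSeries.map φ (W β α) ∧
      tay (g i α) (ι (x i)) = PowerSeries.map ι (Φ i α))
    (hS : ∀ i α, ∀ t ∈ sphere (ι s) r, ‖g i α t‖ ≤ S) {c : (Fin k → J) → ℂ} (hc : ∀ γ, ‖c γ‖ ≤ C)
    (hz : ∀ κ : Fin k → ℕ, ∑ i, κ i < Y → ∑ β : Fin k → Fin a → A, (∏ i, ∏ l, μ i (β i l)) *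
      ∑ γ, c γ * ∏ i, φ (ths W al ex (κ i) (β i) (γ i)) = 0) (n : Fin k → ℕ) :
    ‖∑ γ, c γ * ∏ i, ι (thx s al ex (x i) (Φ i) (n i) (γ i))‖ ≤
      C * (Fintype.card J ^ k * ((2 * (h ^ D * S ^ a)) ^ k * (2 / r) ^ ∑ i, n i) *
        (1 / 4) ^ (Y - ∑ i, n i)) := by
  classical
  have hb : ∀ i, ι (x i) ∈ ball (ι s) (2 * r) := fun i => mem_ball_iff_norm.2 (by linarith [hx i])
  have an : ∀ i α, ∀ z ∈ ball (ι s) (2 * r), AnalyticAt ℂ (g i α) z := fun i α z hz =>
    (hg i α).1.analyticAt (isOpen_ball.mem_nhds hz)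
  have key := up_ana c (fun i j z => (z - ι s) ^ ex j * ∏ l, g i (al j l) z) (s := ι s)
    (R := 2 * r) (S := h ^ D * S ^ a) (ε := 1 / 16) r0 (by linarith) (by positivity)
    (fun i j => DifferentiableOn.fun_mul (by fun_prop)
      (DifferentiableOn.fun_finsetProd fun l _ => (hg i _).1))
    (fun i j t ht => by
      rw [norm_mul, norm_pow, norm_prod, mem_sphere_iff_norm.1 ht]
      exact mul_le_mul ((pow_le_pow_left₀ r0.le hr _).trans (pow_le_pow_right₀ h1 (hD j)))
        ((prod_le_prod (fun _ _ => norm_nonneg _) fun l _ => hS i _ t ht).trans (by simp))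
        (prod_nonneg fun _ _ => norm_nonneg _) (by positivity))
    (by norm_num) (by norm_num) (fun i => ι (x i)) (fun i => by linarith [hx i]) (X := Y)
    (fun κ hκ => by
      rw [← hz κ hκ]
      simp only [mul_sum]
      rw [sum_comm]
      refine sum_congr rfl fun γ _ => ?_
      have : ∀ i, PowerSeries.coeff (κ i)
          (tay (fun z => (z - ι s) ^ ex (γ i) * ∏ l, g i (al (γ i) l) z) (ι s)) =
          ∑ β : Fin a → A, (∏ l, μ i (β l)) * φ (ths W al ex (κ i) β (γ i)) := fun i => by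
        rw [tay_pow_mul (analyticAt_fun_prod _ fun l _ => an i _ _ (mem_ball_self (by linarith))),
          tay_prod _ fun l _ => an i _ _ (mem_ball_self (by linarith))]
        simp only [(hg i _).2.1, prod_univ_sum, Fintype.piFinset_univ, mul_sum, map_sum,
          prod_mul_distrib, ← map_prod]
        refine sum_congr rfl fun β _ => ?_
        rw [mul_left_comm, PowerSeries.coeff_C_mul, ths, ← PowerSeries.coeff_map,
          map_mul (PowerSeries.map φ), map_pow (PowerSeries.map φ), PowerSeries.map_X]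
      simp only [this, prod_univ_sum, Fintype.piFinset_univ, mul_sum, prod_mul_distrib]
      exact sum_congr rfl fun β _ => by ring) n
  have e : ∀ i j, PowerSeries.coeff (n i)
      (tay (fun z => (z - ι s) ^ ex j * ∏ l, g i (al j l) z) (ι (x i))) =
      ι (thx s al ex (x i) (Φ i) (n i) j) := fun i j => by
    have e1 := tay_poly (p := ι (x i)) ((X - Polynomial.C (ι s)) ^ ex j)
    simp only [eval_pow, eval_sub, eval_X, eval_C] at e1
    rw [tay_mul (by fun_prop) (analyticAt_fun_prod _ fun l _ => an i _ _ (hb i)),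
      tay_prod _ fun l _ => an i _ _ (hb i), e1, ← tk_apply, thx, ← PowerSeries.coeff_map,
      map_mul (PowerSeries.map ι), map_prod (PowerSeries.map ι), tk_pow, tk_pow,
      ← Polynomial.polynomial_map_coe]
    simp [(hg i _).2.2]
  simp only [e, Fintype.card_fin] at key
  refine key.trans ?_
  have : ∑ γ, ‖c γ‖ ≤ C * Fintype.card J ^ k :=
    (sum_le_card_nsmul _ _ C fun γ _ => hc γ).trans (by simp [mul_comm])
  rw [← mul_assoc C, ← mul_assoc C, show (4 * (1 / 16) : ℝ) = 1 / 4 by norm_num]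
  gcongr

end Pool.Agent.Lib.MP_5591bc_ag.W
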