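import Pool.Agent.Lib.MP_5591bc_ag.W.CoreA
import Pool.Agent.Lib.MP_5591bc_ag.W.Sub
import Pool.Agent.Lib.MP_5591bc_ag.W.NumP

/-! The auxiliary tensor and the arithmetic bounds at the points. -/

namespace Pool.Agent.Lib.MP_5591bc_ag.W

open Polynomial G H Finset Metric

theorem core_sie {K A : Type} [Field K] [NumberField K] [Fintype A] {W : A → A → PowerSeries K}
    {h : ℕ} (h1 : 0 < h) (hW : GK h fun q : A × A => W q.1 q.2) (a k : ℕ) : ∃ C : ℝ, 1 ≤ C ∧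
    ∀ (m g y : ℕ) (J : Type) [Fintype J] (al : J → Fin a → A) (ex : J → ℕ)
      (T : Finset (Finset (Fin k → Fin a → A))), 0 < g → 0 < Fintype.card J → k ≤ m →
      (g + 1) * (m.choose k * (#T * (3 * (y + 1)) ^ k)) ≤ Fintype.card J ^ k →
      ∃ c : (Fin m → J) → K, c ≠ 0 ∧ (∀ γ, IsIntegral ℤ (c γ)) ∧
        (∀ (I : Finset (Fin m)) (hI : I.card = k) β₀, ∀ t ∈ T, ∀ κ : Fin k → ℕ, ∑ i, κ i < k * y →
          ∑ β ∈ t, ∑ γ, c (subIx I hI γ β₀) * ∏ i, ths W al ex (κ i) (β i) (γ i) = 0) ∧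
        ∀ γ (σ : K →+* ℂ), ‖σ (c γ)‖ ^ g ≤
          C ^ (g + 1) * (Fintype.card J ^ m * (2 * h) ^ (2 * (a + 1) * k * (k * y))) := by
  classical
  obtain ⟨c₁, c1, hc⟩ := sub_sie K
  obtain ⟨C, C0, hC⟩ := hW.bt h1
  have C1 : (1 : ℝ) ≤ C := by exact_mod_cast C0
  have h2 : (1 : ℝ) ≤ h := by exact_mod_cast h1
  obtain ⟨n, hn⟩ : ∃ n : ℝ, n = (Fintype.card (Fin k → Fin a → A) + 1) * C ^ (2 * a * k) := ⟨_, rfl⟩
  have n1 : 1 ≤ n := hn ▸ one_le_mul_of_one_le_of_one_le (by simp) (one_le_pow₀ C1)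
  refine ⟨c₁ * n, one_le_mul_of_one_le_of_one_le c1 n1, fun m g y J _ al ex T g0 J0 km hr => ?_⟩
  obtain ⟨d, d0, d1, d2⟩ := hC (k * y)
  let S := {κ ∈ Fintype.piFinset fun _ : Fin k => range (k * y + 1) |
    ∑ i, κ i ≤ Fintype.card (Fin k) * y}
  have hS : ∀ κ : S, ∀ i, κ.1 i ≤ k * y := fun κ i =>
    Nat.le_of_lt_succ (mem_range.1 (Fintype.mem_piFinset.1 (mem_filter.1 κ.2).1 i))
  have hb := fun (β : Fin a → A) j => (bt_X (k * y) (ex j)).mul (Bt.prod fun l => d2 (β l, al j l))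
  have z1 : (1 : ℝ) ≤ 2 * h := by linarith
  obtain ⟨c, c0, e1, e2, e3⟩ := hc m k g J (T × S)
    (fun q γ => ∑ β ∈ q.1.1, ∏ i, ((1 * d ^ a : ℕ) : K) * ths W al ex (q.2.1 i) (β i) (γ i))
    (n * (2 * h) ^ (2 * (a + 1) * k * (k * y))) (one_le_mul_of_one_le_of_one_le n1 (one_le_pow₀ z1))
    g0 J0 km (le_trans (by
      simp only [Fintype.card_prod, Fintype.card_coe]
      gcongr
      exact (num_simplex (Fin k) y (k * y + 1)).trans (by simp)) hr)
    (fun q γ => IsIntegral.sum _ fun β _ => IsIntegral.prod _ fun i _ => (hb _ _ _ (hS q.2 i)).2)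
    fun q γ σ => by
      rw [map_sum]
      refine (norm_sum_le _ _).trans ((sum_le_card_nsmul _ _
        ((C ^ (2 * a) * (2 * h : ℝ) ^ (2 * (a + 1) * (k * y))) ^ k) fun β _ => ?_).trans ?_)
      · rw [map_prod, norm_prod]
        refine (prod_le_prod (fun _ _ => norm_nonneg _) fun i _ => ?_).trans (by
          rw [prod_const, card_univ, Fintype.card_fin])
        rw [map_mul, map_natCast, norm_mul, Complex.norm_natCast]
        have b1 : ((1 * d ^ a : ℕ) : ℝ) ≤ (C * h ^ (k * y)) ^ a := by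
          rw [one_mul]; exact_mod_cast Nat.pow_le_pow_left d1 a
        refine (mul_le_mul b1 ((hb _ _ _ (hS q.2 i)).1 σ) (norm_nonneg _) (by positivity)).trans ?_
        calc _ = C ^ (2 * a) * (2 ^ ((a + 1) * (k * y)) * (h : ℝ) ^ (2 * a * (k * y))) := by ring
          _ ≤ _ := by
            rw [mul_pow (2 : ℝ)]
            gcongr <;> first | norm_num | nlinarith
      · rw [nsmul_eq_mul, hn, mul_pow, ← pow_mul, ← pow_mul, mul_right_comm _ (k * y),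
          mul_assoc (_ + 1 : ℝ)]
        gcongr
        exact_mod_cast (card_le_univ _).trans (Nat.le_succ _)
  refine ⟨c, c0, e1, fun I hI β₀ t ht κ hκ => ?_, fun γ σ => (e3 γ σ).trans ?_⟩
  · have := e2 I hI β₀ (⟨t, ht⟩, ⟨κ, mem_filter.2 ⟨Fintype.mem_piFinset.2 fun i => mem_range.2
      ((single_le_sum (fun _ _ => Nat.zero_le _) (mem_univ i)).trans_lt (hκ.trans (lt_add_one _))),
      by simpa using hκ.le⟩⟩)
    simp only [prod_mul_distrib, mul_sum, mul_left_comm (c _)] at this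
    rw [sum_comm] at this
    simp only [← mul_sum] at this
    exact (mul_eq_zero.1 this).resolve_left (prod_ne_zero_iff.2 fun _ _ => by simp [d0.ne'])
  · rw [mul_pow c₁, mul_left_comm _ n, mul_assoc (c₁ ^ _)]
    gcongr
    exact le_self_pow₀ n1 (by omega)

theorem core_pt {L A : Type*} [Field L] {x s : L} {Φ : A → PowerSeries L} {h d : ℕ} (h1 : 0 < h)
    (hΦ : GK h Φ) (d0 : 0 < d) (d1 : d ≤ h) (hd : IsIntegral ℤ ((d : L) * (x - s)))
    (hx : ∀ σ : L →+* ℂ, ‖σ (x - s)‖ ≤ h) (a : ℕ) : ∃ C : ℕ, ∀ u D, a * u ≤ D → u ≤ D →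
      ∃ N : ℕ, 0 < N ∧ N ≤ C * (2 * h) ^ (2 * D) ∧ ∀ (α : Fin a → A), ∀ e ≤ D,
        Bt u (C * (2 * h) ^ (3 * D)) N (tk x ((X - Polynomial.C s) ^ e) * ∏ l, Φ (α l)) := by
  obtain ⟨C, C0, hC⟩ := hΦ.bt h1
  have h2 : (1 : ℝ) ≤ h := by exact_mod_cast h1
  refine ⟨C ^ a, fun u D hu hu' => ?_⟩
  obtain ⟨q, q0, q1, q2⟩ := hC u
  refine ⟨d ^ D * q ^ a, by positivity, ?_, fun α e he j hj => ?_⟩
  · calc _ ≤ h ^ D * (C * h ^ u) ^ a := by gcongr
      _ = C ^ a * (h ^ D * h ^ (a * u)) := by ring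
      _ ≤ C ^ a * ((2 * h) ^ D * (2 * h) ^ D) := by
        gcongr _ * (?_ * ?_)
        · gcongr; omega
        · exact (Nat.pow_le_pow_right h1 hu).trans (by gcongr; omega)
      _ = _ := by ring
  · have := ((bt_pow h2 hd hx u he).mul (Bt.prod fun l => q2 (α l))) j hj
    refine ⟨fun σ => (this.1 σ).trans ?_, this.2⟩
    calc _ = C ^ a * (2 ^ u * (2 * h : ℝ) ^ D * (2 * h) ^ (a * u)) := by ring
      _ ≤ C ^ a * ((2 * h) ^ D * (2 * h : ℝ) ^ D * (2 * h) ^ D) := by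
        gcongr _ * (?_ * _ * ?_)
        · exact (pow_le_pow_right₀ one_le_two hu').trans (by gcongr; linarith)
        · exact pow_le_pow_right₀ (by linarith) hu
      _ = _ := by push_cast; ring

end Pool.Agent.Lib.MP_5591bc_ag.W
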