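import Pool.Agent.Lib.MP_5591bc_ag.H.Zero
import Pool.Agent.Lib.MP_5591bc_ag.W.Amp

/-! The zero estimate on a grid for powers of a solution, with the number of monomials as size. -/

namespace Pool.Agent.Lib.MP_5591bc_ag.W

open Matrix Polynomial Function G H Finset
open scoped Classical

noncomputable section

variable {k ι κ S : Type*} [Field k] [Fintype ι] [Fintype κ] [Field S]
  {τ : k[X] →+* PowerSeries S} {T : k[X]} {B : Matrix ι ι k[X]}

theorem zc_quot {Φ : ι → PowerSeries S} (q : ι → κ) (r : κ → ι) (h : ∀ i, Φ (r (q i)) = Φ i)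
    (hS : IsS τ T B Φ) :
    IsS τ T (of fun b b' => ∑ ν ∈ {ν | q ν = b'}, B (r b) ν) fun b => Φ (r b) := fun b => by
  rw [hS, ← sum_fiberwise univ q]
  refine sum_congr rfl fun b' _ => ?_
  rw [of_apply, map_sum, sum_mul]
  exact sum_congr rfl fun ν hν => by simp only [← (mem_filter.1 hν).2, h]

theorem zc_tens {Φ : ι → PowerSeries S} (hS : IsS τ T B Φ) (a : ℕ) :
    IsS τ T (tB (Fin a) B) (tens fun _ => Φ) := fun μ => by
  have e : (tB (Fin a) B).map τ = tB (Fin a) (B.map τ) := by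
    ext1 α β
    simp only [map_apply, tB_apply, map_sum, map_mul, map_prod, apply_ite τ, map_one, map_zero]
  have hp : ∀ (g : Fin a → PowerSeries S) (s : Finset (Fin a)), PowerSeries.derivative S
      (∏ l ∈ s, g l) = ∑ l ∈ s, (∏ j ∈ s.erase l, g j) * PowerSeries.derivative S (g l) :=
    fun g s => by
    induction s using Finset.induction_on with
    | empty => simp
    | insert x s hx ih =>
      rw [prod_insert hx, sum_insert hx, Derivation.leibniz, ih, erase_insert hx, smul_eq_mul,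
        smul_eq_mul, add_comm, mul_sum]
      refine congrArg _ (sum_congr rfl fun l hl => ?_)
      rw [erase_insert_of_ne (ne_of_mem_of_not_mem hl hx).symm,
        prod_insert fun h => hx (mem_of_mem_erase h), mul_assoc]
  have := congrFun (tB_mulVec (B.map τ) fun _ : Fin a => Φ) μ
  rw [← e, Finset.sum_apply] at this
  refine Eq.trans ?_ this.symm
  rw [tens, hp, mul_sum]
  refine sum_congr rfl fun l _ => ?_
  rw [tens_update, mul_left_comm, hS]
  rfl

omit [Fintype ι] in
theorem zc_deg {e : ℕ} (hB : ∀ i j, (B i j).natDegree ≤ e) (a : ℕ) (α β : Fin a → ι) :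
    (tB (Fin a) B α β).natDegree ≤ e := by
  rw [tB_apply]
  refine natDegree_sum_le_of_forall_le _ _ fun l _ => ?_
  rw [prod_boole]
  split_ifs <;> simp [hB]

/-- A tensor on `I × [0, D)` that kills all products of Taylor coefficients of order `< μ` of the
functions `(z - s)^d Φ^α` at points of `P` vanishes. -/
theorem grid_pow [CharZero k] {σ : Type*} [Fintype σ] [DecidableEq σ]
    {Φ : k → ι → PowerSeries k} {P : Finset k} (hT : ∀ x ∈ P, T.eval x ≠ 0)
    (hS : ∀ x ∈ P, IsS (tk x) T B (Φ x)) {e D μ M a n : ℕ} (hTe : T.natDegree ≤ e)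
    (hB : ∀ i j, (B i j).natDegree ≤ e) {I : Finset (Fin a → ι)}
    (hI : Set.InjOn cnt (I : Set (Fin a → ι)))
    (hsel : ∀ φ : (Fin a → ι) → k[X], φ ≠ 0 → (∀ α ∉ I, φ α = 0) →
      M ≤ #{x ∈ P | ∑ α, tk x (φ α) * ∏ l, Φ x (α l) ≠ 0})
    (hn : (a + 1) ^ Fintype.card ι ≤ n) (hM : n * (D + n * e) < M * (μ - n)) (s : k)
    {c : (σ → I × Fin D) → k} (hc : ∀ (x : σ → k) (i : σ → ℕ), (∀ b, x b ∈ P) → (∀ b, i b < μ) →
      ∑ ν, c ν * ∏ b, PowerSeries.coeff (i b) (tk (x b) ((X - C s) ^ ((ν b).2 : ℕ)) *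
        ∏ l, Φ (x b) ((ν b).1.1 l)) = 0) : c = 0 := by
  by_cases hne : Nonempty (Fin a → ι)
  swap
  · ext ν
    by_cases hσ : Nonempty σ
    · exact absurd ⟨(ν hσ.some).1.1⟩ hne
    · have h1 : I = ∅ := eq_empty_of_forall_notMem fun α _ => hne ⟨α⟩
      have := hc (fun b => absurd ⟨b⟩ hσ) (fun b => absurd ⟨b⟩ hσ) (fun b => absurd ⟨b⟩ hσ)
        fun b => absurd ⟨b⟩ hσ
      rw [not_nonempty_iff] at hσ
      simpa [Subsingleton.elim default ν] using this
  have hr : ∀ x (α : Fin a → ι), tens (fun _ => Φ x) (invFun cnt (cnt α)) = ∏ l, Φ x (α l) :=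
    fun x α => by rw [tens, prod_cnt, invFun_eq (f := cnt) ⟨α, rfl⟩, ← prod_cnt]
  have hk : Fintype.card (ι → Fin (a + 1)) ≤ n := by simpa using hn
  refine grid_zero (Φ := fun x b => tens (fun _ => Φ x) (invFun cnt b)) (j := fun α : I => cnt α.1)
    hT (fun x hx => zc_quot cnt (invFun cnt) (hr x) (zc_tens (hS x hx) a)) hTe
    (fun b b' => natDegree_sum_le_of_forall_le _ _ fun ν _ => zc_deg hB a _ _)
    (fun α β h => Subtype.ext (hI α.2 β.2 h)) (M := M) (μ := μ) (fun φ h0 => ?_)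
    (lt_of_le_of_lt (by gcongr) (hM.trans_le (by gcongr))) s fun x i hx hi => ?_
  · refine ⟨_, filter_subset _ _, hsel (fun α => if h : α ∈ I then φ ⟨α, h⟩ else 0)
      (fun h => h0 (funext fun α => by simpa using congrFun h α)) fun α h => dif_neg h,
      fun x hx e => (mem_filter.1 hx).2 ?_⟩
    simp only [hr] at e
    rw [← e, ← sum_subset (subset_univ I) fun α _ h => by simp [h], ← sum_coe_sort]
    simp
  · refine Eq.trans (sum_congr rfl fun ν _ => ?_) (hc x i hx hi)
    simp only [← hr]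
    rfl

end

end Pool.Agent.Lib.MP_5591bc_ag.W
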