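import Pool.Agent.Lib.MP_5591bc_ag.W.CoreB
import Pool.Agent.Lib.MP_5591bc_ag.W.ZeroC
import Pool.Agent.Lib.MP_5591bc_ag.W.NumD

/-! The contradiction for a selected set of points. -/

namespace Pool.Agent.Lib.MP_5591bc_ag.W

open Polynomial G H Finset Metric
open scoped Classical

theorem core_eps {Z J h S r : ℝ} {k D n Y q : ℕ} (k0 : 0 < k) (hZ : (2 * h) ^ D = Z) (h1 : 1 ≤ h)
    (J0 : 0 ≤ J) (hJ : J ≤ Z ^ 2) (S0 : 0 ≤ S) (hS : 2 * S ≤ Z) (r0 : 0 < r) (hr : h⁻¹ ≤ r)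
    (hn : n ≤ D) (hY : 4 ^ Y = Z ^ q) :
    J ^ k * ((2 * (h ^ D * S)) ^ k * (2 / r) ^ n) * (1 / 4) ^ (Y - n) ≤ Z ^ (7 * k) / Z ^ q := by
  have z1 : 1 ≤ 2 * h := by linarith
  have Z1 : 1 ≤ Z := hZ ▸ one_le_pow₀ z1
  have a1 : 2 * (h ^ D * S) ≤ Z ^ 2 := by
    rw [mul_left_comm, sq]
    exact mul_le_mul (hZ ▸ pow_le_pow_left₀ (by linarith) (by linarith) D) hS (by linarith)
      (by linarith)
  have a2 : (2 / r) ^ n ≤ Z := hZ ▸ (pow_le_pow_left₀ (by positivity) (by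
    rw [div_eq_mul_inv]
    exact mul_le_mul_of_nonneg_left (inv_le_of_inv_le₀ (by linarith) hr) zero_le_two) n).trans
    (pow_le_pow_right₀ z1 hn)
  have a3 : (1 / 4 : ℝ) ^ (Y - n) ≤ Z ^ 2 / Z ^ q := by
    rw [← hY, le_div_iff₀ (by positivity), one_div, inv_pow, inv_mul_le_iff₀ (by positivity)]
    calc (4 : ℝ) ^ Y ≤ 4 ^ (Y - n + D) := pow_le_pow_right₀ (by norm_num) (by omega)
      _ = 4 ^ (Y - n) * (2 ^ D) ^ 2 := by rw [pow_add, ← pow_mul, mul_comm D, pow_mul]; norm_num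
      _ ≤ _ := by rw [← hZ]; gcongr; linarith
  calc _ ≤ (Z ^ 2) ^ k * ((Z ^ 2) ^ k * Z) * (Z ^ 2 / Z ^ q) := by gcongr
    _ = Z ^ (4 * k + 3) / Z ^ q := by ring
    _ ≤ _ := by gcongr; omega

theorem core_fix {A K L : Type} [Fintype A] [Field K] [NumberField K] [Field L] [NumberField L]
    [Algebra K L] (ι : L →+* ℂ) {Λ : ℕ} {s : K} {r : ℝ} {T : L[X]} {B : Matrix A A L[X]}
    {W : A → A → PowerSeries K} {P : Finset L} {Φ : L → A → PowerSeries L} {μ : L → A → ℂ}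
    (r1 : (2 ^ Λ)⁻¹ ≤ r) (r2 : r ≤ 2 ^ Λ) (hW : GK (2 ^ Λ) fun q : A × A => W q.1 q.2)
    (hP : ∀ x ∈ P, Dat ι Λ s r T B W x (Φ x) (μ x)) {a k n τ g ρ w : ℕ} (k0 : 0 < k) (ak : a ≤ k)
    (hτ : τ = (Λ + 1) * (28 * (Λ + 1) ^ 2 + 4)) (hg : g = 2 * (a + 1) * k ^ 2 * τ)
    {I : Finset (Fin a → A)} (I0 : I.Nonempty) (hI : Set.InjOn cnt (I : Set (Fin a → A)))
    (hn : (a + 1) ^ Fintype.card A ≤ n)
    (hsel : ∀ φ : (Fin a → A) → L[X], φ ≠ 0 → (∀ α ∉ I, φ α = 0) → 2 * (2 * (Λ + 1) * k) * n ≤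
      #{x ∈ P | ∑ α, tk x (φ α) * ∏ l, Φ x (α l) ≠ 0})
    {E : Finset (Finset (Fin k → Fin a → A))} (hE : #E ≤ ρ ^ k * w)
    (hρ : 36 * τ * (2 * (Λ + 1)) * ρ ≤ #I) (hw : (g + 1) * w ≤ 2 ^ k)
    (env : ∀ y : (Fin k → Fin a → A) → ℂ, (∀ t ∈ E, ∑ β ∈ t, y β = 0) → ∀ ξ : Fin k → L,
      (∀ i, ξ i ∈ P) → ∑ β, (∏ i, ∏ l, μ (ξ i) (β i l)) * y β = 0) : False := by
  obtain ⟨m, hm⟩ : ∃ m, m = 2 * (Λ + 1) * k := ⟨_, rfl⟩
  have km : k ≤ m := by nlinarith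
  have τ0 : 0 < τ := by rw [hτ]; positivity
  have g0 : 0 < g := by rw [hg]; positivity
  have n0 : 0 < n := lt_of_lt_of_le (by positivity) hn
  have h0 : 0 < 2 ^ Λ := by positivity
  have h1 : (1 : ℝ) ≤ 2 ^ Λ := one_le_pow₀ one_le_two
  have r0 : 0 < r := lt_of_lt_of_le (by positivity) r1
  obtain ⟨C, C1, hC⟩ := core_sie h0 hW a k
  choose! F F1 F2 F3 F4 using fun x hx => (hP x hx).fld
  choose! f hf using fun x hx => (hP x hx).ana
  choose! Cp hCp using fun x hx => (hP x hx).den.elim fun d hd =>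
    core_pt h0 (hP x hx).gk hd.1 hd.2.1 hd.2.2 (by simpa using (hP x hx).hou) a
  choose! Sx hSx using fun x (hx : x ∈ P) α => (isCompact_sphere (ι (algebraMap K L s)) r
    ).exists_bound_of_continuousOn ((hf x hx α).1.continuousOn.mono
      (sphere_subset_ball (by linarith)))
  obtain ⟨S, S0, hS⟩ : ∃ S, 0 ≤ S ∧ ∀ x ∈ P, ∀ α, Sx x α ≤ S :=
    ⟨∑ x ∈ P, ∑ α, |Sx x α|, by positivity, fun x hx α => (le_abs_self _).trans
      ((single_le_sum (f := fun α => |Sx x α|) (fun _ _ => abs_nonneg _) (mem_univ α)).trans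
        (single_le_sum (f := fun x => ∑ α, |Sx x α|) (fun _ _ => by positivity) hx))⟩
  obtain ⟨e, e1, e2⟩ : ∃ e, T.natDegree ≤ e ∧ ∀ i j, (B i j).natDegree ≤ e :=
    ⟨T.natDegree + univ.sup fun q : A × A => (B q.1 q.2).natDegree, Nat.le_add_right _ _,
      fun i j => (le_sup (f := fun q : A × A => (B q.1 q.2).natDegree) (mem_univ (i, j))).trans
        (Nat.le_add_left _ _)⟩
  obtain ⟨u, hu⟩ : ∃ u, u = ⌈C⌉₊ + ∑ x ∈ P, Cp x + ⌈2 * S ^ a⌉₊ + #I + (n * e + 2 * n + 1) :=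
    ⟨_, rfl⟩
  obtain ⟨D, hD⟩ : ∃ D, D = m * u := ⟨_, rfl⟩
  have uD : u ≤ D := by nlinarith
  have D0 : 0 < D := by omega
  obtain ⟨Z, hZ⟩ : ∃ Z : ℝ, (2 * 2 ^ Λ) ^ D = Z := ⟨_, rfl⟩
  have DZ : (D : ℝ) < Z := lt_of_lt_of_le (b := 2 ^ D) (by exact_mod_cast Nat.lt_two_pow_self)
    ((pow_le_pow_left₀ zero_le_two (by linarith) D).trans_eq hZ)
  have Z1 : 1 < Z := lt_of_le_of_lt (by exact_mod_cast D0) DZ
  have uZ : ∀ z : ℕ, z ≤ u → (z : ℝ) ≤ Z := fun z hz =>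
    le_trans (by exact_mod_cast hz.trans uD) DZ.le
  have J1 : Fintype.card (I × Fin D) = #I * D := by simp
  have J0 : 0 < Fintype.card (I × Fin D) := J1 ▸ Nat.mul_pos (card_pos.2 I0) D0
  have JZ : (Fintype.card (I × Fin D) : ℝ) ≤ Z ^ 2 := by
    rw [J1, Nat.cast_mul, sq]
    exact mul_le_mul (uZ _ (by omega)) DZ.le (by positivity) (by linarith)
  obtain ⟨c, c0, c1, c2, c3⟩ := hC m g (τ * D) (I × Fin D) (fun j => j.1.1) (fun j => j.2) E g0 J0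
    km (by
      rw [J1, hm]
      exact numd_sub (Nat.mul_pos τ0 D0) hρ hw (Nat.mul_le_mul_right _ hE))
  have c4 : ∀ γ (σ : K →+* ℂ), ‖σ (c γ)‖ ≤ Z ^ (5 * m) := fun γ σ => by
    refine le_of_pow_le_pow_left₀ g0.ne' (by positivity) ((c3 γ σ).trans ?_)
    calc _ ≤ Z ^ (g + 1) * ((Z ^ 2) ^ m * Z ^ g) := by
          gcongr
          · exact (Nat.le_ceil C).trans (uZ _ (by omega))
          · rw [← hZ, ← pow_mul, hg]
            push_cast
            exact le_of_eq (by ring)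
      _ ≤ _ := by
        rw [← pow_mul, ← pow_mul, ← pow_add, ← pow_add]
        exact pow_le_pow_right₀ Z1.le (by nlinarith [k0.trans_le km])
  refine c0 (funext fun γ => (algebraMap K L).injective ((congrFun (grid_pow (σ := Fin m) (D := D)
    (μ := u) (c := fun γ => algebraMap K L (c γ)) (fun x hx => (hP x hx).ne)
    (fun x hx => (hP x hx).ode) e1 e2 hI hsel hn ?_ (algebraMap K L s) fun x i hx hi => ?_) γ).trans
      (map_zero _).symm))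
  · obtain ⟨v, hv⟩ : ∃ v, u = v + (n * e + 2 * n + 1) := ⟨_, hu⟩
    rw [← hm, hD, show u - n = v + (n * e + n + 1) by omega, hv]
    have := k0.trans_le km
    nlinarith [Nat.mul_le_mul_left (n * (n * e)) this, Nat.mul_pos n0 this, Nat.zero_le (m * n * v)]
  choose N N0 N1 N2 using fun b => hCp (x b) (hx b) u D (by nlinarith) uD
  have CZ : ∀ b, (Cp (x b) : ℝ) ≤ Z := fun b => uZ _ ((single_le_sum (f := Cp)
    (fun _ _ => Nat.zero_le _) (hx b)).trans (by omega))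
  refine sub_low ι (b := Λ + 1) (fun b => F (x b)) (fun b => (F1 _ (hx b)).trans (Nat.le_succ _)) k0
    km (by omega) J0 _ (fun b j => thx (algebraMap K L s) (fun j : I × Fin D => j.1.1)
      (fun j => j.2) (x b) (Φ (x b)) (i b) j) (fun b γ => F2 _ (hx b) _)
    (fun b j => mul_mem (inF_pow (sub_mem (F3 _ (hx b)) (F2 _ (hx b) _)) _)
      (prod_mem fun l _ => F4 _ (hx b) _) _) (N := ∏ b, N b) (prod_pos fun b _ => N0 b) ?_
    (C := Z ^ (5 * m)) (M := Z ^ 4) (ε := Z ^ (7 * k) / Z ^ (k * (56 * (Λ + 1) ^ 2 + 8)))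
    (one_le_pow₀ Z1.le) (by positivity) ((div_le_one (by positivity)).2
      (pow_le_pow_right₀ Z1.le (by nlinarith [Nat.zero_le (k * (Λ + 1) ^ 2)])))
    (fun γ σ => c4 γ (σ.comp (algebraMap K L))) (fun b j σ => ?_) (fun Q hQ β => ?_) ?_
  · rw [mul_sum]
    refine IsIntegral.sum _ fun γ _ => ?_
    rw [mul_left_comm, Nat.cast_prod, ← prod_mul_distrib]
    exact (map_isIntegral_int _ (c1 γ)).mul (IsIntegral.prod _ fun b _ =>
      (N2 b _ _ (γ b).2.2.le _ (hi b).le).2)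
  · refine ((N2 b _ _ j.2.2.le _ (hi b).le).1 σ).trans ?_
    push_cast
    rw [mul_comm 3, pow_mul, hZ, pow_succ' Z 3]
    gcongr
    exact CZ b
  · refine (core_up ι (ι.comp (algebraMap K L)) r0 r2 h1 S0 _ (D := D) (Y := k * (τ * D))
      (fun j => j.2.2.le) (fun l => (hP _ (hx _)).near) (fun l => hf _ (hx _))
      (fun l α t ht => (hSx _ (hx _) α t ht).trans (hS _ (hx _) α))
      (fun γ => c4 _ (ι.comp (algebraMap K L))) (fun κ hκ => env _ (fun t ht => ?_) _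
        fun l => hx _) _).trans (mul_le_mul_of_nonneg_left (core_eps k0 hZ h1 (by positivity) JZ
        (by positivity) ((Nat.le_ceil _).trans (uZ _ (by omega))) r0 r1 ?_ ?_) (by positivity))
    · simpa using congrArg (ι.comp (algebraMap K L)) (c2 Q hQ β t ht κ hκ)
    · exact (sum_le_card_nsmul _ _ u fun l _ => (hi _).le).trans (by simp; nlinarith)
    · rw [← hZ, ← pow_succ', show (4 : ℝ) = 2 ^ 2 by norm_num, ← pow_mul, ← pow_mul, ← pow_mul, hτ]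
      congr 1
      ring
  · have b1 : ((∏ b, N b : ℕ) : ℝ) ≤ (Z ^ 3) ^ m := by
      rw [Nat.cast_prod]
      refine (prod_le_prod (fun _ _ => by positivity) fun b _ => ?_).trans (by
        rw [prod_const, card_univ, Fintype.card_fin])
      refine le_trans (Nat.cast_le.2 (N1 b)) ?_
      push_cast
      rw [mul_comm 2 D, pow_mul, hZ, pow_succ' Z 2]
      gcongr
      exact CZ b
    calc _ ≤ ((Z ^ 3) ^ m * ((Z ^ 2 * Z ^ 4) ^ m * Z ^ (5 * m))) ^ (2 * (Λ + 1)) *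
          (Z ^ (7 * k) / Z ^ (k * (56 * (Λ + 1) ^ 2 + 8))) := by gcongr
      _ = Z ^ (k * (56 * (Λ + 1) ^ 2 + 7)) / Z ^ (k * (56 * (Λ + 1) ^ 2 + 8)) := by rw [hm]; ring
      _ < 1 := (div_lt_one (by positivity)).2 (pow_lt_pow_right₀ Z1 (by nlinarith))

end Pool.Agent.Lib.MP_5591bc_ag.W
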