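import Pool.Agent.Lib.MP_5591bc_ag.RAna

/-! Majorants for the matrices `iterK`. -/

namespace Pool.Agent.Lib.MP_5591bc_ag.W

open Polynomial Finset R

noncomputable section

variable {K : Type*} [Field K] (φ : K →+* ℂ)

/-- `p` is dominated by `c (1 + X) ^ n` -/
def GDom (p : K[X]) (c : ℝ) (n : ℕ) : Prop := ∀ i, ‖φ (p.coeff i)‖ ≤ c * n.choose i

variable {φ} {p q : K[X]} {c d : ℝ} {n m : ℕ}

theorem GDom.nonneg (h : GDom φ p c n) : 0 ≤ c := by
  simpa using (norm_nonneg _).trans (h 0)

theorem GDom.mono (h : GDom φ p c n) (hc : c ≤ d) (hn : n ≤ m) : GDom φ p d m := fun i =>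
  (h i).trans (mul_le_mul hc (by exact_mod_cast Nat.choose_le_choose i hn) (by positivity)
    (h.nonneg.trans hc))

theorem GDom.add (h : GDom φ p c n) (k : GDom φ q d n) : GDom φ (p + q) (c + d) n := fun i => by
  rw [coeff_add, map_add, add_mul]
  exact (norm_add_le _ _).trans (add_le_add (h i) (k i))

theorem GDom.sub (h : GDom φ p c n) (k : GDom φ q d n) : GDom φ (p - q) (c + d) n := fun i => by
  rw [coeff_sub, map_sub, add_mul]
  exact (norm_sub_le _ _).trans (add_le_add (h i) (k i))

theorem GDom.mul (h : GDom φ p c n) (k : GDom φ q d m) : GDom φ (p * q) (c * d) (n + m) :=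
  fun i => by
  rw [coeff_mul, map_sum, Nat.add_choose_eq, Nat.cast_sum, mul_sum]
  refine (norm_sum_le _ _).trans (sum_le_sum fun x _ => ?_)
  rw [map_mul, norm_mul, Nat.cast_mul, mul_mul_mul_comm]
  exact mul_le_mul (h _) (k _) (norm_nonneg _) ((norm_nonneg _).trans (h _))

theorem GDom.deriv (h : GDom φ p c n) : GDom φ (derivative p) (c * n) n := fun i => by
  have e : ((n.choose (i + 1) : ℕ) : ℝ) * (i + 1) ≤ n * n.choose i := by
    have := Nat.choose_succ_right_eq n i
    have k : n.choose (i + 1) * (i + 1) ≤ n * n.choose i := by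
      rw [this, mul_comm]; exact Nat.mul_le_mul_right _ (Nat.sub_le _ _)
    exact_mod_cast k
  rw [coeff_derivative, map_mul, norm_mul, map_add, map_natCast, map_one, ← Nat.cast_succ,
    Complex.norm_natCast, Nat.cast_succ, mul_assoc]
  exact (mul_le_mul_of_nonneg_right (h _) (by positivity)).trans
    (by rw [mul_assoc]; exact mul_le_mul_of_nonneg_left e h.nonneg)

theorem gdom_nat (k : ℕ) : GDom φ (k : K[X]) k 0 := fun i => by
  rw [← C_eq_natCast, coeff_C]
  split_ifs with h
  · simp [h]
  · simp only [map_zero, norm_zero]; positivity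

theorem GDom.sum {ι : Type*} (s : Finset ι) {f : ι → K[X]}
    (h : ∀ i ∈ s, GDom φ (f i) c n) : GDom φ (∑ i ∈ s, f i) (s.card * c) n := fun i => by
  rw [finsetSum_coeff, map_sum, mul_assoc, ← nsmul_eq_mul]
  exact (norm_sum_le _ _).trans (sum_le_card_nsmul _ _ _ fun j hj => h j hj i)

theorem GDom.eval (h : GDom φ p c n) (x : K) : ‖φ (p.eval x)‖ ≤ c * (‖φ x‖ + 1) ^ n := by
  have hd : p.natDegree < n + 1 := Nat.lt_succ_of_le (natDegree_le_iff_coeff_eq_zero.2
    fun i hi => by
      have := h i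
      rw [Nat.choose_eq_zero_of_lt hi, Nat.cast_zero, mul_zero] at this
      exact φ.injective ((norm_le_zero_iff.1 this).trans (map_zero φ).symm))
  rw [eval_eq_sum_range' hd, map_sum, add_pow, mul_sum]
  refine (norm_sum_le _ _).trans (sum_le_sum fun i _ => ?_)
  rw [map_mul, map_pow, norm_mul, norm_pow, one_pow, mul_one, mul_comm (_ ^ i), ← mul_assoc]
  exact mul_le_mul_of_nonneg_right (h i) (by positivity)

theorem gdom_of (hn : p.natDegree ≤ n) (h : ∀ i, ‖φ (p.coeff i)‖ ≤ c) : GDom φ p c n := fun i => by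
  have c0 : 0 ≤ c := (norm_nonneg _).trans (h 0)
  by_cases k : i ≤ n
  · exact (h i).trans (le_mul_of_one_le_right c0 (by exact_mod_cast Nat.choose_pos k))
  · rw [coeff_eq_zero_of_natDegree_lt (by omega), map_zero, norm_zero]; positivity

variable {ν : Type*} [Fintype ν] [DecidableEq ν] {T : K[X]} {B : Matrix ν ν K[X]} {g : ℕ}

theorem gdom_iter (hT : GDom φ T c g) (hB : ∀ i j, GDom φ (B i j) c g) (k : ℕ) (i j : ν) :
    GDom φ (iterK T B k i j) ((c * (2 * g + Fintype.card ν)) ^ k * k.factorial) (k * g) := by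
  have c0 := hT.nonneg
  induction k generalizing j with
  | zero =>
    simp only [iterK, Matrix.one_apply]
    split_ifs
    · simpa using gdom_nat (φ := φ) 1
    · exact fun l => by simp only [coeff_zero, map_zero, norm_zero]; positivity
  | succ k ih =>
    have a0 := (ih j).nonneg
    have h1 := (hT.mul (ih j).deriv).mono le_rfl (le_of_eq (by ring) : _ ≤ (k + 1) * g)
    have h2 := (((gdom_nat (φ := φ) k).mul hT.deriv).mul (ih j)).mono le_rfl
      (le_of_eq (by ring) : _ ≤ (k + 1) * g)
    have h3 := GDom.sum univ fun l _ =>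
      ((ih l).mul (hB l j)).mono le_rfl (le_of_eq (by ring) : _ ≤ (k + 1) * g)
    refine ((h1.sub h2).add h3).mono ?_ le_rfl
    rw [pow_succ, Nat.factorial_succ, card_univ]
    push_cast
    have e : ∀ A F : ℝ, 0 ≤ A * F → c * (A * F * (k * g)) + k * (c * g) * (A * F) +
        Fintype.card ν * (A * F * c) ≤ A * (c * (2 * g + Fintype.card ν)) * ((k + 1) * F) := by
      intro A F h
      have : 0 ≤ A * F * c * (2 * g + k * Fintype.card ν) := by positivity
      nlinarith
    exact e _ _ a0

end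

end Pool.Agent.Lib.MP_5591bc_ag.W
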