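import Pool.Agent.Lib.MP_5591bc_ag.W.GF0
import Pool.Agent.Lib.MP_5591bc_ag.W.Map

/-! Systems defined over a number field. -/

namespace Pool.Agent.Lib.MP_5591bc_ag.W

open Matrix Filter Topology PowerSeries G R H Metric NumberField

noncomputable section

variable {K0 : Type} [Field K0] {ν : Type*} [Fintype ν] [DecidableEq ν]

/-- a polynomial over an extension -/
abbrev TE (K : Type*) [Field K] [Algebra K0 K] (T : Polynomial K0) : Polynomial K :=
  T.map (algebraMap K0 K)

/-- a matrix of polynomials over an extension -/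
abbrev BE (K : Type*) [Field K] [Algebra K0 K] {ν : Type*} (B : Matrix ν ν (Polynomial K0)) :
    Matrix ν ν (Polynomial K) :=
  B.map (Polynomial.map (algebraMap K0 K))

section

variable {K L : Type*} [Field K] [Field L] [Algebra K0 K] [Algebra K0 L]

theorem eval_TE (T : Polynomial K0) (φ : K →ₐ[K0] L) (x : K) :
    (TE L T).eval (φ x) = φ ((TE K T).eval x) := by
  rw [Polynomial.eval_map_algebraMap, Polynomial.eval_map_algebraMap]
  exact Polynomial.aeval_algHom_apply φ x T

theorem GbK_mapE (T : Polynomial K0) (B : Matrix ν ν (Polynomial K0)) (φ : K →ₐ[K0] L) (x : K) :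
    GbK (TE L T) (BE L B) (φ x) =
      (GbK (TE K T) (BE K B) x).map (PowerSeries.map (φ : K →+* L)) := by
  ext i j k
  simp only [GbK, map_apply, of_apply, coeff_map, coeff_mk, gf_iter_map, eval_TE, map_div₀, map_mul,
    map_pow, map_natCast, RingHom.coe_coe]

theorem Lser_mapE (T : Polynomial K0) (B : Matrix ν ν (Polynomial K0)) (φ : K →ₐ[K0] L) (δ : ℕ)
    (x : K) (F : Mo δ ν → K) (μ : Mo δ ν) :
    Lser (TE L T) (BE L B) δ (φ x) (fun η => φ (F η)) μ =
      PowerSeries.map (φ : K →+* L) (Lser (TE K T) (BE K B) δ x F μ) := by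
  simp only [Lser, GbK_mapE, ← gf_adj_map, vecMul, dotProduct, map_apply, map_sum, map_mul, map_C,
    RingHom.coe_coe]

variable [Algebra K0 ℂ] [Algebra K ℂ] [IsScalarTower K0 K ℂ]

theorem aeval_TE (T : Polynomial K0) (x : K) :
    algebraMap K ℂ ((TE K T).eval x) = Polynomial.aeval (algebraMap K ℂ x) T := by
  rw [Polynomial.eval_map_algebraMap, Polynomial.aeval_algebraMap_apply]

variable (K) in
theorem Fd_TE {T : Polynomial K0} {B : Matrix ν ν (Polynomial K0)} {U : Set ℂ}
    {P : ℂ → Matrix ν ν ℂ} (h : Fd T B U P) : Fd (TE K T) (BE K B) U P := by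
  have e' : AzK (TE K T) (BE K B) = AzK T B := by
    ext t i j
    simp only [AzK, of_apply, map_apply, Polynomial.aeval_map_algebraMap]
  intro t ht
  rw [Polynomial.aeval_map_algebraMap, e']
  exact h t ht

end

end

end Pool.Agent.Lib.MP_5591bc_ag.W
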