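import Pool.Agent.Lib.MP_5591bc_ag.W.Set
import Pool.Agent.Lib.MP_5591bc_ag.V.Bridge
import Pool.Agent.Lib.MP_5591bc_ag.V.Orb

/-! Unipotent local monodromy gives irreducible fibres. -/

namespace Pool.Agent.Lib.MP_5591bc_ag.W

open Matrix Filter Topology PowerSeries G R H Metric NumberField

noncomputable section

theorem irr_to {σ : Type*} (H : MvPolynomial (Option σ) ℂ) : ∃ q : MvPolynomial σ (Polynomial ℂ),
    ∀ (t : ℂ) (z : σ → ℂ), MvPolynomial.eval₂ (Polynomial.evalRingHom t) z q =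
      MvPolynomial.aeval (fun o => o.elim t z) H := by
  induction H using MvPolynomial.induction_on with
  | C a => exact ⟨MvPolynomial.C (Polynomial.C a), by simp⟩
  | add p q hp hq =>
    obtain ⟨p, hp⟩ := hp
    obtain ⟨q, hq⟩ := hq
    exact ⟨p + q, fun t z => by rw [MvPolynomial.eval₂_add, map_add, hp, hq]⟩
  | mul_X p o hp =>
    obtain ⟨p, hp⟩ := hp
    refine ⟨p * o.elim (MvPolynomial.C Polynomial.X) MvPolynomial.X, fun t z => ?_⟩
    rw [MvPolynomial.eval₂_mul, map_mul, hp]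
    cases o <;> simp

theorem irr_from {σ : Type*} (q : MvPolynomial σ (Polynomial ℂ)) :
    ∃ H : MvPolynomial (Option σ) ℂ, ∀ (t : ℂ) (z : σ → ℂ),
      MvPolynomial.eval₂ (Polynomial.evalRingHom t) z q =
        MvPolynomial.aeval (fun o => o.elim t z) H := by
  induction q using MvPolynomial.induction_on with
  | C a =>
    refine ⟨Polynomial.aeval (MvPolynomial.X none) a, fun t z => ?_⟩
    rw [← Polynomial.aeval_algHom_apply]
    simp
  | add p q hp hq =>
    obtain ⟨p, hp⟩ := hp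
    obtain ⟨q, hq⟩ := hq
    exact ⟨p + q, fun t z => by rw [MvPolynomial.eval₂_add, map_add, hp, hq]⟩
  | mul_X p a hp =>
    obtain ⟨p, hp⟩ := hp
    exact ⟨p * MvPolynomial.X (some a), fun t z => by
      rw [MvPolynomial.eval₂_mul, map_mul, hp]; simp⟩

theorem irr_ev {σ : Type*} (H : MvPolynomial (Option σ) ℂ) (s : ℂ) (z : σ → ℂ) :
    MvPolynomial.eval z (MvPolynomial.aeval
      (fun o : Option σ => o.elim (MvPolynomial.C s) MvPolynomial.X) H : MvPolynomial σ ℂ) =
      MvPolynomial.aeval (fun o => o.elim s z) H := by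
  induction H using MvPolynomial.induction_on with
  | C a => simp
  | add p q hp hq => simp only [map_add, hp, hq]
  | mul_X p o hp => simp only [map_mul, hp]; cases o <;> simp

/-- the fibre is the vanishing ideal of the Galois group -/
theorem irr_iff {ν : Type*} [Fintype ν] [DecidableEq ν] {Y : ℂ → Matrix ν ν ℂ} {s : ℂ}
    (an : ∀ i j, AnalyticAt ℂ (Y · i j) s) {Γ : Set (Matrix ν ν ℂ)}
    (hΓ : V.Orb s (of fun i j => tay (Y · i j) s) Γ) (Q : MvPolynomial (ν × ν) ℂ) :
    InFib Y s Q ↔ ∀ γ ∈ Γ, MvPolynomial.eval (ent γ) Q = 0 := by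
  constructor
  · rintro ⟨H, h1, rfl⟩ γ hγ
    obtain ⟨q, hq⟩ := irr_to H
    rw [irr_ev, ← hq]
    refine hΓ.spec q ?_ γ hγ
    rw [← (V.brg_val an q).2, tay_congr (h := fun _ => 0), tay_const, map_zero]
    exact h1.mono fun t ht => (hq t _).trans ht
  · intro h
    obtain ⟨κ, hκ⟩ := V.rep (p := Q) le_rfl
    have e : ∀ Z : Matrix ν ν ℂ, MvPolynomial.eval (ent Z) Q = κ ⬝ᵥ V.vk _ Z := fun Z =>
      (congrArg _ hκ).trans (V.rep_eval κ (RingHom.id ℂ) Z)
    obtain ⟨l, l1, l2⟩ := hΓ.lift1 _ κ fun γ hγ => by rw [← e, h γ hγ]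
    obtain ⟨H, hH⟩ := irr_from ((fun μ => MvPolynomial.C (l μ)) ⬝ᵥ
      V.vk _ (of fun i j => MvPolynomial.X (i, j)))
    refine ⟨H, (eventually_zero_of_tay (V.brg_val an _).1 ((V.brg_val an _).2.trans
      ((V.rep_eval l (V.τc s) _).trans l2))).mono fun t ht => (hH t _).symm.trans ht,
      MvPolynomial.funext fun z => ?_⟩
    rw [irr_ev, ← hH]
    refine (V.rep_eval l (Polynomial.evalRingHom s) (of fun i j => z (i, j))).trans
      (Eq.trans ?_ (e (of fun i j => z (i, j))).symm)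
    simp only [Polynomial.coe_evalRingHom, l1]

theorem irr_of_uni {K ν : Type*} [Field K] [Algebra K ℂ] [Fintype ν] [DecidableEq ν]
    {T : Polynomial K} {B : Matrix ν ν (Polynomial K)}
    (h : ∀ a : ℂ, Polynomial.aeval a T = 0 → Polynomial.aeval a T.derivative ≠ 0 ∧
      IsNilpotent (B.map (Polynomial.aeval a))) {U : Set ℂ} (ho : IsOpen U)
    {Y : ℂ → Matrix ν ν ℂ} (hY : Fd T B U Y) {s : ℂ} (hs : s ∈ U) (h1 : Y s = 1) :
    Irr Y s := by
  have hn := ho.mem_nhds hs
  have an : ∀ i j, AnalyticAt ℂ (Y · i j) s := fun i j => analyticAt_of_eventually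
    (mem_of_superset hn fun t ht => ((hY t ht).2.2 i j).differentiableAt)
  have e : ∀ (q : Polynomial K) (a : ℂ), (q.map (algebraMap K ℂ)).eval a = Polynomial.aeval a q :=
    fun q a => Polynomial.eval_map_algebraMap q a
  have ap : ∀ p : Polynomial ℂ, AnalyticAt ℂ (fun t => p.eval t) s := fun p =>
    p.differentiable.analyticAt s
  have hT : (T.map (algebraMap K ℂ)).eval s ≠ 0 := by rw [e]; exact (hY s hs).1
  have ode : V.τc s (T.map (algebraMap K ℂ)) • (of fun i j => tay (Y · i j) s).map (d⁄dX ℂ) =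
      (B.map (Polynomial.map (algebraMap K ℂ))).map (V.τc s) * of fun i j => tay (Y · i j) s := by
    ext1 i j
    simp only [Matrix.smul_apply, map_apply, of_apply, smul_eq_mul, mul_apply, ← V.tay_eval,
      ← tay_deriv, ← tay_mul (ap _) (an _ _), ← tay_mul (ap _) (an _ _).deriv]
    rw [← tay_sum _ fun k _ => (ap _).fun_mul (an _ _)]
    refine tay_congr ?_
    filter_upwards [hn] with t ht
    rw [((hY t ht).2.2 i j).deriv, mul_apply, Finset.mul_sum]
    refine Finset.sum_congr rfl fun k _ => ?_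
    rw [e, e, AzK, of_apply, ← mul_assoc, mul_div_cancel₀ _ (hY t ht).1]
  obtain ⟨Γ, hΓ⟩ := V.exists_orb hT (by ext; simp [h1]) ode (V.uni (fun a ha => by
    rw [e] at ha
    rw [Polynomial.derivative_map, e, Matrix.map_map]
    exact ⟨(h a ha).1, (show _ ∘ _ = _ from funext fun q => e q a) ▸ (h a ha).2⟩) hT ode)
  intro Q Q' hQ
  simp only [irr_iff an hΓ] at hQ ⊢
  by_contra k
  push Not at k
  obtain ⟨γ, hγ, g1, g2⟩ := hΓ.irr Q Q' k.1 k.2
  exact mul_ne_zero g1 g2 (by rw [← map_mul, hQ γ hγ])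

end

end Pool.Agent.Lib.MP_5591bc_ag.W
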