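import Pool.Agent.Lib.MP_5591bc_ag.W.Gap
import Pool.Agent.Lib.MP_5591bc_ag.W.Good
import Pool.Agent.Lib.MP_5591bc_ag.W.IrrC
import Pool.Agent.Lib.MP_5591bc_ag.W.CovB
import Pool.Agent.Lib.MP_5591bc_ag.W.CovC

/-! The number of exceptional points is polynomial in the degree and in the logarithm of the
height. -/

namespace Pool.Agent.Lib.MP_5591bc_ag.W

open Matrix Filter Topology G R H V Metric NumberField Polynomial

noncomputable section

variable {K : Type} [Field K] [NumberField K] [Algebra K ℂ] {n : ℕ} {T : K[X]}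
  {B : Matrix (Fin n) (Fin n) K[X]}

theorem count_nat (T0 : T ≠ 0) (h : GalK T B) (δ : ℕ) : ∃ g : ℕ → ℕ, PB g ∧
    ∀ (U : Set ℂ) (P : ℂ → Matrix (Fin n) (Fin n) ℂ), IsOpen U → Convex ℝ U → FundK T B U P →
      Conn U P → ∀ d L : ℕ, 0 < d → 0 < L → ∀ S : Finset ℂ, (∀ t ∈ S, t ∈ U ∧
        (∃ q : ℤ[X], q ≠ 0 ∧ q.natDegree ≤ d ∧ (∀ i, |(q.coeff i : ℝ)| ≤ 2 ^ L) ∧ aeval t q = 0) ∧
        ∃ (E : IntermediateField K ℂ) (ht : t ∈ E), FiniteDimensional ℚ E ∧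
          Module.finrank ℚ E ≤ d ∧ ¬ GoodM U P δ (⟨t, ht⟩ : E)) → S.card ≤ g (d * L) := by
  classical
  obtain ⟨f, c, hf, hg⟩ := gap h δ
  have hZ : ∀ a : ℂ, a ∈ (T.aroots ℂ).toFinset ↔ aeval a T = 0 := fun a => by
    simp [T0]
  obtain ⟨c', c0, hc⟩ := cov_all (T.aroots ℂ).toFinset fun a ha =>
    IsAlgebraic.restrictScalars ℚ (S := K) ⟨T, T0, (hZ a).1 ha⟩
  obtain ⟨e, he⟩ := hf
  refine ⟨fun x => T.natDegree + c' * (3 * x) * (((2 * c + 3 * c' + 8) * x ^ 2 + 2) ^ e * 515 ^ 2),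
    (PB.const _).add (((PB.const _).mul ((PB.const _).mul PB.id)).mul
      (((((PB.const _).mul (PB.id.pow 2)).add (PB.const _)).pow e).mul (PB.const _))), ?_⟩
  intro U P ho hU hP hC d L d0 L0 S hS
  have x1 : d ≤ d * L := Nat.le_mul_of_pos_right _ L0
  have x2 : L ≤ d * L := Nat.le_mul_of_pos_left _ d0
  have x3 : d * L ≤ (d * L) ^ 2 := Nat.le_self_pow two_ne_zero _
  have x4 : d * d ≤ (d * L) ^ 2 := by rw [sq]; exact Nat.mul_le_mul x1 x1
  have x5 : (L + 1) * d ≤ 2 * (d * L) ^ 2 := by rw [add_mul, mul_comm L, one_mul]; omega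
  have x6 := Nat.mul_le_mul_left c x5
  have x7 := Nat.mul_le_mul_left c' (show d + L + 1 ≤ 3 * (d * L) ^ 2 by omega)
  obtain ⟨Λ, hΛ⟩ : ∃ Λ, Λ = (2 * c + 3 * c' + 8) * (d * L) ^ 2 := ⟨_, rfl⟩
  have eΛ : Λ = c * (2 * (d * L) ^ 2) + c' * (3 * (d * L) ^ 2) + 8 * (d * L) ^ 2 := by
    rw [hΛ]; ring
  have hH := cov_hol hP
  have key := hc id d L (f Λ) (1 / 32) (S.filter fun t => t ∉ (T.aroots ℂ).toFinset)
    (by norm_num) (fun x hx => ⟨(Finset.mem_filter.1 hx).2, (hS x (Finset.mem_filter.1 hx).1).2.1⟩)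
    fun s hs r r1 r2 hr S' hS' hn => ?_
  · have k1 : (S.filter fun t => t ∈ (T.aroots ℂ).toFinset).card ≤ T.natDegree :=
      (Finset.card_le_card fun t ht => (Finset.mem_filter.1 ht).2).trans
        ((Multiset.toFinset_card_le _).trans
          ((card_roots' _).trans (natDegree_map_le (f := algebraMap K ℂ))))
    have k2 : (S.filter fun t => t ∉ (T.aroots ℂ).toFinset).card ≤
        c' * (d + L + 1) * (f Λ * 515 ^ 2) := by
      rw [show (16 / (1 / 32) + 3 : ℝ) = 515 by norm_num] at key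
      exact_mod_cast key
    rw [← Finset.card_filter_add_card_filter_not (fun t => t ∈ (T.aroots ℂ).toFinset)]
    beta_reduce
    rw [← hΛ]
    refine Nat.add_le_add k1 (k2.trans ?_)
    have := he Λ
    gcongr
    omega
  simp only [id] at hr hn
  have r0 : 0 < r := lt_of_lt_of_le (by positivity) r1
  have sS := (Finset.mem_filter.1 hs).1
  have sU := (hS s sS).1
  obtain ⟨Q, hQ, eQ⟩ := cov_disc hU ho hP sU r0 fun a ha => by linarith [hr a ((hZ a).2 ha)]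
  have ev : ∀ x ∈ U, x ∈ ball s r → Q =ᶠ[𝓝 x] P := fun x h1 h2 =>
    eventually_of_mem ((ho.inter isOpen_ball).mem_nhds ⟨h1, h2⟩) eQ
  have cb := (convex_ball s r).isPreconnected
  have hI := irr_of_conn isOpen_ball cb hQ (cov_conn ho hU.isPreconnected isOpen_ball cb hH
    (cov_hol (cov_fund hQ)) sU (mem_ball_self r0) (ev s sU (mem_ball_self r0)) hC)
    (mem_ball_self r0)
  have e2 : 2 * (r / 2) = r := by ring
  refine (Finset.card_le_card (Finset.subset_insert s S')).trans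
    (hg ((L + 1) * d) d Λ s (r / 2) Q (by omega) (by omega) (by omega) ?_ ?_ (by rwa [e2]) hI _
      (Finset.mem_insert_self _ _) fun x hx => ?_)
  · refine le_trans ?_ (div_le_div_of_nonneg_right r1 two_pos.le)
    rw [div_eq_mul_inv, ← mul_inv, ← pow_succ]
    exact inv_anti₀ (by positivity) (pow_le_pow_right₀ one_le_two (by omega))
  · have : (2 : ℝ) ^ L ≤ 2 ^ Λ := pow_le_pow_right₀ one_le_two (by omega)
    rw [pow_succ] at r2
    linarith
  have hx' : x ∈ S ∧ ‖x - s‖ ≤ r / 2 / 16 := by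
    rcases Finset.mem_insert.1 hx with rfl | hx
    · exact ⟨sS, by rw [sub_self, norm_zero]; positivity⟩
    · exact ⟨(Finset.mem_filter.1 (hS' hx)).1, by linarith [hn x hx]⟩
  refine ⟨hx'.2, ?_⟩
  obtain ⟨xU, ⟨q, q0, -, hq, qx⟩, E, hE, hf, hd, hb⟩ := hS x hx'.1
  have xb : x ∈ ball s r := by
    rw [mem_ball, dist_eq_norm]
    linarith [hx'.2]
  have : NumberField E := {}
  have := mt (goodM_of (δ := δ) (x := (⟨x, hE⟩ : E)) ho hU.isPreconnected hH xU) hb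
  push Not at this
  obtain ⟨F, hF, hn⟩ := this
  have qy : aeval (⟨x, hE⟩ : E) q = 0 := (algebraMap E ℂ).injective (by
    rw [map_zero, ← qx]
    exact (aeval_algHom_apply (algebraMap E ℂ).toIntAlgHom _ q).symm)
  refine ⟨E, inferInstance, ⟨x, hE⟩, F, rfl, hd, ⟨2 * 2 ^ L, ?_, Ht_of_poly q0 hq qy, ?_⟩, ?_, ?_⟩
  · linarith [one_le_pow₀ (one_le_two (α := ℝ)) (n := L)]
  · rw [← pow_succ', ← pow_mul]
    exact pow_le_pow_right₀ one_le_two (Nat.mul_le_mul_left _ hd)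
  · rw [show Q (algebraMap E ℂ ⟨x, hE⟩) = P (algebraMap E ℂ ⟨x, hE⟩) from eQ x ⟨xU, xb⟩]
    exact hF
  · rw [e2]
    rintro ⟨k, k1, k2⟩
    refine hn k k1 ?_
    filter_upwards [(ho.inter isOpen_ball).mem_nhds (⟨xU, xb⟩ : x ∈ U ∩ ball s r)] with t ht
    rw [← eQ t ht, not_not]
    exact k2 t ht.2

theorem count (T0 : T ≠ 0) (h : GalK T B) (δ : ℕ) : ∃ (C : ℝ) (e : ℕ),
    ∀ (U : Set ℂ) (P : ℂ → Matrix (Fin n) (Fin n) ℂ), IsOpen U → Convex ℝ U → FundK T B U P →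
      Conn U P → ∀ (d : ℕ) (H : ℝ), 2 ≤ H → ∀ S : Set ℂ, S = {t ∈ U |
        (∃ q : ℤ[X], q ≠ 0 ∧ q.natDegree ≤ d ∧ (∀ i, |(q.coeff i : ℝ)| ≤ H) ∧ aeval t q = 0) ∧
        ∃ (E : IntermediateField K ℂ) (ht : t ∈ E), FiniteDimensional ℚ E ∧
          Module.finrank ℚ E ≤ d ∧ ¬ GoodM U P δ (⟨t, ht⟩ : E)} →
        S.Finite ∧ (S.ncard : ℝ) ≤ C * (d * Real.log H) ^ e := by
  obtain ⟨g, ⟨e, he⟩, hg⟩ := count_nat T0 h δ
  refine ⟨12 ^ e, e, fun U P ho hU hP hC d H H2 S hS => ?_⟩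
  have l2 : Real.log 2 ≤ Real.log H := Real.log_le_log two_pos H2
  have l0 := Real.log_two_gt_d9
  rcases Nat.eq_zero_or_pos d with rfl | d0
  · have : S = ∅ := by
      rw [hS]
      refine Set.eq_empty_of_forall_notMem fun t ⟨_, _, E, _, _, hd, _⟩ => ?_
      exact absurd Module.finrank_pos (not_lt.2 hd)
    rw [this, Set.ncard_empty]
    exact ⟨Set.finite_empty, by simp [zero_pow_eq, ite_nonneg]⟩
  obtain ⟨L, L0, L1, L2⟩ : ∃ L : ℕ, 0 < L ∧ H ≤ 2 ^ L ∧ (L : ℝ) ≤ 4 * Real.log H := by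
    refine ⟨⌈2 * Real.log H⌉₊, Nat.ceil_pos.2 (by linarith), ?_, ?_⟩
    · rw [← Real.log_le_log_iff (by linarith) (by positivity), Real.log_pow]
      nlinarith [Nat.le_ceil (2 * Real.log H)]
    · linarith [Nat.ceil_lt_add_one (show 0 ≤ 2 * Real.log H by linarith)]
  have k : ∀ S' : Finset ℂ, (S' : Set ℂ) ⊆ S → S'.card ≤ g (d * L) := fun S' e =>
    hg U P ho hU hP hC d L d0 L0 S' fun t ht => by
      obtain ⟨a, ⟨q, q0, q1, q2, q3⟩, b⟩ := hS ▸ e ht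
      exact ⟨a, ⟨q, q0, q1, fun i => (q2 i).trans L1, q3⟩, b⟩
  have fin : S.Finite := by
    by_contra hi
    obtain ⟨S', a, b⟩ := Set.Infinite.exists_subset_card_eq hi (g (d * L) + 1)
    have := k S' a
    omega
  refine ⟨fin, ?_⟩
  have x0 : 0 < d * L := Nat.mul_pos d0 L0
  have k1 : S.ncard ≤ (3 * (d * L)) ^ e := by
    rw [Set.ncard_eq_toFinset_card S fin]
    exact ((k _ (by simp)).trans (he _)).trans (Nat.pow_le_pow_left (by omega) _)
  rw [← mul_pow]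
  refine (Nat.cast_le.2 k1).trans ?_
  push_cast
  refine pow_le_pow_left₀ (by positivity) ?_ e
  nlinarith [mul_le_mul_of_nonneg_left L2 (Nat.cast_nonneg (α := ℝ) d)]

end

end Pool.Agent.Lib.MP_5591bc_ag.W
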