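import Pool.Agent.Lib.MP_5591bc_ag.W.Main
import Pool.Agent.Lib.MP_5591bc_ag.V.NearFam

/-! The count for the family `y^2 = f(x)(x - t)`. -/

namespace Pool.Agent.Lib.MP_5591bc_ag.W

open G R V Polynomial

theorem count_fam {f : ℚ[X]} {n : ℕ} (hn : 0 < n) (hf : f.natDegree = n) (hq : Squarefree f)
    (δ : ℕ) : ∃ (C : ℝ) (e : ℕ),
    ∀ (U : Set ℂ) (P : ℂ → Matrix (Fin n) (Fin n) ℂ), IsOpen U → Convex ℝ U →
      IsPeriodMatrix f U P → ∀ (d : ℕ) (H : ℝ), 2 ≤ H → ∀ S : Set ℂ, S = {t ∈ U |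
        (∃ q : ℤ[X], q ≠ 0 ∧ q.natDegree ≤ d ∧ (∀ i, |(q.coeff i : ℝ)| ≤ H) ∧ aeval t q = 0) ∧
        ∃ (E : IntermediateField ℚ ℂ) (ht : t ∈ E), FiniteDimensional ℚ E ∧
          Module.finrank ℚ E ≤ d ∧ ¬ GoodM U P δ (⟨t, ht⟩ : E)} →
        S.Finite ∧ (S.ncard : ℝ) ≤ C * (d * Real.log H) ^ e := by
  obtain ⟨C, e, h⟩ := count (mul_ne_zero two_ne_zero hq.ne_zero) (galK_oB hn hf) δ
  exact ⟨C, e, fun U P ho hU hP =>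
    h U P ho hU (fund_oB hn hf ho hP) (conn_fam hn hf hq ho hU.isPreconnected hP)⟩

end Pool.Agent.Lib.MP_5591bc_ag.W
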